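import Mathlib

set_option autoImplicit false

namespace Pool.Agent.Helper575.FF

open MeasureTheory
open scoped ENNReal

theorem two_point {u v c d : ℝ≥0∞} (hu : u ≤ c) (hv : v ≤ c) (huv : u * v ≤ c * d) :
    u + v ≤ c + d := by
  rcases eq_or_ne c ∞ with rfl | hc
  · simp
  rcases eq_or_ne c 0 with rfl | hc0
  · simp_all
  rcases eq_or_ne d ∞ with rfl | hd
  · simp
  have hu' : u ≠ ∞ := ne_top_of_le_ne_top hc hu
  have hv' : v ≠ ∞ := ne_top_of_le_ne_top hc hv
  lift c to NNReal using hc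
  lift d to NNReal using hd
  lift u to NNReal using hu'
  lift v to NNReal using hv'
  norm_cast at *
  have hc0' : 0 < (c : ℝ) := by
    have : 0 < c := pos_iff_ne_zero.2 hc0
    exact_mod_cast this
  have h1 : (u : ℝ) ≤ c := by exact_mod_cast hu
  have h2 : (v : ℝ) ≤ c := by exact_mod_cast hv
  have h3 : (u : ℝ) * v ≤ c * d := by exact_mod_cast huv
  have h4 : (u : ℝ) + v ≤ c + d := by
    by_contra hcon
    push Not at hcon
    have : (c : ℝ) * (c + d) < c * (u + v) := mul_lt_mul_of_pos_left hcon hc0'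
    nlinarith [mul_nonneg (sub_nonneg.2 h1) (sub_nonneg.2 h2)]
  exact_mod_cast h4

/-- one-dimensional four functions inequality -/
theorem ff_one (μ : Measure ℝ) [SFinite μ] (F1 F2 F3 F4 : ℝ → ℝ≥0∞)
    (h1 : Measurable F1) (h2 : Measurable F2) (h3 : Measurable F3) (h4 : Measurable F4)
    (h : ∀ a b, F1 a * F2 b ≤ F3 (a ⊔ b) * F4 (a ⊓ b)) :
    (∫⁻ a, F1 a ∂μ) * (∫⁻ a, F2 a ∂μ) ≤ (∫⁻ a, F3 a ∂μ) * (∫⁻ a, F4 a ∂μ) := by
  have key : ∀ a b, F1 a * F2 b + F1 b * F2 a ≤ F3 a * F4 b + F3 b * F4 a := by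
    have aux : ∀ a b, a ≤ b → F1 a * F2 b + F1 b * F2 a ≤ F3 b * F4 a + F3 a * F4 b := by
      intro a b hab
      refine two_point ?_ ?_ ?_
      · have := h a b
        rwa [sup_eq_right.2 hab, inf_eq_left.2 hab] at this
      · have := h b a
        rwa [sup_eq_left.2 hab, inf_eq_right.2 hab] at this
      · have e1 := h a a
        have e2 := h b b
        rw [sup_idem, inf_idem] at e1 e2
        calc F1 a * F2 b * (F1 b * F2 a) = (F1 a * F2 a) * (F1 b * F2 b) := by ring
          _ ≤ (F3 a * F4 a) * (F3 b * F4 b) := mul_le_mul' e1 e2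
          _ = F3 b * F4 a * (F3 a * F4 b) := by ring
    intro a b
    rcases le_total a b with hab | hab
    · rw [add_comm (F3 a * F4 b)]
      exact aux a b hab
    · rw [add_comm (F1 a * F2 b)]
      exact aux b a hab
  have prod_eq : ∀ (A B : ℝ → ℝ≥0∞), Measurable A → Measurable B →
      ∫⁻ a, ∫⁻ b, (A a * B b + A b * B a) ∂μ ∂μ = 2 * ((∫⁻ a, A a ∂μ) * (∫⁻ a, B a ∂μ)) := by
    intro A B hA hB
    have e1 : ∀ a, ∫⁻ b, (A a * B b + A b * B a) ∂μ =
        A a * (∫⁻ b, B b ∂μ) + (∫⁻ b, A b ∂μ) * B a := by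
      intro a
      rw [lintegral_add_left (hB.const_mul _), lintegral_const_mul _ hB, lintegral_mul_const _ hA]
    simp_rw [e1]
    rw [lintegral_add_left (hA.mul_const _), lintegral_mul_const _ hA, lintegral_const_mul _ hB]
    ring
  have h5 : ∫⁻ a, ∫⁻ b, (F1 a * F2 b + F1 b * F2 a) ∂μ ∂μ ≤
      ∫⁻ a, ∫⁻ b, (F3 a * F4 b + F3 b * F4 a) ∂μ ∂μ :=
    lintegral_mono fun a => lintegral_mono fun b => key a b
  rw [prod_eq F1 F2 h1 h2, prod_eq F3 F4 h3 h4] at h5
  exact (ENNReal.mul_le_mul_iff_right (by norm_num) (by norm_num)).1 h5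

/-- The continuous four functions theorem on `ℝ^n`. -/
theorem ff (n : ℕ) : ∀ (f1 f2 f3 f4 : (Fin n → ℝ) → ℝ≥0∞),
    Measurable f1 → Measurable f2 → Measurable f3 → Measurable f4 →
    (∀ x y, f1 x * f2 y ≤ f3 (x ⊔ y) * f4 (x ⊓ y)) →
    (∫⁻ x, f1 x) * (∫⁻ x, f2 x) ≤ (∫⁻ x, f3 x) * (∫⁻ x, f4 x) := by
  induction n with
  | zero =>
    intro f1 f2 f3 f4 h1 h2 h3 h4 h
    have hv : (volume : Measure (Fin 0 → ℝ)) Set.univ = 1 := by
      rw [volume_pi, Measure.pi_of_empty]
      simp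
    rw [lintegral_unique, lintegral_unique, lintegral_unique, lintegral_unique, hv]
    simp only [mul_one]
    have key : ∀ z w : Fin 0 → ℝ, f1 z * f2 z ≤ f3 w * f4 w := by
      intro z w
      rw [Subsingleton.elim w z]
      have := h z z
      rwa [sup_idem, inf_idem] at this
    exact key _ _
  | succ n ih =>
    intro f1 f2 f3 f4 h1 h2 h3 h4 h
    have hcons : ∀ p : ℝ × (Fin n → ℝ),
        (MeasurableEquiv.piFinSuccAbove (fun _ : Fin (n + 1) => ℝ) 0).symm p =
          (Fin.cons p.1 p.2 : Fin (n + 1) → ℝ) := by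
      intro p
      ext i
      refine Fin.cases ?_ (fun j => ?_) i
      · simp [MeasurableEquiv.piFinSuccAbove_symm_apply, Fin.insertNthEquiv]
      · simp [MeasurableEquiv.piFinSuccAbove_symm_apply, Fin.insertNthEquiv]
    have meas : ∀ f : (Fin (n + 1) → ℝ) → ℝ≥0∞, Measurable f →
        Measurable (fun p : ℝ × (Fin n → ℝ) => f (Fin.cons p.1 p.2)) := by
      intro f hf
      have hmp := (volume_preserving_piFinSuccAbove (fun _ : Fin (n + 1) => ℝ) 0).symm
      have := hf.comp hmp.measurable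
      have e : (f ∘ ⇑(MeasurableEquiv.piFinSuccAbove (fun _ : Fin (n + 1) => ℝ) 0).symm) =
          fun p : ℝ × (Fin n → ℝ) => f (Fin.cons p.1 p.2) := by
        ext p
        rw [Function.comp_apply, hcons p]
      rwa [e] at this
    have split : ∀ f : (Fin (n + 1) → ℝ) → ℝ≥0∞, Measurable f →
        ∫⁻ x, f x = ∫⁻ a : ℝ, ∫⁻ z : Fin n → ℝ, f (Fin.cons a z) := by
      intro f hf
      have hmp := (volume_preserving_piFinSuccAbove (fun _ : Fin (n + 1) => ℝ) 0).symm
      rw [← hmp.lintegral_comp hf, Measure.volume_eq_prod]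
      simp_rw [hcons]
      rw [lintegral_prod _ (meas f hf).aemeasurable]
    rw [split f1 h1, split f2 h2, split f3 h3, split f4 h4]
    refine ff_one volume _ _ _ _ (meas f1 h1).lintegral_prod_right' (meas f2 h2).lintegral_prod_right'
      (meas f3 h3).lintegral_prod_right' (meas f4 h4).lintegral_prod_right' ?_
    intro a b
    refine ih _ _ _ _ ((meas f1 h1).comp measurable_prodMk_left)
      ((meas f2 h2).comp measurable_prodMk_left) ((meas f3 h3).comp measurable_prodMk_left)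
      ((meas f4 h4).comp measurable_prodMk_left) ?_
    intro x y
    have := h (Fin.cons a x) (Fin.cons b y)
    convert this using 2
    · congr 1
      ext i
      refine Fin.cases ?_ (fun j => ?_) i <;> simp
    · congr 1
      ext i
      refine Fin.cases ?_ (fun j => ?_) i <;> simp

end Pool.Agent.Helper575.FF
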