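import Pool.Agent.Helper575.FF

set_option autoImplicit false

namespace Pool.Agent.Helper575.FKG

open MeasureTheory Finset
open scoped ENNReal

variable {n : ℕ}

/-- squared Vandermonde product -/
noncomputable def V (x : Fin n → ℝ) : ℝ := ∏ i, ∏ j ∈ Ioi i, (x j - x i) ^ 2

theorem V_eq (x : Fin n → ℝ) : V x = (Matrix.vandermonde x).det ^ 2 := by
  rw [Matrix.det_vandermonde, V, ← Finset.prod_pow]
  refine Finset.prod_congr rfl fun i _ => ?_
  rw [← Finset.prod_pow]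

theorem V_nonneg (x : Fin n → ℝ) : 0 ≤ V x := by rw [V_eq]; positivity

theorem V_perm (x : Fin n → ℝ) (σ : Equiv.Perm (Fin n)) : V (x ∘ σ) = V x := by
  rw [V_eq, V_eq]
  have : Matrix.vandermonde (x ∘ σ) = (Matrix.vandermonde x).submatrix σ id := by
    ext i j; simp [Matrix.vandermonde]
  rw [this, Matrix.det_permute, mul_pow]
  have h : ((Equiv.Perm.sign σ : ℤ) : ℝ) ^ 2 = 1 := by
    rcases Int.units_eq_one_or (Equiv.Perm.sign σ) with h | h <;> rw [h] <;> norm_num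
  rw [h, one_mul]

theorem V_zero {x : Fin n → ℝ} (hx : ¬ Function.Injective x) : V x = 0 := by
  rw [V_eq, Matrix.det_vandermonde_ne_zero_iff.not_right.2 hx]
  norm_num

theorem V_measurable : Measurable (V : (Fin n → ℝ) → ℝ) := by
  unfold V
  refine Finset.measurable_prod _ fun i _ => Finset.measurable_prod _ fun j _ => ?_
  exact ((measurable_pi_apply j).sub (measurable_pi_apply i)).pow_const 2

theorem pair_ineq {a b c d : ℝ} (h1 : a ≤ b) (h2 : c ≤ d) :
    (b - a) ^ 2 * (d - c) ^ 2 ≤ ((b ⊔ d) - (a ⊔ c)) ^ 2 * ((b ⊓ d) - (a ⊓ c)) ^ 2 := by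
  rw [← mul_pow, ← mul_pow]
  refine pow_le_pow_left₀ (mul_nonneg (sub_nonneg.2 h1) (sub_nonneg.2 h2)) ?_ 2
  rcases le_total a c with hac | hac <;> rcases le_total b d with hbd | hbd
  · rw [sup_eq_right.2 hac, sup_eq_right.2 hbd, inf_eq_left.2 hac, inf_eq_left.2 hbd, mul_comm]
  · rw [sup_eq_right.2 hac, sup_eq_left.2 hbd, inf_eq_left.2 hac, inf_eq_right.2 hbd]
    nlinarith [mul_nonneg (sub_nonneg.2 hac) (sub_nonneg.2 hbd)]
  · rw [sup_eq_left.2 hac, sup_eq_right.2 hbd, inf_eq_right.2 hac, inf_eq_left.2 hbd]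
    nlinarith [mul_nonneg (sub_nonneg.2 hac) (sub_nonneg.2 hbd)]
  · rw [sup_eq_left.2 hac, sup_eq_left.2 hbd, inf_eq_right.2 hac, inf_eq_right.2 hbd]

theorem V_sup_inf {x y : Fin n → ℝ} (hx : Monotone x) (hy : Monotone y) :
    V x * V y ≤ V (x ⊔ y) * V (x ⊓ y) := by
  unfold V
  rw [← Finset.prod_mul_distrib, ← Finset.prod_mul_distrib]
  refine Finset.prod_le_prod (fun i _ => mul_nonneg
    (Finset.prod_nonneg fun j _ => sq_nonneg _) (Finset.prod_nonneg fun j _ => sq_nonneg _))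
    fun i _ => ?_
  rw [← Finset.prod_mul_distrib, ← Finset.prod_mul_distrib]
  refine Finset.prod_le_prod (fun j _ => mul_nonneg (sq_nonneg _) (sq_nonneg _)) fun j hj => ?_
  have hij : i ≤ j := (Finset.mem_Ioi.1 hj).le
  exact pair_ineq (hx hij) (hy hij)

theorem prod_sup_inf (ρ : ℝ → ℝ) (x y : Fin n → ℝ) :
    (∏ i, ρ (x i)) * (∏ i, ρ (y i)) = (∏ i, ρ ((x ⊔ y) i)) * ∏ i, ρ ((x ⊓ y) i) := by
  rw [← Finset.prod_mul_distrib, ← Finset.prod_mul_distrib]
  refine Finset.prod_congr rfl fun i _ => ?_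
  simp only [Pi.sup_apply, Pi.inf_apply]
  rcases le_total (x i) (y i) with h | h
  · rw [sup_eq_right.2 h, inf_eq_left.2 h, mul_comm]
  · rw [sup_eq_left.2 h, inf_eq_right.2 h]

theorem measurableSet_monotone : MeasurableSet {x : Fin n → ℝ | Monotone x} := by
  have : {x : Fin n → ℝ | Monotone x} = ⋂ (i : Fin n), ⋂ (j : Fin n), ⋂ (_ : i ≤ j),
      {x : Fin n → ℝ | x i ≤ x j} := by
    ext x
    simp only [Set.mem_ofPred_eq, Set.mem_iInter]
    exact ⟨fun h i j hij => h hij, fun h i j hij => h i j hij⟩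
  rw [this]
  refine MeasurableSet.iInter fun i => MeasurableSet.iInter fun j => MeasurableSet.iInter fun _ => ?_
  exact measurableSet_le (measurable_pi_apply i) (measurable_pi_apply j)

/-- Symmetrisation. -/
theorem symm_lintegral (φ : (Fin n → ℝ) → ℝ≥0∞) (hφ : Measurable φ)
    (hsym : ∀ (σ : Equiv.Perm (Fin n)) x, φ (x ∘ σ) = φ x)
    (hinj : ∀ x, ¬ Function.Injective x → φ x = 0) :
    ∫⁻ x, φ x = (n.factorial : ℝ≥0∞) * ∫⁻ x, {x : Fin n → ℝ | Monotone x}.indicator φ x := by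
  classical
  have h1 : ∀ x, φ x = ∑ σ : Equiv.Perm (Fin n),
      {x : Fin n → ℝ | Monotone x}.indicator φ (x ∘ σ) := by
    intro x
    by_cases hx : Function.Injective x
    · rw [Finset.sum_eq_single (Tuple.sort x)]
      · rw [Set.indicator_of_mem (show x ∘ Tuple.sort x ∈ {x : Fin n → ℝ | Monotone x} from
          Tuple.monotone_sort x), hsym]
      · intro σ _ hσ
        refine Set.indicator_of_notMem ?_ _
        intro hmon
        apply hσ
        have := Tuple.unique_monotone (show Monotone (x ∘ σ) from hmon) (Tuple.monotone_sort x)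
        ext i
        exact congrArg _ (hx (congrFun this i))
      · intro h; exact absurd (Finset.mem_univ _) h
    · rw [hinj x hx]
      symm
      refine Finset.sum_eq_zero fun σ _ => ?_
      have : φ (x ∘ σ) = 0 := by rw [hsym, hinj x hx]
      by_cases hm : x ∘ σ ∈ {x : Fin n → ℝ | Monotone x}
      · rw [Set.indicator_of_mem hm, this]
      · rw [Set.indicator_of_notMem hm]
  have hmi : Measurable ({x : Fin n → ℝ | Monotone x}.indicator φ) :=
    hφ.indicator measurableSet_monotone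
  have hmp : ∀ σ : Equiv.Perm (Fin n), MeasurePreserving (fun x : Fin n → ℝ => x ∘ σ) := by
    intro σ
    have h := volume_measurePreserving_piCongrLeft (fun _ : Fin n => ℝ) σ.symm
    have e : (fun x : Fin n → ℝ => x ∘ σ) =
        (MeasurableEquiv.piCongrLeft (fun _ : Fin n => ℝ) σ.symm) := by
      funext x
      funext i
      simp [MeasurableEquiv.coe_piCongrLeft, Equiv.piCongrLeft_apply]
    rw [e]
    exact h
  calc ∫⁻ x, φ x = ∫⁻ x, ∑ σ : Equiv.Perm (Fin n),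
        {x : Fin n → ℝ | Monotone x}.indicator φ (x ∘ σ) := lintegral_congr h1
    _ = ∑ σ : Equiv.Perm (Fin n), ∫⁻ x, {x : Fin n → ℝ | Monotone x}.indicator φ (x ∘ σ) :=
        lintegral_finsetSum _ fun σ _ => hmi.comp (hmp σ).measurable
    _ = ∑ σ : Equiv.Perm (Fin n), ∫⁻ x, {x : Fin n → ℝ | Monotone x}.indicator φ x := by
        refine Finset.sum_congr rfl fun σ _ => ?_
        exact (hmp σ).lintegral_comp hmi
    _ = _ := by
        rw [Finset.sum_const, Finset.card_univ, Fintype.card_perm, Fintype.card_fin, nsmul_eq_mul]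

/-- the weighted integrand, supported on the positive orthant -/
noncomputable def wt (ρ : ℝ → ℝ) (f : (Fin n → ℝ) → ℝ) (x : Fin n → ℝ) : ℝ≥0∞ :=
  (Set.Ici (0 : Fin n → ℝ)).indicator
    (fun x => ENNReal.ofReal (V x * (∏ i, ρ (x i)) * f x)) x

theorem wt_measurable {ρ : ℝ → ℝ} (hρ : Measurable ρ) {f : (Fin n → ℝ) → ℝ} (hf : Measurable f) :
    Measurable (wt (n := n) ρ f) := by
  refine Measurable.indicator ?_ measurableSet_Ici
  refine ENNReal.measurable_ofReal.comp ?_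
  refine (V_measurable.mul (Finset.measurable_prod _ fun i _ => ?_)).mul hf
  exact hρ.comp (measurable_pi_apply i)

theorem wt_symm (ρ : ℝ → ℝ) {f : (Fin n → ℝ) → ℝ}
    (hf : ∀ (σ : Equiv.Perm (Fin n)) x, f (x ∘ σ) = f x) (σ : Equiv.Perm (Fin n)) (x : Fin n → ℝ) :
    wt ρ f (x ∘ σ) = wt ρ f x := by
  unfold wt
  have hmem : (x ∘ σ ∈ Set.Ici (0 : Fin n → ℝ)) ↔ (x ∈ Set.Ici (0 : Fin n → ℝ)) := by
    simp only [Set.mem_Ici, Pi.le_def, Pi.zero_apply, Function.comp_apply]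
    exact ⟨fun h i => by simpa using h (σ.symm i), fun h i => h (σ i)⟩
  by_cases hx : x ∈ Set.Ici (0 : Fin n → ℝ)
  · rw [Set.indicator_of_mem hx, Set.indicator_of_mem (hmem.2 hx), V_perm, hf]
    congr 3
    exact Equiv.prod_comp σ (fun i => ρ (x i))
  · rw [Set.indicator_of_notMem hx, Set.indicator_of_notMem (fun h => hx (hmem.1 h))]

theorem wt_inj (ρ : ℝ → ℝ) (f : (Fin n → ℝ) → ℝ) (x : Fin n → ℝ) (hx : ¬ Function.Injective x) :
    wt ρ f x = 0 := by
  unfold wt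
  by_cases hm : x ∈ Set.Ici (0 : Fin n → ℝ)
  · rw [Set.indicator_of_mem hm, V_zero hx]; simp
  · rw [Set.indicator_of_notMem hm]

/-- FKG inequality for symmetric increasing functions with the squared Vandermonde weight. -/
theorem fkg {ρ : ℝ → ℝ} (hρ : Measurable ρ) (hρ0 : ∀ x, 0 ≤ x → 0 ≤ ρ x)
    {f g : (Fin n → ℝ) → ℝ} (hf : Measurable f) (hg : Measurable g)
    (hfs : ∀ (σ : Equiv.Perm (Fin n)) x, f (x ∘ σ) = f x)
    (hgs : ∀ (σ : Equiv.Perm (Fin n)) x, g (x ∘ σ) = g x)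
    (hf0 : ∀ x, 0 ≤ x → 0 ≤ f x) (hg0 : ∀ x, 0 ≤ x → 0 ≤ g x)
    (hfm : ∀ x y, 0 ≤ x → x ≤ y → f x ≤ f y) (hgm : ∀ x y, 0 ≤ x → x ≤ y → g x ≤ g y) :
    (∫⁻ x, wt (n := n) ρ f x) * (∫⁻ x, wt ρ g x) ≤
      (∫⁻ x, wt ρ (fun x => f x * g x) x) * (∫⁻ x, wt (n := n) ρ (fun _ => 1) x) := by
  set C := {x : Fin n → ℝ | Monotone x} with hC
  have hfg : Measurable (fun x => f x * g x) := hf.mul hg
  have hfgs : ∀ (σ : Equiv.Perm (Fin n)) x, f (x ∘ σ) * g (x ∘ σ) = f x * g x := by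
    intro σ x; rw [hfs, hgs]
  have h1 := symm_lintegral _ (wt_measurable hρ hf) (wt_symm ρ hfs) (wt_inj ρ f)
  have h2 := symm_lintegral _ (wt_measurable hρ hg) (wt_symm ρ hgs) (wt_inj ρ g)
  have h3 := symm_lintegral _ (wt_measurable hρ hfg) (wt_symm ρ hfgs) (wt_inj ρ _)
  have h4 := symm_lintegral _ (wt_measurable (n := n) hρ (measurable_const (a := (1 : ℝ))))
    (wt_symm ρ (fun _ _ => rfl)) (wt_inj ρ _)
  rw [h1, h2, h3, h4]
  have key : (∫⁻ x, C.indicator (wt ρ f) x) * (∫⁻ x, C.indicator (wt ρ g) x) ≤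
      (∫⁻ x, C.indicator (wt ρ (fun x => f x * g x)) x) *
        (∫⁻ x, C.indicator (wt (n := n) ρ (fun _ => 1)) x) := by
    refine FF.ff n _ _ _ _ ((wt_measurable hρ hf).indicator measurableSet_monotone)
      ((wt_measurable hρ hg).indicator measurableSet_monotone)
      ((wt_measurable hρ hfg).indicator measurableSet_monotone)
      ((wt_measurable hρ measurable_const).indicator measurableSet_monotone) ?_
    intro x y
    by_cases hx : x ∈ C ∧ x ∈ Set.Ici (0 : Fin n → ℝ)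
    swap
    · have : C.indicator (wt ρ f) x = 0 := by
        rw [Set.indicator_apply]
        split_ifs with hxC
        · unfold wt
          exact Set.indicator_of_notMem (fun h => hx ⟨hxC, h⟩) _
        · rfl
      rw [this, zero_mul]; exact zero_le
    by_cases hy : y ∈ C ∧ y ∈ Set.Ici (0 : Fin n → ℝ)
    swap
    · have : C.indicator (wt ρ g) y = 0 := by
        rw [Set.indicator_apply]
        split_ifs with hyC
        · unfold wt
          exact Set.indicator_of_notMem (fun h => hy ⟨hyC, h⟩) _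
        · rfl
      rw [this, mul_zero]; exact zero_le
    have hxm : Monotone x := hx.1
    have hym : Monotone y := hy.1
    have hx0 : 0 ≤ x := hx.2
    have hy0 : 0 ≤ y := hy.2
    have hsC : x ⊔ y ∈ C := fun i j hij => sup_le_sup (hxm hij) (hym hij)
    have hiC : x ⊓ y ∈ C := fun i j hij => inf_le_inf (hxm hij) (hym hij)
    have hs0 : 0 ≤ x ⊔ y := hx0.trans le_sup_left
    have hi0 : 0 ≤ x ⊓ y := le_inf hx0 hy0
    rw [Set.indicator_of_mem hx.1, Set.indicator_of_mem hy.1, Set.indicator_of_mem hsC,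
      Set.indicator_of_mem hiC]
    unfold wt
    rw [Set.indicator_of_mem hx.2, Set.indicator_of_mem hy.2,
      Set.indicator_of_mem (show x ⊔ y ∈ Set.Ici (0 : Fin n → ℝ) from hs0),
      Set.indicator_of_mem (show x ⊓ y ∈ Set.Ici (0 : Fin n → ℝ) from hi0)]
    have pr : ∀ z : Fin n → ℝ, 0 ≤ z → 0 ≤ ∏ i, ρ (z i) :=
      fun z hz => Finset.prod_nonneg fun i _ => hρ0 _ (hz i)
    rw [← ENNReal.ofReal_mul (mul_nonneg (mul_nonneg (V_nonneg _) (pr x hx0)) (hf0 x hx0)),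
      ← ENNReal.ofReal_mul (mul_nonneg (mul_nonneg (V_nonneg _) (pr _ hs0))
        (mul_nonneg (hf0 _ hs0) (hg0 _ hs0)))]
    refine ENNReal.ofReal_le_ofReal ?_
    have e1 : V x * V y ≤ V (x ⊔ y) * V (x ⊓ y) := V_sup_inf hxm hym
    have e2 := prod_sup_inf ρ x y
    have e3 : f x * g y ≤ f (x ⊔ y) * g (x ⊔ y) :=
      mul_le_mul (hfm _ _ hx0 le_sup_left) (hgm _ _ hy0 le_sup_right) (hg0 _ hy0) (hf0 _ hs0)
    calc V x * (∏ i, ρ (x i)) * f x * (V y * (∏ i, ρ (y i)) * g y)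
        = (V x * V y) * ((∏ i, ρ (x i)) * (∏ i, ρ (y i))) * (f x * g y) := by ring
      _ ≤ (V (x ⊔ y) * V (x ⊓ y)) * ((∏ i, ρ ((x ⊔ y) i)) * ∏ i, ρ ((x ⊓ y) i)) *
          (f (x ⊔ y) * g (x ⊔ y)) := by
          rw [e2]
          refine mul_le_mul (mul_le_mul_of_nonneg_right e1 (mul_nonneg (pr _ hs0) (pr _ hi0))) e3
            (mul_nonneg (hf0 _ hx0) (hg0 _ hy0)) ?_
          exact mul_nonneg (mul_nonneg (V_nonneg _) (V_nonneg _))
            (mul_nonneg (pr _ hs0) (pr _ hi0))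
      _ = _ := by ring
  calc (n.factorial : ℝ≥0∞) * (∫⁻ x, C.indicator (wt ρ f) x) *
        ((n.factorial : ℝ≥0∞) * ∫⁻ x, C.indicator (wt ρ g) x)
      = ((n.factorial : ℝ≥0∞) * (n.factorial : ℝ≥0∞)) *
        ((∫⁻ x, C.indicator (wt ρ f) x) * (∫⁻ x, C.indicator (wt ρ g) x)) := by ring
    _ ≤ ((n.factorial : ℝ≥0∞) * (n.factorial : ℝ≥0∞)) *
        ((∫⁻ x, C.indicator (wt ρ (fun x => f x * g x)) x) *
        (∫⁻ x, C.indicator (wt (n := n) ρ (fun _ => 1)) x)) := by gcongr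
    _ = _ := by ring

end Pool.Agent.Helper575.FKG
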