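import Mathlib

set_option autoImplicit false

namespace Pool.Agent.Helper575.LT1

open Function

/-- a partial injection of a finite set extends to a permutation -/
theorem exists_perm_extend {n : ℕ} (R : Fin n → Fin n → Prop)
    (h1 : ∀ a b b', R a b → R a b' → b = b') (h2 : ∀ a a' b, R a b → R a' b → a = a') :
    ∃ π : Equiv.Perm (Fin n), ∀ a b, R a b → π a = b := by
  classical
  let f : Fin n → Fin n := fun a => if h : ∃ b, R a b then h.choose else a
  have hf : ∀ a b, R a b → f a = b := by
    intro a b hab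
    have h : ∃ b, R a b := ⟨b, hab⟩
    simp only [f, dif_pos h]
    exact h1 a _ _ h.choose_spec hab
  let s : Finset (Fin n) := Finset.univ.filter fun a => ∃ b, R a b
  have hinj : Set.InjOn f (s : Set (Fin n)) := by
    intro a ha a' ha' haa
    have ha : ∃ b, R a b := by simpa [s] using ha
    have ha' : ∃ b, R a' b := by simpa [s] using ha'
    obtain ⟨b, hb⟩ := ha
    obtain ⟨b', hb'⟩ := ha'
    rw [hf a b hb, hf a' b' hb'] at haa
    subst haa
    exact h2 a a' b hb hb'
  obtain ⟨g, hg⟩ := Finset.exists_equiv_extend_of_card_eq (α := Fin n) (β := Fin n)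
    (t := Finset.univ) (by simp) (s := s) (f := f) (Finset.subset_univ _) hinj
  refine ⟨g.trans (Equiv.subtypeUnivEquiv fun x => Finset.mem_univ x), fun a b hab => ?_⟩
  have ha : a ∈ s := by simp only [s, Finset.mem_filter, Finset.mem_univ, true_and]; exact ⟨b, hab⟩
  have := hg a ha
  rw [hf a b hab] at this
  simpa using this

/-- the partial action attached to a word -/
def Rel {S : Type*} (L : List (S × Bool)) (a : S) (k l : Fin (L.length + 1)) : Prop :=
  ∃ (j : ℕ) (hj : j < L.length), (L[j] = (a, true) ∧ k.1 = j + 1 ∧ l.1 = j) ∨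
    (L[j] = (a, false) ∧ k.1 = j ∧ l.1 = j + 1)

theorem chain_get {S : Type*} {L : List (S × Bool)} (hL : FreeGroup.IsReduced L) {j : ℕ}
    (hj : j + 1 < L.length) (h : L[j].1 = L[j + 1].1) : L[j].2 = L[j + 1].2 := by
  rw [FreeGroup.IsReduced, List.isChain_iff_getElem] at hL
  exact hL j hj h

theorem exists_perm {S : Type*} (L : List (S × Bool)) (hL : FreeGroup.IsReduced L) (hne : L ≠ []) :
    ∃ π : S → Equiv.Perm (Fin (L.length + 1)), FreeGroup.lift π (FreeGroup.mk L) ≠ 1 := by
  have key : ∀ a : S, ∃ π : Equiv.Perm (Fin (L.length + 1)), ∀ k l, Rel L a k l → π k = l := by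
    intro a
    refine exists_perm_extend _ ?_ ?_
    · rintro k l l' ⟨j, hj, h | h⟩ ⟨j', hj', h' | h'⟩
      · apply Fin.ext; omega
      · exfalso
        have e : j' = j + 1 := by omega
        subst e
        have h3 := chain_get hL hj' (by rw [h.1, h'.1])
        rw [h.1, h'.1] at h3
        simp at h3
      · exfalso
        have e : j = j' + 1 := by omega
        subst e
        have h3 := chain_get hL hj (by rw [h.1, h'.1])
        rw [h.1, h'.1] at h3
        simp at h3
      · apply Fin.ext; omega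
    · rintro k k' l ⟨j, hj, h | h⟩ ⟨j', hj', h' | h'⟩
      · apply Fin.ext; omega
      · exfalso
        have e : j = j' + 1 := by omega
        subst e
        have h3 := chain_get hL hj (by rw [h.1, h'.1])
        rw [h.1, h'.1] at h3
        simp at h3
      · exfalso
        have e : j' = j + 1 := by omega
        subst e
        have h3 := chain_get hL hj' (by rw [h.1, h'.1])
        rw [h.1, h'.1] at h3
        simp at h3
      · apply Fin.ext; omega
  choose π hπ using key
  refine ⟨π, ?_⟩
  rw [FreeGroup.lift_mk]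
  have main : ∀ i : ℕ, ∀ (hi : i ≤ L.length),
      (((L.drop (L.length - i)).map fun x => cond x.2 (π x.1) (π x.1)⁻¹).prod)
        ⟨L.length, Nat.lt_succ_self _⟩ = ⟨L.length - i, by omega⟩ := by
    intro i
    induction i with
    | zero => intro _; simp
    | succ i ih =>
      intro hi
      have hlt : L.length - (i + 1) < L.length := by omega
      rw [List.drop_eq_getElem_cons hlt]
      have e : L.length - (i + 1) + 1 = L.length - i := by omega
      rw [List.map_cons, List.prod_cons, Equiv.Perm.mul_apply]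
      simp only [e]
      rw [ih (by omega)]
      rcases hx : L[L.length - (i + 1)] with ⟨a, b⟩
      cases b
      · -- inverse letter
        have h1 : π a ⟨L.length - (i + 1), by omega⟩ = ⟨L.length - i, by omega⟩ :=
          hπ a _ _ ⟨L.length - (i + 1), hlt, Or.inr ⟨hx, rfl, by simp; omega⟩⟩
        show (π a).symm _ = _
        rw [← h1, Equiv.symm_apply_apply]
      · show π a _ = _
        exact hπ a _ _ ⟨L.length - (i + 1), hlt, Or.inl ⟨hx, by simp; omega, rfl⟩⟩
  have h0 := main L.length le_rfl
  intro hcon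
  simp only [Nat.sub_self, List.drop_zero] at h0
  rw [hcon] at h0
  have h1 : L.length = 0 := by
    have := congrArg Fin.val h0
    simpa using this
  exact hne (List.length_eq_zero_iff.1 h1)

/-- separation of finitely many binary sequences -/
theorem exists_sep (F : Finset (ℕ → Bool)) :
    ∃ n : ℕ, ∀ s ∈ F, ∀ t ∈ F, (∀ i < n, s i = t i) → s = t := by
  classical
  have h : ∀ p : (ℕ → Bool) × (ℕ → Bool), ∃ n : ℕ, (∀ i < n, p.1 i = p.2 i) → p.1 = p.2 := by
    intro p
    by_cases hp : p.1 = p.2
    · exact ⟨0, fun _ => hp⟩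
    · obtain ⟨i, hi⟩ := Function.ne_iff.1 hp
      exact ⟨i + 1, fun h => absurd (h i (Nat.lt_succ_self i)) hi⟩
  choose n hn using h
  refine ⟨(F ×ˢ F).sup n, fun s hs t ht hst => ?_⟩
  refine hn (s, t) fun i hi => hst i (lt_of_lt_of_le hi ?_)
  exact Finset.le_sup (f := n) (Finset.mem_product.2 ⟨hs, ht⟩)

/-- the countable index type -/
abbrev J := (n : ℕ) × (m : ℕ) × ((Fin n → Bool) → Equiv.Perm (Fin m))

noncomputable def rhoJ (j : J) : FreeGroup (ℕ → Bool) →* Equiv.Perm (Fin j.2.1) :=
  FreeGroup.lift fun s => j.2.2 fun i => s i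

theorem rhoJ_ne {w : FreeGroup (ℕ → Bool)} (hw : w ≠ 1) : ∃ j : J, rhoJ j w ≠ 1 := by
  classical
  set L := w.toWord with hL
  have hred : FreeGroup.IsReduced L := FreeGroup.isReduced_toWord
  have hne : L ≠ [] := by
    intro h
    exact hw (FreeGroup.toWord_eq_nil_iff.1 h)
  obtain ⟨π, hπ⟩ := exists_perm L hred hne
  obtain ⟨n, hn⟩ := exists_sep (L.map Prod.fst).toFinset
  let σ : (Fin n → Bool) → Equiv.Perm (Fin (L.length + 1)) := fun u =>
    if h : ∃ a ∈ (L.map Prod.fst).toFinset, (fun i : Fin n => a i) = u then π h.choose else 1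
  have hσ : ∀ a ∈ (L.map Prod.fst).toFinset, σ (fun i : Fin n => a i) = π a := by
    intro a ha
    have h : ∃ b ∈ (L.map Prod.fst).toFinset,
        (fun i : Fin n => b i) = (fun i : Fin n => a i) := ⟨a, ha, rfl⟩
    simp only [σ]
    rw [dif_pos h]
    have h2 := h.choose_spec
    congr 1
    refine hn _ h2.1 _ ha fun i hi => ?_
    exact congrFun h2.2 ⟨i, hi⟩
  refine ⟨⟨n, L.length + 1, σ⟩, ?_⟩
  have e : rhoJ ⟨n, L.length + 1, σ⟩ w = FreeGroup.lift π (FreeGroup.mk L) := by
    conv_lhs => rw [← FreeGroup.mk_toWord (x := w), ← hL]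
    rw [rhoJ, FreeGroup.lift_mk, FreeGroup.lift_mk]
    congr 1
    refine List.map_congr_left fun x hx => ?_
    have hx' : x.1 ∈ (L.map Prod.fst).toFinset := by
      rw [List.mem_toFinset]
      exact List.mem_map_of_mem hx
    have := hσ x.1 hx'
    simp only [this]
  rw [e]
  exact hπ

/-- A free group of continuum rank in a countable product of finite groups, in which each
non-trivial element is non-trivial in infinitely many coordinates. -/
theorem exists_rho : ∃ (m : ℕ → ℕ) (ρ : FreeGroup (ℕ → Bool) →* ((i : ℕ) → Equiv.Perm (Fin (m i)))),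
    ∀ w : FreeGroup (ℕ → Bool), w ≠ 1 → ∀ N : ℕ, ∃ i ≥ N, ρ w i ≠ 1 := by
  classical
  have : Nonempty (ℕ × J) := ⟨(0, ⟨0, 0, fun _ => 1⟩)⟩
  obtain ⟨e, he⟩ := exists_surjective_nat (ℕ × J)
  refine ⟨fun i => (e i).2.2.1, MonoidHom.pi fun i => rhoJ (e i).2, fun w hw N => ?_⟩
  obtain ⟨j, hj⟩ := rhoJ_ne hw
  -- infinitely many indices mapped to `j`
  have h1 : ∃ i ≥ N, (e i).2 = j := by
    choose g hg using fun n : ℕ => he (n, j)
    have hginj : Function.Injective g := by
      intro a b hab
      have h1 := hg a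
      have h2 := hg b
      rw [hab, h2] at h1
      exact (congrArg Prod.fst h1).symm
    obtain ⟨n, hn⟩ : ∃ n, N ≤ g n := by
      by_contra hcon
      push Not at hcon
      have : (Set.range g).Finite := (Set.finite_Iio N).subset (by
        rintro _ ⟨n, rfl⟩; exact hcon n)
      exact Set.infinite_range_of_injective hginj this
    exact ⟨g n, hn, by rw [hg n]⟩
  obtain ⟨i, hi, hij⟩ := h1
  refine ⟨i, hi, ?_⟩
  show rhoJ (e i).2 w ≠ 1
  rw [hij]
  exact hj

end Pool.Agent.Helper575.LT1
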