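import Mathlib

set_option autoImplicit false

namespace Pool.Agent.Helper575.LT2

open Function

theorem red_sub {α : Type*} {L N : List (α × Bool)} (hL : FreeGroup.IsReduced L)
    (h : N <:+: L) : FreeGroup.IsReduced N := by
  obtain ⟨s, t, rfl⟩ := h
  have h1 : List.IsChain _ (s ++ N ++ t) := hL
  have h2 := (List.isChain_append.1 h1).1
  exact (List.isChain_append.1 h2).2.1

variable {K : ℕ → Type} [∀ i, Group (K i)]

/-- equality of all but finitely many coordinates -/
def TE (a b : (i : ℕ) → K i) : Prop := ∃ N : ℕ, ∀ i ≥ N, a i = b i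

omit [∀ i, Group (K i)] in
theorem TE.refl (a : (i : ℕ) → K i) : TE a a := ⟨0, fun _ _ => rfl⟩

omit [∀ i, Group (K i)] in
theorem TE.symm {a b : (i : ℕ) → K i} (h : TE a b) : TE b a := by
  obtain ⟨N, hN⟩ := h
  exact ⟨N, fun i hi => (hN i hi).symm⟩

omit [∀ i, Group (K i)] in
theorem TE.trans {a b c : (i : ℕ) → K i} (h : TE a b) (h' : TE b c) : TE a c := by
  obtain ⟨N, hN⟩ := h
  obtain ⟨M, hM⟩ := h'
  exact ⟨max N M, fun i hi => (hN i (le_trans (le_max_left _ _) hi)).trans
    (hM i (le_trans (le_max_right _ _) hi))⟩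

theorem TE.mul_left (g : (i : ℕ) → K i) {a b : (i : ℕ) → K i} (h : TE a b) :
    TE (g * a) (g * b) := by
  obtain ⟨N, hN⟩ := h
  exact ⟨N, fun i hi => by rw [Pi.mul_apply, Pi.mul_apply, hN i hi]⟩

theorem TE.mul_right (g : (i : ℕ) → K i) {a b : (i : ℕ) → K i} (h : TE a b) :
    TE (a * g) (b * g) := by
  obtain ⟨N, hN⟩ := h
  exact ⟨N, fun i hi => by rw [Pi.mul_apply, Pi.mul_apply, hN i hi]⟩

section

variable {Z : Type} [LinearOrder Z]
  (ρ : FreeGroup Z →* ((i : ℕ) → K i)) (τ : Z → (i : ℕ) → K i)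

/-- letters to be avoided at stage `m` -/
def Bad (m : Z) : Set Z :=
  {s | ∃ t t' : Z, t ≤ m ∧ t' ≤ m ∧ ∃ v : FreeGroup Z, TE (ρ v * τ t) (τ t') ∧
    s ∈ v.toWord.map Prod.fst}

variable {ρ τ}

omit [LinearOrder Z] in
theorem rho_inj (hρ : ∀ w : FreeGroup Z, w ≠ 1 → ∀ N : ℕ, ∃ i ≥ N, ρ w i ≠ 1)
    {w : FreeGroup Z} (h : TE (ρ w) 1) : w = 1 := by
  by_contra hw
  obtain ⟨N, hN⟩ := h
  obtain ⟨i, hi, hi2⟩ := hρ w hw N
  exact hi2 (hN i hi)

omit [LinearOrder Z] in
theorem rho_unique (hρ : ∀ w : FreeGroup Z, w ≠ 1 → ∀ N : ℕ, ∃ i ≥ N, ρ w i ≠ 1)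
    {v w : FreeGroup Z} {a b : (i : ℕ) → K i} (h : TE (ρ v * a) b) (h' : TE (ρ w * a) b) :
    v = w := by
  have h1 : TE (ρ v * a) (ρ w * a) := h.trans h'.symm
  have h2 := (h1.mul_right a⁻¹).mul_left (ρ w)⁻¹
  simp only [mul_inv_cancel_right, inv_mul_cancel] at h2
  rw [← map_inv, ← map_mul] at h2
  have h3 := rho_inj hρ h2
  exact (inv_mul_eq_one.1 h3).symm

theorem bad_small (hρ : ∀ w : FreeGroup Z, w ≠ 1 → ∀ N : ℕ, ∃ i ≥ N, ρ w i ≠ 1)
    (hZ : Cardinal.aleph0 < Cardinal.mk Z)
    (hsmall : ∀ m : Z, Cardinal.mk {t : Z // t ≤ m} < Cardinal.mk Z) (m : Z) :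
    Cardinal.mk (Bad ρ τ m) < Cardinal.mk Z := by
  let I := {t : Z // t ≤ m}
  let F : I × I → Set Z := fun p => {s | ∃ v : FreeGroup Z, TE (ρ v * τ p.1) (τ p.2) ∧
    s ∈ v.toWord.map Prod.fst}
  have hF : ∀ p, Cardinal.mk (F p) ≤ Cardinal.aleph0 := by
    intro p
    refine Cardinal.mk_le_aleph0_iff.2 ?_
    by_cases h : ∃ v : FreeGroup Z, TE (ρ v * τ p.1) (τ p.2)
    · obtain ⟨v, hv⟩ := h
      have : F p ⊆ {s | s ∈ v.toWord.map Prod.fst} := by
        rintro s ⟨w, hw, hs⟩
        have := rho_unique hρ hv hw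
        subst this
        exact hs
      exact ((List.finite_toSet _).subset this).countable.to_subtype
    · have : F p = ∅ := by
        ext s
        simp only [Set.mem_empty_iff_false, iff_false]
        rintro ⟨v, hv, _⟩
        exact h ⟨v, hv⟩
      rw [this]
      exact Set.countable_empty.to_subtype
  have hsub : Bad ρ τ m ⊆ ⋃ p, F p := by
    rintro s ⟨t, t', ht, ht', v, hv, hs⟩
    exact Set.mem_iUnion.2 ⟨(⟨t, ht⟩, ⟨t', ht'⟩), v, hv, hs⟩
  have hI : Cardinal.mk (I × I) < Cardinal.mk Z := by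
    rw [Cardinal.mk_prod, Cardinal.lift_id]
    exact Cardinal.mul_lt_of_lt hZ.le (hsmall m) (hsmall m)
  calc Cardinal.mk (Bad ρ τ m) ≤ Cardinal.mk (⋃ p, F p : Set Z) := Cardinal.mk_le_mk_of_subset hsub
    _ ≤ Cardinal.sum fun p => Cardinal.mk (F p) := Cardinal.mk_iUnion_le_sum_mk
    _ ≤ Cardinal.sum fun _ : I × I => Cardinal.aleph0 := Cardinal.sum_le_sum _ _ hF
    _ = Cardinal.mk (I × I) * Cardinal.aleph0 := by
        rw [Cardinal.sum_const']
    _ < Cardinal.mk Z := Cardinal.mul_lt_of_lt hZ.le hI hZ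

/-- the choice of generators -/
theorem exists_sigma [WellFoundedLT Z]
    (hρ : ∀ w : FreeGroup Z, w ≠ 1 → ∀ N : ℕ, ∃ i ≥ N, ρ w i ≠ 1)
    (hZ : Cardinal.aleph0 < Cardinal.mk Z)
    (hsmall : ∀ m : Z, Cardinal.mk {t : Z // t ≤ m} < Cardinal.mk Z) :
    ∃ σ : Z → Z, Injective σ ∧ ∀ m, σ m ∉ Bad ρ τ m := by
  have hne : ∀ m : Z, ∀ f : {t : Z // t < m} → Z, ∃ x : Z, x ∉ Bad ρ τ m ∧ x ∉ Set.range f := by
    intro m f
    by_contra hcon
    push Not at hcon
    have h1 : (Set.univ : Set Z) ⊆ Bad ρ τ m ∪ Set.range f := by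
      intro x _
      by_cases hx : x ∈ Bad ρ τ m
      · exact Or.inl hx
      · exact Or.inr (hcon x hx)
    have h2 := Cardinal.mk_le_mk_of_subset h1
    rw [Cardinal.mk_univ] at h2
    have h3 : Cardinal.mk (Set.range f) < Cardinal.mk Z := by
      refine lt_of_le_of_lt Cardinal.mk_range_le (lt_of_le_of_lt ?_ (hsmall m))
      exact Cardinal.mk_le_of_injective (f := fun t : {t : Z // t < m} =>
        (⟨t.1, t.2.le⟩ : {t : Z // t ≤ m})) (by
          intro a b hab
          exact Subtype.ext (congrArg (fun z : {t : Z // t ≤ m} => z.1) hab))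
    have h4 := lt_of_le_of_lt (h2.trans (Cardinal.mk_union_le _ _))
      (Cardinal.add_lt_of_lt hZ.le (bad_small hρ hZ hsmall m) h3)
    exact lt_irrefl _ h4
  classical
  let σ : Z → Z := WellFounded.fix (wellFounded_lt (α := Z)) fun m IH =>
    (hne m fun t => IH t.1 t.2).choose
  have hσ : ∀ m, σ m = (hne m fun t => σ t.1).choose := by
    intro m
    exact WellFounded.fix_eq _ _ _
  have h1 : ∀ m, σ m ∉ Bad ρ τ m ∧ σ m ∉ Set.range fun t : {t : Z // t < m} => σ t.1 := by
    intro m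
    rw [hσ m]
    exact (hne m fun t => σ t.1).choose_spec
  refine ⟨σ, ?_, fun m => (h1 m).1⟩
  intro a b hab
  rcases lt_trichotomy a b with h | h | h
  · exact absurd ⟨⟨a, h⟩, hab⟩ (h1 b).2
  · exact h
  · exact absurd ⟨⟨b, h⟩, hab.symm⟩ (h1 a).2

end


section main

variable {Z : Type} [LinearOrder Z] {𝒢 : Type*} [Group 𝒢] [MulAction 𝒢 Z]

/-- the group element of a letter -/
def gl {A : Set Z} (h : Z → 𝒢) (x : A × Bool) : 𝒢 := cond x.2 (h x.1) (h x.1)⁻¹

/-- the group element of a word -/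
def gw {A : Set Z} (h : Z → 𝒢) (L : List (A × Bool)) : 𝒢 := (L.map (gl h)).prod

omit [LinearOrder Z] [MulAction 𝒢 Z] in
theorem gw_cons {A : Set Z} (h : Z → 𝒢) (x : A × Bool) (L : List (A × Bool)) :
    gw h (x :: L) = gl h x * gw h L := by
  unfold gw; rw [List.map_cons, List.prod_cons]

omit [LinearOrder Z] [MulAction 𝒢 Z] in
theorem gw_append {A : Set Z} (h : Z → 𝒢) (L L' : List (A × Bool)) :
    gw h (L ++ L') = gw h L * gw h L' := by
  unfold gw; rw [List.map_append, List.prod_append]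

omit [LinearOrder Z] [MulAction 𝒢 Z] in
theorem gw_nil {A : Set Z} (h : Z → 𝒢) : gw h ([] : List (A × Bool)) = 1 := rfl

/-- the element of the free group on `Z` of a word -/
def fw {A : Set Z} (σ : Z → Z) (L : List (A × Bool)) : FreeGroup Z :=
  FreeGroup.mk (L.map fun x => (σ x.1, x.2))

/-- generic paths -/
def GP {A : Set Z} (h : Z → 𝒢) (x0 : Z) : List (A × Bool) → Z → Prop
  | [], _ => True
  | x :: L, z => GP h x0 L z ∧ (x.2 = true → gw h L • z ≠ x0) ∧
      (x.2 = false → gw h (x :: L) • z ≠ x0)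

variable {ρ : FreeGroup Z →* ((i : ℕ) → K i)} {τ : Z → (i : ℕ) → K i} {x0 : Z}

omit [LinearOrder Z] in
theorem gen_path {A : Set Z} {h : Z → 𝒢} {σ : Z → Z}
    (hgen : ∀ t z : Z, z ≠ x0 → TE (τ (h t • z)) (ρ (FreeGroup.of (σ t)) * τ z))
    (L : List (A × Bool)) (z : Z) (hGP : GP h x0 L z) :
    TE (τ (gw h L • z)) (ρ (fw σ L) * τ z) := by
  induction L with
  | nil =>
    rw [gw_nil, one_smul]
    have : fw σ ([] : List (A × Bool)) = 1 := rfl
    rw [this, map_one, one_mul]
    exact TE.refl _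
  | cons x L ih =>
    obtain ⟨h1, h2, h3⟩ := hGP
    have ih' := ih h1
    rcases x with ⟨t, b⟩
    cases b
    · -- inverse letter
      have h4 := h3 rfl
      have e1 : gw h ((t, false) :: L) = (h t)⁻¹ * gw h L := gw_cons h _ _
      have e2 : fw σ ((t, false) :: L) = (FreeGroup.of (σ t))⁻¹ * fw σ L := by
        unfold fw
        rw [FreeGroup.of, FreeGroup.inv_mk, FreeGroup.mul_mk]
        rfl
      have h5 := hgen t _ h4
      have e3 : h t • gw h ((t, false) :: L) • z = gw h L • z := by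
        rw [e1, mul_smul, smul_inv_smul]
      rw [e3] at h5
      have h6 := (h5.symm.trans ih').mul_left (ρ (FreeGroup.of (σ t)))⁻¹
      rw [inv_mul_cancel_left, ← mul_assoc, ← map_inv, ← map_mul, ← e2] at h6
      exact h6
    · have h4 := h2 rfl
      have e1 : gw h ((t, true) :: L) = h t * gw h L := gw_cons h _ _
      have e2 : fw σ ((t, true) :: L) = FreeGroup.of (σ t) * fw σ L := by
        unfold fw
        rw [FreeGroup.of, FreeGroup.mul_mk]
        rfl
      have h5 := hgen t _ h4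
      rw [e1, mul_smul, e2, map_mul, mul_assoc]
      exact h5.trans (ih'.mul_left _)

omit [LinearOrder Z] in
/-- criterion for a generic path -/
theorem gp_of {A : Set Z} {h : Z → 𝒢} (L : List (A × Bool)) (p : Z)
    (h1 : ∀ N : List (A × Bool), N <:+ L → N ≠ [] → gw h N • p ≠ x0)
    (h2 : p ≠ x0 ∨ ∀ y ∈ L.getLast?, y.2 = false) : GP h x0 L p := by
  induction L with
  | nil => trivial
  | cons x L ih =>
    refine ⟨ih (fun N hN hne => h1 N (hN.trans (List.suffix_cons x L)) hne) ?_, ?_, ?_⟩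
    · rcases h2 with h2 | h2
      · exact Or.inl h2
      · right
        intro y hy
        refine h2 y ?_
        rcases L with _ | ⟨a, L⟩
        · simp at hy
        · rw [List.getLast?_cons_cons]; exact hy
    · intro hx
      by_cases hL : L = []
      · subst hL
        rw [gw_nil, one_smul]
        rcases h2 with h2 | h2
        · exact h2
        · have := h2 x (by simp)
          rw [hx] at this
          simp at this
      · exact h1 L (List.suffix_cons x L) hL
    · intro _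
      exact h1 (x :: L) (List.suffix_refl _) (by simp)

theorem fw_reduced {A : Set Z} {σ : Z → Z} (hσ : Injective σ) {L : List (A × Bool)}
    (hL : FreeGroup.IsReduced L) : FreeGroup.IsReduced (L.map fun x => (σ x.1, x.2)) := by
  unfold FreeGroup.IsReduced at hL ⊢
  rw [List.isChain_map]
  refine hL.imp ?_
  intro a b hab h
  exact hab (Subtype.ext (hσ h))

theorem fw_toWord {A : Set Z} {σ : Z → Z} (hσ : Injective σ) {L : List (A × Bool)}
    (hL : FreeGroup.IsReduced L) : (fw σ L).toWord = L.map fun x => (σ x.1, x.2) := by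
  unfold fw
  rw [FreeGroup.toWord_mk]
  exact (fw_reduced hσ hL).reduce_eq

theorem fw_ne_one {A : Set Z} {σ : Z → Z} (hσ : Injective σ) {L : List (A × Bool)}
    (hL : FreeGroup.IsReduced L) (hne : L ≠ []) : fw σ L ≠ 1 := by
  intro h
  have h1 := fw_toWord hσ hL
  rw [h, FreeGroup.toWord_one] at h1
  exact hne (List.map_eq_nil_iff.1 h1.symm)

/-- final contradiction -/
theorem fin_contra {A : Set Z} {h : Z → 𝒢} {σ : Z → Z} (hσ : Injective σ)
    (hρ : ∀ w : FreeGroup Z, w ≠ 1 → ∀ N : ℕ, ∃ i ≥ N, ρ w i ≠ 1)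
    (hbad : ∀ m, σ m ∉ Bad ρ τ m) (hbot : ∀ z : Z, x0 ≤ z)
    (hA : ∀ x : Z, x ∈ A ↔ ¬ ∃ g ∈ Subgroup.closure {g : 𝒢 | ∃ t < x, t ∈ A ∧ g = h t}, g • x0 = x)
    (hbase : ∀ t : Z, h t • x0 = t)
    {L : List (A × Bool)} (hL : FreeGroup.IsReduced L) (hne : L ≠ []) {p p' : Z}
    (hp : p = x0 ∨ p ∈ A) (hp' : p' = x0 ∨ p' ∈ A) (hact : gw h L • p = p')
    (hTE : TE (τ p') (ρ (fw σ L) * τ p)) : False := by
  classical
  -- the largest letter
  obtain ⟨x, hxL, hxmax⟩ : ∃ x ∈ L, ∀ y ∈ L, (y.1 : Z) ≤ x.1 := by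
    obtain ⟨m, hm, hmax⟩ := (L.toFinset).exists_max_image (fun y : A × Bool => (y.1 : Z))
      (by
        obtain ⟨a, ha⟩ := List.exists_mem_of_ne_nil L hne
        exact ⟨a, List.mem_toFinset.2 ha⟩)
    exact ⟨m, List.mem_toFinset.1 hm, fun y hy => hmax y (List.mem_toFinset.2 hy)⟩
  set m : Z := x.1.1 with hm
  by_cases hcase : p ≤ m ∧ p' ≤ m
  · refine hbad m ⟨p, p', hcase.1, hcase.2, fw σ L, hTE.symm, ?_⟩
    rw [fw_toWord hσ hL, List.map_map, List.mem_map]
    exact ⟨x, hxL, rfl⟩
  · -- membership of the word in the subgroup generated by smaller letters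
    have hmem : ∀ q : Z, m < q →
        gw h L ∈ Subgroup.closure {g : 𝒢 | ∃ t < q, t ∈ A ∧ g = h t} := by
      intro q hq
      unfold gw
      refine Subgroup.list_prod_mem _ ?_
      intro g hg
      rw [List.mem_map] at hg
      obtain ⟨y, hy, rfl⟩ := hg
      have hy' : h y.1 ∈ Subgroup.closure {g : 𝒢 | ∃ t < q, t ∈ A ∧ g = h t} :=
        Subgroup.subset_closure ⟨y.1, lt_of_le_of_lt (hxmax y hy) hq, y.1.2, rfl⟩
      unfold gl
      rcases y with ⟨t, b⟩
      cases b
      · exact inv_mem hy'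
      · exact hy'
    have hpt : ∀ q r : Z, (r = x0 ∨ r ∈ A) → r < q →
        ∃ g ∈ Subgroup.closure {g : 𝒢 | ∃ t < q, t ∈ A ∧ g = h t}, g • x0 = r := by
      intro q r hr hrq
      rcases hr with rfl | hr
      · exact ⟨1, one_mem _, one_smul _ _⟩
      · exact ⟨h r, Subgroup.subset_closure ⟨r, hrq, hr, rfl⟩, hbase r⟩
    rcases lt_trichotomy p p' with hlt | heq | hlt
    · have hmp : m < p' := by
        by_contra hcon
        push Not at hcon
        exact hcase ⟨hlt.le.trans hcon, hcon⟩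
      have hp'A : p' ∈ A := by
        rcases hp' with h | h
        · exact absurd (hbot p) (by rw [h] at hlt; exact not_le.2 hlt)
        · exact h
      obtain ⟨g, hg, hgx⟩ := hpt p' p hp hlt
      refine (hA p').1 hp'A ⟨gw h L * g, mul_mem (hmem p' hmp) hg, ?_⟩
      rw [mul_smul, hgx, hact]
    · subst heq
      have h1 : TE (ρ (fw σ L) * τ p) (τ p) := hTE.symm
      have h2 : TE (ρ (1 : FreeGroup Z) * τ p) (τ p) := by
        rw [map_one, one_mul]; exact TE.refl _
      exact fw_ne_one hσ hL hne (rho_unique hρ h1 h2)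
    · have hmp : m < p := by
        by_contra hcon
        push Not at hcon
        exact hcase ⟨hcon, hlt.le.trans hcon⟩
      have hpA : p ∈ A := by
        rcases hp with h | h
        · exact absurd (hbot p') (by rw [h] at hlt; exact not_le.2 hlt)
        · exact h
      obtain ⟨g, hg, hgx⟩ := hpt p p' hp' hlt
      refine (hA p).1 hpA ⟨(gw h L)⁻¹ * g, mul_mem (inv_mem (hmem p hmp)) hg, ?_⟩
      rw [mul_smul, hgx, ← hact, inv_smul_smul]

/-- the action has trivial stabiliser at the base point -/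
theorem stab_trivial {A : Set Z} {h : Z → 𝒢} {σ : Z → Z} (hσ : Injective σ)
    (hρ : ∀ w : FreeGroup Z, w ≠ 1 → ∀ N : ℕ, ∃ i ≥ N, ρ w i ≠ 1)
    (hbad : ∀ m, σ m ∉ Bad ρ τ m) (hbot : ∀ z : Z, x0 ≤ z)
    (hA : ∀ x : Z, x ∈ A ↔ ¬ ∃ g ∈ Subgroup.closure {g : 𝒢 | ∃ t < x, t ∈ A ∧ g = h t}, g • x0 = x)
    (hbase : ∀ t : Z, h t • x0 = t)
    (hgen : ∀ t z : Z, z ≠ x0 → TE (τ (h t • z)) (ρ (FreeGroup.of (σ t)) * τ z)) :
    ∀ n : ℕ, ∀ L : List (A × Bool), L.length = n → FreeGroup.IsReduced L → L ≠ [] →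
      gw h L • x0 ≠ x0 := by
  have hx0A : x0 ∉ A := by
    rw [hA]
    push Not
    exact ⟨1, one_mem _, one_smul _ _⟩
  intro n
  induction n using Nat.strong_induction_on with
  | _ n IH =>
  intro L hLn hL hne hfix
  have IH' : ∀ N : List (A × Bool), N.length < n → FreeGroup.IsReduced N → N ≠ [] →
      gw h N • x0 ≠ x0 := fun N hN => IH _ hN N rfl
  rcases L with _ | ⟨x, M⟩
  · exact hne rfl
  have hlen : M.length + 1 = n := by simpa using hLn
  by_cases hM : M = []
  · subst hM
    rcases x with ⟨t, b⟩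
    have htne : (t : Z) ≠ x0 := fun h => hx0A (h ▸ t.2)
    cases b
    · rw [gw_cons, gw_nil, mul_one] at hfix
      have h1 : (h t)⁻¹ • x0 = x0 := hfix
      rw [inv_smul_eq_iff, hbase] at h1
      exact htne h1.symm
    · rw [gw_cons, gw_nil, mul_one] at hfix
      have h1 : h t • x0 = x0 := hfix
      rw [hbase] at h1
      exact htne h1
  · have hMred : FreeGroup.IsReduced M := red_sub hL (List.suffix_cons x M).isInfix
    have hMx : gw h M • x0 ≠ x0 := IH' M (by omega) hMred hM
    -- remove the last letter when it is positive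
    obtain ⟨M', p, hp, hGP, hact, hform⟩ : ∃ (M' : List (A × Bool)) (p : Z),
        (p = x0 ∨ p ∈ A) ∧ GP h x0 M' p ∧ gw h M' • p = gw h M • x0 ∧
        ((M' = M) ∨ (∃ y : A, M = M' ++ [(y, true)] ∧ p = y)) := by
      obtain ⟨M1, y, rfl⟩ : ∃ M1 y, M = M1 ++ [y] := by
        have := List.eq_nil_or_concat M
        rcases this with h | ⟨M1, y, h⟩
        · exact absurd h hM
        · exact ⟨M1, y, by simpa using h⟩
      rcases y with ⟨s, b⟩
      cases b
      · refine ⟨M1 ++ [(s, false)], x0, Or.inl rfl, ?_, rfl, Or.inl rfl⟩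
        refine gp_of _ _ ?_ (Or.inr ?_)
        · intro N hN hNne
          refine IH' N ?_ (red_sub hMred hN.isInfix) hNne
          have := hN.length_le
          omega
        · intro y hy
          simp at hy
          rw [← hy]
      · refine ⟨M1, s, Or.inr s.2, ?_, ?_, Or.inr ⟨s, rfl, rfl⟩⟩
        · refine gp_of _ _ ?_ (Or.inl ?_)
          · intro N hN hNne
            have h1 : N ++ [(s, true)] <:+ M1 ++ [(s, true)] := by
              obtain ⟨R, hR⟩ := hN
              exact ⟨R, by rw [← List.append_assoc, hR]⟩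
            have h2 := IH' (N ++ [(s, true)]) (by
              have := h1.length_le
              omega) (red_sub hMred h1.isInfix) (by simp)
            rw [gw_append, mul_smul] at h2
            have h3 : gw h [(s, true)] • x0 = (s : Z) := by
              rw [gw_cons, gw_nil, mul_one]
              exact hbase s
            rwa [h3] at h2
          · exact fun h => hx0A (h ▸ s.2)
        · rw [gw_append, mul_smul]
          have h3 : gw h [(s, true)] • x0 = (s : Z) := by
            rw [gw_cons, gw_nil, mul_one]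
            exact hbase s
          rw [h3]
    have hM'red : FreeGroup.IsReduced M' := by
      rcases hform with rfl | ⟨y, hy, _⟩
      · exact hMred
      · exact red_sub hMred (by rw [hy]; exact (List.prefix_append _ _).isInfix)
    rcases x with ⟨t, b⟩
    cases b
    · -- negative head letter
      have h1 : gw h M • x0 = (t : Z) := by
        rw [gw_cons, mul_smul] at hfix
        have h2 : (h t)⁻¹ • gw h M • x0 = x0 := hfix
        rw [inv_smul_eq_iff, hbase] at h2
        exact h2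
      by_cases hM' : M' = []
      · rcases hform with h2 | ⟨y, hy, hpy⟩
        · exact hM (h2 ▸ hM')
        · rw [hM', List.nil_append] at hy
          rw [hM', gw_nil, one_smul, h1, hpy] at hact
          have hty : y = t := Subtype.ext hact
          rw [hy, hty] at hL
          rw [FreeGroup.isReduced_cons_cons] at hL
          have := hL.1 rfl
          simp at this
      · refine fin_contra (τ := τ) hσ hρ hbad hbot hA hbase hM'red hM' hp
          (p' := (t : Z)) (Or.inr t.2) (hact.trans h1) ?_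
        have h2 := gen_path hgen M' p hGP
        rwa [hact, h1] at h2
    · -- positive head letter
      have h1 : GP h x0 ((t, true) :: M') p := by
        refine ⟨hGP, fun _ => by rw [hact]; exact hMx, fun h => by simp at h⟩
      have h2 : gw h ((t, true) :: M') • p = x0 := by
        rw [gw_cons, mul_smul, hact, ← mul_smul, ← gw_cons]
        exact hfix
      have h3 := gen_path hgen _ p h1
      rw [h2] at h3
      refine fin_contra (τ := τ) hσ hρ hbad hbot hA hbase ?_ (by simp) hp (p' := x0)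
        (Or.inl rfl) h2 h3
      rcases hform with rfl | ⟨y, hy, _⟩
      · exact hL
      · refine red_sub hL ?_
        rw [hy]
        exact (List.prefix_append ((t, true) :: M') [(y, true)]).isInfix

end main

end Pool.Agent.Helper575.LT2
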