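import Pool.Agent.Helper575.LT2

set_option autoImplicit false

namespace Pool.Agent.Helper575.LT3

open Function Pool.Agent.Helper575.LT2

variable {K : ℕ → Type} [∀ i, Group (K i)]

theorem exists_order {Z : Type} (x0 : Z) (hZ : Cardinal.aleph0 < Cardinal.mk Z) :
    ∃ (i : LinearOrder Z), @WellFoundedLT Z i.toLT ∧ (∀ z : Z, i.le x0 z) ∧
      ∀ m : Z, Cardinal.mk {t : Z // i.le t m} < Cardinal.mk Z := by
  classical
  let α := (Cardinal.mk Z).ord.ToType
  have hcard : Cardinal.mk Z = Cardinal.mk α := by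
    rw [Cardinal.mk_ord_toType]
  obtain ⟨e0⟩ := Cardinal.eq.1 hcard
  have : Nonempty α := ⟨e0 x0⟩
  obtain ⟨b, hb⟩ : ∃ b : α, ∀ a : α, b ≤ a := by
    obtain ⟨b, _, hb⟩ := WellFounded.has_min (wellFounded_lt (α := α)) Set.univ Set.univ_nonempty
    exact ⟨b, fun a => not_lt.1 (hb a (Set.mem_univ a))⟩
  let e : Z ≃ α := e0.trans (Equiv.swap (e0 x0) b)
  have he : e x0 = b := by simp [e]
  let i : LinearOrder Z := LinearOrder.lift' e e.injective
  have hle : ∀ a c : Z, a ≤ c ↔ e a ≤ e c := fun a c => Iff.rfl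
  have hlt : ∀ a c : Z, a < c ↔ e a < e c := fun a c => Iff.rfl
  refine ⟨i, ?_, ?_, ?_⟩
  · constructor
    exact InvImage.wf e (wellFounded_lt (α := α))
  · intro z
    show x0 ≤ z
    rw [hle, he]
    exact hb _
  · intro m
    have h1 : Cardinal.mk (Set.Iio (e m)) < Cardinal.mk Z := Cardinal.mk_Iio_toType_ord_lt _
    have h2 : Cardinal.mk {t : Z // t ≤ m} ≤ Cardinal.mk (Set.Iio (e m)) + 1 := by
      have h3 : Cardinal.mk {t : Z // t ≤ m} = Cardinal.mk (Set.Iic (e m)) :=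
        Cardinal.mk_congr (e.subtypeEquiv fun a => by rw [hle]; rfl)
      rw [h3]
      have h4 : Set.Iic (e m) ⊆ Set.Iio (e m) ∪ {e m} := by
        intro x hx
        rcases (le_iff_lt_or_eq.1 (Set.mem_Iic.1 hx)) with h | h
        · exact Or.inl h
        · exact Or.inr h
      refine (Cardinal.mk_le_mk_of_subset h4).trans ((Cardinal.mk_union_le _ _).trans ?_)
      rw [Cardinal.mk_singleton]
    exact lt_of_le_of_lt h2 (Cardinal.add_lt_of_lt hZ.le h1
      (lt_of_lt_of_le Cardinal.one_lt_aleph0 hZ.le))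

/-- the set of generators -/
theorem exists_A {Z : Type} [LinearOrder Z] [WellFoundedLT Z] {𝒢 : Type*} [Group 𝒢] [MulAction 𝒢 Z]
    (x0 : Z) (h : Z → 𝒢) : ∃ A : Set Z, ∀ x : Z, x ∈ A ↔
      ¬ ∃ g ∈ Subgroup.closure {g : 𝒢 | ∃ t < x, t ∈ A ∧ g = h t}, g • x0 = x := by
  classical
  let P : Z → Prop := WellFounded.fix (wellFounded_lt (α := Z)) fun x IH =>
    ¬ ∃ g ∈ Subgroup.closure {g : 𝒢 | ∃ (t : Z) (ht : t < x), IH t ht ∧ g = h t}, g • x0 = x
  have hP : ∀ x, P x = ¬ ∃ g ∈ Subgroup.closure {g : 𝒢 | ∃ (t : Z) (_ : t < x), P t ∧ g = h t},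
      g • x0 = x := fun x => WellFounded.fix_eq _ _ _
  refine ⟨{x | P x}, fun x => ?_⟩
  show P x ↔ _
  rw [hP]
  have : {g : 𝒢 | ∃ (t : Z) (_ : t < x), P t ∧ g = h t} =
      {g : 𝒢 | ∃ t < x, t ∈ {x | P x} ∧ g = h t} := by
    ext g
    constructor
    · rintro ⟨t, ht, h1, h2⟩; exact ⟨t, ht, h1, h2⟩
    · rintro ⟨t, ht, h1, h2⟩; exact ⟨t, ht, h1, h2⟩
  rw [this]

theorem simply_transitive {Z : Type} (x0 : Z) (hZ : Cardinal.aleph0 < Cardinal.mk Z)
    (ρ : FreeGroup Z →* ((i : ℕ) → K i)) (τ : Z → (i : ℕ) → K i)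
    (hρ : ∀ w : FreeGroup Z, w ≠ 1 → ∀ N : ℕ, ∃ i ≥ N, ρ w i ≠ 1)
    {𝒢 : Type*} [Group 𝒢] [MulAction 𝒢 Z] (H : Z → Z → 𝒢)
    (hbase : ∀ x s : Z, H x s • x0 = x)
    (hgen : ∀ x s z : Z, z ≠ x0 → TE (τ (H x s • z)) (ρ (FreeGroup.of s) * τ z)) :
    ∃ (A : Set Z) (h : Z → 𝒢),
      Bijective fun w : FreeGroup A => (FreeGroup.lift (fun t : A => h t) w) • x0 := by
  obtain ⟨i, hwf, hbot, hsmall⟩ := exists_order x0 hZ
  let _ := i
  have := hwf
  obtain ⟨σ, hσ, hbad⟩ := exists_sigma (ρ := ρ) (τ := τ) hρ hZ hsmall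
  let h : Z → 𝒢 := fun t => H t (σ t)
  obtain ⟨A, hA⟩ := exists_A x0 h
  have hstab := stab_trivial (x0 := x0) (τ := τ) (A := A) (h := h) hσ hρ hbad hbot hA
    (fun t => hbase t (σ t)) (fun t z hz => hgen t (σ t) z hz)
  have hlift : ∀ L : List (A × Bool),
      FreeGroup.lift (fun t : A => h t) (FreeGroup.mk L) = gw h L := by
    intro L
    rw [FreeGroup.lift_mk]
    rfl
  have hstab' : ∀ w : FreeGroup A, (FreeGroup.lift (fun t : A => h t) w) • x0 = x0 → w = 1 := by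
    classical
    intro w hw
    by_contra hne
    have h1 : w.toWord ≠ [] := fun h => hne (FreeGroup.toWord_eq_nil_iff.1 h)
    refine hstab _ w.toWord rfl FreeGroup.isReduced_toWord h1 ?_
    rw [← hlift, FreeGroup.mk_toWord]
    exact hw
  refine ⟨A, h, ?_, ?_⟩
  · intro w w' hww
    simp only at hww
    have h1 : (FreeGroup.lift (fun t : A => h t) (w'⁻¹ * w)) • x0 = x0 := by
      rw [map_mul, mul_smul, hww, map_inv, inv_smul_smul]
    have h2 := hstab' _ h1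
    exact (inv_mul_eq_one.1 h2).symm
  · intro z
    have hsub : ∀ g ∈ Subgroup.closure {g : 𝒢 | ∃ t < z, t ∈ A ∧ g = h t},
        ∃ w : FreeGroup A, FreeGroup.lift (fun t : A => h t) w = g := by
      intro g hg
      have h1 : Subgroup.closure {g : 𝒢 | ∃ t < z, t ∈ A ∧ g = h t} ≤
          (FreeGroup.lift (fun t : A => h t)).range := by
        rw [Subgroup.closure_le]
        rintro g ⟨t, _, htA, rfl⟩
        exact ⟨FreeGroup.of ⟨t, htA⟩, by simp⟩
      exact h1 hg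
    by_cases hz : z ∈ A
    · refine ⟨FreeGroup.of ⟨z, hz⟩, ?_⟩
      simp only [FreeGroup.lift_apply_of]
      exact hbase z (σ z)
    · rw [hA] at hz
      push Not at hz
      obtain ⟨g, hg, hgz⟩ := hz
      obtain ⟨w, hw⟩ := hsub g hg
      exact ⟨w, by simp only [hw, hgz]⟩

end Pool.Agent.Helper575.LT3
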