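import Pool.Agent.Helper575.LT3

set_option autoImplicit false

namespace Pool.Agent.Helper575.LT4

open Function Pool.Agent.Helper575.LT2 Topology

variable {Y : Type} [TopologicalSpace Y] {K : ℕ → Type} [∀ i, Group (K i)]
  [∀ i, TopologicalSpace (K i)] [∀ i, DiscreteTopology (K i)]

/-- The basic homeomorphism: it moves the base point to a prescribed point and multiplies the
tail of every other point by `k`. -/
theorem exists_homeo (f : Y ≃ₜ Y) (y0 : Y) (A : ℕ → Set Y) (hA : ∀ n, IsClopen (A n))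
    (hanti : Antitone A) (hy0 : ∀ n, y0 ∈ A n) (hsep : ∀ y, y ≠ y0 → ∃ n, y ∉ A n)
    (z k : (i : ℕ) → K i) :
    ∃ h : (Y × ((i : ℕ) → K i)) ≃ₜ (Y × ((i : ℕ) → K i)), h (y0, 1) = (f y0, z) ∧
      ∀ x, x ≠ (y0, 1) → TE (h x).2 (k * x.2) := by
  classical
  let U : ℕ → Set (Y × ((i : ℕ) → K i)) := fun i => {x | x.1 ∈ A i ∧ ∀ j < i, x.2 j = 1}
  let U' : ℕ → Set (Y × ((i : ℕ) → K i)) := fun i => {x | f.symm x.1 ∈ A i ∧ ∀ j < i, x.2 j = z j}
  let F : Y × ((i : ℕ) → K i) → Y × ((i : ℕ) → K i) := fun x =>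
    (f x.1, fun i => if x ∈ U i then z i * x.2 i else k i * x.2 i)
  let G : Y × ((i : ℕ) → K i) → Y × ((i : ℕ) → K i) := fun x =>
    (f.symm x.1, fun i => if x ∈ U' i then (z i)⁻¹ * x.2 i else (k i)⁻¹ * x.2 i)
  have hUanti : ∀ {x : Y × ((i : ℕ) → K i)} {i j : ℕ}, j ≤ i → x ∈ U i → x ∈ U j := by
    intro x i j hij hx
    exact ⟨hanti hij hx.1, fun l hl => hx.2 l (lt_of_lt_of_le hl hij)⟩
  have hU'anti : ∀ {x : Y × ((i : ℕ) → K i)} {i j : ℕ}, j ≤ i → x ∈ U' i → x ∈ U' j := by
    intro x i j hij hx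
    exact ⟨hanti hij hx.1, fun l hl => hx.2 l (lt_of_lt_of_le hl hij)⟩
  have hF2 : ∀ x i, (F x).2 i = if x ∈ U i then z i * x.2 i else k i * x.2 i := fun _ _ => rfl
  have hG2 : ∀ x i, (G x).2 i = if x ∈ U' i then (z i)⁻¹ * x.2 i else (k i)⁻¹ * x.2 i :=
    fun _ _ => rfl
  have h1 : ∀ x i, F x ∈ U' i ↔ x ∈ U i := by
    intro x i
    constructor
    · rintro ⟨hx1, hx2⟩
      have hx1' : x.1 ∈ A i := by simpa [F] using hx1
      refine ⟨hx1', ?_⟩
      intro j
      induction j using Nat.strong_induction_on with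
      | _ j ih =>
        intro hj
        have hxU : x ∈ U j := ⟨hanti hj.le hx1', fun l hl => ih l hl (hl.trans hj)⟩
        have := hx2 j hj
        rw [hF2, if_pos hxU] at this
        exact mul_eq_left.1 this
    · intro hx
      refine ⟨by simpa [F] using hx.1, fun j hj => ?_⟩
      rw [hF2, if_pos (hUanti hj.le hx), hx.2 j hj, mul_one]
  have h2 : ∀ x i, G x ∈ U i ↔ x ∈ U' i := by
    intro x i
    constructor
    · rintro ⟨hx1, hx2⟩
      refine ⟨hx1, ?_⟩
      intro j
      induction j using Nat.strong_induction_on with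
      | _ j ih =>
        intro hj
        have hxU : x ∈ U' j := ⟨hanti hj.le hx1, fun l hl => ih l hl (hl.trans hj)⟩
        have := hx2 j hj
        rw [hG2, if_pos hxU] at this
        exact (inv_mul_eq_one.1 this).symm
    · intro hx
      refine ⟨hx.1, fun j hj => ?_⟩
      rw [hG2, if_pos (hU'anti hj.le hx), hx.2 j hj, inv_mul_cancel]
  have hGF : ∀ x, G (F x) = x := by
    intro x
    refine Prod.ext (by simp [F, G]) ?_
    funext i
    rw [hG2, hF2]
    by_cases hx : x ∈ U i
    · rw [if_pos ((h1 x i).2 hx), if_pos hx, inv_mul_cancel_left]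
    · rw [if_neg (fun h => hx ((h1 x i).1 h)), if_neg hx, inv_mul_cancel_left]
  have hFG : ∀ x, F (G x) = x := by
    intro x
    refine Prod.ext (by simp [F, G]) ?_
    funext i
    rw [hF2, hG2]
    by_cases hx : x ∈ U' i
    · rw [if_pos ((h2 x i).2 hx), if_pos hx, mul_inv_cancel_left]
    · rw [if_neg (fun h => hx ((h2 x i).1 h)), if_neg hx, mul_inv_cancel_left]
  have hcl : ∀ (c : (i : ℕ) → K i) (j : ℕ),
      IsClopen {x : Y × ((i : ℕ) → K i) | x.2 j = c j} := by
    intro c j
    exact (isClopen_discrete ({c j} : Set (K j))).preimage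
      ((continuous_apply j).comp continuous_snd)
  have hball : ∀ (c : (i : ℕ) → K i) (i : ℕ),
      IsClopen {x : Y × ((i : ℕ) → K i) | ∀ j < i, x.2 j = c j} := by
    intro c i
    have : {x : Y × ((i : ℕ) → K i) | ∀ j < i, x.2 j = c j} =
        ⋂ j ∈ Finset.range i, {x : Y × ((i : ℕ) → K i) | x.2 j = c j} := by
      ext x; simp
    rw [this]
    exact isClopen_biInter_finset fun j _ => hcl c j
  have hUc : ∀ i, IsClopen (U i) := fun i =>
    ((hA i).preimage continuous_fst).inter (hball 1 i)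
  have hU'c : ∀ i, IsClopen (U' i) := fun i =>
    ((hA i).preimage (f.symm.continuous.comp continuous_fst)).inter (hball z i)
  have hmul : ∀ (c : (i : ℕ) → K i) (i : ℕ),
      Continuous fun x : Y × ((i : ℕ) → K i) => c i * x.2 i := by
    intro c i
    exact (continuous_of_discreteTopology (f := fun u : K i => c i * u)).comp
      ((continuous_apply i).comp continuous_snd)
  have hFc : Continuous F := by
    refine (f.continuous.comp continuous_fst).prodMk (continuous_pi fun i => ?_)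
    refine Continuous.if ?_ (hmul z i) (hmul k i)
    intro a ha
    have : frontier {x | x ∈ U i} = ∅ := (hUc i).frontier_eq
    rw [this] at ha
    exact absurd ha (Set.notMem_empty a)
  have hGc : Continuous G := by
    refine (f.symm.continuous.comp continuous_fst).prodMk (continuous_pi fun i => ?_)
    refine Continuous.if ?_ (hmul z⁻¹ i) (hmul k⁻¹ i)
    intro a ha
    have : frontier {x | x ∈ U' i} = ∅ := (hU'c i).frontier_eq
    rw [this] at ha
    exact absurd ha (Set.notMem_empty a)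
  refine ⟨⟨⟨F, G, hGF, hFG⟩, hFc, hGc⟩, ?_, ?_⟩
  · show F (y0, 1) = (f y0, z)
    refine Prod.ext rfl ?_
    funext i
    have hmem : (y0, (1 : (i : ℕ) → K i)) ∈ U i := ⟨hy0 i, fun _ _ => rfl⟩
    rw [hF2, if_pos hmem]
    simp
  · intro x hx
    show TE (F x).2 (k * x.2)
    obtain ⟨N, hN⟩ : ∃ N, ∀ i ≥ N, x ∉ U i := by
      by_cases h3 : x.1 = y0
      · have h4 : x.2 ≠ 1 := by
          intro h4
          exact hx (Prod.ext h3 h4)
        obtain ⟨j, hj⟩ := Function.ne_iff.1 h4
        exact ⟨j + 1, fun i hi hU => hj (hU.2 j (by omega))⟩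
      · obtain ⟨n, hn⟩ := hsep x.1 h3
        exact ⟨n, fun i hi hU => hn (hanti hi hU.1)⟩
    exact ⟨N, fun i hi => by rw [hF2, if_neg (hN i hi)]; rfl⟩

end Pool.Agent.Helper575.LT4
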