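import Mathlib

set_option autoImplicit false

namespace Pool.Agent.Helper575.LT5

open Function Topology Filter Classical

/-- the Cantor set -/
abbrev C := ℕ → Bool

/-- values: a point of the Cantor set, or stop -/
abbrev X := C ⊕ Unit

/-- labellings of the nodes of the tree of finite sequences of points of `C` -/
abbrev Fn := List C → X

/-- the only active child of a node is the one named by its value -/
def IsPath (φ : Fn) : Prop := ∀ u c, φ (u ++ [c]) = Sum.inr () ∨ φ u = Sum.inl c

/-- the space: finite non-empty and infinite sequences of points of `C` -/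
abbrev Y := {φ : Fn // φ [] ≠ Sum.inr () ∧ IsPath φ}

theorem ev (u : List C) : Continuous fun φ : Fn => φ u := continuous_apply u

theorem isClosed_Y : IsClosed {φ : Fn | φ [] ≠ Sum.inr () ∧ IsPath φ} := by
  have h1 : IsClosed {φ : Fn | φ [] ≠ Sum.inr ()} := by
    have h2 : IsOpen ({Sum.inr ()} : Set X) := by
      have : ({Sum.inr ()} : Set X) = Set.range Sum.inr := by
        ext x; rcases x with x | x <;> simp
      rw [this]; exact isOpen_range_inr
    have h3 : IsClosed (({Sum.inr ()} : Set X)ᶜ) := h2.isClosed_compl
    exact h3.preimage (ev [])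
  have h2 : IsClosed {φ : Fn | IsPath φ} := by
    have : {φ : Fn | IsPath φ} =
        ⋂ (u : List C), ⋂ (c : C), ({φ : Fn | φ (u ++ [c]) = Sum.inr ()} ∪
          {φ : Fn | φ u = Sum.inl c}) := by
      ext φ
      simp [IsPath]
    rw [this]
    refine isClosed_iInter fun u => isClosed_iInter fun c => IsClosed.union ?_ ?_
    · exact (isClosed_singleton (x := (Sum.inr () : X))).preimage (ev (u ++ [c]))
    · exact (isClosed_singleton (x := (Sum.inl c : X))).preimage (ev u)
  exact h1.inter h2

instance : CompactSpace Y := isCompact_iff_compactSpace.1 isClosed_Y.isCompact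

/-- below a node whose value is not `d`, the child `d` is dead -/
theorem off_path {φ : Fn} (h : IsPath φ) {u : List C} {d : C} (hu : φ u ≠ Sum.inl d)
    (v : List C) : φ (u ++ d :: v) = Sum.inr () := by
  induction v using List.reverseRecOn with
  | nil => exact (h u d).resolve_right hu
  | append_singleton v e ih =>
    have h1 := h (u ++ d :: v) e
    rw [ih] at h1
    have e1 : u ++ d :: (v ++ [e]) = (u ++ d :: v) ++ [e] := by simp
    rw [e1]
    rcases h1 with h1 | h1
    · exact h1
    · exact absurd h1 (by simp)

theorem off_stop {φ : Fn} (h : IsPath φ) {u : List C} (hu : φ u = Sum.inr ()) (v : List C) :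
    φ (u ++ v) = Sum.inr () := by
  rcases v with _ | ⟨d, v⟩
  · simpa using hu
  · exact off_path h (by rw [hu]; simp) v

/-- prefixing -/
noncomputable def pre (c : C) (φ : Fn) : Fn
  | [] => Sum.inl c
  | d :: v => if d = c then φ v else Sum.inr ()

theorem pre_path {φ : Fn} (c : C) (h : IsPath φ) : IsPath (pre c φ) := by
  intro u d
  rcases u with _ | ⟨e, u⟩
  · show (if d = c then φ [] else Sum.inr ()) = Sum.inr () ∨ Sum.inl c = Sum.inl d
    by_cases hd : d = c
    · right; rw [hd]
    · left; rw [if_neg hd]
  · show (if e = c then φ (u ++ [d]) else Sum.inr ()) = Sum.inr () ∨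
      (if e = c then φ u else Sum.inr ()) = Sum.inl d
    by_cases he : e = c
    · rw [if_pos he, if_pos he]; exact h u d
    · left; rw [if_neg he]

noncomputable def P (c : C) (y : Y) : Y :=
  ⟨pre c y.1, by simp [pre], pre_path c y.2.2⟩

theorem P_nil (c : C) (y : Y) : (P c y).1 [] = Sum.inl c := rfl

theorem P_cons (c d : C) (v : List C) (y : Y) :
    (P c y).1 (d :: v) = if d = c then y.1 v else Sum.inr () := rfl

theorem continuous_P (c : C) : Continuous (P c) := by
  refine Continuous.subtype_mk ?_ _
  refine continuous_pi fun u => ?_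
  rcases u with _ | ⟨d, v⟩
  · exact continuous_const
  · show Continuous fun y : Y => if d = c then y.1 v else Sum.inr ()
    by_cases hd : d = c
    · simp only [if_pos hd]
      exact (continuous_apply v).comp continuous_subtype_val
    · simp only [if_neg hd]
      exact continuous_const

theorem P_injective (c : C) : Injective (P c) := by
  intro y y' h
  refine Subtype.ext (funext fun v => ?_)
  have := congrFun (congrArg Subtype.val h) (c :: v)
  rw [P_cons, P_cons, if_pos rfl, if_pos rfl] at this
  exact this

theorem exists_head (y : Y) : ∃ c : C, y.1 [] = Sum.inl c := by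
  rcases h : y.1 [] with c | u
  · exact ⟨c, rfl⟩
  · exact absurd h y.2.1

theorem mem_range_P {y : Y} {c : C} : y ∈ Set.range (P c) ↔ y.1 [c] ≠ Sum.inr () := by
  constructor
  · rintro ⟨z, rfl⟩
    rw [P_cons, if_pos rfl]
    exact z.2.1
  · intro h
    have h1 : y.1 [] = Sum.inl c := (y.2.2 [] c).resolve_left h
    refine ⟨⟨fun v => y.1 (c :: v), h, fun u d => y.2.2 (c :: u) d⟩, ?_⟩
    refine Subtype.ext (funext fun v => ?_)
    rcases v with _ | ⟨d, v⟩
    · rw [P_nil, h1]
    · rw [P_cons]
      by_cases hd : d = c
      · rw [if_pos hd, hd]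
      · rw [if_neg hd]
        exact (off_path y.2.2 (u := []) (d := d) (by rw [h1]; simpa using fun h => hd h.symm) v).symm

/-- relabelling of the first entry -/
noncomputable def rel (g : C → C) (φ : Fn) : Fn
  | [] => Sum.map g id (φ [])
  | d :: v => if h : ∃ c', g c' = d then φ (h.choose :: v) else Sum.inr ()

theorem rel_cons_apply {g : C → C} (hg : Injective g) (φ : Fn) (c : C) (v : List C) :
    rel g φ (g c :: v) = φ (c :: v) := by
  have h : ∃ c', g c' = g c := ⟨c, rfl⟩
  show (if h : ∃ c', g c' = g c then φ (h.choose :: v) else Sum.inr ()) = _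
  rw [dif_pos h, hg h.choose_spec]

theorem rel_cons_not {g : C → C} (φ : Fn) {d : C} (hd : ∀ c, g c ≠ d) (v : List C) :
    rel g φ (d :: v) = Sum.inr () := by
  show (if h : ∃ c', g c' = d then φ (h.choose :: v) else Sum.inr ()) = _
  rw [dif_neg]
  rintro ⟨c, hc⟩
  exact hd c hc

theorem rel_path {φ : Fn} {g : C → C} (hg : Injective g) (h : IsPath φ) : IsPath (rel g φ) := by
  intro u d
  rcases u with _ | ⟨e, u⟩
  · by_cases hd : ∃ c, g c = d
    · obtain ⟨c, rfl⟩ := hd
      have h1 := h [] c
      rcases h1 with h1 | h1
      · left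
        exact (rel_cons_apply hg φ c []).trans h1
      · right
        show Sum.map g id (φ []) = _
        rw [h1]; rfl
    · left
      exact rel_cons_not φ (fun c hc => hd ⟨c, hc⟩) []
  · by_cases he : ∃ c, g c = e
    · obtain ⟨c, rfl⟩ := he
      rw [List.cons_append, rel_cons_apply hg, rel_cons_apply hg]
      exact h (c :: u) d
    · left
      exact rel_cons_not φ (fun c hc => he ⟨c, hc⟩) _

noncomputable def R (g : C → C) (hg : Injective g) (y : Y) : Y :=
  ⟨rel g y.1, by
    obtain ⟨c, hc⟩ := exists_head y
    show Sum.map g id (y.1 []) ≠ _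
    rw [hc]; simp, rel_path hg y.2.2⟩

theorem R_nil {g : C → C} (hg : Injective g) {y : Y} {c : C} (h : y.1 [] = Sum.inl c) :
    (R g hg y).1 [] = Sum.inl (g c) := by
  show Sum.map g id (y.1 []) = _
  rw [h]; rfl

theorem R_cons {g : C → C} (hg : Injective g) (y : Y) (c : C) (v : List C) :
    (R g hg y).1 (g c :: v) = y.1 (c :: v) := rel_cons_apply hg y.1 c v

theorem R_not {g : C → C} (hg : Injective g) (y : Y) {d : C} (hd : ∀ c, g c ≠ d) (v : List C) :
    (R g hg y).1 (d :: v) = Sum.inr () := rel_cons_not y.1 hd v

theorem continuous_R {g : C → C} (hg : Injective g) (hgc : Continuous g) :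
    Continuous (R g hg) := by
  refine Continuous.subtype_mk ?_ _
  refine continuous_pi fun u => ?_
  rcases u with _ | ⟨d, v⟩
  · show Continuous fun y : Y => Sum.map g id (y.1 [])
    exact (hgc.sumMap continuous_id).comp ((continuous_apply _).comp continuous_subtype_val)
  · show Continuous fun y : Y => if h : ∃ c', g c' = d then y.1 (h.choose :: v) else Sum.inr ()
    by_cases h : ∃ c', g c' = d
    · simp only [dif_pos h]
      exact (continuous_apply _).comp continuous_subtype_val
    · simp only [dif_neg h]
      exact continuous_const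

theorem R_injective {g : C → C} (hg : Injective g) : Injective (R g hg) := by
  intro y y' h
  refine Subtype.ext (funext fun v => ?_)
  rcases v with _ | ⟨c, v⟩
  · obtain ⟨c, hc⟩ := exists_head y
    obtain ⟨c', hc'⟩ := exists_head y'
    have h1 := congrFun (congrArg Subtype.val h) []
    rw [R_nil hg hc, R_nil hg hc'] at h1
    rw [hc, hc', hg (Sum.inl_injective h1)]
  · have h1 := congrFun (congrArg Subtype.val h) (g c :: v)
    rw [R_cons, R_cons] at h1
    exact h1

theorem mem_range_R {g : C → C} (hg : Injective g) {y : Y} :
    y ∈ Set.range (R g hg) ↔ ∃ c, y.1 [] = Sum.inl (g c) := by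
  constructor
  · rintro ⟨z, rfl⟩
    obtain ⟨c, hc⟩ := exists_head z
    exact ⟨c, R_nil hg hc⟩
  · rintro ⟨c, hc⟩
    let ψ : Fn := fun u => match u with
      | [] => Sum.inl c
      | d :: v => y.1 (g d :: v)
    have hψ : IsPath ψ := by
      intro u d
      rcases u with _ | ⟨e, u⟩
      · show y.1 [g d] = _ ∨ Sum.inl c = Sum.inl d
        rcases y.2.2 [] (g d) with h | h
        · exact Or.inl h
        · right
          rw [hc] at h
          rw [hg (Sum.inl_injective h)]
      · exact y.2.2 (g e :: u) d
    refine ⟨⟨ψ, by simp [ψ], hψ⟩, ?_⟩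
    refine Subtype.ext (funext fun v => ?_)
    rcases v with _ | ⟨d, v⟩
    · rw [R_nil hg (c := c) rfl, hc]
    · by_cases hd : ∃ e, g e = d
      · obtain ⟨e, rfl⟩ := hd
        rw [R_cons]
      · rw [R_not hg _ fun e he => hd ⟨e, he⟩]
        refine (off_path y.2.2 (u := []) (d := d) ?_ v).symm
        rw [hc]
        intro h
        exact hd ⟨c, Sum.inl_injective h⟩

/-! ### shifts of the Cantor set -/

/-- prefix a bit -/
def cb (b : Bool) (c : C) : C
  | 0 => b
  | n + 1 => c n

theorem cb_injective (b : Bool) : Injective (cb b) := by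
  intro c c' h
  funext n
  exact congrFun h (n + 1)

theorem continuous_cb (b : Bool) : Continuous (cb b) := by
  refine continuous_pi fun n => ?_
  rcases n with _ | n
  · exact continuous_const
  · exact continuous_apply n

/-- the zero sequence -/
def o : C := fun _ => false

theorem cb_o : cb false o = o := by
  funext n
  rcases n with _ | n <;> rfl

theorem cb_surj (c : C) : ∃ c', c = cb (c 0) c' := by
  refine ⟨fun n => c (n + 1), ?_⟩
  funext n
  rcases n with _ | n <;> rfl

/-- translation -/
def tr (c d : C) : C := fun n => xor (c n) (d n)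

theorem tr_tr (c d : C) : tr c (tr c d) = d := by
  funext n; simp [tr]

theorem tr_injective (c : C) : Injective (tr c) := by
  intro d d' h
  rw [← tr_tr c d, h, tr_tr]

theorem continuous_tr (c : C) : Continuous (tr c) := by
  refine continuous_pi fun n => ?_
  exact (continuous_of_discreteTopology (f := fun b : Bool => xor (c n) b)).comp
    (continuous_apply n)

theorem tr_o (c : C) : tr c o = c := by
  funext n; simp [tr, o]

/-- `0^k 1 c` -/
def bk (k : ℕ) (c : C) : C := (cb false)^[k] (cb true c)

theorem bk_injective (k : ℕ) : Injective (bk k) :=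
  ((cb_injective false).iterate k).comp (cb_injective true)

theorem continuous_bk (k : ℕ) : Continuous (bk k) :=
  ((continuous_cb false).iterate k).comp (continuous_cb true)

theorem bk_lt (k : ℕ) (c : C) (i : ℕ) (hi : i < k) : bk k c i = false := by
  induction k generalizing i with
  | zero => omega
  | succ k ih =>
    have e : bk (k + 1) c = cb false (bk k c) := by
      unfold bk; rw [Function.iterate_succ_apply']
    rw [e]
    rcases i with _ | i
    · rfl
    · exact ih i (by omega)

theorem bk_self (k : ℕ) (c : C) : bk k c k = true := by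
  induction k with
  | zero => rfl
  | succ k ih =>
    have e : bk (k + 1) c = cb false (bk k c) := by
      unfold bk; rw [Function.iterate_succ_apply']
    rw [e]
    exact ih

theorem bk_ne_o (k : ℕ) (c : C) : bk k c ≠ o := by
  intro h
  have := congrFun h k
  rw [bk_self] at this
  simp [o] at this

theorem bk_disj {k l : ℕ} {c d : C} (h : bk k c = bk l d) : k = l := by
  rcases lt_trichotomy k l with hkl | hkl | hkl
  · have h1 := bk_self k c
    rw [h, bk_lt l d k hkl] at h1
    simp at h1
  · exact hkl
  · have h1 := bk_self l d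
    rw [← h, bk_lt k c l hkl] at h1
    simp at h1

theorem bk_surj {c : C} (hc : c ≠ o) : ∃ k c', c = bk k c' := by
  have h : ∃ k, c k = true := by
    by_contra hcon
    push Not at hcon
    refine hc (funext fun n => ?_)
    simpa [o] using hcon n
  have key : ∀ k, ∀ c : C, (∀ i < k, c i = false) → c k = true → ∃ c', c = bk k c' := by
    intro k
    induction k with
    | zero =>
      intro c _ hk
      obtain ⟨c', hc'⟩ := cb_surj c
      exact ⟨c', by rw [hk] at hc'; exact hc'⟩
    | succ k ih =>
      intro c hlt hk
      obtain ⟨c', hc'⟩ := cb_surj c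
      rw [hlt 0 (by omega)] at hc'
      obtain ⟨c'', hc''⟩ := ih c' (by
        intro i hi
        have := hlt (i + 1) (by omega)
        rw [hc'] at this
        exact this) (by
        rw [hc'] at hk
        exact hk)
      refine ⟨c'', ?_⟩
      rw [hc', hc'']
      unfold bk
      rw [Function.iterate_succ_apply']
  exact ⟨Nat.find h, key _ c (fun i hi => by simpa using Nat.find_min h hi) (Nat.find_spec h)⟩

end Pool.Agent.Helper575.LT5
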