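import Pool.Agent.Helper575.LT5

set_option autoImplicit false

namespace Pool.Agent.Helper575.LT6

open Function Topology Filter Classical Pool.Agent.Helper575.LT5

/-! ### the maps -/

theorem continuous_rel {g : C → C} (hgc : Continuous g) (u : List C) :
    Continuous fun φ : Fn => rel g φ u := by
  rcases u with _ | ⟨d, v⟩
  · show Continuous fun φ : Fn => Sum.map g id (φ [])
    exact (hgc.sumMap continuous_id).comp (ev [])
  · show Continuous fun φ : Fn => if h : ∃ c', g c' = d then φ (h.choose :: v) else Sum.inr ()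
    by_cases h : ∃ c', g c' = d
    · simp only [dif_pos h]
      exact ev _
    · simp only [dif_neg h]
      exact continuous_const

/-- the subtree at the node `[o]` -/
noncomputable def sub (y : Y) (h : y.1 [o] ≠ Sum.inr ()) : Y :=
  ⟨fun v => y.1 (o :: v), h, fun u d => y.2.2 (o :: u) d⟩

/-- a bijection from `Y` onto the complement of the range of `P o` -/
noncomputable def Q (y : Y) : Y :=
  if h : y.1 [o] ≠ Sum.inr () then R (cb true) (cb_injective true) (sub y h)
  else R (cb false) (cb_injective false) y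

theorem Q_val (y : Y) (u : List C) :
    (Q y).1 u = if y.1 [o] ≠ Sum.inr () then rel (cb true) (fun v => y.1 (o :: v)) u
      else rel (cb false) y.1 u := by
  by_cases h : y.1 [o] ≠ Sum.inr ()
  · rw [if_pos h, Q, dif_pos h]; rfl
  · rw [if_neg h, Q, dif_neg h]; rfl

theorem isClopen_node (u : List C) : IsClopen {y : Y | y.1 u ≠ Sum.inr ()} := by
  have h2 : IsClopen ({Sum.inr ()} : Set X) := by
    refine ⟨isClosed_singleton, ?_⟩
    have : ({Sum.inr ()} : Set X) = Set.range Sum.inr := by
      ext x; rcases x with x | x <;> simp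
    rw [this]; exact isOpen_range_inr
  exact h2.compl.preimage ((ev u).comp continuous_subtype_val)

theorem continuous_Q : Continuous Q := by
  refine continuous_induced_rng.2 (continuous_pi fun u => ?_)
  show Continuous fun y : Y => (Q y).1 u
  simp only [Q_val]
  refine Continuous.if ?_ ?_ ?_
  · intro a ha
    rw [(isClopen_node [o]).frontier_eq] at ha
    exact absurd ha (Set.notMem_empty a)
  · have h1 : Continuous fun y : Y => (fun v : List C => y.1 (o :: v)) :=
      continuous_pi fun v => (ev (o :: v)).comp continuous_subtype_val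
    exact (continuous_rel (continuous_cb true) u).comp h1
  · exact (continuous_rel (continuous_cb false) u).comp continuous_subtype_val

theorem P_sub {y : Y} (h : y.1 [o] ≠ Sum.inr ()) : P o (sub y h) = y := by
  obtain ⟨z, hz⟩ := mem_range_P.2 h
  have : sub y h = z := by
    refine Subtype.ext (funext fun v => ?_)
    show y.1 (o :: v) = z.1 v
    rw [← hz, P_cons, if_pos rfl]
  rw [this, hz]

theorem Q_node (y : Y) : (Q y).1 [o] = Sum.inr () := by
  by_cases h : y.1 [o] ≠ Sum.inr ()
  · rw [Q, dif_pos h]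
    refine R_not _ _ (fun c hc => ?_) []
    have := congrFun hc 0
    simp [cb, o] at this
  · rw [Q, dif_neg h]
    have h1 := R_cons (cb_injective false) y o []
    rw [cb_o] at h1
    rw [h1]
    exact not_not.1 h

theorem Q_injective : Injective Q := by
  intro y y' h
  obtain ⟨c, hc⟩ := exists_head y
  obtain ⟨c', hc'⟩ := exists_head y'
  by_cases h1 : y.1 [o] ≠ Sum.inr () <;> by_cases h2 : y'.1 [o] ≠ Sum.inr ()
  · rw [Q, Q, dif_pos h1, dif_pos h2] at h
    have h3 := R_injective _ h
    rw [← P_sub h1, ← P_sub h2, h3]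
  · rw [Q, Q, dif_pos h1, dif_neg h2] at h
    obtain ⟨d, hd⟩ := exists_head (sub y h1)
    have h3 := congrFun (congrArg Subtype.val h) []
    rw [R_nil _ hd, R_nil _ hc'] at h3
    have h4 := congrFun (Sum.inl_injective h3) 0
    simp [cb] at h4
  · rw [Q, Q, dif_neg h1, dif_pos h2] at h
    obtain ⟨d, hd⟩ := exists_head (sub y' h2)
    have h3 := congrFun (congrArg Subtype.val h) []
    rw [R_nil _ hd, R_nil _ hc] at h3
    have h4 := congrFun (Sum.inl_injective h3) 0
    simp [cb] at h4
  · rw [Q, Q, dif_neg h1, dif_neg h2] at h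
    exact R_injective _ h

theorem mem_range_Q {y : Y} : y ∈ Set.range Q ↔ y ∉ Set.range (P o) := by
  rw [mem_range_P, not_not]
  constructor
  · rintro ⟨z, rfl⟩; exact Q_node z
  · intro h
    obtain ⟨d, hd⟩ := exists_head y
    obtain ⟨d', hd'⟩ := cb_surj d
    rcases hb : d 0 with _ | _
    · rw [hb] at hd'
      obtain ⟨z, hz⟩ := (mem_range_R (cb_injective false)).2 ⟨d', by rw [hd, hd']⟩
      refine ⟨z, ?_⟩
      have h1 : ¬ (z.1 [o] ≠ Sum.inr ()) := by
        rw [not_not]
        have h2 := R_cons (cb_injective false) z o []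
        rw [cb_o, hz] at h2
        rw [← h2]; exact h
      rw [Q, dif_neg h1, hz]
    · rw [hb] at hd'
      obtain ⟨z, hz⟩ := (mem_range_R (cb_injective true)).2 ⟨d', by rw [hd, hd']⟩
      refine ⟨P o z, ?_⟩
      have h1 : (P o z).1 [o] ≠ Sum.inr () := mem_range_P.1 ⟨z, rfl⟩
      rw [Q, dif_pos h1]
      have h2 : sub (P o z) h1 = z := P_injective o (P_sub h1)
      rw [h2, hz]

/-- translation of the first entry -/
noncomputable def T (c : C) : Y → Y := R (tr c) (tr_injective c)

theorem T_T (c : C) (y : Y) : T c (T c y) = y := by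
  refine Subtype.ext (funext fun u => ?_)
  rcases u with _ | ⟨d, v⟩
  · obtain ⟨e, he⟩ := exists_head y
    have h1 : (T c y).1 [] = Sum.inl (tr c e) := R_nil _ he
    have h2 : (T c (T c y)).1 [] = Sum.inl (tr c (tr c e)) := R_nil _ h1
    rw [h2, he, tr_tr]
  · have h1 := R_cons (tr_injective c) (T c y) (tr c d) v
    rw [tr_tr] at h1
    exact h1.trans (R_cons (tr_injective c) y d v)

theorem T_P (c : C) (y : Y) : T c (P o y) = P c y := by
  refine Subtype.ext (funext fun u => ?_)
  rcases u with _ | ⟨d, v⟩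
  · have h1 : (T c (P o y)).1 [] = Sum.inl (tr c o) := R_nil _ rfl
    rw [h1, tr_o]; rfl
  · have h1 := R_cons (tr_injective c) (P o y) (tr c d) v
    rw [tr_tr] at h1
    refine h1.trans ?_
    rw [P_cons, P_cons]
    have h2 : tr c d = o ↔ d = c := by
      constructor
      · intro h; rw [← tr_tr c d, h, tr_o]
      · intro h; subst h; have := tr_tr d o; rwa [tr_o] at this
    simp only [h2]

theorem continuous_T (c : C) : Continuous (T c) := continuous_R _ (continuous_tr c)

noncomputable def Qc (c : C) (y : Y) : Y := T c (Q y)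

theorem mem_range_Qc {c : C} {y : Y} : y ∈ Set.range (Qc c) ↔ y ∉ Set.range (P c) := by
  constructor
  · rintro ⟨z, rfl⟩ ⟨w, hw⟩
    have h1 : P o w = Q z := by
      have := congrArg (T c) hw
      rwa [← T_P, T_T, Qc, T_T] at this
    exact mem_range_Q.1 ⟨z, rfl⟩ ⟨w, h1⟩
  · intro h
    have h1 : T c y ∉ Set.range (P o) := by
      rintro ⟨w, hw⟩
      refine h ⟨w, ?_⟩
      rw [← T_P, hw, T_T]
    obtain ⟨z, hz⟩ := mem_range_Q.2 h1
    exact ⟨z, by rw [Qc, hz, T_T]⟩

theorem continuous_Qc (c : C) : Continuous (Qc c) := (continuous_T c).comp continuous_Q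

theorem Qc_injective (c : C) : Injective (Qc c) :=
  (R_injective (tr_injective c)).comp Q_injective

/-! ### good points -/

/-- `z n ·` converges to `y` uniformly -/
def Conv (j : ℕ × Y → Y) (y : Y) : Prop := ∀ N ∈ 𝓝 y, ∃ n0 : ℕ, ∀ n ≥ n0, ∀ t, j (n, t) ∈ N

theorem conv_of_coord {j : ℕ × Y → Y} {y : Y}
    (h : ∀ u : List C, ∀ O ∈ 𝓝 (y.1 u), ∃ n0 : ℕ, ∀ n ≥ n0, ∀ t, (j (n, t)).1 u ∈ O) :
    Conv j y := by
  have hF : ∀ S : Set (ℕ × Y), S ∈ comap (Prod.fst : ℕ × Y → ℕ) atTop ↔
      ∃ n0 : ℕ, ∀ n ≥ n0, ∀ t, (n, t) ∈ S := by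
    intro S
    rw [mem_comap]
    constructor
    · rintro ⟨A, hA, hAS⟩
      obtain ⟨n0, hn0⟩ := mem_atTop_sets.1 hA
      exact ⟨n0, fun n hn t => hAS (hn0 n hn)⟩
    · rintro ⟨n0, hn0⟩
      exact ⟨Set.Ici n0, mem_atTop n0, fun p hp => hn0 p.1 hp p.2⟩
  have h1 : Tendsto j (comap (Prod.fst : ℕ × Y → ℕ) atTop) (𝓝 y) := by
    rw [tendsto_subtype_rng, tendsto_pi_nhds]
    intro u O hO
    rw [mem_map, hF]
    obtain ⟨n0, hn0⟩ := h u O hO
    exact ⟨n0, fun n hn t => hn0 n hn t⟩
  intro N hN
  have := h1 hN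
  rw [mem_map, hF] at this
  exact this

/-- the complement of `y` is a sequence of copies of `Y` converging to `y` -/
def Good (y : Y) : Prop := ∃ j : ℕ × Y → Y, Continuous j ∧ Injective j ∧
  (∀ z, z ∈ Set.range j ↔ z ≠ y) ∧ Conv j y

theorem good_P {y : Y} (c : C) (h : Good y) : Good (P c y) := by
  obtain ⟨j, hj1, hj2, hj3, hj4⟩ := h
  let j' : ℕ × Y → Y := fun p => match p with
    | (0, t) => Qc c t
    | (n + 1, t) => P c (j (n, t))
  refine ⟨j', ?_, ?_, ?_, ?_⟩
  · rw [continuous_prod_of_discrete_left]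
    intro n
    rcases n with _ | n
    · exact continuous_Qc c
    · exact (continuous_P c).comp (hj1.comp (by fun_prop))
  · rintro ⟨n, t⟩ ⟨m, s⟩ h
    rcases n with _ | n <;> rcases m with _ | m
    · rw [Qc_injective c h]
    · exact absurd ⟨_, Eq.symm h⟩ (mem_range_Qc.1 ⟨t, rfl⟩)
    · exact absurd ⟨_, h⟩ (mem_range_Qc.1 ⟨s, rfl⟩)
    · have h1 := hj2 (P_injective c h)
      rw [Prod.mk.injEq] at h1
      rw [h1.1, h1.2]
  · intro z
    constructor
    · rintro ⟨⟨n, t⟩, rfl⟩
      rcases n with _ | n
      · intro h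
        exact mem_range_Qc.1 ⟨t, rfl⟩ ⟨y, h.symm⟩
      · intro h
        exact (hj3 _).1 ⟨(n, t), rfl⟩ (P_injective c h)
    · intro hz
      by_cases h1 : z ∈ Set.range (P c)
      · obtain ⟨w, rfl⟩ := h1
        have h2 : w ≠ y := fun h => hz (by rw [h])
        obtain ⟨⟨n, t⟩, hnt⟩ := (hj3 w).2 h2
        exact ⟨(n + 1, t), by show P c (j (n, t)) = _; rw [hnt]⟩
      · obtain ⟨t, ht⟩ := mem_range_Qc.2 h1
        exact ⟨(0, t), ht⟩
  · intro N hN
    obtain ⟨n0, hn0⟩ := hj4 _ ((continuous_P c).continuousAt hN)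
    refine ⟨n0 + 1, fun n hn t => ?_⟩
    rcases n with _ | n
    · omega
    · exact hn0 n (by omega) t

theorem good_T {y : Y} (c : C) (h : Good y) : Good (T c y) := by
  obtain ⟨j, hj1, hj2, hj3, hj4⟩ := h
  refine ⟨fun p => T c (j p), (continuous_T c).comp hj1, (R_injective _).comp hj2, ?_, ?_⟩
  · intro z
    constructor
    · rintro ⟨p, rfl⟩ h
      exact (hj3 _).1 ⟨p, rfl⟩ (R_injective _ h)
    · intro hz
      have h1 : T c z ≠ y := by
        intro h; exact hz (by rw [← h, T_T])
      obtain ⟨p, hp⟩ := (hj3 _).2 h1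
      exact ⟨p, by show T c (j p) = z; rw [hp, T_T]⟩
  · intro N hN
    exact hj4 _ ((continuous_T c).continuousAt hN)

/-- the sequence of length one -/
noncomputable def single (c : C) : Y :=
  ⟨fun u => match u with
    | [] => Sum.inl c
    | _ :: _ => Sum.inr (), by simp, by
    intro u d
    rcases u with _ | ⟨e, u⟩
    · exact Or.inl rfl
    · exact Or.inl rfl⟩

theorem T_single (c : C) : T c (single o) = single c := by
  refine Subtype.ext (funext fun u => ?_)
  rcases u with _ | ⟨d, v⟩
  · have h1 : (T c (single o)).1 [] = Sum.inl (tr c o) := R_nil _ rfl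
    rw [h1, tr_o]; rfl
  · have h1 := R_cons (tr_injective c) (single o) (tr c d) v
    rw [tr_tr] at h1
    exact h1

theorem eq_single {y : Y} {c : C} (h1 : y.1 [] = Sum.inl c) (h2 : y.1 [c] = Sum.inr ()) :
    y = single c := by
  refine Subtype.ext (funext fun u => ?_)
  rcases u with _ | ⟨d, v⟩
  · exact h1
  · show y.1 (d :: v) = Sum.inr ()
    by_cases hd : d = c
    · subst hd
      exact off_stop y.2.2 (u := [d]) h2 v
    · exact off_path y.2.2 (u := []) (d := d) (by rw [h1]; simpa using fun h => hd h.symm) v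

theorem good_single_o : Good (single o) := by
  let j : ℕ × Y → Y := fun p => match p with
    | (0, t) => P o t
    | (n + 1, t) => R (bk n) (bk_injective n) t
  refine ⟨j, ?_, ?_, ?_, ?_⟩
  · rw [continuous_prod_of_discrete_left]
    intro n
    rcases n with _ | n
    · exact continuous_P o
    · exact continuous_R _ (continuous_bk n)
  · rintro ⟨n, t⟩ ⟨m, s⟩ h
    rcases n with _ | n <;> rcases m with _ | m
    · rw [P_injective o h]
    · obtain ⟨c, hc⟩ := exists_head s
      have h1 := congrFun (congrArg Subtype.val h) []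
      have h2 : (j (m + 1, s)).1 [] = Sum.inl (bk m c) := R_nil _ hc
      rw [h2] at h1
      exact absurd (Sum.inl_injective h1).symm (bk_ne_o m c)
    · obtain ⟨c, hc⟩ := exists_head t
      have h1 := congrFun (congrArg Subtype.val h) []
      have h2 : (j (n + 1, t)).1 [] = Sum.inl (bk n c) := R_nil _ hc
      rw [h2] at h1
      exact absurd (Sum.inl_injective h1) (bk_ne_o n c)
    · obtain ⟨c, hc⟩ := exists_head t
      obtain ⟨d, hd⟩ := exists_head s
      have h1 := congrFun (congrArg Subtype.val h) []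
      have h2 : (j (n + 1, t)).1 [] = Sum.inl (bk n c) := R_nil _ hc
      have h3 : (j (m + 1, s)).1 [] = Sum.inl (bk m d) := R_nil _ hd
      rw [h2, h3] at h1
      have h4 := bk_disj (Sum.inl_injective h1)
      subst h4
      rw [R_injective _ h]
  · intro z
    constructor
    · rintro ⟨⟨n, t⟩, rfl⟩ h
      rcases n with _ | n
      · have h1 := mem_range_P.1 ⟨t, (rfl : P o t = P o t)⟩
        have h2 : (P o t).1 [o] = (single o).1 [o] := congrFun (congrArg Subtype.val h) [o]
        exact h1 h2
      · obtain ⟨c, hc⟩ := exists_head t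
        have h1 := congrFun (congrArg Subtype.val h) []
        have h2 : (j (n + 1, t)).1 [] = Sum.inl (bk n c) := R_nil _ hc
        rw [h2] at h1
        exact absurd (Sum.inl_injective h1) (bk_ne_o n c)
    · intro hz
      obtain ⟨c, hc⟩ := exists_head z
      by_cases hco : c = o
      · subst hco
        by_cases h1 : z.1 [o] = Sum.inr ()
        · exact absurd (eq_single hc h1) hz
        · obtain ⟨t, ht⟩ := mem_range_P.2 h1
          exact ⟨(0, t), ht⟩
      · obtain ⟨k, c', hk⟩ := bk_surj hco
        obtain ⟨t, ht⟩ := (mem_range_R (bk_injective k)).2 ⟨c', by rw [hc, hk]⟩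
        exact ⟨(k + 1, t), ht⟩
  · refine conv_of_coord ?_
    intro u O hO
    rcases u with _ | ⟨d, v⟩
    · -- the root
      have h1 : Tendsto (fun p : ℕ × C => (Sum.inl (bk p.1 p.2) : X))
          (comap (Prod.fst : ℕ × C → ℕ) atTop) (𝓝 (Sum.inl o)) := by
        refine (continuous_inl.tendsto o).comp ?_
        rw [tendsto_pi_nhds]
        intro i
        refine tendsto_const_nhds.congr' ?_
        rw [EventuallyEq, eventually_comap]
        filter_upwards [eventually_gt_atTop i] with n hn p hp
        rw [bk_lt p.1 p.2 i (by rw [hp]; exact hn)]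
        rfl
      have h2 := h1 hO
      rw [mem_map, mem_comap] at h2
      obtain ⟨A, hA, hAS⟩ := h2
      obtain ⟨n0, hn0⟩ := mem_atTop_sets.1 hA
      refine ⟨n0 + 1, fun n hn t => ?_⟩
      rcases n with _ | n
      · omega
      · obtain ⟨c, hc⟩ := exists_head t
        have h3 : (j (n + 1, t)).1 [] = Sum.inl (bk n c) := R_nil _ hc
        rw [h3]
        exact hAS (show (n, c) ∈ Prod.fst ⁻¹' A from hn0 n (by omega))
    · -- other nodes
      have hO' : (Sum.inr () : X) ∈ O := mem_of_mem_nhds hO
      by_cases hd : d = o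
      · refine ⟨1, fun n hn t => ?_⟩
        rcases n with _ | n
        · omega
        · have h3 : (j (n + 1, t)).1 (d :: v) = Sum.inr () :=
            R_not _ _ (fun c hc => bk_ne_o n c (hc.trans hd)) v
          rw [h3]; exact hO'
      · obtain ⟨k, c', hk⟩ := bk_surj hd
        refine ⟨k + 2, fun n hn t => ?_⟩
        rcases n with _ | n
        · omega
        · have h3 : (j (n + 1, t)).1 (d :: v) = Sum.inr () := by
            refine R_not _ _ (fun c hc => ?_) v
            rw [hk] at hc
            have := bk_disj hc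
            omega
          rw [h3]; exact hO'

theorem good_single (c : C) : Good (single c) := by
  rw [← T_single c]
  exact good_T c good_single_o

/-! ### infinite sequences -/

noncomputable def PL : List C → Y → Y
  | [], t => t
  | d :: w, t => P d (PL w t)

theorem PL_append (w w' : List C) (t : Y) : PL (w ++ w') t = PL w (PL w' t) := by
  induction w with
  | nil => rfl
  | cons d w ih => show P d (PL (w ++ w') t) = P d (PL w (PL w' t)); rw [ih]

theorem PL_injective (w : List C) : Injective (PL w) := by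
  induction w with
  | nil => exact fun _ _ h => h
  | cons d w ih => exact (P_injective d).comp ih

theorem continuous_PL (w : List C) : Continuous (PL w) := by
  induction w with
  | nil => exact continuous_id
  | cons d w ih => exact (continuous_P d).comp ih

theorem PL_agree (w : List C) (t t' : Y) (u : List C) (h : u.length < w.length) :
    (PL w t).1 u = (PL w t').1 u := by
  induction w generalizing u with
  | nil => simp at h
  | cons d w ih =>
    show (P d (PL w t)).1 u = (P d (PL w t')).1 u
    rcases u with _ | ⟨e, u⟩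
    · rfl
    · rw [P_cons, P_cons]
      by_cases he : e = d
      · rw [if_pos he, if_pos he]
        exact ih u (by simpa using h)
      · rw [if_neg he, if_neg he]

theorem good_inf (s : ℕ → Y) (c : ℕ → C) (hs : ∀ n, s n = P (c n) (s (n + 1))) : Good (s 0) := by
  let path : ℕ → List C := fun n => (List.range n).map c
  have hpl : ∀ n, (path n).length = n := fun n => by simp [path]
  have hsucc : ∀ n, path (n + 1) = path n ++ [c n] := fun n => by
    simp [path, List.range_succ]
  have hadd : ∀ n k, ∃ w, path (n + 1 + k) = path n ++ c n :: w := by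
    intro n k
    induction k with
    | zero => exact ⟨[], by rw [Nat.add_zero, hsucc]⟩
    | succ k ih =>
      obtain ⟨w, hw⟩ := ih
      exact ⟨w ++ [c (n + 1 + k)], by rw [← Nat.add_assoc, hsucc, hw]; simp⟩
  have hs0 : ∀ n, s 0 = PL (path n) (s n) := by
    intro n
    induction n with
    | zero => rfl
    | succ n ih =>
      rw [hsucc, PL_append]
      show s 0 = PL (path n) (P (c n) (s (n + 1)))
      rw [← hs n]; exact ih
  refine ⟨fun p => PL (path p.1) (Qc (c p.1) p.2), ?_, ?_, ?_, ?_⟩
  · rw [continuous_prod_of_discrete_left]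
    intro n
    exact (continuous_PL (path n)).comp (continuous_Qc (c n))
  · have key : ∀ n m t t', n < m →
        PL (path n) (Qc (c n) t) ≠ PL (path m) (Qc (c m) t') := by
      intro n m t t' hnm h
      obtain ⟨k, rfl⟩ := Nat.exists_eq_add_of_lt hnm
      obtain ⟨w, hw⟩ := hadd n k
      have e : n + k + 1 = n + 1 + k := by omega
      rw [e, hw, PL_append] at h
      have h1 := PL_injective _ h
      exact mem_range_Qc.1 ⟨t, rfl⟩ ⟨_, h1.symm⟩
    rintro ⟨n, t⟩ ⟨m, t'⟩ h
    rcases lt_trichotomy n m with hnm | hnm | hnm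
    · exact absurd h (key n m t t' hnm)
    · subst hnm
      have h1 := Qc_injective _ (PL_injective _ h)
      simp only at h1
      rw [h1]
    · exact absurd h.symm (key m n t' t hnm)
  · intro z
    constructor
    · rintro ⟨⟨n, t⟩, rfl⟩ h
      rw [hs0 n] at h
      have h1 := PL_injective _ h
      simp only at h1
      exact mem_range_Qc.1 ⟨t, rfl⟩ ⟨s (n + 1), by rw [h1]; exact (hs n).symm⟩
    · intro hz
      have h1 : ∃ n, z ∉ Set.range (PL (path n)) := by
        by_contra hcon
        push Not at hcon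
        refine hz (Subtype.ext (funext fun u => ?_))
        obtain ⟨w, hw⟩ := hcon (u.length + 1)
        rw [← hw, hs0 (u.length + 1)]
        exact PL_agree _ _ _ _ (by rw [hpl]; omega)
      have h2 := Nat.find_spec h1
      have h3 := fun m (hm : m < Nat.find h1) => Nat.find_min h1 hm
      rcases hf : Nat.find h1 with _ | k
      · rw [hf] at h2
        exact absurd ⟨z, rfl⟩ h2
      · rw [hf] at h2 h3
        have h4 := not_not.1 (h3 k (by omega))
        obtain ⟨w, hw⟩ := h4
        have h5 : w ∉ Set.range (P (c k)) := by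
          rintro ⟨w', rfl⟩
          refine h2 ⟨w', ?_⟩
          rw [hsucc, PL_append]
          exact hw
        obtain ⟨t, ht⟩ := mem_range_Qc.2 h5
        exact ⟨(k, t), by show PL (path k) (Qc (c k) t) = z; rw [ht, hw]⟩
  · refine conv_of_coord ?_
    intro u O hO
    refine ⟨u.length + 1, fun n hn t => ?_⟩
    show (PL (path n) (Qc (c n) t)).1 u ∈ O
    rw [PL_agree (path n) _ (s n) u (by rw [hpl]; omega), ← hs0 n]
    exact mem_of_mem_nhds hO

theorem cases_Y (y : Y) : (∃ c, y = single c) ∨ ∃ c y', y = P c y' := by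
  obtain ⟨c, hc⟩ := exists_head y
  by_cases h : y.1 [c] = Sum.inr ()
  · exact Or.inl ⟨c, eq_single hc h⟩
  · obtain ⟨z, hz⟩ := mem_range_P.2 h
    exact Or.inr ⟨c, z, hz.symm⟩

theorem good_all (y : Y) : Good y := by
  by_cases h : ∃ w c, y = PL w (single c)
  · obtain ⟨w, c, rfl⟩ := h
    induction w with
    | nil => exact good_single c
    | cons d w ih => exact good_P d ih
  · have key : ∀ y : {y : Y // ¬ ∃ w c, y = PL w (single c)},
        ∃ (c : C) (y' : {y : Y // ¬ ∃ w c, y = PL w (single c)}), y.1 = P c y'.1 := by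
      rintro ⟨y, hy⟩
      rcases cases_Y y with ⟨c, hc⟩ | ⟨c, y', hy'⟩
      · exact absurd ⟨[], c, hc⟩ hy
      · refine ⟨c, ⟨y', ?_⟩, hy'⟩
        rintro ⟨w, d, hw⟩
        exact hy ⟨c :: w, d, by rw [hy', hw]; rfl⟩
    choose f g hfg using key
    let s : ℕ → {y : Y // ¬ ∃ w c, y = PL w (single c)} := fun n => g^[n] ⟨y, h⟩
    have := good_inf (fun n => (s n).1) (fun n => f (s n)) (fun n => by
      show (g^[n] ⟨y, h⟩).1 = P (f (g^[n] ⟨y, h⟩)) (g^[n + 1] ⟨y, h⟩).1
      rw [Function.iterate_succ_apply']
      exact hfg _)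
    exact this

end Pool.Agent.Helper575.LT6
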