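import Pool.Agent.Helper575.LT1
import Pool.Agent.Helper575.LT4
import Pool.Agent.Helper575.LT6

set_option autoImplicit false

namespace Pool.Agent.Helper575.LT7

open Function Topology Filter Classical Pool.Agent.Helper575.LT5 Pool.Agent.Helper575.LT6
open Pool.Agent.Helper575.LT2 (TE)

theorem exists_onePoint (y : Y) : ∃ e : OnePoint (ℕ × Y) ≃ₜ Y, e OnePoint.infty = y := by
  obtain ⟨j, hj1, hj2, hj3, hj4⟩ := good_all y
  let F : OnePoint (ℕ × Y) → Y := fun p => p.elim y j
  have hFi : F OnePoint.infty = y := rfl
  have hFs : ∀ p : ℕ × Y, F (p : OnePoint (ℕ × Y)) = j p := fun _ => rfl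
  have hc : Continuous F := by
    rw [OnePoint.continuous_iff]
    refine ⟨?_, hj1⟩
    rw [hFi]
    intro N hN
    obtain ⟨n0, hn0⟩ := hj4 N hN
    rw [mem_map, hasBasis_coclosedCompact.mem_iff]
    refine ⟨Set.Iio n0 ×ˢ Set.univ, ⟨?_, ?_⟩, ?_⟩
    · exact (isClosed_discrete _).prod isClosed_univ
    · exact (Set.finite_Iio n0).isCompact.prod isCompact_univ
    · intro p hp
      have : ¬ p.1 < n0 := fun h => hp ⟨h, Set.mem_univ _⟩
      exact hn0 p.1 (not_lt.1 this) p.2
  have hb : Bijective F := by
    constructor
    · intro p q h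
      induction p using OnePoint.rec with
      | infty =>
        induction q using OnePoint.rec with
        | infty => rfl
        | coe q => exact absurd h.symm ((hj3 _).1 ⟨q, rfl⟩)
      | coe p =>
        induction q using OnePoint.rec with
        | infty => exact absurd h ((hj3 _).1 ⟨p, rfl⟩)
        | coe q => rw [hj2 h]
    · intro z
      by_cases hz : z = y
      · exact ⟨OnePoint.infty, hz.symm⟩
      · obtain ⟨p, hp⟩ := (hj3 z).2 hz
        exact ⟨(p : OnePoint (ℕ × Y)), hp⟩
  exact ⟨Continuous.homeoOfEquivCompactToT2 (f := Equiv.ofBijective F hb) hc, rfl⟩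

theorem homogeneous (y y' : Y) : ∃ f : Y ≃ₜ Y, f y = y' := by
  obtain ⟨e, he⟩ := exists_onePoint y
  obtain ⟨e', he'⟩ := exists_onePoint y'
  exact ⟨e.symm.trans e', by
    rw [Homeomorph.trans_apply, ← he, Homeomorph.symm_apply_apply, he']⟩

/-! ### the base point -/

noncomputable def z0fn : Fn := fun u => if ∀ c ∈ u, c = o then Sum.inl o else Sum.inr ()

theorem z0_path : IsPath z0fn := by
  intro u d
  by_cases h : ∀ c ∈ u ++ [d], c = o
  · right
    have h1 : ∀ c ∈ u, c = o := fun c hc => h c (by simp [hc])
    have h2 : d = o := h d (by simp)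
    rw [z0fn, if_pos h1, h2]
  · left
    rw [z0fn, if_neg h]

noncomputable def z0 : Y := ⟨z0fn, by simp [z0fn], z0_path⟩

def An (n : ℕ) : Set Y := {y | y.1 (List.replicate n o) ≠ Sum.inr ()}

theorem An_clopen (n : ℕ) : IsClopen (An n) := isClopen_node _

theorem An_succ {y : Y} {n : ℕ} (h : y ∈ An (n + 1)) :
    y.1 (List.replicate n o) = Sum.inl o := by
  have h1 := y.2.2 (List.replicate n o) o
  rw [← List.replicate_succ'] at h1
  exact h1.resolve_left h

theorem An_anti : Antitone An := by
  refine antitone_nat_of_succ_le fun n => ?_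
  intro y hy
  show y.1 _ ≠ _
  rw [An_succ hy]
  simp

theorem z0_mem (n : ℕ) : z0 ∈ An n := by
  have h : ∀ c ∈ List.replicate n o, c = o := fun c hc => List.eq_of_mem_replicate hc
  show z0fn _ ≠ _
  rw [z0fn, if_pos h]
  simp

theorem An_sep (y : Y) (hy : y ≠ z0) : ∃ n, y ∉ An n := by
  by_contra hcon
  push Not at hcon
  apply hy
  refine Subtype.ext (funext fun u => ?_)
  by_cases h : ∀ c ∈ u, c = o
  · have h1 : u = List.replicate u.length o := List.eq_replicate_iff.2 ⟨rfl, h⟩
    have h2 := An_succ (hcon (u.length + 1))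
    rw [← h1] at h2
    rw [h2]
    show _ = z0fn u
    rw [z0fn, if_pos h]
  · have h1 : z0.1 u = Sum.inr () := by
      show z0fn u = _
      rw [z0fn, if_neg h]
    rw [h1]
    -- decompose at the first non-zero entry
    have key : ∀ (k : ℕ) (u : List C), (¬ ∀ c ∈ u, c = o) →
        y.1 (List.replicate k o ++ u) = Sum.inr () := by
      intro k u
      induction u generalizing k with
      | nil => intro h; exact absurd (fun c hc => by simp at hc) h
      | cons d v ih =>
        intro h
        by_cases hd : d = o
        · have h2 : ¬ ∀ c ∈ v, c = o := by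
            intro hv
            apply h
            intro c hc
            rcases List.mem_cons.1 hc with h3 | h3
            · rw [h3, hd]
            · exact hv c h3
          have h3 := ih (k + 1) h2
          rw [List.replicate_succ', List.append_assoc, List.singleton_append] at h3
          rw [hd]; exact h3
        · refine off_path y.2.2 ?_ v
          rw [An_succ (hcon (k + 1))]
          simpa using fun h => hd h.symm
    simpa using key 0 u h

/-! ### cardinality -/

noncomputable def pth (y : Y) : ℕ → List C
  | 0 => []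
  | n + 1 => match y.1 (pth y n) with
    | Sum.inl c => pth y n ++ [c]
    | Sum.inr _ => pth y n

theorem pth_succ {y : Y} {n : ℕ} {c : C} (h : y.1 (pth y n) = Sum.inl c) :
    pth y (n + 1) = pth y n ++ [c] := by
  rw [pth, h]

theorem mem_pth {y : Y} (u : List C) (h : y.1 u ≠ Sum.inr ()) : u = pth y u.length := by
  induction u using List.reverseRecOn with
  | nil => rfl
  | append_singleton u d ih =>
    have h1 : y.1 u = Sum.inl d := (y.2.2 u d).resolve_left h
    have h2 := ih (by rw [h1]; simp)
    have h3 : y.1 (pth y u.length) = Sum.inl d := by rw [← h2]; exact h1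
    rw [List.length_append, List.length_singleton, pth_succ h3, ← h2]

noncomputable def code (y : Y) : ℕ → X := fun n => y.1 (pth y n)

theorem code_injective : Injective code := by
  intro y y' h
  have hp : ∀ n, pth y n = pth y' n := by
    intro n
    induction n with
    | zero => rfl
    | succ n ih =>
      have h1 : y.1 (pth y n) = y'.1 (pth y' n) := congrFun h n
      rw [pth, pth, h1, ih]
  have key : ∀ {a b : Y}, (∀ n, pth a n = pth b n) → code a = code b → ∀ u, a.1 u ≠ Sum.inr () →
      a.1 u = b.1 u := by
    intro a b hab hcode u hu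
    have h1 := mem_pth u hu
    have h2 := congrFun hcode u.length
    simp only [code] at h2
    rw [← hab, ← h1] at h2
    exact h2
  refine Subtype.ext (funext fun u => ?_)
  by_cases h1 : y.1 u = Sum.inr ()
  · by_cases h2 : y'.1 u = Sum.inr ()
    · rw [h1, h2]
    · exact (key (fun n => (hp n).symm) h.symm u h2).symm
  · exact key hp h u h1

theorem mk_C : Cardinal.mk C = Cardinal.continuum := by
  simp [C]

theorem mk_X : Cardinal.mk X ≤ Cardinal.continuum := by
  rw [Cardinal.mk_sum, Cardinal.lift_id, Cardinal.lift_id, mk_C]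
  simpa using (Cardinal.continuum_add_nat 1).le

theorem mk_Y : Cardinal.mk Y ≤ Cardinal.continuum := by
  refine (Cardinal.mk_le_of_injective code_injective).trans ?_
  rw [← Cardinal.power_def]
  calc Cardinal.mk X ^ Cardinal.mk ℕ ≤ Cardinal.continuum ^ Cardinal.mk ℕ :=
        Cardinal.power_le_power_right mk_X
    _ = Cardinal.continuum := by simp

theorem mk_T (m : ℕ → ℕ) : Cardinal.mk ((i : ℕ) → Equiv.Perm (Fin (m i))) ≤ Cardinal.continuum := by
  have h : ∀ i, ∃ f : Equiv.Perm (Fin (m i)) → ℕ, Injective f := fun i =>
    Countable.exists_injective_nat _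
  choose f hf using h
  have h1 : Injective (fun (x : (i : ℕ) → Equiv.Perm (Fin (m i))) (i : ℕ) => f i (x i)) := by
    intro x x' hx
    funext i
    exact hf i (congrFun hx i)
  refine (Cardinal.mk_le_of_injective h1).trans ?_
  simp

end Pool.Agent.Helper575.LT7
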