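import Pool.Agent.Helper575.LT7

set_option autoImplicit false

namespace Pool.Agent.Helper575.LT8

open Function Topology Filter Classical Pool.Agent.Helper575.LT5 Pool.Agent.Helper575.LT6
  Pool.Agent.Helper575.LT7
open Pool.Agent.Helper575.LT2 (TE)

local instance actHomeo (X : Type) [TopologicalSpace X] : MulAction (X ≃ₜ X) X where
  smul f x := f x
  one_smul _ := rfl
  mul_smul _ _ _ := rfl

theorem smul_eq {X : Type} [TopologicalSpace X] (f : X ≃ₜ X) (x : X) : f • x = f x := rfl

local instance topPerm (k : ℕ) : TopologicalSpace (Equiv.Perm (Fin k)) := ⊥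

local instance discPerm (k : ℕ) : DiscreteTopology (Equiv.Perm (Fin k)) := ⟨rfl⟩

theorem single_node (c : C) : (P c z0).1 [c] ≠ Sum.inr () :=
  mem_range_P.1 ⟨z0, rfl⟩

theorem node_disj {y : Y} {c d : C} (hc : y.1 [c] ≠ Sum.inr ()) (hd : y.1 [d] ≠ Sum.inr ()) :
    c = d := by
  have h1 := (y.2.2 [] c).resolve_left hc
  have h2 := (y.2.2 [] d).resolve_left hd
  rw [h1] at h2
  exact Sum.inl.inj h2

/-- The space `Y × ∏ Perm (Fin (m i))` carries a simply transitive action of a free group by
homeomorphisms. -/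
theorem exists_action : ∃ (m : ℕ → ℕ) (A : Type)
    (h : FreeGroup A →* ((Y × ((i : ℕ) → Equiv.Perm (Fin (m i)))) ≃ₜ
      (Y × ((i : ℕ) → Equiv.Perm (Fin (m i))))))
    (x0 : Y × ((i : ℕ) → Equiv.Perm (Fin (m i)))),
      Bijective fun w : FreeGroup A => h w x0 := by
  obtain ⟨m, ρ, hρ⟩ := LT1.exists_rho
  let Z : Type := Y × ((i : ℕ) → Equiv.Perm (Fin (m i)))
  have hZle : Cardinal.mk Z ≤ Cardinal.continuum := by
    rw [Cardinal.mk_prod, Cardinal.lift_id, Cardinal.lift_id]
    calc _ ≤ Cardinal.continuum * Cardinal.continuum := mul_le_mul' mk_Y (mk_T m)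
      _ = Cardinal.continuum := by simp
  have hZgt : Cardinal.aleph0 < Cardinal.mk Z := by
    refine Cardinal.aleph0_lt_continuum.trans_le ?_
    rw [← mk_C]
    refine Cardinal.mk_le_of_injective (f := fun c : C => ((P c z0, 1) : Z)) ?_
    intro c d hcd
    have h1 : P c z0 = P d z0 := congrArg Prod.fst hcd
    exact node_disj (single_node c) (h1 ▸ single_node d)
  obtain ⟨ι, hι⟩ : ∃ ι : Z → (ℕ → Bool), Injective ι := by
    have : Cardinal.mk Z ≤ Cardinal.mk (ℕ → Bool) := by
      refine hZle.trans ?_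
      rw [← mk_C]
    obtain ⟨e⟩ := this
    exact ⟨e, e.injective⟩
  let x0 : Z := (z0, 1)
  have hex : ∀ x s : Z, ∃ h : Z ≃ₜ Z, h x0 = x ∧
      ∀ z : Z, z ≠ x0 → TE (h z).2 (ρ (FreeGroup.of (ι s)) * z.2) := by
    intro x s
    obtain ⟨f, hf⟩ := homogeneous z0 x.1
    obtain ⟨h, h1, h2⟩ := LT4.exists_homeo (K := fun i => Equiv.Perm (Fin (m i))) f z0 An
      An_clopen An_anti z0_mem An_sep x.2 (ρ (FreeGroup.of (ι s)))
    refine ⟨h, ?_, h2⟩
    rw [hf] at h1
    exact h1
  choose H hH1 hH2 using hex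
  obtain ⟨A, h, hb⟩ := LT3.simply_transitive (Z := Z) x0 hZgt (ρ.comp (FreeGroup.map ι))
    (fun z => z.2) (by
      intro w hw N
      have h1 : FreeGroup.map ι w ≠ 1 := by
        intro h
        exact hw (FreeGroup.map_injective hι (by rw [h, map_one]))
      exact hρ _ h1 N) (𝒢 := Z ≃ₜ Z) H hH1 (by
      intro x s z hz
      have h1 := hH2 x s z hz
      rw [MonoidHom.comp_apply, FreeGroup.map.of]
      exact h1)
  exact ⟨m, A, FreeGroup.lift (fun t : A => h t), x0, hb⟩

theorem main :
    ¬ (∀ (G : Type) [Group G] [TopologicalSpace G] [CompactSpace G] [T2Space G]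
      [MeasurableSpace G] [BorelSpace G],
      (∀ g : G, Continuous (fun x : G => g * x)) →
      ∃ μ : MeasureTheory.Measure G, MeasureTheory.IsProbabilityMeasure μ ∧
        ∀ U : Set G, IsOpen U → U.Nonempty → 0 < μ U) := by
  intro hall
  obtain ⟨m, A, h, x0, hb⟩ := exists_action
  let Z : Type := Y × ((i : ℕ) → Equiv.Perm (Fin (m i)))
  let θ : FreeGroup A ≃ Z := Equiv.ofBijective (fun w : FreeGroup A => h w x0) hb
  let _ : TopologicalSpace (FreeGroup A) := TopologicalSpace.induced θ inferInstance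
  let e : FreeGroup A ≃ₜ Z := θ.toHomeomorphOfIsInducing ⟨rfl⟩
  have : CompactSpace (FreeGroup A) := e.symm.compactSpace
  have : T2Space (FreeGroup A) := e.symm.t2Space
  let _ : MeasurableSpace (FreeGroup A) := borel _
  have : BorelSpace (FreeGroup A) := ⟨rfl⟩
  have hcont : ∀ g : FreeGroup A, Continuous (fun x : FreeGroup A => g * x) := by
    intro g
    have h1 : (fun x : FreeGroup A => g * x) = fun x => e.symm (h g (e x)) := by
      funext x
      apply e.injective
      rw [e.apply_symm_apply]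
      show h (g * x) x0 = h g (h x x0)
      rw [map_mul]
      rfl
    rw [h1]
    exact e.symm.continuous.comp ((h g).continuous.comp e.continuous)
  obtain ⟨μ, hμ, hpos⟩ := hall (FreeGroup A) hcont
  let V : C → Set (FreeGroup A) := fun c => {g | (e g).1.1 [c] ≠ Sum.inr ()}
  have hVo : ∀ c, IsOpen (V c) := fun c =>
    (isClopen_node [c]).isOpen.preimage (continuous_fst.comp e.continuous)
  have hVn : ∀ c, (V c).Nonempty := by
    intro c
    refine ⟨e.symm (P c z0, 1), ?_⟩
    show (e (e.symm (P c z0, 1))).1.1 [c] ≠ Sum.inr ()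
    rw [e.apply_symm_apply]
    exact single_node c
  have hVd : Pairwise (Disjoint on V) := by
    intro c d hcd
    rw [Function.onFun, Set.disjoint_left]
    intro g hc hd
    exact hcd (node_disj hc hd)
  have hcount : Set.Countable {c : C | 0 < μ (V c)} :=
    MeasureTheory.Measure.countable_meas_pos_of_disjoint_iUnion
      (fun c => (hVo c).measurableSet) hVd
  have huniv : {c : C | 0 < μ (V c)} = Set.univ := by
    ext c
    simpa using (hpos (V c) (hVo c) (hVn c))
  rw [huniv, Set.countable_univ_iff] at hcount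
  have h1 := Cardinal.mk_le_aleph0_iff.2 hcount
  rw [mk_C] at h1
  exact absurd h1 (not_le.2 Cardinal.aleph0_lt_continuum)

end Pool.Agent.Helper575.LT8
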