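import Pool.Agent.Helper575.FKG

set_option autoImplicit false

namespace Pool.Agent.Helper575.Lag

open MeasureTheory Finset
open scoped ENNReal
open Pool.Agent.Helper575.FKG

variable {n : ℕ}

/-- the open positive orthant -/
def D (n : ℕ) : Set (Fin n → ℝ) := Set.univ.pi fun _ => Set.Ioi 0

noncomputable def mu (n : ℕ) : Measure (Fin n → ℝ) := volume.restrict (D n)

theorem mu_eq (n : ℕ) : mu n = volume.restrict (Set.Ici (0 : Fin n → ℝ)) := by
  have h : (Set.univ.pi fun _ : Fin n => Set.Ioi (0 : ℝ)) =ᵐ[volume] Set.Ici (0 : Fin n → ℝ) :=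
    Measure.univ_pi_Ioi_ae_eq_Ici
  exact Measure.restrict_congr_set h

theorem measurableSet_D : MeasurableSet (D n) :=
  MeasurableSet.univ_pi fun _ => measurableSet_Ioi

theorem isOpen_D : IsOpen (D n) := isOpen_set_pi Set.finite_univ fun _ _ => isOpen_Ioi

theorem ae_pos : ∀ᵐ x ∂(mu n), ∀ j, 0 < x j := by
  have h := ae_restrict_mem (μ := (volume : Measure (Fin n → ℝ))) (measurableSet_D (n := n))
  filter_upwards [h] with x hx j
  exact hx j (Set.mem_univ j)

/-- weight times power product -/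
noncomputable def Q (a t : ℝ) (x : Fin n → ℝ) : ℝ :=
  Real.exp (-∑ j, x j) * V x * ∏ j, (x j + t) ^ a

noncomputable def b (n : ℕ) (T x : ℝ) : ℝ :=
  (1 + T) * ((1 + x) ^ (4 * n + 2) * (Real.exp (-x) * x ^ (-(1 / 2) : ℝ)))

theorem b_integrable (T : ℝ) : IntegrableOn (b n T) (Set.Ioi 0) := by
  unfold b
  refine Integrable.const_mul ?_ _
  have : (fun x : ℝ => (1 + x) ^ (4 * n + 2) * (Real.exp (-x) * x ^ (-(1 / 2) : ℝ))) =
      fun x => ∑ m ∈ range (4 * n + 2 + 1), (((4 * n + 2).choose m : ℕ) : ℝ) *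
        (x ^ m * (Real.exp (-x) * x ^ (-(1 / 2) : ℝ))) := by
    funext x
    rw [add_comm 1 x, add_pow, Finset.sum_mul]
    refine Finset.sum_congr rfl fun m _ => ?_
    ring
  rw [this]
  refine integrable_finsetSum _ fun m _ => Integrable.const_mul ?_ _
  have h := Real.GammaIntegral_convergent (s := (m : ℝ) + 1 / 2) (by positivity)
  refine IntegrableOn.congr_fun h ?_ measurableSet_Ioi
  intro x hx
  have hx0 : 0 < x := hx
  simp only
  have : x ^ ((m : ℝ) + 1 / 2 - 1) = x ^ m * x ^ (-(1 / 2) : ℝ) := by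
    rw [← Real.rpow_natCast, ← Real.rpow_add hx0]
    congr 1; ring
  rw [this]; ring

noncomputable def B (n : ℕ) (T : ℝ) (x : Fin n → ℝ) : ℝ := ∏ j, b n T (x j)

theorem B_integrable (T : ℝ) : Integrable (B n T) (mu n) := by
  unfold B mu D
  rw [volume_pi, Measure.restrict_pi_pi]
  exact Integrable.fintype_prod fun _ => b_integrable T

theorem V_le {x : Fin n → ℝ} (hx : ∀ j, 0 < x j) : V x ≤ ∏ j, (1 + x j) ^ (4 * n) := by
  have h1 : ∀ i, (1 : ℝ) ≤ 1 + x i := fun i => by linarith [hx i]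
  have h2 : ∀ i j, (x j - x i) ^ 2 ≤ ((1 + x i) * (1 + x j)) ^ 2 := by
    intro i j
    have hi := hx i
    have hj := hx j
    rw [← sq_abs]
    refine pow_le_pow_left₀ (abs_nonneg _) ?_ 2
    rw [abs_le]
    constructor <;> nlinarith [mul_pos hi hj]
  calc V x ≤ ∏ i, ∏ j ∈ Ioi i, ((1 + x i) * (1 + x j)) ^ 2 :=
        Finset.prod_le_prod (fun i _ => Finset.prod_nonneg fun j _ => sq_nonneg _) fun i _ =>
          Finset.prod_le_prod (fun j _ => sq_nonneg _) fun j _ => h2 i j
    _ ≤ ∏ i, ∏ j, ((1 + x i) * (1 + x j)) ^ 2 := by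
        refine Finset.prod_le_prod (fun i _ => Finset.prod_nonneg fun j _ => sq_nonneg _) fun i _ => ?_
        refine Finset.prod_le_prod_of_subset_of_one_le (Finset.subset_univ _)
          (fun j _ => sq_nonneg _) fun j _ _ => ?_
        exact one_le_pow₀ (one_le_mul_of_one_le_of_one_le (h1 i) (h1 j))
    _ = ∏ j, (1 + x j) ^ (4 * n) := by
        simp_rw [mul_pow, Finset.prod_mul_distrib, Finset.prod_const, Finset.card_univ,
          Fintype.card_fin]
        rw [← Finset.prod_pow, ← Finset.prod_mul_distrib]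
        refine Finset.prod_congr rfl fun i _ => ?_
        rw [← pow_mul, ← pow_add]
        congr 1; ring

theorem pow_bd {a t T x : ℝ} (ha : a = 1 / 2 ∨ a = -(1 / 2)) (ht : 0 ≤ t) (hT : t ≤ T)
    (hx : 0 < x) : (x + t) ^ a ≤ (1 + T) * ((1 + x) ^ 2 * x ^ (-(1 / 2) : ℝ)) := by
  have hT0 : 0 ≤ T := ht.trans hT
  have hsq : ∀ u : ℝ, 0 ≤ u → u ^ (1 / 2 : ℝ) ≤ 1 + u := by
    intro u hu
    rw [← Real.sqrt_eq_rpow]
    nlinarith [Real.sq_sqrt hu, Real.sqrt_nonneg u, sq_nonneg (Real.sqrt u - 1)]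
  have hxm : (0 : ℝ) < x ^ (-(1 / 2) : ℝ) := Real.rpow_pos_of_pos hx _
  have h1 : 1 ≤ (1 + x) * x ^ (-(1 / 2) : ℝ) := by
    have h2 := hsq x hx.le
    have h3 : x ^ (1 / 2 : ℝ) * x ^ (-(1 / 2) : ℝ) = 1 := by
      rw [← Real.rpow_add hx]; norm_num
    calc (1 : ℝ) = x ^ (1 / 2 : ℝ) * x ^ (-(1 / 2) : ℝ) := h3.symm
      _ ≤ _ := mul_le_mul_of_nonneg_right h2 hxm.le
  rcases ha with rfl | rfl
  · calc (x + t) ^ (1 / 2 : ℝ) ≤ 1 + (x + t) := hsq _ (by linarith)
      _ ≤ (1 + T) * (1 + x) := by nlinarith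
      _ ≤ (1 + T) * (1 + x) * ((1 + x) * x ^ (-(1 / 2) : ℝ)) :=
          le_mul_of_one_le_right (by positivity) h1
      _ = _ := by ring
  · calc (x + t) ^ (-(1 / 2) : ℝ) ≤ x ^ (-(1 / 2) : ℝ) :=
          Real.rpow_le_rpow_of_nonpos hx (by linarith) (by norm_num)
      _ ≤ (1 + T) * (1 + x) ^ 2 * x ^ (-(1 / 2) : ℝ) := by
          refine le_mul_of_one_le_left hxm.le ?_
          have : (1 : ℝ) ≤ (1 + x) ^ 2 := one_le_pow₀ (by linarith)
          nlinarith
      _ = _ := by ring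

theorem Q_nonneg {a t : ℝ} (ht : 0 ≤ t) {x : Fin n → ℝ} (hx : ∀ j, 0 < x j) : 0 ≤ Q a t x := by
  unfold Q
  have := V_nonneg x
  have h2 : 0 ≤ ∏ j, (x j + t) ^ a :=
    Finset.prod_nonneg fun j _ => Real.rpow_nonneg (by linarith [hx j]) _
  positivity

theorem Q_le {a t T : ℝ} (ha : a = 1 / 2 ∨ a = -(1 / 2)) (ht : 0 ≤ t) (hT : t ≤ T)
    {x : Fin n → ℝ} (hx : ∀ j, 0 < x j) : Q a t x ≤ B n T x := by
  have hexp : Real.exp (-∑ j, x j) = ∏ j, Real.exp (-(x j)) := by
    rw [← Real.exp_sum, Finset.sum_neg_distrib]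
  have h0 : ∀ j, 0 ≤ (x j + t) ^ a := fun j => Real.rpow_nonneg (by linarith [hx j]) _
  calc Q a t x ≤ (∏ j, Real.exp (-(x j))) * (∏ j, (1 + x j) ^ (4 * n)) * ∏ j, (x j + t) ^ a := by
        unfold Q
        rw [hexp]
        refine mul_le_mul_of_nonneg_right ?_ (Finset.prod_nonneg fun j _ => h0 j)
        exact mul_le_mul_of_nonneg_left (V_le hx) (Finset.prod_nonneg fun j _ => (Real.exp_pos _).le)
    _ = ∏ j, (Real.exp (-(x j)) * (1 + x j) ^ (4 * n) * (x j + t) ^ a) := by
        rw [Finset.prod_mul_distrib, Finset.prod_mul_distrib]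
    _ ≤ B n T x := by
        unfold B b
        refine Finset.prod_le_prod (fun j _ => ?_) fun j _ => ?_
        · have := h0 j
          have := hx j
          positivity
        · have hj := hx j
          calc Real.exp (-(x j)) * (1 + x j) ^ (4 * n) * (x j + t) ^ a
              ≤ Real.exp (-(x j)) * (1 + x j) ^ (4 * n) *
                ((1 + T) * ((1 + x j) ^ 2 * x j ^ (-(1 / 2) : ℝ))) :=
                mul_le_mul_of_nonneg_left (pow_bd ha ht hT hj) (by positivity)
            _ = _ := by rw [pow_add]; ring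

theorem Q_measurable (a t : ℝ) : Measurable (Q (n := n) a t) := by
  unfold Q
  refine Measurable.mul (Measurable.mul ?_ V_measurable) ?_
  · exact Real.measurable_exp.comp (Finset.measurable_sum _ fun j _ => measurable_pi_apply j).neg
  · refine Finset.measurable_prod _ fun j _ => ?_
    have h : Measurable (fun x : Fin n → ℝ => x j + t) := by fun_prop
    exact h.pow_const a

theorem Q_integrable {a t : ℝ} (ha : a = 1 / 2 ∨ a = -(1 / 2)) (ht : 0 ≤ t) :
    Integrable (Q (n := n) a t) (mu n) := by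
  refine (B_integrable (n := n) t).mono' (Q_measurable a t).aestronglyMeasurable ?_
  filter_upwards [ae_pos] with x hx
  rw [Real.norm_of_nonneg (Q_nonneg ht hx)]
  exact Q_le ha ht le_rfl hx

noncomputable def S (t : ℝ) (x : Fin n → ℝ) : ℝ := ∑ j, 1 / (x j + t)

theorem S_measurable (t : ℝ) : Measurable (S (n := n) t) := by
  unfold S
  refine Finset.measurable_sum _ fun j _ => ?_
  have h : Measurable (fun x : Fin n → ℝ => x j + t) := by fun_prop
  exact h.const_div 1

theorem S_nonneg {t : ℝ} (ht : 0 ≤ t) {x : Fin n → ℝ} (hx : ∀ j, 0 < x j) : 0 ≤ S t x := by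
  unfold S
  refine Finset.sum_nonneg fun j _ => ?_
  have := hx j
  positivity

theorem S_le {t : ℝ} (ht : 0 < t) {x : Fin n → ℝ} (hx : ∀ j, 0 < x j) : S t x ≤ n * (1 / t) := by
  unfold S
  calc ∑ j, 1 / (x j + t) ≤ ∑ _j : Fin n, 1 / t := by
        refine Finset.sum_le_sum fun j _ => ?_
        exact one_div_le_one_div_of_le ht (by linarith [hx j])
    _ = _ := by rw [Finset.sum_const, Finset.card_univ, Fintype.card_fin, nsmul_eq_mul]

theorem integrable_mul_bdd {u g : (Fin n → ℝ) → ℝ} (hu : Integrable u (mu n)) (hg : Measurable g)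
    {C : ℝ} (hC : ∀ x, (∀ j, 0 < x j) → |g x| ≤ C) : Integrable (fun x => u x * g x) (mu n) := by
  refine (hu.norm.const_mul C).mono' (hu.aestronglyMeasurable.mul hg.aestronglyMeasurable) ?_
  filter_upwards [ae_pos] with x hx
  rw [norm_mul, mul_comm]
  exact mul_le_mul_of_nonneg_right (hC x hx) (norm_nonneg _)

theorem hasDerivAt_Q (a : ℝ) {t : ℝ} (ht : 0 < t) {x : Fin n → ℝ} (hx : ∀ j, 0 < x j) :
    HasDerivAt (fun s => Q a s x) (Q a t x * (a * S t x)) t := by
  have h1 : ∀ j ∈ (Finset.univ : Finset (Fin n)),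
      HasDerivAt (fun s => (x j + s) ^ a) (1 * a * (x j + t) ^ (a - 1)) t := by
    intro j _
    have h : HasDerivAt (fun s => x j + s) 1 t := (hasDerivAt_id t).const_add (x j)
    exact h.rpow_const (Or.inl (by linarith [hx j]))
  have h2 := (HasDerivAt.fun_finsetProd h1).const_mul (Real.exp (-∑ j, x j) * V x)
  refine HasDerivAt.congr_deriv h2 ?_
  unfold Q S
  rw [Finset.mul_sum, Finset.mul_sum, Finset.mul_sum]
  refine Finset.sum_congr rfl fun i _ => ?_
  have hi : 0 < x i + t := by linarith [hx i]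
  rw [smul_eq_mul, Real.rpow_sub_one hi.ne', ← Finset.prod_erase_mul Finset.univ
    (fun j => (x j + t) ^ a) (Finset.mem_univ i)]
  field_simp

theorem hasDerivAt_int {a : ℝ} (ha : a = 1 / 2 ∨ a = -(1 / 2)) {t : ℝ} (ht : 0 < t) :
    HasDerivAt (fun s => ∫ x, Q (n := n) a s x ∂(mu n))
      (∫ x, Q (n := n) a t x * (a * S t x) ∂(mu n)) t := by
  have hs : Set.Ioo (t / 2) (2 * t) ∈ nhds t := Ioo_mem_nhds (by linarith) (by linarith)
  have ha' : |a| ≤ 1 := by rcases ha with rfl | rfl <;> norm_num [abs_le]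
  refine (hasDerivAt_integral_of_dominated_loc_of_deriv_le
    (F' := fun s x => Q a s x * (a * S s x))
    (bound := fun x => (n * (1 / (t / 2))) * B n (2 * t) x) hs ?_ (Q_integrable ha ht.le) ?_ ?_
    ((B_integrable _).const_mul _) ?_).2
  · exact Filter.Eventually.of_forall fun s => (Q_measurable a s).aestronglyMeasurable
  · exact ((Q_measurable a t).mul ((S_measurable t).const_mul a)).aestronglyMeasurable
  · filter_upwards [ae_pos] with x hx s hs
    have hs0 : 0 < s := by linarith [hs.1]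
    have h1 := Q_le ha hs0.le hs.2.le hx
    have h2 := S_le hs0 hx
    have h3 := S_nonneg hs0.le hx
    have h4 := Q_nonneg (a := a) hs0.le hx
    have h5 : (1 : ℝ) / s ≤ 1 / (t / 2) := one_div_le_one_div_of_le (by linarith) hs.1.le
    rw [norm_mul, norm_mul, Real.norm_of_nonneg h4, Real.norm_of_nonneg h3, Real.norm_eq_abs]
    have h6 : |a| * S s x ≤ n * (1 / (t / 2)) := by
      calc |a| * S s x ≤ 1 * S s x := mul_le_mul_of_nonneg_right ha' h3
        _ ≤ n * (1 / s) := by rw [one_mul]; exact h2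
        _ ≤ _ := mul_le_mul_of_nonneg_left h5 (Nat.cast_nonneg n)
    rw [mul_comm (Q a s x)]
    exact mul_le_mul h6 h1 h4 (by positivity)
  · filter_upwards [ae_pos] with x hx s hs
    exact hasDerivAt_Q a (by linarith [hs.1]) hx

theorem continuousOn_int {a : ℝ} (ha : a = 1 / 2 ∨ a = -(1 / 2)) :
    ContinuousOn (fun s => ∫ x, Q (n := n) a s x ∂(mu n)) (Set.Ici 0) := by
  intro t ht
  have ht0 : (0 : ℝ) ≤ t := ht
  have hev : ∀ᶠ s in nhdsWithin t (Set.Ici 0), 0 ≤ s ∧ s ≤ t + 1 := by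
    have h1 : ∀ᶠ s in nhdsWithin t (Set.Ici (0 : ℝ)), s ∈ Set.Ici (0 : ℝ) := self_mem_nhdsWithin
    have h2 : ∀ᶠ s in nhdsWithin t (Set.Ici (0 : ℝ)), s < t + 1 :=
      nhdsWithin_le_nhds (Iio_mem_nhds (by linarith))
    filter_upwards [h1, h2] with s hs1 hs2
    exact ⟨hs1, hs2.le⟩
  refine continuousWithinAt_of_dominated (bound := B n (t + 1)) ?_ ?_ (B_integrable _) ?_
  · exact Filter.Eventually.of_forall fun s => (Q_measurable a s).aestronglyMeasurable
  · filter_upwards [hev] with s hs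
    filter_upwards [ae_pos] with x hx
    rw [Real.norm_of_nonneg (Q_nonneg hs.1 hx)]
    exact Q_le ha hs.1 hs.2 hx
  · filter_upwards [ae_pos] with x hx
    have : ContinuousAt (fun s => Q a s x) t := by
      unfold Q
      refine ContinuousAt.mul continuousAt_const ?_
      refine tendsto_finsetProd _ fun j _ => ?_
      have h1 : ContinuousAt (fun s => x j + s) t := continuousAt_const.add continuousAt_id
      exact h1.rpow_const (Or.inl (by linarith [hx j]))
    exact this.continuousWithinAt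

end Pool.Agent.Helper575.Lag
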