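import Pool.Agent.Helper575.Lag

set_option autoImplicit false

namespace Pool.Agent.Helper575.Lag2

open MeasureTheory Finset
open scoped ENNReal
open Pool.Agent.Helper575.FKG Pool.Agent.Helper575.Lag

variable {n : ℕ}

noncomputable def rho (t x : ℝ) : ℝ := Real.exp (-x) * (x + t) ^ (-(1 / 2) : ℝ)

theorem rho_measurable (t : ℝ) : Measurable (rho t) := by
  unfold rho
  have h1 : Measurable (fun x : ℝ => Real.exp (-x)) := by fun_prop
  have h : Measurable (fun x : ℝ => x + t) := by fun_prop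
  exact h1.mul (h.pow_const _)

theorem rho_nonneg {t : ℝ} (ht : 0 ≤ t) (x : ℝ) (hx : 0 ≤ x) : 0 ≤ rho t x := by
  unfold rho
  have : 0 ≤ (x + t) ^ (-(1 / 2) : ℝ) := Real.rpow_nonneg (by linarith) _
  positivity

theorem q_eq (t : ℝ) (x : Fin n → ℝ) : V x * (∏ i, rho t (x i)) = Q (-(1 / 2)) t x := by
  unfold Q rho
  rw [Finset.prod_mul_distrib, ← Real.exp_sum, Finset.sum_neg_distrib]
  ring

theorem ofReal_J {t : ℝ} (ht : 0 ≤ t) {φ : (Fin n → ℝ) → ℝ}
    (hφ : ∀ x, 0 ≤ x → 0 ≤ φ x)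
    (hint : Integrable (fun x => Q (n := n) (-(1 / 2)) t x * φ x) (mu n)) :
    ENNReal.ofReal (∫ x, Q (-(1 / 2)) t x * φ x ∂(mu n)) = ∫⁻ x, wt (n := n) (rho t) φ x := by
  rw [ofReal_integral_eq_lintegral_ofReal hint]
  · unfold wt
    rw [lintegral_indicator measurableSet_Ici, ← mu_eq]
    refine lintegral_congr fun x => ?_
    rw [q_eq]
  · filter_upwards [ae_pos] with x hx
    exact mul_nonneg (Q_nonneg ht hx) (hφ x fun j => (hx j).le)

/-- real FKG inequality -/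
theorem fkg_real {t : ℝ} (ht : 0 ≤ t)
    {f g : (Fin n → ℝ) → ℝ} (hf : Measurable f) (hg : Measurable g)
    (hfs : ∀ (σ : Equiv.Perm (Fin n)) x, f (x ∘ σ) = f x)
    (hgs : ∀ (σ : Equiv.Perm (Fin n)) x, g (x ∘ σ) = g x)
    (hf0 : ∀ x, 0 ≤ x → 0 ≤ f x) (hg0 : ∀ x, 0 ≤ x → 0 ≤ g x)
    (hfm : ∀ x y, 0 ≤ x → x ≤ y → f x ≤ f y) (hgm : ∀ x y, 0 ≤ x → x ≤ y → g x ≤ g y)
    (if1 : Integrable (fun x => Q (n := n) (-(1 / 2)) t x * f x) (mu n))
    (ig1 : Integrable (fun x => Q (n := n) (-(1 / 2)) t x * g x) (mu n))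
    (ifg : Integrable (fun x => Q (n := n) (-(1 / 2)) t x * (f x * g x)) (mu n)) :
    (∫ x, Q (-(1 / 2)) t x * f x ∂(mu n)) * (∫ x, Q (-(1 / 2)) t x * g x ∂(mu n)) ≤
      (∫ x, Q (-(1 / 2)) t x * (f x * g x) ∂(mu n)) * ∫ x, Q (-(1 / 2)) t x ∂(mu n) := by
  have h1 := fkg (rho_measurable t) (rho_nonneg ht) hf hg hfs hgs hf0 hg0 hfm hgm
  have i1 : Integrable (fun x => Q (n := n) (-(1 / 2)) t x * (1 : ℝ)) (mu n) := by
    simpa using Q_integrable (n := n) (Or.inr rfl) ht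
  rw [← ofReal_J ht hf0 if1, ← ofReal_J ht hg0 ig1,
    ← ofReal_J ht (fun x hx => mul_nonneg (hf0 x hx) (hg0 x hx)) ifg,
    ← ofReal_J ht (fun _ _ => zero_le_one) i1] at h1
  have nn : ∀ φ : (Fin n → ℝ) → ℝ, (∀ x, 0 ≤ x → 0 ≤ φ x) →
      0 ≤ ∫ x, Q (-(1 / 2)) t x * φ x ∂(mu n) := by
    intro φ hφ
    refine integral_nonneg_of_ae ?_
    filter_upwards [ae_pos] with x hx
    exact mul_nonneg (Q_nonneg ht hx) (hφ x fun j => (hx j).le)
  rw [← ENNReal.ofReal_mul (nn f hf0),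
    ← ENNReal.ofReal_mul (nn _ fun x hx => mul_nonneg (hf0 x hx) (hg0 x hx)),
    ENNReal.ofReal_le_ofReal_iff (mul_nonneg (nn _ fun x hx => mul_nonneg (hf0 x hx) (hg0 x hx))
      (nn _ fun _ _ => zero_le_one))] at h1
  simpa using h1

/-- `f = ∏ (x_j + t)`. -/
noncomputable def ff (t : ℝ) (x : Fin n → ℝ) : ℝ := ∏ j, (x j + t)

/-- `g = ∑ (1/t - 1/(x_j + t))`. -/
noncomputable def gg (t : ℝ) (x : Fin n → ℝ) : ℝ := ∑ j, (1 / t - 1 / (x j + t))

theorem gg_eq (t : ℝ) (x : Fin n → ℝ) : gg t x = n * (1 / t) - S t x := by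
  unfold gg S
  rw [Finset.sum_sub_distrib, Finset.sum_const, Finset.card_univ, Fintype.card_fin, nsmul_eq_mul]

theorem ff_measurable (t : ℝ) : Measurable (ff (n := n) t) := by
  unfold ff
  exact Finset.measurable_prod _ fun j _ => by fun_prop

theorem gg_measurable (t : ℝ) : Measurable (gg (n := n) t) := by
  have : (gg (n := n) t) = fun x => n * (1 / t) - S t x := funext fun x => gg_eq t x
  rw [this]
  exact (S_measurable t).const_sub _

theorem ff_symm (t : ℝ) (σ : Equiv.Perm (Fin n)) (x : Fin n → ℝ) : ff t (x ∘ σ) = ff t x := by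
  unfold ff
  exact Equiv.prod_comp σ (fun i => x i + t)

theorem gg_symm (t : ℝ) (σ : Equiv.Perm (Fin n)) (x : Fin n → ℝ) : gg t (x ∘ σ) = gg t x := by
  unfold gg
  exact Equiv.sum_comp σ (fun i => 1 / t - 1 / (x i + t))

theorem gg_nonneg {t : ℝ} (ht : 0 < t) {x : Fin n → ℝ} (hx : 0 ≤ x) : 0 ≤ gg t x := by
  unfold gg
  refine Finset.sum_nonneg fun j _ => ?_
  have : (1 : ℝ) / (x j + t) ≤ 1 / t := one_div_le_one_div_of_le ht (by linarith [hx j, show (0 : Fin n → ℝ) j = 0 from rfl])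
  linarith

theorem gg_mono {t : ℝ} (ht : 0 < t) {x y : Fin n → ℝ} (hx : 0 ≤ x) (hxy : x ≤ y) :
    gg t x ≤ gg t y := by
  unfold gg
  refine Finset.sum_le_sum fun j _ => ?_
  have hxj : 0 ≤ x j := hx j
  have : (1 : ℝ) / (y j + t) ≤ 1 / (x j + t) :=
    one_div_le_one_div_of_le (by linarith) (by linarith [hxy j])
  linarith

/-- product increments dominate -/
theorem prod_incr {t : ℝ} (ht : 0 < t) {a b : Fin n → ℝ} (ha : ∀ j, t ≤ a j) (hab : ∀ j, a j ≤ b j)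
    (s : Finset (Fin n)) :
    t ^ s.card * ∑ j ∈ s, (b j - a j) ≤ t * (∏ j ∈ s, b j - ∏ j ∈ s, a j) := by
  classical
  induction s using Finset.induction_on with
  | empty => simp
  | insert i s hi ih =>
    rw [Finset.card_insert_of_notMem hi, Finset.sum_insert hi, Finset.prod_insert hi,
      Finset.prod_insert hi, pow_succ]
    have h1 : t ^ s.card ≤ ∏ j ∈ s, b j := by
      rw [← Finset.prod_const]
      exact Finset.prod_le_prod (fun _ _ => ht.le) fun j _ => (ha j).trans (hab j)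
    have h2 : 0 ≤ ∏ j ∈ s, b j - ∏ j ∈ s, a j := by
      rw [sub_nonneg]
      exact Finset.prod_le_prod (fun j _ => ht.le.trans (ha j)) fun j _ => hab j
    have h3 : 0 ≤ b i - a i := sub_nonneg.2 (hab i)
    have h4 := ha i
    have h5 : t * (b i * ∏ j ∈ s, b j - a i * ∏ j ∈ s, a j) =
        t * ((b i - a i) * ∏ j ∈ s, b j) + a i * (t * (∏ j ∈ s, b j - ∏ j ∈ s, a j)) := by ring
    rw [h5]
    have h6 : t ^ s.card * t * (b i - a i) ≤ t * ((b i - a i) * ∏ j ∈ s, b j) := by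
      calc t ^ s.card * t * (b i - a i) = t * ((b i - a i) * t ^ s.card) := by ring
        _ ≤ _ := by gcongr
    have h7 : t ^ s.card * t * ∑ j ∈ s, (b j - a j) ≤
        a i * (t * (∏ j ∈ s, b j - ∏ j ∈ s, a j)) := by
      calc t ^ s.card * t * ∑ j ∈ s, (b j - a j) = t * (t ^ s.card * ∑ j ∈ s, (b j - a j)) := by ring
        _ ≤ t * (t * (∏ j ∈ s, b j - ∏ j ∈ s, a j)) := by gcongr
        _ ≤ _ := by
          refine mul_le_mul_of_nonneg_right h4 ?_
          exact mul_nonneg ht.le h2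
    calc t ^ s.card * t * (b i - a i + ∑ j ∈ s, (b j - a j))
        = t ^ s.card * t * (b i - a i) + t ^ s.card * t * ∑ j ∈ s, (b j - a j) := by ring
      _ ≤ _ := add_le_add h6 h7

theorem gg_incr {t : ℝ} (ht : 0 < t) {x y : Fin n → ℝ} (hx : 0 ≤ x) (hxy : x ≤ y) :
    t ^ 2 * (gg t y - gg t x) ≤ ∑ j, (y j - x j) := by
  unfold gg
  rw [← Finset.sum_sub_distrib, Finset.mul_sum]
  refine Finset.sum_le_sum fun j _ => ?_
  have hxj : 0 ≤ x j := hx j
  have hyj : x j ≤ y j := hxy j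
  have h1 : 0 < x j + t := by linarith
  have h2 : 0 < y j + t := by linarith
  have e : t ^ 2 * (1 / t - 1 / (y j + t) - (1 / t - 1 / (x j + t))) =
      t ^ 2 * (y j - x j) / ((x j + t) * (y j + t)) := by
    field_simp; ring
  rw [e, div_le_iff₀ (by positivity)]
  have h3 : t ^ 2 ≤ (x j + t) * (y j + t) := by nlinarith
  nlinarith [sub_nonneg.2 hyj]

/-- `h = f - t^(n+1) g` is increasing on the orthant -/
theorem hh_mono {t : ℝ} (ht : 0 < t) {x y : Fin n → ℝ} (hx : 0 ≤ x) (hxy : x ≤ y) :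
    ff t x - t ^ (n + 1) * gg t x ≤ ff t y - t ^ (n + 1) * gg t y := by
  have h1 := prod_incr ht (a := fun j => x j + t) (b := fun j => y j + t)
    (fun j => by have : 0 ≤ x j := hx j; linarith) (fun j => by have := hxy j; linarith)
    (Finset.univ : Finset (Fin n))
  have h2 := gg_incr ht hx hxy
  rw [Finset.card_univ, Fintype.card_fin] at h1
  have h3 : ∑ j : Fin n, (y j + t - (x j + t)) = ∑ j, (y j - x j) :=
    Finset.sum_congr rfl fun j _ => by ring
  rw [h3] at h1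
  have h4 : t ^ n * (t ^ 2 * (gg t y - gg t x)) ≤ t * (ff t y - ff t x) :=
    (mul_le_mul_of_nonneg_left h2 (by positivity)).trans h1
  have h5 : t * (t ^ (n + 1) * (gg t y - gg t x)) ≤ t * (ff t y - ff t x) := by
    calc t * (t ^ (n + 1) * (gg t y - gg t x)) = t ^ n * (t ^ 2 * (gg t y - gg t x)) := by ring
      _ ≤ _ := h4
  have h6 := le_of_mul_le_mul_left h5 ht
  linarith

theorem hh_nonneg {t : ℝ} (ht : 0 < t) {x : Fin n → ℝ} (hx : 0 ≤ x) :
    0 ≤ ff t x - t ^ (n + 1) * gg t x := by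
  have h := hh_mono ht (le_refl (0 : Fin n → ℝ)) hx
  refine le_trans ?_ h
  have h1 : gg t (0 : Fin n → ℝ) = 0 := by unfold gg; simp
  have h2 : 0 ≤ ff t (0 : Fin n → ℝ) := by
    unfold ff
    exact Finset.prod_nonneg fun j _ => by simp [ht.le]
  rw [h1]; simpa using h2

end Pool.Agent.Helper575.Lag2
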