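import Pool.Agent.Helper575.Lag2

set_option autoImplicit false

namespace Pool.Agent.Helper575.Lag3

open MeasureTheory Finset
open scoped ENNReal
open Pool.Agent.Helper575.FKG Pool.Agent.Helper575.Lag Pool.Agent.Helper575.Lag2

variable {n : ℕ}

theorem int_pos {φ : (Fin n → ℝ) → ℝ} (hc : ContinuousOn φ (D n)) (h0 : ∀ x ∈ D n, 0 ≤ φ x)
    (hi : Integrable φ (mu n)) {x0 : Fin n → ℝ} (hx0 : x0 ∈ D n) (hpos : 0 < φ x0) :
    0 < ∫ x, φ x ∂(mu n) := by
  have hae : 0 ≤ᵐ[mu n] φ := by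
    filter_upwards [ae_restrict_mem (measurableSet_D (n := n))] with x hx
    exact h0 x hx
  by_contra hcon
  push Not at hcon
  have h1 : ∫ x, φ x ∂(mu n) = 0 := le_antisymm hcon (integral_nonneg_of_ae hae)
  rw [integral_eq_zero_iff_of_nonneg_ae hae hi] at h1
  have h2 := Measure.eqOn_open_of_ae_eq (μ := (volume : Measure (Fin n → ℝ))) h1 isOpen_D hc
    continuousOn_const
  have := h2 hx0
  simp only [Pi.zero_apply] at this
  linarith

theorem D_pos {x : Fin n → ℝ} (hx : x ∈ D n) (j : Fin n) : 0 < x j := hx j (Set.mem_univ j)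

theorem V_continuous : Continuous (V : (Fin n → ℝ) → ℝ) := by
  unfold V
  refine continuous_finsetProd _ fun i _ => continuous_finsetProd _ fun j _ => ?_
  exact ((continuous_apply j).sub (continuous_apply i)).pow 2

theorem Q_continuousOn (a : ℝ) {t : ℝ} (ht : 0 ≤ t) : ContinuousOn (Q (n := n) a t) (D n) := by
  unfold Q
  refine ContinuousOn.mul (Continuous.continuousOn ?_) ?_
  · refine Continuous.mul ?_ V_continuous
    exact Real.continuous_exp.comp (continuous_finsetSum _ fun j _ => continuous_apply j).neg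
  · refine continuousOn_finsetProd _ fun j _ => ?_
    have h : ContinuousOn (fun x : Fin n → ℝ => x j + t) (D n) :=
      ((continuous_apply j).add continuous_const).continuousOn
    exact h.rpow_const fun x hx => Or.inl (by linarith [D_pos hx j])

theorem gg_continuousOn {t : ℝ} (ht : 0 ≤ t) : ContinuousOn (gg (n := n) t) (D n) := by
  unfold gg
  refine continuousOn_finsetSum _ fun j _ => ?_
  refine continuousOn_const.sub (continuousOn_const.div ?_ ?_)
  · exact ((continuous_apply j).add continuous_const).continuousOn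
  · intro x hx
    have := D_pos hx j
    linarith

/-- test points -/
def pt (n : ℕ) (l : ℝ) : Fin n → ℝ := fun j => l * ((j : ℕ) + 1)

theorem pt_mem {l : ℝ} (hl : 0 < l) : pt n l ∈ D n := by
  intro j _
  show 0 < l * (((j : ℕ) : ℝ) + 1)
  positivity

theorem pt_inj {l : ℝ} (hl : 0 < l) : Function.Injective (pt n l) := by
  intro i j hij
  have h : l * (((i : ℕ) : ℝ) + 1) = l * (((j : ℕ) : ℝ) + 1) := hij
  have h2 := mul_left_cancel₀ hl.ne' h
  have h3 : ((i : ℕ) : ℝ) = ((j : ℕ) : ℝ) := by linarith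
  exact Fin.ext (by exact_mod_cast h3)

theorem Q_pt_pos (a : ℝ) {t l : ℝ} (ht : 0 ≤ t) (hl : 0 < l) : 0 < Q a t (pt n l) := by
  unfold Q
  have h1 : V (pt n l) ≠ 0 := by
    rw [V_eq]
    exact pow_ne_zero _ (Matrix.det_vandermonde_ne_zero_iff.2 (pt_inj hl))
  have h2 : 0 < V (pt n l) := lt_of_le_of_ne (V_nonneg _) (Ne.symm h1)
  have h3 : 0 < ∏ j, (pt n l j + t) ^ a :=
    Finset.prod_pos fun j _ => Real.rpow_pos_of_pos (by linarith [D_pos (pt_mem (n := n) hl) j]) _
  have := Real.exp_pos (-∑ j, pt n l j)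
  positivity

theorem gg_pt_lt (hn : 0 < n) {t : ℝ} (ht : 0 < t) : gg t (pt n 1) < gg t (pt n 2) := by
  unfold gg
  have : Nonempty (Fin n) := ⟨⟨0, hn⟩⟩
  refine Finset.sum_lt_sum_of_nonempty Finset.univ_nonempty fun j _ => ?_
  have h1 : pt n 1 j + t < pt n 2 j + t := by
    show (1 : ℝ) * (((j : ℕ) : ℝ) + 1) + t < 2 * (((j : ℕ) : ℝ) + 1) + t
    have : (0 : ℝ) ≤ ((j : ℕ) : ℝ) := Nat.cast_nonneg _
    linarith
  have h2 : 0 < pt n 1 j + t := by linarith [D_pos (pt_mem (n := n) one_pos) j]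
  have := one_div_lt_one_div_of_lt h2 h1
  linarith

section
variable {t : ℝ} (ht : 0 < t)
include ht

theorem gg_bdd (x : Fin n → ℝ) (hx : ∀ j, 0 < x j) : |gg t x| ≤ n * (1 / t) := by
  rw [abs_of_nonneg (gg_nonneg ht fun j => (hx j).le), gg_eq]
  linarith [S_nonneg ht.le hx]

theorem int_q : Integrable (Q (n := n) (-(1 / 2)) t) (mu n) := Q_integrable (Or.inr rfl) ht.le

theorem int_qg : Integrable (fun x => Q (n := n) (-(1 / 2)) t x * gg t x) (mu n) :=
  integrable_mul_bdd (int_q ht) (gg_measurable t) (gg_bdd ht)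

theorem int_qgg : Integrable (fun x => Q (n := n) (-(1 / 2)) t x * (gg t x * gg t x)) (mu n) := by
  refine integrable_mul_bdd (C := (n * (1 / t)) * (n * (1 / t))) (int_q ht)
    ((gg_measurable t).mul (gg_measurable t)) fun x hx => ?_
  rw [abs_mul]
  exact mul_le_mul (gg_bdd ht x hx) (gg_bdd ht x hx) (abs_nonneg _) (by positivity)

theorem qf_eq {x : Fin n → ℝ} (hx : ∀ j, 0 < x j) :
    Q (-(1 / 2)) t x * ff t x = Q (1 / 2) t x := by
  unfold Q ff
  rw [mul_assoc, ← Finset.prod_mul_distrib]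
  congr 1
  refine Finset.prod_congr rfl fun j _ => ?_
  have : 0 < x j + t := by linarith [hx j]
  rw [← Real.rpow_add_one this.ne']
  norm_num

theorem int_qf : Integrable (fun x => Q (n := n) (-(1 / 2)) t x * ff t x) (mu n) := by
  refine (Q_integrable (n := n) (Or.inl rfl) ht.le).congr ?_
  filter_upwards [ae_pos] with x hx
  exact (qf_eq ht hx).symm

theorem int_qfg : Integrable (fun x => Q (n := n) (-(1 / 2)) t x * (ff t x * gg t x)) (mu n) := by
  have h := integrable_mul_bdd (int_qf (n := n) ht) (gg_measurable t) (gg_bdd ht)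
  refine h.congr (Filter.Eventually.of_forall fun x => ?_)
  simp only; ring

theorem I1_pos : 0 < ∫ x, Q (n := n) (-(1 / 2)) t x ∂(mu n) :=
  int_pos (Q_continuousOn _ ht.le) (fun _ hx => Q_nonneg ht.le (D_pos hx)) (int_q ht)
    (pt_mem one_pos) (Q_pt_pos _ ht.le one_pos)

theorem cov_pos (hn : 0 < n) :
    (∫ x, Q (n := n) (-(1 / 2)) t x * gg t x ∂(mu n)) ^ 2 <
      (∫ x, Q (n := n) (-(1 / 2)) t x * (gg t x * gg t x) ∂(mu n)) *
        ∫ x, Q (n := n) (-(1 / 2)) t x ∂(mu n) := by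
  set I1 := ∫ x, Q (n := n) (-(1 / 2)) t x ∂(mu n) with hI1
  set Ig := ∫ x, Q (n := n) (-(1 / 2)) t x * gg t x ∂(mu n) with hIg
  set Igg := ∫ x, Q (n := n) (-(1 / 2)) t x * (gg t x * gg t x) ∂(mu n) with hIgg
  have h1 : 0 < I1 := I1_pos ht
  set c := Ig / I1 with hc
  have e : ∀ x, Q (n := n) (-(1 / 2)) t x * (gg t x - c) ^ 2 =
      Q (-(1 / 2)) t x * (gg t x * gg t x) - 2 * c * (Q (-(1 / 2)) t x * gg t x) +
        c ^ 2 * Q (-(1 / 2)) t x := fun x => by ring
  have hint : Integrable (fun x => Q (n := n) (-(1 / 2)) t x * (gg t x - c) ^ 2) (mu n) := by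
    simp_rw [e]
    exact ((int_qgg ht).sub ((int_qg ht).const_mul _)).add ((int_q ht).const_mul _)
  have hval : ∫ x, Q (n := n) (-(1 / 2)) t x * (gg t x - c) ^ 2 ∂(mu n) =
      Igg - 2 * c * Ig + c ^ 2 * I1 := by
    simp_rw [e]
    have hi1 : Integrable (fun x => Q (n := n) (-(1 / 2)) t x * (gg t x * gg t x) -
        2 * c * (Q (-(1 / 2)) t x * gg t x)) (mu n) := (int_qgg ht).sub ((int_qg ht).const_mul _)
    rw [integral_add hi1 ((int_q ht).const_mul _),
      integral_sub (int_qgg ht) ((int_qg ht).const_mul _), integral_const_mul, integral_const_mul]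
  have hcont : ContinuousOn (fun x => Q (n := n) (-(1 / 2)) t x * (gg t x - c) ^ 2) (D n) :=
    (Q_continuousOn _ ht.le).mul (((gg_continuousOn ht.le).sub continuousOn_const).pow 2)
  have hpos : 0 < ∫ x, Q (n := n) (-(1 / 2)) t x * (gg t x - c) ^ 2 ∂(mu n) := by
    have hne : gg t (pt n 1) ≠ c ∨ gg t (pt n 2) ≠ c := by
      by_contra hcon
      push Not at hcon
      have := gg_pt_lt hn ht
      rw [hcon.1, hcon.2] at this
      exact lt_irrefl _ this
    rcases hne with hne | hne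
    · refine int_pos hcont (fun x hx => mul_nonneg (Q_nonneg ht.le (D_pos hx)) (sq_nonneg _)) hint
        (pt_mem one_pos) (mul_pos (Q_pt_pos _ ht.le one_pos) ?_)
      have := sub_ne_zero.2 hne
      positivity
    · refine int_pos hcont (fun x hx => mul_nonneg (Q_nonneg ht.le (D_pos hx)) (sq_nonneg _)) hint
        (pt_mem two_pos) (mul_pos (Q_pt_pos _ ht.le two_pos) ?_)
      have := sub_ne_zero.2 hne
      positivity
  rw [hval] at hpos
  have h2 : Igg - 2 * c * Ig + c ^ 2 * I1 = (Igg * I1 - Ig ^ 2) / I1 := by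
    rw [hc]; field_simp; ring
  rw [h2] at hpos
  have h3 := (div_pos_iff_of_pos_right h1).1 hpos
  linarith

/-- the key strict inequality -/
theorem key (hn : 0 < n) :
    (∫ x, Q (n := n) (1 / 2) t x * S t x ∂(mu n)) * (∫ x, Q (n := n) (-(1 / 2)) t x ∂(mu n)) <
      (∫ x, Q (n := n) (1 / 2) t x ∂(mu n)) * ∫ x, Q (n := n) (-(1 / 2)) t x * S t x ∂(mu n) := by
  set I1 := ∫ x, Q (n := n) (-(1 / 2)) t x ∂(mu n) with hI1
  set Ig := ∫ x, Q (n := n) (-(1 / 2)) t x * gg t x ∂(mu n) with hIg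
  set Igg := ∫ x, Q (n := n) (-(1 / 2)) t x * (gg t x * gg t x) ∂(mu n) with hIgg
  set If := ∫ x, Q (n := n) (-(1 / 2)) t x * ff t x ∂(mu n) with hIf
  set Ifg := ∫ x, Q (n := n) (-(1 / 2)) t x * (ff t x * gg t x) ∂(mu n) with hIfg
  set d := t ^ (n + 1) with hd
  have hdpos : 0 < d := by positivity
  have e1 : ∀ x, Q (n := n) (-(1 / 2)) t x * (ff t x - d * gg t x) =
      Q (-(1 / 2)) t x * ff t x - d * (Q (-(1 / 2)) t x * gg t x) := fun x => by ring
  have e2 : ∀ x, Q (n := n) (-(1 / 2)) t x * ((ff t x - d * gg t x) * gg t x) =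
      Q (-(1 / 2)) t x * (ff t x * gg t x) - d * (Q (-(1 / 2)) t x * (gg t x * gg t x)) :=
    fun x => by ring
  have ih : Integrable (fun x => Q (n := n) (-(1 / 2)) t x * (ff t x - d * gg t x)) (mu n) := by
    simp_rw [e1]; exact (int_qf ht).sub ((int_qg ht).const_mul _)
  have ihg : Integrable (fun x => Q (n := n) (-(1 / 2)) t x * ((ff t x - d * gg t x) * gg t x))
      (mu n) := by
    simp_rw [e2]; exact (int_qfg ht).sub ((int_qgg ht).const_mul _)
  have hF := fkg_real (n := n) ht.le (f := fun x => ff t x - d * gg t x) (g := gg t)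
    ((ff_measurable t).sub ((gg_measurable t).const_mul d)) (gg_measurable t)
    (fun σ x => by rw [ff_symm, gg_symm]) (gg_symm t)
    (fun x hx => hh_nonneg ht hx) (fun x hx => gg_nonneg ht hx)
    (fun x y hx hxy => hh_mono ht hx hxy) (fun x y hx hxy => gg_mono ht hx hxy)
    ih (int_qg ht) ihg
  have v1 : ∫ x, Q (n := n) (-(1 / 2)) t x * (ff t x - d * gg t x) ∂(mu n) = If - d * Ig := by
    simp_rw [e1]
    rw [integral_sub (int_qf ht) ((int_qg ht).const_mul _), integral_const_mul]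
  have v2 : ∫ x, Q (n := n) (-(1 / 2)) t x * ((ff t x - d * gg t x) * gg t x) ∂(mu n) =
      Ifg - d * Igg := by
    simp_rw [e2]
    rw [integral_sub (int_qfg ht) ((int_qgg ht).const_mul _), integral_const_mul]
  rw [v1, v2, ← hIg, ← hI1] at hF
  have hcov := cov_pos ht hn
  rw [← hI1, ← hIg, ← hIgg] at hcov
  -- translate
  have f1 : ∫ x, Q (n := n) (1 / 2) t x ∂(mu n) = If := by
    refine integral_congr_ae ?_
    filter_upwards [ae_pos] with x hx
    exact (qf_eq ht hx).symm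
  have iSm : Integrable (fun x => Q (n := n) (-(1 / 2)) t x * S t x) (mu n) :=
    integrable_mul_bdd (int_q ht) (S_measurable t) (C := n * (1 / t)) fun x hx => by
      rw [abs_of_nonneg (S_nonneg ht.le hx)]; exact S_le ht hx
  have f2 : ∫ x, Q (n := n) (-(1 / 2)) t x * S t x ∂(mu n) = n * (1 / t) * I1 - Ig := by
    have : ∀ x, Q (n := n) (-(1 / 2)) t x * S t x =
        n * (1 / t) * Q (-(1 / 2)) t x - Q (-(1 / 2)) t x * gg t x := fun x => by
      rw [gg_eq]; ring
    simp_rw [this]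
    rw [integral_sub ((int_q ht).const_mul _) (int_qg ht), integral_const_mul]
  have f3 : ∫ x, Q (n := n) (1 / 2) t x * S t x ∂(mu n) = n * (1 / t) * If - Ifg := by
    have h1 : ∫ x, Q (n := n) (1 / 2) t x * S t x ∂(mu n) =
        ∫ x, (n * (1 / t) * (Q (-(1 / 2)) t x * ff t x) -
          Q (-(1 / 2)) t x * (ff t x * gg t x)) ∂(mu n) := by
      refine integral_congr_ae ?_
      filter_upwards [ae_pos] with x hx
      rw [← qf_eq ht hx, gg_eq]; ring
    rw [h1, integral_sub ((int_qf ht).const_mul _) (int_qfg ht), integral_const_mul]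
  rw [f1, f2, f3]
  have h5 : d * Ig ^ 2 < d * (Igg * I1) := mul_lt_mul_of_pos_left hcov hdpos
  nlinarith

end

end Pool.Agent.Helper575.Lag3
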