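import Mathlib

open MeasureTheory Set Filter Topology

namespace Helper575.NP

/-- Abstract properties of the function `x ↦ |Ω ∩ (-∞, x]|`. -/
structure Prim (H : ℝ → ℝ) (m : ℝ) : Prop where
  mono : Monotone H
  bot : Tendsto H atBot (𝓝 0)
  top : Tendsto H atTop (𝓝 m)
  lip : ∀ a b, a ≤ b → H b - H a ≤ b - a

namespace Prim
variable {H : ℝ → ℝ} {m : ℝ}

lemma nonneg (h : Prim H m) (x : ℝ) : 0 ≤ H x := h.mono.le_of_tendsto h.bot x
lemma le_m (h : Prim H m) (x : ℝ) : H x ≤ m := h.mono.ge_of_tendsto h.top x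

lemma abs_lip (h : Prim H m) (a b : ℝ) : |H b - H a| ≤ |b - a| := by
  rcases le_total a b with hab | hab
  · rw [abs_of_nonneg (sub_nonneg.2 (h.mono hab)), abs_of_nonneg (sub_nonneg.2 hab)]
    exact h.lip a b hab
  · rw [abs_sub_comm, abs_sub_comm b a, abs_of_nonneg (sub_nonneg.2 (h.mono hab)),
      abs_of_nonneg (sub_nonneg.2 hab)]
    exact h.lip b a hab

lemma cont (h : Prim H m) : Continuous H := by
  have : LipschitzWith 1 H := by
    apply LipschitzWith.of_dist_le_mul
    intro x y
    simp only [Real.dist_eq, NNReal.coe_one, one_mul]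
    exact h.abs_lip y x
  exact this.continuous

end Prim

/-- Strictly increasing sequences, with gaps in `[r, R]`, tiling at level one
(written in terms of the primitive `H`). -/
structure TS (H : ℝ → ℝ) (r R : ℝ) (l : ℤ → ℝ) : Prop where
  lo : ∀ n, r ≤ l (n+1) - l n
  hi : ∀ n, l (n+1) - l n ≤ R
  tile : ∀ a b, a ≤ b → HasSum (fun n : ℤ => H (b - l n) - H (a - l n)) (b - a)

lemma sum_Ico_tele (G : ℤ → ℝ) {u v : ℤ} (h : u ≤ v) :
    ∑ n ∈ Finset.Ico u v, (G n - G (n+1)) = G u - G v := by
  induction v, h using Int.leInduction with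
  | base => simp
  | succ v hv ih =>
    rw [← Finset.insert_Ico_right_eq_Ico_add_one hv, Finset.sum_insert (by simp), ih]
    ring

lemma sum_Ico_split (F : ℤ → ℝ) {u v w : ℤ} (h : u ≤ v) (h' : v ≤ w) :
    ∑ n ∈ Finset.Ico u w, F n = ∑ n ∈ Finset.Ico u v, F n + ∑ n ∈ Finset.Ico v w, F n := by
  rw [← Finset.Ico_union_Ico_eq_Ico h h', Finset.sum_union (Finset.Ico_disjoint_Ico_consecutive _ _ _)]

namespace TS
variable {H : ℝ → ℝ} {m r R : ℝ} {l l' : ℤ → ℝ}

lemma lo_nat (h : TS H r R l) (n : ℤ) (k : ℕ) : r * k ≤ l (n + k) - l n := by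
  induction k with
  | zero => simp
  | succ k ih =>
    have := h.lo (n + k)
    push_cast
    rw [← add_assoc]
    linarith

lemma hi_nat (h : TS H r R l) (n : ℤ) (k : ℕ) : l (n + k) - l n ≤ R * k := by
  induction k with
  | zero => simp
  | succ k ih =>
    have := h.hi (n + k)
    push_cast
    rw [← add_assoc]
    linarith

lemma lo_int (h : TS H r R l) {n k : ℤ} (hk : n ≤ k) : r * (k - n) ≤ l k - l n := by
  obtain ⟨j, rfl⟩ := Int.exists_add_of_le hk
  have := h.lo_nat n j
  push_cast
  simpa using this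

lemma hi_int (h : TS H r R l) {n k : ℤ} (hk : n ≤ k) : l k - l n ≤ R * (k - n) := by
  obtain ⟨j, rfl⟩ := Int.exists_add_of_le hk
  have := h.hi_nat n j
  push_cast
  simpa using this

lemma mono (hr : 0 < r) (h : TS H r R l) : StrictMono l := by
  intro n k hk
  have := h.lo_int hk.le
  have h2 : (0:ℝ) < (k:ℝ) - n := by
    have : (n:ℝ) < k := by exact_mod_cast hk
    linarith
  have := mul_pos hr h2
  linarith

lemma abs_hi (hr : 0 < r) (h : TS H r R l) (n k : ℤ) : |l k - l n| ≤ R * |(k:ℝ) - n| := by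
  rcases le_total n k with hk | hk
  · have h1 := h.hi_int hk
    have h2 : (0:ℝ) ≤ (k:ℝ) - n := by
      have : (n:ℝ) ≤ k := by exact_mod_cast hk
      linarith
    rw [abs_of_nonneg h2, abs_of_nonneg]
    · exact h1
    · have := (h.mono hr).monotone hk
      linarith
  · have h1 := h.hi_int hk
    have h2 : (0:ℝ) ≤ (n:ℝ) - k := by
      have : (k:ℝ) ≤ n := by exact_mod_cast hk
      linarith
    rw [abs_sub_comm, abs_sub_comm (k:ℝ), abs_of_nonneg h2, abs_of_nonneg]
    · exact h1
    · have := (h.mono hr).monotone hk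
      linarith

lemma abs_lo (hr : 0 < r) (h : TS H r R l) (n k : ℤ) : r * |(k:ℝ) - n| ≤ |l k - l n| := by
  rcases le_total n k with hk | hk
  · have h1 := h.lo_int hk
    have h2 : (0:ℝ) ≤ (k:ℝ) - n := by
      have : (n:ℝ) ≤ k := by exact_mod_cast hk
      linarith
    rw [abs_of_nonneg h2, abs_of_nonneg]
    · exact h1
    · have := (h.mono hr).monotone hk
      linarith
  · have h1 := h.lo_int hk
    have h2 : (0:ℝ) ≤ (n:ℝ) - k := by
      have : (k:ℝ) ≤ n := by exact_mod_cast hk
      linarith
    rw [abs_sub_comm (l k), abs_sub_comm (k:ℝ), abs_of_nonneg h2, abs_of_nonneg]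
    · exact h1
    · have := (h.mono hr).monotone hk
      linarith

lemma rle (h : TS H r R l) : r ≤ R := (h.lo 0).trans (h.hi 0)

/-- shift of index and translation -/
lemma shift (h : TS H r R l) (k : ℤ) (t : ℝ) : TS H r R (fun n => l (n + k) - t) where
  lo n := by have := h.lo (n + k); simp only [add_right_comm n 1 k]; linarith
  hi n := by have := h.hi (n + k); simp only [add_right_comm n 1 k]; linarith
  tile a b hab := by
    have h1 := h.tile (a + t) (b + t) (by linarith)
    have h2 := (Equiv.addRight k).hasSum_iff.2 h1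
    convert h2 using 1
    · funext n
      simp only [Function.comp_apply, Equiv.coe_addRight]
      congr 2 <;> ring
    · ring

lemma trans (h : TS H r R l) (t : ℝ) : TS H r R (fun n => l n + t) := by
  have := h.shift 0 (-t)
  simpa using this

lemma term_nonneg (hH : Prim H m) {a b : ℝ} (hab : a ≤ b) (x : ℝ) :
    0 ≤ H (b - x) - H (a - x) := sub_nonneg.2 (hH.mono (by linarith))

/-- the tail bound -/
lemma tail_bound (hH : Prim H m) (h : TS H r R l) {a b : ℝ} (hab : a ≤ b) (hb : b - a ≤ r)
    (N : ℕ) : b - a ≤ ∑ n ∈ Finset.Ico (-(N:ℤ)) N, (H (b - l n) - H (a - l n)) +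
      H (b - l N) + (m - H (b - l (-(N:ℤ)))) := by
  have hF : ∀ n, H (b - l n) - H (a - l n) ≤ H (b - l n) - H (b - l (n+1)) := by
    intro n
    have := h.lo n
    have := hH.mono (show b - l (n+1) ≤ a - l n by linarith)
    linarith
  have ht : Tendsto (fun M : ℕ => ∑ n ∈ Finset.Ico (-(M:ℤ)) M, (H (b - l n) - H (a - l n)))
      atTop (𝓝 (b - a)) := (h.tile a b hab).comp Finset.tendsto_Ico_neg
  refine le_of_tendsto ht ?_
  filter_upwards [eventually_ge_atTop N] with M hM
  have hM' : (N:ℤ) ≤ M := by exact_mod_cast hM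
  rw [sum_Ico_split _ (show -(M:ℤ) ≤ -(N:ℤ) by omega) (show -(N:ℤ) ≤ M by omega),
    sum_Ico_split _ (show -(N:ℤ) ≤ N by omega) hM']
  have e1 : ∑ n ∈ Finset.Ico (-(M:ℤ)) (-(N:ℤ)), (H (b - l n) - H (a - l n)) ≤
      H (b - l (-(M:ℤ))) - H (b - l (-(N:ℤ))) := by
    refine (Finset.sum_le_sum (fun n _ => hF n)).trans ?_
    exact (sum_Ico_tele (fun n => H (b - l n)) (by omega)).le
  have e2 : ∑ n ∈ Finset.Ico (N:ℤ) M, (H (b - l n) - H (a - l n)) ≤
      H (b - l N) - H (b - l M) := by
    refine (Finset.sum_le_sum (fun n _ => hF n)).trans ?_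
    exact (sum_Ico_tele (fun n => H (b - l n)) (by omega)).le
  have := hH.nonneg (b - l M)
  have := hH.le_m (b - l (-(M:ℤ)))
  linarith

/-- additivity reduces the tile identity to short intervals -/
lemma tile_of_short (hr : 0 < r) (h : ∀ a b, a ≤ b → b - a ≤ r →
    HasSum (fun n : ℤ => H (b - l n) - H (a - l n)) (b - a)) :
    ∀ a b, a ≤ b → HasSum (fun n : ℤ => H (b - l n) - H (a - l n)) (b - a) := by
  have key : ∀ k : ℕ, ∀ a b, a ≤ b → b - a ≤ k * r →
      HasSum (fun n : ℤ => H (b - l n) - H (a - l n)) (b - a) := by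
    intro k
    induction k with
    | zero =>
      intro a b hab hb
      have : a = b := by push_cast at hb; linarith
      subst this
      simp [hasSum_zero]
    | succ k ih =>
      intro a b hab hb
      push_cast at hb
      rcases le_total (b - a) r with hc | hc
      · exact h a b hab hc
      · have h1 := h a (a + r) (by linarith) (by linarith)
        have h2 := ih (a + r) b (by linarith) (by linarith)
        have h3 := h1.add h2
        convert h3 using 1
        · funext n; ring
        · ring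
  intro a b hab
  obtain ⟨k, hk⟩ := exists_nat_ge ((b - a) / r)
  exact key k a b hab (by rwa [div_le_iff₀ hr] at hk)

/-- the class is closed under pointwise limits -/
lemma closed (hr : 0 < r) (hH : Prim H m) {x : ℕ → ℤ → ℝ} (h : ∀ i, TS H r R (x i))
    (hl : ∀ n, Tendsto (fun i => x i n) atTop (𝓝 (l n))) : TS H r R l := by
  have hlo : ∀ n, r ≤ l (n+1) - l n := fun n =>
    ge_of_tendsto ((hl (n+1)).sub (hl n)) (Eventually.of_forall fun i => (h i).lo n)
  have hhi : ∀ n, l (n+1) - l n ≤ R := fun n =>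
    le_of_tendsto ((hl (n+1)).sub (hl n)) (Eventually.of_forall fun i => (h i).hi n)
  refine ⟨hlo, hhi, tile_of_short hr ?_⟩
  intro a b hab hb
  have hc : ∀ y n, Tendsto (fun i => H (y - x i n)) atTop (𝓝 (H (y - l n))) := fun y n =>
    (hH.cont.tendsto _).comp (tendsto_const_nhds.sub (hl n))
  have hterm : ∀ n, Tendsto (fun i => H (b - x i n) - H (a - x i n)) atTop
      (𝓝 (H (b - l n) - H (a - l n))) := fun n => (hc b n).sub (hc a n)
  have hup : ∀ s : Finset ℤ, ∑ n ∈ s, (H (b - l n) - H (a - l n)) ≤ b - a := by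
    intro s
    refine le_of_tendsto (tendsto_finsetSum s (fun n _ => hterm n)) (Eventually.of_forall ?_)
    intro i
    exact sum_le_hasSum s (fun n _ => term_nonneg hH hab _) ((h i).tile a b hab)
  have hs : Summable (fun n : ℤ => H (b - l n) - H (a - l n)) :=
    summable_of_sum_le (fun n => term_nonneg hH hab _) hup
  have hle : ∑' n, (H (b - l n) - H (a - l n)) ≤ b - a :=
    hs.tsum_le_of_sum_le hup
  have hge : b - a ≤ ∑' n, (H (b - l n) - H (a - l n)) := by
    have hN : ∀ N : ℕ, b - a ≤ ∑' n, (H (b - l n) - H (a - l n)) + H (b - l N) +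
        (m - H (b - l (-(N:ℤ)))) := by
      intro N
      have h1 : b - a ≤ ∑ n ∈ Finset.Ico (-(N:ℤ)) N, (H (b - l n) - H (a - l n)) +
          H (b - l N) + (m - H (b - l (-(N:ℤ)))) := by
        refine le_of_tendsto_of_tendsto tendsto_const_nhds
          (((tendsto_finsetSum (Finset.Ico (-(N:ℤ)) N) (fun n _ => hterm n)).add (hc b N)).add
            (tendsto_const_nhds.sub (hc b (-(N:ℤ))))) (Eventually.of_forall ?_)
        intro i
        exact (h i).tail_bound hH hab hb N
      have h2 : ∑ n ∈ Finset.Ico (-(N:ℤ)) N, (H (b - l n) - H (a - l n)) ≤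
          ∑' n, (H (b - l n) - H (a - l n)) :=
        hs.sum_le_tsum _ (fun n _ => term_nonneg hH hab _)
      linarith
    have hlow : ∀ k : ℕ, r * k ≤ l k - l 0 := by
      intro k
      induction k with
      | zero => simp
      | succ k ih =>
        have := hlo k
        push_cast
        linarith
    have hlow' : ∀ k : ℕ, l (-(k:ℤ)) ≤ l 0 - r * k := by
      intro k
      induction k with
      | zero => simp
      | succ k ih =>
        have := hlo (-(k:ℤ) - 1)
        have e : (-(k:ℤ) - 1 + 1) = -(k:ℤ) := by ring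
        rw [e] at this
        have e2 : (-((k+1 : ℕ):ℤ)) = -(k:ℤ) - 1 := by push_cast; ring
        rw [e2]
        push_cast
        linarith
    have t1 : Tendsto (fun N : ℕ => H (b - l N)) atTop (𝓝 0) := by
      refine hH.bot.comp ?_
      have : Tendsto (fun N : ℕ => b - l 0 - r * N) atTop atBot := by
        have h0 : Tendsto (fun N : ℕ => r * (N:ℝ)) atTop atTop :=
          (tendsto_natCast_atTop_atTop (R := ℝ)).const_mul_atTop hr
        have h1 := tendsto_atBot_add_const_left atTop (b - l 0) (tendsto_neg_atTop_atBot.comp h0)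
        simpa [sub_eq_add_neg] using h1
      refine tendsto_atBot_mono (fun N => ?_) this
      have := hlow N
      linarith
    have t2 : Tendsto (fun N : ℕ => H (b - l (-(N:ℤ)))) atTop (𝓝 m) := by
      refine hH.top.comp ?_
      have : Tendsto (fun N : ℕ => b - l 0 + r * N) atTop atTop :=
        tendsto_atTop_add_const_left _ _
          ((tendsto_natCast_atTop_atTop (R := ℝ)).const_mul_atTop hr)
      refine tendsto_atTop_mono (fun N => ?_) this
      have := hlow' N
      linarith
    have t3 : Tendsto (fun N : ℕ => ∑' n, (H (b - l n) - H (a - l n)) + H (b - l N) +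
        (m - H (b - l (-(N:ℤ))))) atTop (𝓝 (∑' n, (H (b - l n) - H (a - l n)) + 0 + (m - m))) :=
      (tendsto_const_nhds.add t1).add (tendsto_const_nhds.sub t2)
    have := ge_of_tendsto' t3 hN
    simpa using this
  have := hs.hasSum
  rwa [le_antisymm hle hge] at this

end TS

end Helper575.NP
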