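import Pool.Agent.Helper575.NP1

open MeasureTheory Set Filter Topology

namespace Helper575.NP

variable {r R : ℝ} {l : ℤ → ℝ}

lemma summable_inv_pow {k : ℕ} (hk : 2 ≤ k) : Summable (fun j : ℤ => 1 / (1 + |(j:ℝ)|) ^ k) := by
  have h2 : Summable (fun n : ℕ => 1 / (1 + (n:ℝ)) ^ k) := by
    have h := (summable_nat_add_iff 1).2 (Real.summable_one_div_nat_pow.2 (show 1 < k by omega))
    refine h.congr (fun n => ?_)
    push_cast
    rw [add_comm]
  apply Summable.of_nat_of_neg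
  · refine h2.congr (fun n => ?_)
    simp
  · refine h2.congr (fun n => ?_)
    simp

lemma TS.exists_near {H : ℝ → ℝ} (hr : 0 < r) (h : TS H r R l) (x : ℝ) :
    ∃ k : ℤ, l k ≤ x ∧ x < l (k + 1) := by
  obtain ⟨k, hk1, hk2⟩ := Int.exists_greatest_of_bdd (P := fun k : ℤ => l k ≤ x)
    (by
      obtain ⟨N, hN⟩ := exists_nat_gt ((x - l 0) / r)
      refine ⟨N, fun z hz => ?_⟩
      by_contra hlt
      push Not at hlt
      have h1 := h.lo_nat 0 N
      rw [zero_add] at h1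
      have h2 := h.mono hr hlt
      rw [div_lt_iff₀ hr] at hN
      linarith)
    (by
      obtain ⟨N, hN⟩ := exists_nat_gt ((l 0 - x) / r)
      refine ⟨-(N:ℤ), ?_⟩
      have h1 := h.lo_nat (-(N:ℤ)) N
      rw [neg_add_cancel] at h1
      rw [div_lt_iff₀ hr] at hN
      linarith)
  refine ⟨k, hk1, ?_⟩
  by_contra hcon
  push Not at hcon
  have := hk2 (k + 1) hcon
  omega

lemma TS.near_bound {H : ℝ → ℝ} (hr : 0 < r) (h : TS H r R l) (x : ℝ) :
    ∃ k : ℤ, ∀ n : ℤ, min 1 r / 2 * (1 + |((n - k : ℤ) : ℝ)|) ≤ 1 + |x - l n| := by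
  obtain ⟨k, hk1, hk2⟩ := h.exists_near hr x
  refine ⟨k, fun n => ?_⟩
  have hm1 : min 1 r ≤ 1 := min_le_left _ _
  have hm2 : min 1 r ≤ r := min_le_right _ _
  have hm0 : 0 < min 1 r := lt_min one_pos hr
  rcases le_or_gt n k with hn | hn
  · have h1 := h.lo_int hn
    have h2 : (0:ℝ) ≤ (k:ℝ) - n := by
      have : (n:ℝ) ≤ k := by exact_mod_cast hn
      linarith
    have h3 : |((n - k : ℤ) : ℝ)| = (k:ℝ) - n := by
      push_cast
      rw [abs_of_nonpos (by linarith)]; ring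
    rw [h3]
    have h4 := le_abs_self (x - l n)
    nlinarith [mul_le_mul_of_nonneg_right hm2 h2]
  · have h1 := h.lo_int (show k + 1 ≤ n by omega)
    push_cast at h1
    have h2 : (0:ℝ) ≤ (n:ℝ) - (k + 1) := by
      have : (k:ℝ) + 1 ≤ n := by exact_mod_cast hn
      linarith
    have h3 : |((n - k : ℤ) : ℝ)| = (n:ℝ) - k := by
      push_cast
      rw [abs_of_nonneg (by linarith)]
    rw [h3]
    have h4 := neg_abs_le (x - l n)
    nlinarith [mul_le_mul_of_nonneg_right hm2 h2]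

/-- scaled version -/
lemma TS.near_bound' {H : ℝ → ℝ} (hr : 0 < r) (h : TS H r R l) {a : ℝ} (ha : 0 < a) (x : ℝ) :
    ∃ k : ℤ, ∀ n : ℤ, min 1 a * (min 1 r / 2) * (1 + |((n - k : ℤ) : ℝ)|) ≤ 1 + |x - a * l n| := by
  obtain ⟨k, hk⟩ := h.near_bound hr (x / a)
  refine ⟨k, fun n => ?_⟩
  have h1 := hk n
  have h2 : |x - a * l n| = a * |x / a - l n| := by
    rw [← abs_of_pos ha, ← abs_mul, abs_of_pos ha]
    congr 1
    field_simp
  rw [h2, mul_assoc]
  have hm1 : min 1 a ≤ 1 := min_le_left _ _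
  have hm2 : min 1 a ≤ a := min_le_right _ _
  have hm0 : 0 < min 1 a := lt_min one_pos ha
  calc min 1 a * (min 1 r / 2 * (1 + |((n - k : ℤ) : ℝ)|))
      ≤ min 1 a * (1 + |x / a - l n|) := mul_le_mul_of_nonneg_left h1 hm0.le
    _ = min 1 a + min 1 a * |x / a - l n| := by ring
    _ ≤ 1 + a * |x / a - l n| :=
        add_le_add hm1 (mul_le_mul_of_nonneg_right hm2 (abs_nonneg _))

/-- uniform summability of a decaying function along the tiling -/
lemma TS.sum_decay {H : ℝ → ℝ} (hr : 0 < r) (h : TS H r R l) {a : ℝ} (ha : 0 < a) {C : ℝ}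
    {g : ℝ → ℂ} (hg : ∀ x, ‖g x‖ ≤ C / (1 + |x|) ^ 3) (x : ℝ) :
    Summable (fun n : ℤ => ‖g (x - a * l n)‖) ∧ ∑' n : ℤ, ‖g (x - a * l n)‖ ≤
      C / (min 1 a * (min 1 r / 2)) ^ 3 * ∑' j : ℤ, 1 / (1 + |(j:ℝ)|) ^ 3 := by
  obtain ⟨k, hk⟩ := h.near_bound' hr ha x
  set c := min 1 a * (min 1 r / 2) with hc
  have hc0 : 0 < c := by
    have : 0 < min 1 a := lt_min one_pos ha
    have : 0 < min 1 r := lt_min one_pos hr
    positivity
  have hC : 0 ≤ C := by
    have := (norm_nonneg _).trans (hg 0)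
    simpa using this
  have hbd : ∀ n : ℤ, ‖g (x - a * l n)‖ ≤ C / c ^ 3 * (1 / (1 + |((n - k : ℤ) : ℝ)|) ^ 3) := by
    intro n
    refine (hg _).trans ?_
    have h1 : (c * (1 + |((n - k : ℤ) : ℝ)|)) ^ 3 ≤ (1 + |x - a * l n|) ^ 3 :=
      pow_le_pow_left₀ (by positivity) (hk n) 3
    rw [mul_pow] at h1
    rw [div_mul_div_comm, mul_one]
    exact div_le_div_of_nonneg_left hC (by positivity) h1
  have hs := summable_inv_pow (k := 3) (by norm_num)
  have hsh : HasSum (fun n : ℤ => 1 / (1 + |((n - k : ℤ) : ℝ)|) ^ 3)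
      (∑' j : ℤ, 1 / (1 + |(j:ℝ)|) ^ 3) :=
    (Equiv.subRight k).hasSum_iff (f := fun n : ℤ => 1 / (1 + |(n:ℝ)|) ^ 3) |>.2 hs.hasSum
  have h2 := hsh.mul_left (C / c ^ 3)
  have h3 : Summable (fun n : ℤ => ‖g (x - a * l n)‖) :=
    Summable.of_nonneg_of_le (fun n => norm_nonneg _) hbd h2.summable
  exact ⟨h3, hasSum_le hbd h3.hasSum h2⟩

/-- distribution function of a finite measure -/
noncomputable def Hm (μ : Measure ℝ) (x : ℝ) : ℝ := μ.real (Iic x)

variable {μ : Measure ℝ} [IsFiniteMeasure μ]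

lemma Hm_Ioc (a b : ℝ) (hab : a ≤ b) : μ (Ioc a b) = ENNReal.ofReal (Hm μ b - Hm μ a) := by
  unfold Hm
  have e : Ioc a b = Iic b \ Iic a := by
    ext y; simp only [mem_Ioc, Set.mem_sdiff, mem_Iic, not_le]; exact and_comm
  rw [e, ← measureReal_sdiff (Iic_subset_Iic.2 hab) measurableSet_Iic, ofReal_measureReal]

lemma sum_map_eq (h : TS (Hm μ) r R l) :
    Measure.sum (fun n : ℤ => μ.map (fun y => y + l n)) = volume := by
  symm
  apply Measure.ext_of_Ioc
  intro a b hab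
  rw [Measure.sum_apply _ measurableSet_Ioc, Real.volume_Ioc]
  have h1 := h.tile a b hab.le
  rw [← h1.tsum_eq, ENNReal.ofReal_tsum_of_nonneg _ h1.summable]
  · congr 1
    funext n
    rw [Measure.map_apply (by fun_prop) measurableSet_Ioc]
    have : (fun y => y + l n) ⁻¹' Ioc a b = Ioc (a - l n) (b - l n) := by
      ext y; simp only [mem_preimage, mem_Ioc]; constructor <;> rintro ⟨h1, h2⟩ <;>
        constructor <;> linarith
    rw [this, Hm_Ioc _ _ (by linarith)]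
  · intro n
    apply sub_nonneg.2
    unfold Hm
    exact measureReal_mono (Iic_subset_Iic.2 (by linarith))

lemma hasSum_meas (h : TS (Hm μ) r R l) {g : ℝ → ℂ} (hg : Integrable g) :
    HasSum (fun n : ℤ => ∫ y, g (y + l n) ∂μ) (∫ x, g x) := by
  have h1 : Integrable g (Measure.sum (fun n : ℤ => μ.map (fun y => y + l n))) := by
    rwa [sum_map_eq h]
  have h2 := hasSum_integral_measure h1
  rw [sum_map_eq h] at h2
  have e : (fun n : ℤ => ∫ y, g (y + l n) ∂μ) =
      fun n : ℤ => ∫ x, g x ∂(μ.map (fun y => y + l n)) := by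
    funext n
    rw [integral_map (by fun_prop)]
    exact (h1.mono_measure (Measure.le_sum _ n)).aestronglyMeasurable
  rw [e]
  exact h2

end Helper575.NP
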