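import Pool.Agent.Helper575.NP9
import Pool.Agent.Helper575.NP10

open MeasureTheory Set Filter Topology

namespace Helper575.NP

variable {r R : ℝ} {l : ℤ → ℝ}

lemma one_add_abs_cube (t : ℝ) : 1 / (1 + |t|) ^ 3 ≤ (1 + t ^ 2)⁻¹ := by
  rw [one_div]
  apply inv_anti₀ (by positivity)
  have h := abs_nonneg t
  have h2 : t ^ 2 = |t| ^ 2 := (sq_abs t).symm
  rw [h2]
  nlinarith [pow_nonneg h 3, pow_nonneg h 2]

lemma VS_modulus : ∃ C : ℝ, 0 < C ∧ ∀ z : ℝ, ∫ t, ‖VS t - VS (t - z)‖ ≤ C * min 1 |z| := by
  obtain ⟨C1, hC1, h1⟩ := decay_diff VS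
  set J := ∫ t : ℝ, (1 + t ^ 2)⁻¹ with hJ
  have hJ0 : 0 ≤ J := integral_nonneg (fun t => by positivity)
  have hVi : Integrable (fun t => ‖VS t‖) := VS.integrable.norm
  set N := ∫ t, ‖VS t‖ with hN
  have hN0 : 0 ≤ N := integral_nonneg (fun t => norm_nonneg _)
  refine ⟨C1 * J + 2 * N + 1, by positivity, fun z => ?_⟩
  have hint : Integrable (fun t => ‖VS t - VS (t - z)‖) :=
    (VS.integrable.sub (VS.integrable.comp_sub_right z)).norm
  rcases le_or_gt |z| 1 with hz | hz
  · rw [min_eq_right hz]
    have h2 : ∫ t, ‖VS t - VS (t - z)‖ ≤ ∫ t : ℝ, C1 * |z| * (1 + t ^ 2)⁻¹ := by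
      apply integral_mono hint (integrable_inv_one_add_sq.const_mul _)
      intro t
      refine (h1 t z hz).trans ?_
      rw [div_eq_mul_one_div]
      exact mul_le_mul_of_nonneg_left (one_add_abs_cube t) (by positivity)
    rw [integral_const_mul] at h2
    refine h2.trans ?_
    have := abs_nonneg z
    nlinarith
  · rw [min_eq_left hz.le, mul_one]
    have h2 : ∫ t, ‖VS t - VS (t - z)‖ ≤ ∫ t, (‖VS t‖ + ‖VS (t - z)‖) := by
      apply integral_mono hint (hVi.add (hVi.comp_sub_right z))
      intro t
      exact norm_sub_le _ _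
    rw [integral_add hVi (hVi.comp_sub_right z),
      integral_sub_right_eq_self (fun t => ‖VS t‖) z] at h2
    have : 0 ≤ C1 * J := by positivity
    linarith

variable {μ : Measure ℝ} [IsFiniteMeasure μ]

lemma exists_scale (hμ : 0 < μ.real univ) (C : ℝ) :
    ∃ a : ℝ, 0 < a ∧ C * ∫ y, min 1 |a * y| ∂μ ≤ μ.real univ / 2 := by
  have ht : Tendsto (fun n : ℕ => ∫ y, min 1 |(1 / ((n:ℝ) + 1)) * y| ∂μ) atTop
      (𝓝 (∫ y, (0:ℝ) ∂μ)) := by
    apply tendsto_integral_of_dominated_convergence (fun _ => (1:ℝ))
    · intro n
      exact (by fun_prop : Continuous fun y : ℝ => min 1 |(1 / ((n:ℝ) + 1)) * y|).aestronglyMeasurable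
    · exact integrable_const _
    · intro n
      refine Eventually.of_forall (fun y => ?_)
      rw [Real.norm_eq_abs, abs_of_nonneg (le_min zero_le_one (abs_nonneg _))]
      exact min_le_left _ _
    · refine Eventually.of_forall (fun y => ?_)
      have h1 : Tendsto (fun n : ℕ => |(1 / ((n:ℝ) + 1)) * y|) atTop (𝓝 |0 * y|) :=
        (tendsto_one_div_add_atTop_nhds_zero_nat.mul_const y).abs
      have h2 := (tendsto_const_nhds (x := (1:ℝ))).min h1
      simpa using h2
  rw [integral_zero] at ht
  have ht2 := ht.const_mul C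
  rw [mul_zero] at ht2
  obtain ⟨n, hn⟩ := (ht2.eventually (ge_mem_nhds (show (0:ℝ) < μ.real univ / 2 by positivity))).exists
  exact ⟨1 / ((n:ℝ) + 1), by positivity, hn⟩

/-- **gap lemma** -/
theorem gap (hr : 0 < r) (h : TS (Hm μ) r R l) (hμ : 0 < μ.real univ) {C : ℝ}
    (hC : ∀ z : ℝ, ∫ t, ‖VS t - VS (t - z)‖ ≤ C * min 1 |z|) {a : ℝ} (ha : 0 < a)
    (hsc : C * ∫ y, min 1 |a * y| ∂μ ≤ μ.real univ / 2) (x : ℝ) :
    HasSum (fun n : ℤ => psS (x - a * l n)) ((1 / (a * μ.real univ) : ℝ) : ℂ) := by
  obtain ⟨Cp, hCp, hdec⟩ := decay_val psS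
  set M := Cp / (min 1 a * (min 1 r / 2)) ^ 3 * ∑' j : ℤ, 1 / (1 + |(j:ℝ)|) ^ 3 with hM
  have hsd := fun x => h.sum_decay hr ha hdec x
  have hM0 : 0 ≤ M := (tsum_nonneg (fun n => norm_nonneg _)).trans (hsd 0).2
  set u : ℝ → ℂ := fun x => ∑' n : ℤ, psS (x - a * l n) with hu
  have husum : ∀ x, HasSum (fun n : ℤ => psS (x - a * l n)) (u x) := fun x =>
    ((hsd x).1.of_norm).hasSum
  have hub : ∀ x, ‖u x‖ ≤ M := fun x =>
    (norm_tsum_le_tsum_norm (hsd x).1).trans (hsd x).2
  have humeas : Measurable u := by
    have h1 : ∀ N : ℕ, Measurable (fun x => ∑ n ∈ Finset.Ico (-(N:ℤ)) N, psS (x - a * l n)) := by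
      intro N
      exact (by fun_prop : Continuous (fun x => ∑ n ∈ Finset.Ico (-(N:ℤ)) N,
        psS (x - a * l n))).measurable
    refine measurable_of_tendsto_metrizable h1 ?_
    rw [tendsto_pi_nhds]
    intro x
    exact (husum x).comp Finset.tendsto_Ico_neg
  -- convolution with V
  have hVu : ∀ x, ∫ t, VS t * u (x - t) = u x := by
    intro x
    have hint : ∀ n : ℤ, Integrable (fun t => VS t * psS (x - t - a * l n)) := by
      intro n
      refine VS.integrable.mul_bdd (c := Cp) ?_ ?_
      · exact (by fun_prop : Continuous fun t => psS (x - t - a * l n)).aestronglyMeasurable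
      · refine Eventually.of_forall (fun t => ?_)
        refine (hdec _).trans ?_
        apply div_le_self hCp.le
        apply one_le_pow₀
        have := abs_nonneg (x - t - a * l n)
        linarith
    have hnorm : Summable (fun n : ℤ => ∫ t, ‖VS t * psS (x - t - a * l n)‖) := by
      apply summable_of_sum_le (c := (∫ t, ‖VS t‖) * M)
        (fun n => integral_nonneg (fun t => norm_nonneg _))
      intro s
      rw [← integral_finsetSum _ (fun n _ => (hint n).norm), ← integral_mul_const]
      apply integral_mono (integrable_finsetSum _ (fun n _ => (hint n).norm))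
        (VS.integrable.norm.mul_const _)
      intro t
      simp only [norm_mul]
      rw [← Finset.mul_sum]
      apply mul_le_mul_of_nonneg_left _ (norm_nonneg _)
      exact ((hsd (x - t)).1.sum_le_tsum s (fun n _ => norm_nonneg _)).trans (hsd (x - t)).2
    have hS := hasSum_integral_of_summable_integral_norm hint hnorm
    have e1 : ∀ t, ∑' n : ℤ, VS t * psS (x - t - a * l n) = VS t * u (x - t) := fun t =>
      ((husum (x - t)).mul_left (VS t)).tsum_eq
    simp only [e1] at hS
    have e2 : (fun n : ℤ => ∫ t, VS t * psS (x - t - a * l n)) =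
        fun n : ℤ => psS (x - a * l n) := by
      funext n
      rw [← conv_apply' (x - a * l n)]
      congr 1
      funext t
      rw [show x - t - a * l n = x - a * l n - t by ring]
    rw [e2] at hS
    exact hS.unique (husum x)
  -- integration over the tile
  have hmu : ∀ x, ∫ y, u (x - a * y) ∂μ = ((1 / a : ℝ) : ℂ) := by
    intro x
    have hg : Integrable (fun z : ℝ => psS (x - a * z)) := by
      have h1 : Integrable (fun z : ℝ => psS (a * z)) := by
        rw [integrable_comp_mul_left_iff _ ha.ne']
        exact psS.integrable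
      have h2 := (h1.comp_neg).comp_sub_right (x / a)
      refine h2.congr (Eventually.of_forall fun z => ?_)
      simp only
      congr 1
      field_simp
      ring
    have hS := hasSum_meas h hg
    have hgi : ∫ z : ℝ, psS (x - a * z) = ((1 / a : ℝ) : ℂ) := by
      have e1 : ∫ z : ℝ, psS (x - a * z) = ∫ z : ℝ, psS (a * z) := by
        rw [← integral_sub_left_eq_self (fun z => psS (a * z)) volume (x / a)]
        congr 1
        funext z
        congr 1
        field_simp
      rw [e1, Measure.integral_comp_mul_left (fun z => psS z) a, integral_psS, abs_of_pos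
        (inv_pos.2 ha)]
      simp
    rw [hgi] at hS
    have hint : ∀ n : ℤ, Integrable (fun y => psS (x - a * (y + l n))) μ := by
      intro n
      refine Integrable.mono' (integrable_const Cp) ?_ ?_
      · exact (by fun_prop : Continuous fun y => psS (x - a * (y + l n))).aestronglyMeasurable
      · refine Eventually.of_forall (fun t => ?_)
        refine (hdec _).trans ?_
        apply div_le_self hCp.le
        apply one_le_pow₀
        have := abs_nonneg (x - a * (t + l n))
        linarith
    have hnorm : Summable (fun n : ℤ => ∫ y, ‖psS (x - a * (y + l n))‖ ∂μ) := by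
      apply summable_of_sum_le (c := μ.real univ * M)
        (fun n => integral_nonneg (fun t => norm_nonneg _))
      intro s
      rw [← integral_finsetSum _ (fun n _ => (hint n).norm)]
      have : ∫ y, M ∂μ = μ.real univ * M := by rw [integral_const, smul_eq_mul]
      rw [← this]
      apply integral_mono (integrable_finsetSum _ (fun n _ => (hint n).norm))
        (integrable_const _)
      intro y
      have e : ∀ n, psS (x - a * (y + l n)) = psS ((x - a * y) - a * l n) := by
        intro n; congr 1; ring
      simp only [e]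
      exact ((hsd (x - a * y)).1.sum_le_tsum s (fun n _ => norm_nonneg _)).trans
        (hsd (x - a * y)).2
    have hS2 := hasSum_integral_of_summable_integral_norm hint hnorm
    have e1 : ∀ y, ∑' n : ℤ, psS (x - a * (y + l n)) = u (x - a * y) := by
      intro y
      have e : ∀ n, psS (x - a * (y + l n)) = psS ((x - a * y) - a * l n) := by
        intro n; congr 1; ring
      simp only [e]
      rfl
    simp only [e1] at hS2
    exact hS2.unique hS
  -- the deviation from the mean
  set m := μ.real univ with hm
  set cc : ℂ := ((1 / (a * m) : ℝ) : ℂ) with hcc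
  set v : ℝ → ℂ := fun x => u x - cc with hv
  have hvb : ∀ x, ‖v x‖ ≤ M + ‖cc‖ := fun x => (norm_sub_le _ _).trans (by
    have := hub x; linarith)
  have hvm : Measurable v := humeas.sub_const _
  have hVvint : ∀ x z, Integrable (fun t => VS (t - z) * v (x - t)) := by
    intro x z
    refine (VS.integrable.comp_sub_right z).mul_bdd (c := M + ‖cc‖) ?_ ?_
    · exact (hvm.comp (by fun_prop : Measurable fun t : ℝ => x - t)).aestronglyMeasurable
    · exact Eventually.of_forall (fun t => hvb _)
  have hVuint : ∀ x, Integrable (fun t => VS t * u (x - t)) := by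
    intro x
    refine VS.integrable.mul_bdd (c := M) ?_ ?_
    · exact (humeas.comp (by fun_prop : Measurable fun t : ℝ => x - t)).aestronglyMeasurable
    · exact Eventually.of_forall (fun t => hub _)
  have hVv : ∀ x, ∫ t, VS t * v (x - t) = v x := by
    intro x
    have e : ∀ t, VS t * v (x - t) = VS t * u (x - t) - VS t * cc := by
      intro t; simp only [hv]; ring
    simp only [e]
    rw [integral_sub (hVuint x) (VS.integrable.mul_const _), hVu, integral_mul_const,
      integral_VS, one_mul]
  have hdiff : ∀ x z, v x - v (x - z) = ∫ t, (VS t - VS (t - z)) * v (x - t) := by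
    intro x z
    have e1 : v (x - z) = ∫ t, VS (t - z) * v (x - t) := by
      rw [← hVv (x - z)]
      rw [← integral_sub_right_eq_self (fun t => VS t * v (x - z - t)) z]
      congr 1
      funext t
      rw [show x - z - (t - z) = x - t by ring]
    rw [e1]
    nth_rewrite 1 [← hVv x]
    rw [← integral_sub]
    · congr 1
      funext t
      ring
    · have := hVvint x 0
      simpa using this
    · exact hVvint x z
  have hmv : ∀ x, ∫ y, v (x - a * y) ∂μ = 0 := by
    intro x
    have hui : Integrable (fun y => u (x - a * y)) μ :=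
      Integrable.mono' (integrable_const M)
        (humeas.comp (by fun_prop : Measurable fun y : ℝ => x - a * y)).aestronglyMeasurable
        (Eventually.of_forall fun y => hub _)
    simp only [hv]
    rw [integral_sub hui (integrable_const _), hmu, integral_const, ← hm, hcc]
    rw [Complex.real_smul, ← Complex.ofReal_mul, ← Complex.ofReal_sub]
    have : 1 / a - m * (1 / (a * m)) = 0 := by
      field_simp
      ring
    rw [this, Complex.ofReal_zero]
  -- contraction
  have hstep : ∀ B : ℝ, 0 ≤ B → (∀ x, ‖v x‖ ≤ B) → ∀ x, ‖v x‖ ≤ B / 2 := by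
    intro B hB hvB x
    have hosc : ∀ z, ‖v x - v (x - z)‖ ≤ B * (C * min 1 |z|) := by
      intro z
      rw [hdiff]
      have hi : Integrable (fun t => ‖VS t - VS (t - z)‖ * B) :=
        (VS.integrable.sub (VS.integrable.comp_sub_right z)).norm.mul_const B
      refine (norm_integral_le_of_norm_le hi (Eventually.of_forall fun t => ?_)).trans ?_
      · rw [norm_mul]
        exact mul_le_mul_of_nonneg_left (hvB _) (norm_nonneg _)
      · rw [integral_mul_const, mul_comm]
        exact mul_le_mul_of_nonneg_left (hC z) hB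
    have hvi : Integrable (fun y => v (x - a * y)) μ :=
      Integrable.mono' (integrable_const (M + ‖cc‖))
        (hvm.comp (by fun_prop : Measurable fun y : ℝ => x - a * y)).aestronglyMeasurable
        (Eventually.of_forall fun y => hvb _)
    have e1 : ∫ y, (v x - v (x - a * y)) ∂μ = (m : ℂ) * v x := by
      rw [integral_sub (integrable_const _) hvi, hmv, integral_const, sub_zero,
        Complex.real_smul]
    have hmin : Integrable (fun y => min 1 |a * y|) μ := by
      refine Integrable.mono' (integrable_const (1:ℝ)) ?_ ?_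
      · exact (by fun_prop : Continuous fun y : ℝ => min 1 |a * y|).aestronglyMeasurable
      · refine Eventually.of_forall (fun y => ?_)
        rw [Real.norm_eq_abs, abs_of_nonneg (le_min zero_le_one (abs_nonneg _))]
        exact min_le_left _ _
    have e2 : ‖∫ y, (v x - v (x - a * y)) ∂μ‖ ≤ ∫ y, B * (C * min 1 |a * y|) ∂μ :=
      norm_integral_le_of_norm_le ((hmin.const_mul C).const_mul B)
        (Eventually.of_forall fun y => hosc _)
    rw [e1, integral_const_mul, integral_const_mul, norm_mul, Complex.norm_real,
      Real.norm_eq_abs, abs_of_pos hμ] at e2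
    have e3 : B * (C * ∫ y, min 1 |a * y| ∂μ) ≤ B * (m / 2) := mul_le_mul_of_nonneg_left hsc hB
    have e4 : m * ‖v x‖ ≤ m * (B / 2) := by linarith
    exact le_of_mul_le_mul_left e4 hμ
  have hall : ∀ j : ℕ, ∀ x, ‖v x‖ ≤ (M + ‖cc‖) * (1/2) ^ j := by
    intro j
    induction j with
    | zero => intro x; simpa using hvb x
    | succ j ih =>
      intro x
      have := hstep _ (by positivity) ih x
      refine this.trans (le_of_eq ?_)
      rw [pow_succ]; ring
  have hv0 : v x = 0 := by
    have ht : Tendsto (fun j : ℕ => (M + ‖cc‖) * (1/2 : ℝ) ^ j) atTop (𝓝 ((M + ‖cc‖) * 0)) :=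
      (tendsto_pow_atTop_nhds_zero_of_lt_one (by norm_num) (by norm_num)).const_mul _
    have := ge_of_tendsto' ht (fun j => hall j x)
    rw [mul_zero] at this
    exact norm_le_zero_iff.1 this
  have : u x = cc := sub_eq_zero.1 hv0
  rw [← this]
  exact husum x

end Helper575.NP
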