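import Pool.Agent.Helper575.NP3
import Pool.Agent.Helper575.NP11

open MeasureTheory Set Filter Topology

namespace Helper575.NP

variable {H : ℝ → ℝ} {r R : ℝ} {l l' : ℤ → ℝ}

section
variable {φ : ℝ → ℂ} {c0 : ℂ} {Cp : ℝ}

lemma int_sum_le (hr : 0 < r) (hφ : Continuous φ) (hb : ∀ t, ‖φ t‖ ≤ Cp / (1 + |t|) ^ 3)
    (h : TS H r R l) (hg : ∀ x, HasSum (fun n : ℤ => φ (x - l n)) c0) {u v : ℝ} (huv : u ≤ v) :
    HasSum (fun k : ℤ => ∫ t in u..v, φ (t - l k)) (((v - u : ℝ) : ℂ) * c0) := by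
  set M := Cp / (min 1 1 * (min 1 r / 2)) ^ 3 * ∑' j : ℤ, 1 / (1 + |(j:ℝ)|) ^ 3 with hM
  have hsd := fun x => h.sum_decay hr one_pos hb x
  simp only [one_mul] at hsd
  have hint : ∀ n : ℤ, Integrable (fun t => φ (t - l n)) (volume.restrict (Ioc u v)) := by
    intro n
    exact ((hφ.comp (continuous_sub_right (l n))).integrableOn_Icc (a := u) (b := v)).mono_set
      Ioc_subset_Icc_self
  have hnorm : Summable (fun n : ℤ => ∫ t, ‖φ (t - l n)‖ ∂(volume.restrict (Ioc u v))) := by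
    apply summable_of_sum_le (c := (v - u) * M)
      (fun n => integral_nonneg (fun t => norm_nonneg _))
    intro s
    rw [← integral_finsetSum _ (fun n _ => (hint n).norm)]
    have e : ∫ y, M ∂(volume.restrict (Ioc u v)) = (v - u) * M := by
      rw [integral_const, smul_eq_mul]
      simp [huv]
    rw [← e]
    apply integral_mono (integrable_finsetSum _ (fun n _ => (hint n).norm))
      (integrable_const _)
    intro y
    exact ((hsd y).1.sum_le_tsum s (fun n _ => norm_nonneg _)).trans (hsd y).2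
  have hS := hasSum_integral_of_summable_integral_norm hint hnorm
  have e1 : ∀ t, ∑' n : ℤ, φ (t - l n) = c0 := fun t => (hg t).tsum_eq
  simp only [e1] at hS
  have e2 : ∫ y, c0 ∂(volume.restrict (Ioc u v)) = ((v - u : ℝ) : ℂ) * c0 := by
    rw [integral_const, Complex.real_smul]
    simp [huv]
  rw [e2] at hS
  have e3 : (fun k : ℤ => ∫ t in u..v, φ (t - l k)) =
      fun k : ℤ => ∫ t in Ioc u v, φ (t - l k) := by
    funext k
    rw [intervalIntegral.integral_of_le huv]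
  rw [e3]
  exact hS

lemma int_sum (hr : 0 < r) (hφ : Continuous φ) (hb : ∀ t, ‖φ t‖ ≤ Cp / (1 + |t|) ^ 3)
    (h : TS H r R l) (hg : ∀ x, HasSum (fun n : ℤ => φ (x - l n)) c0) (u v : ℝ) :
    HasSum (fun k : ℤ => ∫ t in u..v, φ (t - l k)) (((v - u : ℝ) : ℂ) * c0) := by
  rcases le_total u v with huv | huv
  · exact int_sum_le hr hφ hb h hg huv
  · have h1 := (int_sum_le hr hφ hb h hg huv).neg
    have e : (fun k : ℤ => ∫ t in u..v, φ (t - l k)) =
      fun k : ℤ => -∫ t in v..u, φ (t - l k) := by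
      funext k
      rw [intervalIntegral.integral_symm]
    rw [e]
    have e2 : (((v - u : ℝ) : ℂ) * c0) = -(((u - v : ℝ) : ℂ) * c0) := by
      push_cast; ring
    rw [e2]
    exact h1

lemma flux_diff (hr : 0 < r) (hφ : Continuous φ) (hb : ∀ t, ‖φ t‖ ≤ Cp / (1 + |t|) ^ 3)
    (h : TS H r R l) (h' : TS H r R l')
    (hg : ∀ x, HasSum (fun n : ℤ => φ (x - l n)) c0)
    (hg' : ∀ x, HasSum (fun n : ℤ => φ (x - l' n)) c0) (x y : ℝ) :
    HasSum (fun k : ℤ => (∫ t in (y - l k)..(y - l' k), φ t) -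
      ∫ t in (x - l k)..(x - l' k), φ t) 0 := by
  have h1 := (int_sum hr hφ hb h' hg' x y).sub (int_sum hr hφ hb h hg x y)
  rw [sub_self] at h1
  have e : (fun k : ℤ => (∫ t in (y - l k)..(y - l' k), φ t) -
      ∫ t in (x - l k)..(x - l' k), φ t) = fun k : ℤ => (∫ t in x..y, φ (t - l' k)) -
        ∫ t in x..y, φ (t - l k) := by
    funext k
    rw [intervalIntegral.integral_comp_sub_right, intervalIntegral.integral_comp_sub_right]
    have hi : ∀ a b, IntervalIntegrable φ volume a b := fun a b => hφ.intervalIntegrable a b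
    rw [intervalIntegral.integral_interval_sub_interval_comm (hi _ _) (hi _ _) (hi _ _),
      intervalIntegral.integral_symm (x - l k), intervalIntegral.integral_symm (x - l' k)]
    ring
  rw [e]
  exact h1

/-- bounding sequence -/
noncomputable def bseq (Cq R ω : ℝ) (L : ℕ) (j : ℤ) : ℝ :=
  ω * (Cq * (1 / (1 + |(j:ℝ)|) ^ 3)) +
    R * Cq * (1 / (1 + |(j:ℝ)|) ^ 2 - if j ∈ Finset.Icc (-(L:ℤ)) L then 1 / (1 + |(j:ℝ)|) ^ 2 else 0)

noncomputable def T2 (L : ℕ) : ℝ :=
  ∑' j : ℤ, 1 / (1 + |(j:ℝ)|) ^ 2 - ∑ j ∈ Finset.Icc (-(L:ℤ)) L, 1 / (1 + |(j:ℝ)|) ^ 2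

lemma bseq_hasSum (Cq R ω : ℝ) (L : ℕ) : HasSum (bseq Cq R ω L)
    (ω * (Cq * ∑' j : ℤ, 1 / (1 + |(j:ℝ)|) ^ 3) + R * Cq * T2 L) := by
  have h3 := (summable_inv_pow (k := 3) (by norm_num)).hasSum
  have h2 := (summable_inv_pow (k := 2) (by norm_num)).hasSum
  have hf : HasSum (fun j : ℤ => if j ∈ Finset.Icc (-(L:ℤ)) L then 1 / (1 + |(j:ℝ)|) ^ 2 else 0)
      (∑ j ∈ Finset.Icc (-(L:ℤ)) L, 1 / (1 + |(j:ℝ)|) ^ 2) := by
    have h := hasSum_sum_of_ne_finset_zero (L := SummationFilter.unconditional ℤ) (s := Finset.Icc (-(L:ℤ)) L)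
      (f := fun j : ℤ => if j ∈ Finset.Icc (-(L:ℤ)) L then 1 / (1 + |(j:ℝ)|) ^ 2 else 0)
      (fun b hb => by simp only [hb, if_false])
    rw [Finset.sum_ite_mem, Finset.inter_self] at h
    exact h
  exact ((h3.mul_left Cq).mul_left ω).add ((h2.sub hf).mul_left (R * Cq))

lemma T2_tendsto : Tendsto T2 atTop (𝓝 0) := by
  have h2 := (summable_inv_pow (k := 2) (by norm_num)).hasSum
  have h3 : Tendsto (fun L : ℕ => ∑ j ∈ Finset.Icc (-(L:ℤ)) L, 1 / (1 + |(j:ℝ)|) ^ 2) atTop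
      (𝓝 (∑' j : ℤ, 1 / (1 + |(j:ℝ)|) ^ 2)) := h2.comp Finset.tendsto_Icc_neg
  have := h3.const_sub (∑' j : ℤ, 1 / (1 + |(j:ℝ)|) ^ 2)
  rw [sub_self] at this
  exact this

lemma err_bound (hr : 0 < r) (hφ : Continuous φ) (hCp : 0 ≤ Cp)
    (hb : ∀ t, ‖φ t‖ ≤ Cp / (1 + |t|) ^ 3)
    (h : TS H r R l) (h' : TS H r R l')
    (hg : ∀ x, HasSum (fun n : ℤ => φ (x - l n)) c0)
    (n : ℤ) (L : ℕ) {ω : ℝ} (hω : 0 ≤ ω)
    (hloc : ∀ j : ℤ, |j| ≤ L → |(l' (n + j) - l (n + j)) - (l' n - l n)| ≤ ω)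
    (h1 : |l' n - l n| ≤ 1) :
    Summable (fun k : ℤ => ∫ t in (l n - l k)..(l n - l' k), φ t) ∧
    ‖∑' k : ℤ, (∫ t in (l n - l k)..(l n - l' k), φ t) + ((l' n - l n : ℝ) : ℂ) * c0‖ ≤
      ω * (Cp / (min 1 r / 2) ^ 3 * ∑' j : ℤ, 1 / (1 + |(j:ℝ)|) ^ 3) +
        R * (Cp / (min 1 r / 2) ^ 3) * T2 L := by
  set Cq := Cp / (min 1 r / 2) ^ 3 with hCq
  have hmr : 0 < min 1 r := lt_min one_pos hr
  have hCq0 : 0 ≤ Cq := by positivity
  have hR : 0 ≤ R := hr.le.trans h.rle
  set e := l' n - l n with he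
  -- the main part
  have hp := int_sum hr hφ hb h hg (l n) (l n - e)
  have hi : ∀ a b, IntervalIntegrable φ volume a b := fun a b => hφ.intervalIntegrable a b
  have hsplit : ∀ k : ℤ, ∫ t in (l n - l k)..(l n - l' k), φ t =
      (∫ t in (l n)..(l n - e), φ (t - l k)) + ∫ t in (l n - e - l k)..(l n - l' k), φ t := by
    intro k
    rw [intervalIntegral.integral_comp_sub_right]
    rw [intervalIntegral.integral_add_adjacent_intervals (hi _ _) (hi _ _)]
  have hd : ∀ j : ℤ, ‖∫ t in (l n - e - l (j + n))..(l n - l' (j + n)), φ t‖ ≤ bseq Cq R ω L j := by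
    intro j
    have hbd : ∀ t ∈ uIoc (l n - e - l (j + n)) (l n - l' (j + n)),
        ‖φ t‖ ≤ Cq * (1 / (1 + |(j:ℝ)|) ^ 3) := by
      intro t ht
      have habs : r * |(j:ℝ)| - 1 ≤ |t| := by
        have he1 := abs_le.1 h1
        rcases le_total 0 j with hj | hj
        · have a1 := h.lo_int (show n ≤ j + n by omega)
          have a2 := h'.lo_int (show n ≤ j + n by omega)
          push_cast at a1 a2
          rw [add_sub_cancel_right] at a1 a2
          have hj' : (0:ℝ) ≤ j := by exact_mod_cast hj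
          rw [abs_of_nonneg hj']
          have : t ≤ max (l n - e - l (j + n)) (l n - l' (j + n)) := ht.2
          have b : max (l n - e - l (j + n)) (l n - l' (j + n)) ≤ -(r * j) + 1 := by
            apply max_le
            · linarith
            · linarith
          have := neg_le_abs t
          linarith
        · have a1 := h.lo_int (show j + n ≤ n by omega)
          have a2 := h'.lo_int (show j + n ≤ n by omega)
          push_cast at a1 a2
          have hj' : (j:ℝ) ≤ 0 := by exact_mod_cast hj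
          rw [abs_of_nonpos hj']
          have : min (l n - e - l (j + n)) (l n - l' (j + n)) < t := ht.1
          have b : r * -(j:ℝ) - 1 ≤ min (l n - e - l (j + n)) (l n - l' (j + n)) := by
            apply le_min
            · nlinarith
            · nlinarith
          have := le_abs_self t
          linarith
      refine (hb t).trans ?_
      have k1 : min 1 r / 2 * (1 + |(j:ℝ)|) ≤ 1 + |t| := by
        have m1 : min 1 r ≤ 1 := min_le_left _ _
        have m2 : min 1 r * |(j:ℝ)| ≤ r * |(j:ℝ)| :=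
          mul_le_mul_of_nonneg_right (min_le_right _ _) (abs_nonneg _)
        have := abs_nonneg t
        linarith
      have k2 := pow_le_pow_left₀ (by positivity) k1 3
      rw [mul_pow] at k2
      rw [hCq, div_mul_div_comm, mul_one]
      exact div_le_div_of_nonneg_left hCp (by positivity) k2
    refine (intervalIntegral.norm_integral_le_of_norm_le_const hbd).trans ?_
    have hlen : |l n - l' (j + n) - (l n - e - l (j + n))| =
        |(l' (n + j) - l (n + j)) - (l' n - l n)| := by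
      rw [abs_sub_comm, add_comm n j]
      congr 1
      rw [he]; ring
    rw [hlen]
    by_cases hj : j ∈ Finset.Icc (-(L:ℤ)) L
    · simp only [bseq, hj, if_true, sub_self, mul_zero, add_zero]
      rw [mul_comm]
      apply mul_le_mul_of_nonneg_right _ (by positivity)
      apply hloc
      rw [Finset.mem_Icc] at hj
      exact abs_le.2 hj
    · simp only [bseq, hj, if_false, sub_zero]
      have k3 : |(l' (n + j) - l (n + j)) - (l' n - l n)| ≤ R * |(j:ℝ)| := by
        rcases le_total 0 j with hj0 | hj0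
        · have a1 := h.hi_int (show n ≤ n + j by omega)
          have a2 := h'.hi_int (show n ≤ n + j by omega)
          have a3 := (h.mono hr).monotone (show n ≤ n + j by omega)
          have a4 := (h'.mono hr).monotone (show n ≤ n + j by omega)
          push_cast at a1 a2
          rw [add_sub_cancel_left] at a1 a2
          have hj' : (0:ℝ) ≤ j := by exact_mod_cast hj0
          rw [abs_of_nonneg hj', abs_le]
          constructor <;> linarith
        · have a1 := h.hi_int (show n + j ≤ n by omega)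
          have a2 := h'.hi_int (show n + j ≤ n by omega)
          have a3 := (h.mono hr).monotone (show n + j ≤ n by omega)
          have a4 := (h'.mono hr).monotone (show n + j ≤ n by omega)
          push_cast at a1 a2
          have hj' : (j:ℝ) ≤ 0 := by exact_mod_cast hj0
          rw [abs_of_nonpos hj', abs_le]
          constructor <;> nlinarith
      have k4 : 0 ≤ ω * (Cq * (1 / (1 + |(j:ℝ)|) ^ 3)) := by positivity
      have k5 : Cq * (1 / (1 + |(j:ℝ)|) ^ 3) * |(l' (n + j) - l (n + j)) - (l' n - l n)| ≤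
          Cq * (1 / (1 + |(j:ℝ)|) ^ 3) * (R * |(j:ℝ)|) :=
        mul_le_mul_of_nonneg_left k3 (by positivity)
      have k6 : Cq * (1 / (1 + |(j:ℝ)|) ^ 3) * (R * |(j:ℝ)|) ≤
          R * Cq * (1 / (1 + |(j:ℝ)|) ^ 2) := by
        have k7 : 1 / (1 + |(j:ℝ)|) ^ 3 * |(j:ℝ)| ≤ 1 / (1 + |(j:ℝ)|) ^ 2 := by
          rw [div_mul_eq_mul_div, one_mul, div_le_div_iff₀ (by positivity) (by positivity)]
          have := abs_nonneg (j:ℝ)
          nlinarith [pow_nonneg (show 0 ≤ 1 + |(j:ℝ)| by positivity) 2]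
        calc Cq * (1 / (1 + |(j:ℝ)|) ^ 3) * (R * |(j:ℝ)|)
            = R * Cq * (1 / (1 + |(j:ℝ)|) ^ 3 * |(j:ℝ)|) := by ring
          _ ≤ _ := mul_le_mul_of_nonneg_left k7 (by positivity)
      linarith
  have hbs := bseq_hasSum Cq R ω L
  have hdn : Summable (fun j : ℤ => ‖∫ t in (l n - e - l (j + n))..(l n - l' (j + n)), φ t‖) :=
    Summable.of_nonneg_of_le (fun j => norm_nonneg _) hd hbs.summable
  have hd1 : Summable (fun j : ℤ => ∫ t in (l n - e - l (j + n))..(l n - l' (j + n)), φ t) :=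
    hdn.of_norm
  have hd2 : HasSum (fun k : ℤ => ∫ t in (l n - e - l k)..(l n - l' k), φ t)
      (∑' j : ℤ, ∫ t in (l n - e - l (j + n))..(l n - l' (j + n)), φ t) := by
    rw [← (Equiv.addRight n).hasSum_iff]
    exact hd1.hasSum
  have hq := hp.add hd2
  simp only [← hsplit] at hq
  refine ⟨hq.summable, ?_⟩
  rw [hq.tsum_eq]
  have e2 : ((l n - e - l n : ℝ) : ℂ) * c0 + (∑' j : ℤ, ∫ t in (l n - e - l (j + n))..(l n - l' (j + n)), φ t) +
      ((e : ℝ) : ℂ) * c0 = ∑' j : ℤ, ∫ t in (l n - e - l (j + n))..(l n - l' (j + n)), φ t := by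
    push_cast; ring
  rw [e2]
  exact (norm_tsum_le_tsum_norm hdn).trans (hasSum_le hd hdn.hasSum hbs)

lemma dc_of_gap (hr : 0 < r) (hφ : Continuous φ) (hCp : 0 ≤ Cp)
    (hb : ∀ t, ‖φ t‖ ≤ Cp / (1 + |t|) ^ 3) (hc0 : c0 ≠ 0)
    (hg : ∀ l : ℤ → ℝ, TS H r R l → ∀ x, HasSum (fun n : ℤ => φ (x - l n)) c0) : DC H r R := by
  set Cq := Cp / (min 1 r / 2) ^ 3 with hCq
  have hmr : 0 < min 1 r := lt_min one_pos hr
  have hCq0 : 0 ≤ Cq := by positivity
  have hS3 : 0 ≤ ∑' j : ℤ, 1 / (1 + |(j:ℝ)|) ^ 3 := tsum_nonneg (fun j => by positivity)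
  have hc : 0 < ‖c0‖ := norm_pos_iff.2 hc0
  refine ⟨2 * (Cq * ∑' j : ℤ, 1 / (1 + |(j:ℝ)|) ^ 3) / ‖c0‖, fun L => 2 * (R * Cq) / ‖c0‖ * T2 L,
    by positivity, ?_, ?_⟩
  · have := T2_tendsto.const_mul (2 * (R * Cq) / ‖c0‖)
    rwa [mul_zero] at this
  · intro l l' hl hl' n k L ω hω _ h1 h2 h3 h4
    obtain ⟨s1, e1⟩ := err_bound hr hφ hCp hb hl hl' (hg l hl) n L hω h1 h3
    obtain ⟨s2, e2⟩ := err_bound hr hφ hCp hb hl hl' (hg l hl) k L hω h2 h4
    have hfl := flux_diff hr hφ hb hl hl' (hg l hl) (hg l' hl') (l n) (l k)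
    have hfl2 := (s2.hasSum.sub s1.hasSum).unique hfl
    have e3 : ((l' n - l n : ℝ) : ℂ) * c0 - ((l' k - l k : ℝ) : ℂ) * c0 =
      (∑' j : ℤ, (∫ t in (l n - l j)..(l n - l' j), φ t) + ((l' n - l n : ℝ) : ℂ) * c0) -
      (∑' j : ℤ, (∫ t in (l k - l j)..(l k - l' j), φ t) + ((l' k - l k : ℝ) : ℂ) * c0) := by
      rw [sub_eq_zero.1 hfl2]; ring
    have e4 : |(l' n - l n) - (l' k - l k)| * ‖c0‖ =
        ‖((l' n - l n : ℝ) : ℂ) * c0 - ((l' k - l k : ℝ) : ℂ) * c0‖ := by
      rw [← sub_mul, ← Complex.ofReal_sub, norm_mul, Complex.norm_real, Real.norm_eq_abs]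
    have e5 := norm_sub_le
      (∑' j : ℤ, (∫ t in (l n - l j)..(l n - l' j), φ t) + ((l' n - l n : ℝ) : ℂ) * c0)
      (∑' j : ℤ, (∫ t in (l k - l j)..(l k - l' j), φ t) + ((l' k - l k : ℝ) : ℂ) * c0)
    rw [← e3, ← e4] at e5
    have e6 : |(l' n - l n) - (l' k - l k)| * ‖c0‖ ≤
        2 * (ω * (Cq * ∑' j : ℤ, 1 / (1 + |(j:ℝ)|) ^ 3) + R * Cq * T2 L) := by linarith
    rw [← le_div_iff₀ hc] at e6
    refine e6.trans (le_of_eq ?_)
    field_simp

end

/-- drift control for tilings -/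
theorem dc_Hm {μ : Measure ℝ} [IsFiniteMeasure μ] (hr : 0 < r) (hμ : 0 < μ.real univ) :
    DC (Hm μ) r R := by
  obtain ⟨C, hC, hmod⟩ := VS_modulus
  obtain ⟨a, ha, hsc⟩ := exists_scale hμ C
  obtain ⟨Cp, hCp, hdec⟩ := decay_val psS
  have hb : ∀ t : ℝ, ‖psS (a * t)‖ ≤ (Cp / (min 1 a) ^ 3) / (1 + |t|) ^ 3 := by
    intro t
    refine (hdec _).trans ?_
    have hm : 0 < min 1 a := lt_min one_pos ha
    rw [div_div, ← mul_pow]
    apply div_le_div_of_nonneg_left hCp.le (by positivity)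
    apply pow_le_pow_left₀ (by positivity)
    rw [abs_mul, abs_of_pos ha]
    have m1 : min 1 a ≤ 1 := min_le_left _ _
    have m2 : min 1 a * |t| ≤ a * |t| :=
      mul_le_mul_of_nonneg_right (min_le_right _ _) (abs_nonneg _)
    linarith
  refine dc_of_gap (φ := fun t => psS (a * t)) (c0 := ((1 / (a * μ.real univ) : ℝ) : ℂ))
    (Cp := Cp / (min 1 a) ^ 3) hr (by fun_prop) ?_ hb ?_ ?_
  · have hm : 0 < min 1 a := lt_min one_pos ha
    positivity
  · rw [Ne, Complex.ofReal_eq_zero]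
    positivity
  · intro l hl x
    have := gap hr hl hμ hmod ha hsc (a * x)
    have e : ∀ n, a * (x - l n) = a * x - a * l n := fun n => by ring
    simp only [e]
    exact this

end Helper575.NP
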