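import Pool.Agent.Helper575.NP8
import Pool.Agent.Helper575.NP12

open MeasureTheory Set Filter Topology
open scoped ENNReal

namespace Helper575.NP

/-- almost every point lies in exactly one of the translates `Ω + l`, `l ∈ Λ` -/
def T1 (Ω Λ : Set ℝ) : Prop :=
  ∀ᵐ x : ℝ, {l | l ∈ Λ ∧ x - l ∈ Ω}.encard = 1

variable {Ω Λ : Set ℝ}

/-- multiplicity function -/
noncomputable def mult (Ω : Set ℝ) (l : ℤ → ℝ) (x : ℝ) : ℝ≥0∞ :=
  ∑' n : ℤ, Ω.indicator (fun _ => (1:ℝ≥0∞)) (x - l n)

lemma mult_eq {l : ℤ → ℝ} (hl : Function.Injective l) (x : ℝ) :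
    mult Ω l x = (({t | t ∈ range l ∧ x - t ∈ Ω}.encard : ℕ∞) : ℝ≥0∞) := by
  have e : {t | t ∈ range l ∧ x - t ∈ Ω} = l '' {n | x - l n ∈ Ω} := by
    ext t
    constructor
    · rintro ⟨⟨n, rfl⟩, h⟩
      exact ⟨n, h, rfl⟩
    · rintro ⟨n, h, rfl⟩
      exact ⟨⟨n, rfl⟩, h⟩
  rw [e, hl.encard_image, ← ENNReal.tsum_set_one, tsum_subtype {n | x - l n ∈ Ω} (fun _ => 1)]
  rfl

lemma mult_measurable (hΩ : MeasurableSet Ω) (l : ℤ → ℝ) : Measurable (mult Ω l) := by
  apply Measurable.tsum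
  intro n
  exact (measurable_const.indicator hΩ).comp (measurable_id.sub_const _)

lemma setLIntegral_mult (hΩ : MeasurableSet Ω) (l : ℤ → ℝ) {A : Set ℝ} (hA : MeasurableSet A) :
    ∫⁻ x in A, mult Ω l x = ∑' n : ℤ, (volume.restrict Ω) ((fun y => y + l n) ⁻¹' A) := by
  unfold mult
  rw [lintegral_tsum]
  · congr 1
    funext n
    have m1 : MeasurableSet ((fun y : ℝ => y + l n) ⁻¹' A) := (measurable_id.add_const _) hA
    have m2 : MeasurableSet ((fun y : ℝ => y - l n) ⁻¹' Ω) := (measurable_id.sub_const _) hΩ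
    rw [Measure.restrict_apply m1]
    have e : (fun x : ℝ => Ω.indicator (fun _ => (1:ℝ≥0∞)) (x - l n)) =
        ((fun x => x - l n) ⁻¹' Ω).indicator (fun _ => 1) := by
      funext x; rfl
    rw [e, lintegral_indicator_const m2, one_mul,
      Measure.restrict_apply m2]
    rw [← measure_preimage_add_right volume (l n) ((fun x => x - l n) ⁻¹' Ω ∩ A)]
    congr 1
    ext y
    simp only [mem_preimage, mem_inter_iff, add_sub_cancel_right]
    exact and_comm
  · intro n
    exact ((measurable_const.indicator hΩ).comp (measurable_id.sub_const _)).aemeasurable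

lemma fin_of (h1 : volume Ω < ⊤) : IsFiniteMeasure (volume.restrict Ω) :=
  ⟨by rwa [Measure.restrict_apply_univ]⟩

lemma prim_of (h1 : volume Ω < ⊤) : Prim (Hm (volume.restrict Ω)) (volume.real Ω) := by
  have hf := fin_of h1
  set μ := volume.restrict Ω with hμ
  refine ⟨fun a b hab => measureReal_mono (Iic_subset_Iic.2 hab), ?_, ?_, ?_⟩
  · have h := tendsto_measure_iInter_atBot (μ := μ) (s := fun x : ℝ => Iic x)
      (fun i => measurableSet_Iic.nullMeasurableSet) (fun a b hab => Iic_subset_Iic.2 hab)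
      ⟨0, measure_ne_top _ _⟩
    have e : ⋂ n : ℝ, Iic n = (∅ : Set ℝ) := by
      ext x
      simp only [mem_iInter, mem_Iic, mem_empty_iff_false, iff_false, not_forall, not_le]
      exact ⟨x - 1, by linarith⟩
    rw [e, measure_empty] at h
    have h2 := (ENNReal.tendsto_toReal ENNReal.zero_ne_top).comp h
    rw [ENNReal.toReal_zero] at h2
    exact h2
  · have h := tendsto_measure_Iic_atTop μ
    have h2 := (ENNReal.tendsto_toReal (measure_ne_top μ univ)).comp h
    have e : (μ univ).toReal = volume.real Ω := by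
      rw [hμ, Measure.restrict_apply_univ]; rfl
    rw [e] at h2
    exact h2
  · intro a b hab
    have h := Hm_Ioc (μ := μ) a b hab
    have h3 : μ (Ioc a b) ≤ ENNReal.ofReal (b - a) := by
      rw [← Real.volume_Ioc]
      exact Measure.restrict_apply_le _ _
    rw [h] at h3
    exact (ENNReal.ofReal_le_ofReal_iff (by linarith)).1 h3

lemma dens_of (hΩ : MeasurableSet Ω) (h0 : 0 < volume Ω) (h1 : volume Ω < ⊤) :
    ∃ x0 w, Dens (Hm (volume.restrict Ω)) x0 w := by
  have hf := fin_of h1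
  set μ := volume.restrict Ω with hμ
  have hae := Besicovitch.ae_tendsto_measure_inter_div (volume : Measure ℝ) Ω
  have hne : μ ≠ 0 := by
    intro h
    have : μ univ = 0 := by rw [h]; simp
    rw [hμ, Measure.restrict_apply_univ] at this
    exact h0.ne' this
  have : NeBot (ae μ) := ae_neBot.2 hne
  obtain ⟨x, hx⟩ := hae.exists
  have h2 : ∀ᶠ w in 𝓝[>] (0:ℝ), (7/8 : ℝ≥0∞) <
      volume (Ω ∩ Metric.closedBall x w) / volume (Metric.closedBall x w) := by
    apply hx.eventually (lt_mem_nhds _)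
    rw [ENNReal.div_lt_iff (by simp) (by simp)]
    norm_num
  obtain ⟨w, hw, hw0⟩ := (h2.and self_mem_nhdsWithin).exists
  have hw0 : 0 < w := hw0
  refine ⟨x, w, hw0, ?_⟩
  rw [Real.volume_closedBall] at hw
  have h3 : (7/8 : ℝ≥0∞) * ENNReal.ofReal (2 * w) ≤ volume (Ω ∩ Metric.closedBall x w) := by
    have h5 := ENNReal.mul_le_of_le_div hw.le
    exact h5
  have h4 : volume (Ω ∩ Metric.closedBall x w) = μ (Ioc (x - w) (x + w)) := by
    rw [Real.closedBall_eq_Icc, hμ, Measure.restrict_apply measurableSet_Ioc, inter_comm]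
    exact measure_congr ((Ioc_ae_eq_Icc (μ := volume)).symm.inter (ae_eq_refl _))
  rw [h4, Hm_Ioc _ _ (by linarith)] at h3
  have h5 : (7/8 : ℝ≥0∞) * ENNReal.ofReal (2 * w) = ENNReal.ofReal (7 * w / 4) := by
    have e7 : (7/8 : ℝ≥0∞) = ENNReal.ofReal (7/8) := by
      rw [ENNReal.ofReal_div_of_pos (by norm_num)]
      simp
    rw [show 7 * w / 4 = (7/8) * (2 * w) by ring, ENNReal.ofReal_mul (p := 7/8) (by norm_num), e7]
  rw [h5] at h3
  exact (ENNReal.ofReal_le_ofReal_iff (sub_nonneg.2 (measureReal_mono (Iic_subset_Iic.2 (by linarith))))).1 h3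

/-- a tiling in enumerated form gives an a.e. tiling -/
lemma T1_of_TS {r R : ℝ} {l : ℤ → ℝ} (hΩ : MeasurableSet Ω) (h1 : volume Ω < ⊤) (hr : 0 < r)
    (h : TS (Hm (volume.restrict Ω)) r R l) : T1 Ω (range l) := by
  have hf := fin_of h1
  have hs := sum_map_eq h
  have h2 : mult Ω l =ᵐ[volume] fun _ => (1:ℝ≥0∞) := by
    apply ae_eq_of_forall_setLIntegral_eq_of_sigmaFinite (mult_measurable hΩ l) measurable_const
    intro s hms _
    rw [setLIntegral_mult hΩ l hms, setLIntegral_const, one_mul]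
    conv_rhs => rw [← hs]
    rw [Measure.sum_apply _ hms]
    congr 1
    funext n
    rw [Measure.map_apply (by fun_prop) hms]
  filter_upwards [h2] with x hx
  rw [mult_eq (h.mono hr).injective] at hx
  exact_mod_cast hx

/-- additivity form of an a.e. tiling -/
lemma tile_of_T1 {l : ℤ → ℝ} (hΩ : MeasurableSet Ω) (h1 : volume Ω < ⊤)
    (hl : Function.Injective l) (h : T1 Ω (range l)) (a b : ℝ) (hab : a ≤ b) :
    HasSum (fun n : ℤ => Hm (volume.restrict Ω) (b - l n) - Hm (volume.restrict Ω) (a - l n))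
      (b - a) := by
  have hf := fin_of h1
  have h2 : mult Ω l =ᵐ[volume] fun _ => (1:ℝ≥0∞) := by
    filter_upwards [h] with x hx
    rw [mult_eq hl, hx]
    simp
  have h3 : ∫⁻ x in Ioc a b, mult Ω l x = ENNReal.ofReal (b - a) := by
    rw [lintegral_congr_ae (ae_restrict_of_ae h2), setLIntegral_const, one_mul, Real.volume_Ioc]
  rw [setLIntegral_mult hΩ l measurableSet_Ioc] at h3
  have e : (fun n : ℤ => (volume.restrict Ω) ((fun y => y + l n) ⁻¹' Ioc a b)) =
      fun n : ℤ => ENNReal.ofReal (Hm (volume.restrict Ω) (b - l n) -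
        Hm (volume.restrict Ω) (a - l n)) := by
    funext n
    rw [← Hm_Ioc _ _ (by linarith)]
    congr 1
    ext y
    simp only [mem_preimage, mem_Ioc]
    constructor <;> rintro ⟨h1, h2⟩ <;> constructor <;> linarith
  have hnn : ∀ n, 0 ≤ Hm (volume.restrict Ω) (b - l n) - Hm (volume.restrict Ω) (a - l n) :=
    fun n => sub_nonneg.2 (measureReal_mono (Iic_subset_Iic.2 (by linarith)))
  rw [e] at h3
  have hs : Summable (fun n : ℤ => Hm (volume.restrict Ω) (b - l n) -
      Hm (volume.restrict Ω) (a - l n)) := by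
    have h4 : ∑' n : ℤ, ENNReal.ofReal (Hm (volume.restrict Ω) (b - l n) -
      Hm (volume.restrict Ω) (a - l n)) ≠ ⊤ := by rw [h3]; exact ENNReal.ofReal_ne_top
    have h5 := ENNReal.summable_toReal h4
    refine h5.congr (fun n => ?_)
    rw [ENNReal.toReal_ofReal (hnn n)]
  rw [← ENNReal.ofReal_tsum_of_nonneg hnn hs] at h3
  have h6 := (ENNReal.ofReal_eq_ofReal_iff (tsum_nonneg hnn) (by linarith)).1 h3
  rw [← h6]
  exact hs.hasSum

end Helper575.NP
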