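import Pool.Agent.Helper575.NP4
import Pool.Agent.Helper575.NP13

open MeasureTheory Set Filter Topology
open scoped ENNReal

namespace Helper575.NP

variable {Ω Λ : Set ℝ}

lemma vol_shift (hΩ : MeasurableSet Ω) (l : ℝ) {a b : ℝ} :
    volume ({x | x - l ∈ Ω} ∩ Ioc a b) = (volume.restrict Ω) (Ioc (a - l) (b - l)) := by
  rw [Measure.restrict_apply measurableSet_Ioc,
    ← measure_preimage_add_right volume l ({x | x - l ∈ Ω} ∩ Ioc a b)]
  congr 1
  ext y
  simp only [mem_preimage, mem_inter_iff, mem_ofPred_eq, add_sub_cancel_right, mem_Ioc]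
  constructor
  · rintro ⟨h1, h2, h3⟩
    exact ⟨⟨by linarith, by linarith⟩, h1⟩
  · rintro ⟨⟨h2, h3⟩, h1⟩
    exact ⟨h1, by linarith, by linarith⟩

lemma sep_lt (hΩ : MeasurableSet Ω) (h1 : volume Ω < ⊤) {x0 w : ℝ}
    (hd : Dens (Hm (volume.restrict Ω)) x0 w) (hT : T1 Ω Λ) {l l' : ℝ} (hl : l ∈ Λ) (hl' : l' ∈ Λ)
    (hlt : l < l') : w ≤ l' - l := by
  have hf := fin_of h1
  have hP := prim_of h1
  have hw := hd.wpos
  by_contra hcon
  push Not at hcon
  have hnull : volume ({x | x - l ∈ Ω} ∩ {x | x - l' ∈ Ω}) = 0 := by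
    rw [measure_eq_zero_iff_ae_notMem]
    filter_upwards [hT] with x hx hxm
    obtain ⟨t, ht⟩ := Set.encard_eq_one.1 hx
    have e1 : l ∈ {l | l ∈ Λ ∧ x - l ∈ Ω} := ⟨hl, hxm.1⟩
    have e2 : l' ∈ {l | l ∈ Λ ∧ x - l ∈ Ω} := ⟨hl', hxm.2⟩
    rw [ht, mem_singleton_iff] at e1 e2
    linarith
  have hm' : MeasurableSet ({x | x - l' ∈ Ω} ∩ Ioc (x0 - w + l) (x0 + w + l)) :=
    ((measurable_id.sub_const l') hΩ).inter measurableSet_Ioc
  have hu := measure_union_add_inter (μ := volume)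
    ({x | x - l ∈ Ω} ∩ Ioc (x0 - w + l) (x0 + w + l)) hm'
  have hz : volume (({x | x - l ∈ Ω} ∩ Ioc (x0 - w + l) (x0 + w + l)) ∩
      ({x | x - l' ∈ Ω} ∩ Ioc (x0 - w + l) (x0 + w + l))) = 0 := by
    refine measure_mono_null ?_ hnull
    intro x hx
    exact ⟨hx.1.1, hx.2.1⟩
  have hle : volume (({x | x - l ∈ Ω} ∩ Ioc (x0 - w + l) (x0 + w + l)) ∪
      ({x | x - l' ∈ Ω} ∩ Ioc (x0 - w + l) (x0 + w + l))) ≤ ENNReal.ofReal (2 * w) := by
    have : ENNReal.ofReal (2 * w) = volume (Ioc (x0 - w + l) (x0 + w + l)) := by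
      rw [Real.volume_Ioc]
      congr 1
      ring
    rw [this]
    apply measure_mono
    rintro x (hx | hx) <;> exact hx.2
  rw [hz, add_zero, vol_shift hΩ, vol_shift hΩ, Hm_Ioc _ _ (by linarith),
    Hm_Ioc _ _ (by linarith)] at hu
  have hn1 : 0 ≤ Hm (volume.restrict Ω) (x0 + w + l - l) - Hm (volume.restrict Ω) (x0 - w + l - l) :=
    sub_nonneg.2 (hP.mono (by linarith))
  have hn2 : 0 ≤ Hm (volume.restrict Ω) (x0 + w + l - l') -
      Hm (volume.restrict Ω) (x0 - w + l - l') :=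
    sub_nonneg.2 (hP.mono (by linarith))
  rw [← ENNReal.ofReal_add hn1 hn2] at hu
  rw [hu] at hle
  have h2 := (ENNReal.ofReal_le_ofReal_iff (by linarith)).1 hle
  have h3 := hd.dens
  have h4 := hP.lip (x0 + w + l - l') (x0 + w) (by linarith)
  have h5 := hP.mono (show x0 - w + l - l' ≤ x0 - w by linarith)
  rw [add_sub_cancel_right, add_sub_cancel_right] at h2
  linarith

lemma sep_of (hΩ : MeasurableSet Ω) (h1 : volume Ω < ⊤) {x0 w : ℝ}
    (hd : Dens (Hm (volume.restrict Ω)) x0 w) (hT : T1 Ω Λ) {l l' : ℝ} (hl : l ∈ Λ) (hl' : l' ∈ Λ)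
    (hne : l ≠ l') : w ≤ |l' - l| := by
  rcases lt_or_gt_of_ne hne with h | h
  · have := sep_lt hΩ h1 hd hT hl hl' h
    exact this.trans (le_abs_self _)
  · have := sep_lt hΩ h1 hd hT hl' hl h
    rw [abs_sub_comm]
    exact this.trans (le_abs_self _)

lemma exists_T0 (h1 : volume Ω < ⊤) {w : ℝ} (hw : 0 < w) :
    ∃ T : ℝ, 0 < T ∧ (volume.restrict Ω) {z | T - w < |z|} < ENNReal.ofReal w := by
  have hf := fin_of h1
  have h := tendsto_measure_iInter_atTop (μ := volume.restrict Ω) (s := fun T : ℝ => {z | T - w < |z|})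
      (fun i => (measurableSet_lt measurable_const measurable_id.abs).nullMeasurableSet)
      (fun a b hab z hz => by simp only [mem_ofPred_eq] at hz ⊢; linarith)
      ⟨0, measure_ne_top _ _⟩
  have e : ⋂ n : ℝ, {z : ℝ | n - w < |z|} = (∅ : Set ℝ) := by
    ext x
    simp only [mem_iInter, mem_ofPred_eq, mem_empty_iff_false, iff_false, not_forall, not_lt]
    exact ⟨|x| + w, by linarith⟩
  rw [e, measure_empty] at h
  have h2 := (h.eventually (gt_mem_nhds (ENNReal.ofReal_pos.2 hw))).and (eventually_gt_atTop 0)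
  obtain ⟨T, hT1, hT2⟩ := h2.exists
  exact ⟨T, hT2, hT1⟩

lemma rel_dense (hΩ : MeasurableSet Ω) (h1 : volume Ω < ⊤) {x0 w : ℝ}
    (hd : Dens (Hm (volume.restrict Ω)) x0 w) {T : ℝ}
    (hTw : (volume.restrict Ω) {z | T - w < |z|} < ENNReal.ofReal w)
    (hc : Λ.Countable) (hT : T1 Ω Λ) (y : ℝ) : ∃ l ∈ Λ, |l - y| ≤ T := by
  have hw := hd.wpos
  by_contra hcon
  push Not at hcon
  have hcov : volume (Ioc y (y + w)) ≤ volume (⋃ l ∈ Λ, ({x | x - l ∈ Ω} ∩ Ioc y (y + w))) := by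
    apply measure_mono_ae
    filter_upwards [hT] with x hx hxm
    obtain ⟨t, ht⟩ := Set.encard_eq_one.1 hx
    have e1 : t ∈ {l | l ∈ Λ ∧ x - l ∈ Ω} := by rw [ht]; exact mem_singleton t
    have hx2 : x ∈ Ioc y (y + w) := hxm
    show x ∈ ⋃ l ∈ Λ, ({x | x - l ∈ Ω} ∩ Ioc y (y + w))
    rw [mem_iUnion₂]
    exact ⟨t, e1.1, e1.2, hx2⟩
  have hcov2 : volume (⋃ l ∈ Λ, ({x | x - l ∈ Ω} ∩ Ioc y (y + w))) ≤
      ∑' l : Λ, volume ({x | x - (l:ℝ) ∈ Ω} ∩ Ioc y (y + w)) :=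
    measure_biUnion_le volume hc _
  have e : (fun l : Λ => volume ({x | x - (l:ℝ) ∈ Ω} ∩ Ioc y (y + w))) =
      fun l : Λ => (volume.restrict Ω) (Ioc (y - l) (y + w - l)) := by
    funext l
    rw [vol_shift hΩ]
  rw [e] at hcov2
  have hdis : Λ.PairwiseDisjoint (fun l : ℝ => Ioc (y - l) (y + w - l)) := by
    intro l hl l' hl' hne
    have hs := sep_of hΩ h1 hd hT hl hl' hne
    show Disjoint (Ioc (y - l) (y + w - l)) (Ioc (y - l') (y + w - l'))
    rw [Set.disjoint_left]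
    rintro z ⟨hz1, hz2⟩ ⟨hz3, hz4⟩
    rcases abs_cases (l' - l) with h | h <;> linarith
  have hU := measure_biUnion (μ := volume.restrict Ω) hc hdis (fun l _ => measurableSet_Ioc)
  rw [← hU] at hcov2
  have hsub : (volume.restrict Ω) (⋃ l ∈ Λ, Ioc (y - l) (y + w - l)) ≤
      (volume.restrict Ω) {z | T - w < |z|} := by
    apply measure_mono
    intro z hz
    rw [mem_iUnion₂] at hz
    obtain ⟨l, hl, hz1, hz2⟩ := hz
    have := hcon l hl
    simp only [mem_ofPred_eq]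
    rcases abs_cases (l - y) with h | h <;> rcases abs_cases z with h' | h' <;> linarith
  have hfin := hcov.trans (hcov2.trans hsub)
  rw [Real.volume_Ioc, add_sub_cancel_left] at hfin
  exact absurd hTw (not_lt.2 hfin)

/-- enumeration of a separated relatively dense set -/
lemma exists_enum {r T : ℝ} (hr : 0 < r) (hsep : ∀ l ∈ Λ, ∀ l' ∈ Λ, l ≠ l' → r ≤ |l' - l|)
    (hden : ∀ y : ℝ, ∃ l ∈ Λ, |l - y| ≤ T) :
    ∃ l : ℤ → ℝ, StrictMono l ∧ range l = Λ ∧ (∀ n, r ≤ l (n + 1) - l n) ∧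
      ∀ n, l (n + 1) - l n ≤ 2 * T := by
  have hfin : ∀ a b : Λ, (Icc a b).Finite := by
    intro a b
    have hinj : InjOn (fun x : Λ => ⌊((x:ℝ) - a) / r⌋) (Icc a b) := by
      intro x hx y hy hxy
      by_contra hne
      have hs := hsep x x.2 y y.2 (fun h => hne (Subtype.ext h))
      have h1 := Int.abs_sub_lt_one_of_floor_eq_floor hxy
      rw [← sub_div, abs_div, abs_of_pos hr, div_lt_one hr] at h1
      rw [show ((x:ℝ) - a) - (y - a) = x - y by ring, abs_sub_comm] at h1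
      linarith
    refine Set.Finite.of_injOn (t := Icc 0 ⌊((b:ℝ) - a) / r⌋) ?_ hinj (Set.finite_Icc _ _)
    intro x hx
    have hx1 : (a:ℝ) ≤ x := hx.1
    have hx2 : (x:ℝ) ≤ b := hx.2
    refine ⟨Int.floor_nonneg.2 (div_nonneg (by linarith) hr.le), Int.floor_le_floor ?_⟩
    exact div_le_div_of_nonneg_right (by linarith) hr.le
  let _i1 : LocallyFiniteOrder Λ := LocallyFiniteOrder.ofFiniteIcc hfin
  let _i2 : SuccOrder Λ := LinearLocallyFiniteOrder.succOrder Λ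
  let _i3 : PredOrder Λ := LinearLocallyFiniteOrder.predOrder Λ
  have : NoMaxOrder Λ := ⟨fun a => by
    obtain ⟨l, hl, hlt⟩ := hden (a + T + 1)
    refine ⟨⟨l, hl⟩, ?_⟩
    show (a:ℝ) < l
    have := neg_le_of_abs_le hlt
    linarith⟩
  have : NoMinOrder Λ := ⟨fun a => by
    obtain ⟨l, hl, hlt⟩ := hden (a - T - 1)
    refine ⟨⟨l, hl⟩, ?_⟩
    show l < (a:ℝ)
    have := le_of_abs_le hlt
    linarith⟩
  have : Nonempty Λ := by
    obtain ⟨l, hl, hlt⟩ := hden 0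
    exact ⟨⟨l, hl⟩⟩
  let e : Λ ≃o ℤ := orderIsoIntOfLinearSuccPredArch
  have hmono : StrictMono (fun n : ℤ => ((e.symm n : Λ) : ℝ)) := fun a b hab => e.symm.strictMono hab
  refine ⟨fun n => ((e.symm n : Λ) : ℝ), hmono, ?_, ?_, ?_⟩
  · ext x
    constructor
    · rintro ⟨n, rfl⟩
      exact (e.symm n).2
    · intro hx
      exact ⟨e ⟨x, hx⟩, by simp⟩
  · intro n
    have h1 := hmono (show n < n + 1 by omega)
    have h2 := hsep _ (e.symm n).2 _ (e.symm (n + 1)).2 h1.ne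
    rwa [abs_of_pos (sub_pos.2 h1)] at h2
  · intro n
    obtain ⟨x, hx, hxy⟩ := hden ((((e.symm n : Λ) : ℝ) + ((e.symm (n + 1) : Λ) : ℝ)) / 2)
    have hk : ((e.symm (e ⟨x, hx⟩) : Λ) : ℝ) = x := by simp
    rw [← hk] at hxy
    rcases le_or_gt (e ⟨x, hx⟩) n with h | h
    · have h1 := hmono.monotone h
      simp only at h1 ⊢
      have := neg_le_of_abs_le hxy
      linarith
    · have h1 := hmono.monotone (show n + 1 ≤ e ⟨x, hx⟩ by omega)
      simp only at h1 ⊢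
      have := le_of_abs_le hxy
      linarith

/-- all the level one tilings, in enumerated form, with uniform gap bounds -/
theorem exists_params (hΩ : MeasurableSet Ω) (h0 : 0 < volume Ω) (h1 : volume Ω < ⊤) :
    ∃ r R x0 : ℝ, 0 < r ∧ Dens (Hm (volume.restrict Ω)) x0 r ∧
      ∀ Λ : Set ℝ, Λ.Countable → T1 Ω Λ →
        ∃ l : ℤ → ℝ, TS (Hm (volume.restrict Ω)) r R l ∧ range l = Λ := by
  obtain ⟨x0, w, hd⟩ := dens_of hΩ h0 h1
  obtain ⟨T, hT0, hTw⟩ := exists_T0 h1 hd.wpos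
  refine ⟨w, 2 * T, x0, hd.wpos, hd, fun Λ hc hT => ?_⟩
  obtain ⟨l, hl1, hl2, hl3, hl4⟩ := exists_enum hd.wpos
    (fun l hl l' hl' hne => sep_of hΩ h1 hd hT hl hl' hne) (rel_dense hΩ h1 hd hTw hc hT)
  refine ⟨l, ⟨hl3, hl4, ?_⟩, hl2⟩
  rw [← hl2] at hT
  exact tile_of_T1 hΩ h1 hl1.injective hT

end Helper575.NP
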