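import Pool.Agent.Helper575.NP14

open MeasureTheory Set Filter Topology
open scoped ENNReal

namespace Helper575.NP

variable {Ω Λ : Set ℝ}

/-- the set is a finite union of translates of one progression -/
def PS (Λ : Set ℝ) : Prop :=
  ∃ α : ℝ, 0 < α ∧ ∃ F : Finset ℝ, F.Nonempty ∧ Λ = {t | ∃ β ∈ F, ∃ k : ℤ, t = α * k + β}

lemma ps_of_periodic {l : ℤ → ℝ} (hl : StrictMono l) {p : ℕ} (hp : 0 < p)
    (h : ∀ n, l (n + p) = l n + (l p - l 0)) : PS (range l) := by
  have hα : 0 < l p - l 0 := sub_pos.2 (hl (by exact_mod_cast hp))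
  have hper : ∀ k : ℤ, ∀ n : ℤ, l (n + p * k) = l n + (l p - l 0) * k := by
    intro k
    induction k using Int.induction_on with
    | zero => intro n; simp
    | succ i ih =>
      intro n
      have h1 := ih (n + p)
      rw [h n] at h1
      have e : n + (p:ℤ) + p * i = n + p * (i + 1) := by ring
      rw [e] at h1
      rw [h1]; push_cast; ring
    | pred i ih =>
      intro n
      have h1 := ih (n - p)
      have h2 := h (n - p)
      rw [sub_add_cancel] at h2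
      have e : n - (p:ℤ) + p * (-i) = n + p * (-i - 1) := by ring
      rw [e] at h1
      rw [h1]; push_cast; linarith
  refine ⟨l p - l 0, hα, Finset.image (fun j : ℕ => l j) (Finset.range p),
    ⟨l 0, Finset.mem_image.2 ⟨0, by simpa using hp, by simp⟩⟩, ?_⟩
  ext t
  constructor
  · rintro ⟨n, rfl⟩
    have hp' : (0:ℤ) < p := by exact_mod_cast hp
    have h1 := Int.emod_nonneg n hp'.ne'
    have h2 := Int.emod_lt_of_pos n hp'
    obtain ⟨j, hj⟩ := Int.eq_ofNat_of_zero_le h1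
    refine ⟨l j, Finset.mem_image.2 ⟨j, ?_, rfl⟩, n / p, ?_⟩
    · rw [Finset.mem_range]; omega
    · have h3 := hper (n / p) (n % p)
      rw [Int.emod_add_mul_ediv] at h3
      rw [h3, hj]; push_cast; ring
  · rintro ⟨β, hβ, k, rfl⟩
    obtain ⟨j, -, rfl⟩ := Finset.mem_image.1 hβ
    refine ⟨j + p * k, ?_⟩
    rw [hper]; ring

/-- uniqueness of asymptotic tilings forces periodicity and finiteness -/
theorem core (hΩ : MeasurableSet Ω) (h0 : 0 < volume Ω) (h1 : volume Ω < ⊤)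
    (hn : ∀ l l' : ℤ → ℝ, StrictMono l → StrictMono l' → T1 Ω (range l) → T1 Ω (range l') →
      Tendsto (fun n => l' n - l n) atBot (𝓝 0) → l = l') :
    (∀ Λ : Set ℝ, Λ.Countable → T1 Ω Λ → PS Λ) ∧
      {Λ : Set ℝ | (Λ.Countable ∧ T1 Ω Λ) ∧ 0 ∈ Λ}.Finite := by
  have hf := fin_of h1
  obtain ⟨r, R, x0, hr, hd, hall⟩ := exists_params hΩ h0 h1
  have hμ : 0 < (volume.restrict Ω).real univ := by
    rw [measureReal_restrict_apply_univ]
    exact ENNReal.toReal_pos h0.ne' h1.ne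
  have hfin := main_abstract (R := R) hr (prim_of h1) hd (dc_Hm hr hμ)
    (fun l l' hl hl' hlim => hn l l' (hl.mono hr) (hl'.mono hr) (T1_of_TS hΩ h1 hr hl)
      (T1_of_TS hΩ h1 hr hl') hlim)
  refine ⟨fun Λ hc hT => ?_, ?_⟩
  · obtain ⟨l, hl, rfl⟩ := hall Λ hc hT
    obtain ⟨p, hp, hper⟩ := periodic_of_finite hfin hl
    exact ps_of_periodic (hl.mono hr) hp hper
  · refine (hfin.image range).subset ?_
    rintro Λ ⟨⟨hc, hT⟩, h0Λ⟩
    obtain ⟨l, hl, rfl⟩ := hall Λ hc hT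
    obtain ⟨k, hk⟩ := h0Λ
    refine ⟨fun n => l (n + k) - 0, ⟨hl.shift k 0, by simp [hk]⟩, ?_⟩
    simp only [sub_zero]
    exact (Equiv.addRight k).surjective.range_comp l

/-- exponential bound on the left tail -/
lemma exp_bound {c : ℝ} (h1 : volume Ω < ⊤)
    (hint : IntegrableOn (fun x => Real.exp (-c * x)) Ω) (hc : 0 < c) (y : ℝ) :
    Hm (volume.restrict Ω) y ≤ (∫ x in Ω, Real.exp (-c * x)) * Real.exp (c * y) := by
  have hf := fin_of h1
  unfold Hm
  have e : (volume.restrict Ω).real (Iic y) = ∫ x, (Iic y).indicator (fun _ => (1:ℝ)) x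
      ∂(volume.restrict Ω) := by
    rw [integral_indicator measurableSet_Iic]
    simp
  rw [e, ← integral_mul_const]
  apply integral_mono ((integrable_const _).indicator measurableSet_Iic) (hint.mul_const _)
  intro x
  by_cases hx : x ∈ Iic y
  · simp only [indicator_of_mem hx]
    rw [← Real.exp_add]
    apply Real.one_le_exp
    have : x ≤ y := hx
    nlinarith
  · simp only [indicator_of_notMem hx]
    positivity

theorem left_case (hΩ : MeasurableSet Ω) (h0 : 0 < volume Ω) (h1 : volume Ω < ⊤) {c : ℝ}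
    (hc : 0 < c) (hint : IntegrableOn (fun x => Real.exp (-c * x)) Ω) :
    (∀ Λ : Set ℝ, Λ.Countable → T1 Ω Λ → PS Λ) ∧
      {Λ : Set ℝ | (Λ.Countable ∧ T1 Ω Λ) ∧ 0 ∈ Λ}.Finite := by
  have hf := fin_of h1
  obtain ⟨r, R, x0, hr, hd, hall⟩ := exists_params hΩ h0 h1
  have hμ : 0 < (volume.restrict Ω).real univ := by
    rw [measureReal_restrict_apply_univ]
    exact ENNReal.toReal_pos h0.ne' h1.ne
  have hfin := main_abstract (R := R) hr (prim_of h1) hd (dc_Hm hr hμ)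
    (nla_of_exp hr (prim_of h1) hd hc (exp_bound h1 hint hc))
  refine ⟨fun Λ hc hT => ?_, ?_⟩
  · obtain ⟨l, hl, rfl⟩ := hall Λ hc hT
    obtain ⟨p, hp, hper⟩ := periodic_of_finite hfin hl
    exact ps_of_periodic (hl.mono hr) hp hper
  · refine (hfin.image range).subset ?_
    rintro Λ ⟨⟨hc, hT⟩, h0Λ⟩
    obtain ⟨l, hl, rfl⟩ := hall Λ hc hT
    obtain ⟨k, hk⟩ := h0Λ
    refine ⟨fun n => l (n + k) - 0, ⟨hl.shift k 0, by simp [hk]⟩, ?_⟩
    simp only [sub_zero]
    exact (Equiv.addRight k).surjective.range_comp l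

/-! reflection -/

lemma T1_neg (h : T1 Ω Λ) : T1 (-Ω) (-Λ) := by
  unfold T1 at *
  have h2 : ∀ᵐ x : ℝ, {l | l ∈ Λ ∧ -x - l ∈ Ω}.encard = 1 := by
    have hq : Measure.QuasiMeasurePreserving (fun x : ℝ => -x) volume volume :=
      (Measure.measurePreserving_neg (volume : Measure ℝ)).quasiMeasurePreserving
    exact hq.ae h
  filter_upwards [h2] with x hx
  have e : {l | l ∈ -Λ ∧ x - l ∈ -Ω} = (fun t => -t) '' {l | l ∈ Λ ∧ -x - l ∈ Ω} := by
    ext t
    constructor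
    · rintro ⟨ha, hb⟩
      refine ⟨-t, ⟨ha, ?_⟩, neg_neg t⟩
      have : -(x - t) ∈ Ω := hb
      rwa [show -x - -t = -(x - t) by ring]
    · rintro ⟨s, ⟨ha, hb⟩, rfl⟩
      refine ⟨by show - -s ∈ Λ; rwa [neg_neg], ?_⟩
      show -(x - -s) ∈ Ω
      rwa [show -(x - -s) = -x - s by ring]
  rw [e, neg_injective.encard_image, hx]

lemma PS_neg (h : PS Λ) : PS (-Λ) := by
  obtain ⟨α, hα, F, hF, rfl⟩ := h
  refine ⟨α, hα, F.image (fun t => -t), hF.image _, ?_⟩
  ext t
  constructor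
  · rintro ⟨β, hβ, k, hk⟩
    refine ⟨-β, Finset.mem_image.2 ⟨β, hβ, rfl⟩, -k, ?_⟩
    push_cast
    linarith
  · rintro ⟨β, hβ, k, rfl⟩
    obtain ⟨γ, hγ, rfl⟩ := Finset.mem_image.1 hβ
    refine ⟨γ, hγ, -k, ?_⟩
    push_cast
    ring

theorem transfer_neg (h : (∀ Λ : Set ℝ, Λ.Countable → T1 (-Ω) Λ → PS Λ) ∧
      {Λ : Set ℝ | (Λ.Countable ∧ T1 (-Ω) Λ) ∧ 0 ∈ Λ}.Finite) :
    (∀ Λ : Set ℝ, Λ.Countable → T1 Ω Λ → PS Λ) ∧
      {Λ : Set ℝ | (Λ.Countable ∧ T1 Ω Λ) ∧ 0 ∈ Λ}.Finite := by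
  have hcn : ∀ Λ : Set ℝ, Λ.Countable → (-Λ).Countable := fun Λ h => by
    rw [← Set.image_neg_eq_neg]
    exact h.image _
  refine ⟨fun Λ hc hT => ?_, ?_⟩
  · have := PS_neg (h.1 (-Λ) (hcn Λ hc) (T1_neg hT))
    rwa [neg_neg] at this
  · refine (h.2.image (fun Λ => -Λ)).subset ?_
    rintro Λ ⟨⟨hc, hT⟩, h0Λ⟩
    refine ⟨-Λ, ⟨⟨hcn Λ hc, T1_neg hT⟩, ?_⟩, neg_neg Λ⟩
    show -(0:ℝ) ∈ Λ
    rwa [neg_zero]

theorem right_case (hΩ : MeasurableSet Ω) (h0 : 0 < volume Ω) (h1 : volume Ω < ⊤) {c : ℝ}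
    (hc : 0 < c) (hint : IntegrableOn (fun x => Real.exp (c * x)) Ω) :
    (∀ Λ : Set ℝ, Λ.Countable → T1 Ω Λ → PS Λ) ∧
      {Λ : Set ℝ | (Λ.Countable ∧ T1 Ω Λ) ∧ 0 ∈ Λ}.Finite := by
  apply transfer_neg
  have hv : volume (-Ω) = volume Ω := Measure.measure_neg volume Ω
  apply left_case hΩ.neg (by rwa [hv]) (by rwa [hv]) hc
  have := (Measure.measurePreserving_neg (volume : Measure ℝ)).integrableOn_comp_preimage
    (Homeomorph.neg ℝ).measurableEmbedding (f := fun x : ℝ => Real.exp (c * x)) (s := Ω)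
  have h2 := this.2 hint
  refine h2.congr_fun ?_ hΩ.neg
  intro x _
  simp

/-- distinct sequences asymptotic at `-∞` have distinct ranges -/
lemma range_inj {l l' : ℤ → ℝ} {r : ℝ} (hr : 0 < r) (hl : StrictMono l) (hl' : StrictMono l')
    (hgap : ∀ n, r ≤ l (n + 1) - l n) (hlim : Tendsto (fun n => l' n - l n) atBot (𝓝 0))
    (he : range l = range l') : l = l' := by
  have hev := (tendsto_order.1 hlim.abs).2 r (by simpa using hr)
  obtain ⟨N, hN⟩ := Filter.eventually_atBot.1 hev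
  have hsep : ∀ n k : ℤ, n ≠ k → r ≤ |l n - l k| := by
    have : ∀ n k : ℤ, n < k → r ≤ l k - l n := by
      intro n k hnk
      have h1 := hgap n
      have h2 := hl.monotone (show n + 1 ≤ k by omega)
      linarith
    intro n k hnk
    rcases lt_or_gt_of_ne hnk with h | h
    · rw [abs_sub_comm]; exact (this n k h).trans (le_abs_self _)
    · exact (this k n h).trans (le_abs_self _)
  have hbase : ∀ n ≤ N, l n = l' n := by
    intro n hn
    have h1 : l' n ∈ range l := by rw [he]; exact ⟨n, rfl⟩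
    obtain ⟨k, hk⟩ := h1
    by_contra hne
    have hnk : k ≠ n := by
      rintro rfl
      exact hne hk
    have h2 := hsep k n hnk
    rw [hk] at h2
    exact absurd (hN n hn) (not_lt.2 h2)
  have hstep : ∀ n, l n = l' n → l (n + 1) = l' (n + 1) := by
    intro n hn
    have h1 : l' (n + 1) ∈ range l := by rw [he]; exact ⟨_, rfl⟩
    have h2 : l (n + 1) ∈ range l' := by rw [← he]; exact ⟨_, rfl⟩
    obtain ⟨k, hk⟩ := h1
    obtain ⟨j, hj⟩ := h2
    apply le_antisymm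
    · rw [← hk]
      apply hl.monotone
      have : l n < l k := by rw [hk, hn]; exact hl' (by omega)
      have := hl.lt_iff_lt.1 this
      omega
    · rw [← hj]
      apply hl'.monotone
      have : l' n < l' j := by rw [hj, ← hn]; exact hl (by omega)
      have := hl'.lt_iff_lt.1 this
      omega
  funext n
  rcases le_total n N with h | h
  · exact hbase n h
  · obtain ⟨k, rfl⟩ := Int.exists_add_of_le h
    induction k with
    | zero => simpa using hbase N le_rfl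
    | succ k ih =>
      have := hstep (N + k) (ih (by omega))
      push_cast
      rw [← add_assoc]
      exact this

/-- asymptotic pair at `-∞` -/
def PairBot (Ω : Set ℝ) : Prop :=
  ∃ l l' : ℤ → ℝ, StrictMono l ∧ StrictMono l' ∧ T1 Ω (range l) ∧ T1 Ω (range l') ∧
    range l ≠ range l' ∧ Tendsto (fun n => l' n - l n) atBot (𝓝 0)

def PairTop (Ω : Set ℝ) : Prop :=
  ∃ l l' : ℤ → ℝ, StrictMono l ∧ StrictMono l' ∧ T1 Ω (range l) ∧ T1 Ω (range l') ∧
    range l ≠ range l' ∧ Tendsto (fun n => l' n - l n) atTop (𝓝 0)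

theorem pairBot_of_np (hΩ : MeasurableSet Ω) (h0 : 0 < volume Ω) (h1 : volume Ω < ⊤)
    (hc : Λ.Countable) (hT : T1 Ω Λ) (hnp : ¬ PS Λ) : PairBot Ω := by
  by_contra hcon
  obtain ⟨r, R, x0, hr, hd, hall⟩ := exists_params hΩ h0 h1
  refine hnp ((core hΩ h0 h1 ?_).1 Λ hc hT)
  intro l l' hl hl' hTl hTl' hlim
  by_contra hne
  refine hcon ⟨l, l', hl, hl', hTl, hTl', ?_, hlim⟩
  intro he
  refine hne (range_inj hr hl hl' ?_ hlim he)
  intro n
  have := sep_lt hΩ h1 hd hTl ⟨n, rfl⟩ ⟨n + 1, rfl⟩ (hl (by omega))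
  exact this

theorem pairTop_of_np (hΩ : MeasurableSet Ω) (h0 : 0 < volume Ω) (h1 : volume Ω < ⊤)
    (hc : Λ.Countable) (hT : T1 Ω Λ) (hnp : ¬ PS Λ) : PairTop Ω := by
  have hv : volume (-Ω) = volume Ω := Measure.measure_neg volume Ω
  have hcn : (-Λ).Countable := by
    rw [← Set.image_neg_eq_neg]
    exact hc.image _
  have hnp' : ¬ PS (-Λ) := by
    intro h
    have := PS_neg h
    rw [neg_neg] at this
    exact hnp this
  obtain ⟨l, l', hl, hl', hTl, hTl', hne, hlim⟩ := pairBot_of_np hΩ.neg (by rwa [hv])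
    (by rwa [hv]) hcn (T1_neg hT) hnp'
  have hrange : ∀ f : ℤ → ℝ, range (fun n => -f (-n)) = -range f := by
    intro f
    ext t
    constructor
    · rintro ⟨n, rfl⟩
      show - -f (-n) ∈ range f
      rw [neg_neg]
      exact ⟨_, rfl⟩
    · rintro ⟨n, hn⟩
      refine ⟨-n, ?_⟩
      simp only [neg_neg]
      rw [hn, neg_neg]
  refine ⟨fun n => -l (-n), fun n => -l' (-n), ?_, ?_, ?_, ?_, ?_, ?_⟩
  · intro a b hab
    exact neg_lt_neg (hl (neg_lt_neg hab))
  · intro a b hab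
    exact neg_lt_neg (hl' (neg_lt_neg hab))
  · rw [hrange]
    have := T1_neg hTl
    rwa [neg_neg] at this
  · rw [hrange]
    have := T1_neg hTl'
    rwa [neg_neg] at this
  · rw [hrange, hrange]
    intro h
    exact hne (neg_injective h)
  · have h2 := (hlim.comp tendsto_neg_atTop_atBot).neg
    rw [neg_zero] at h2
    refine h2.congr (fun n => ?_)
    simp only [Function.comp_apply]
    ring

end Helper575.NP
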