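import Pool.Agent.Helper575.NP1

open MeasureTheory Set Filter Topology

namespace Helper575.NP

variable {H : ℝ → ℝ} {m r R : ℝ} {l l' : ℤ → ℝ}

/-- smoothed primitive -/
noncomputable def KK (H : ℝ → ℝ) (w y : ℝ) : ℝ := ∫ s in (y-w)..(y+w), H s

lemma KK_sub (hc : Continuous H) (w u v : ℝ) :
    KK H w u - KK H w v = ∫ s in v..u, (H (s + w) - H (s - w)) := by
  unfold KK
  have hi : ∀ a b, IntervalIntegrable H volume a b := fun a b => hc.intervalIntegrable a b
  rw [intervalIntegral.integral_interval_sub_interval_comm' (hi _ _) (hi _ _) (hi _ _)]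
  rw [intervalIntegral.integral_sub]
  · rw [intervalIntegral.integral_comp_add_right (fun s => H s),
      intervalIntegral.integral_comp_sub_right (fun s => H s)]
  · exact (by fun_prop : Continuous fun s => H (s + w)).intervalIntegrable _ _
  · exact (by fun_prop : Continuous fun s => H (s - w)).intervalIntegrable _ _

lemma KK_shift (w x t : ℝ) : KK H w (x - t) = ∫ s in (x-w)..(x+w), H (s - t) := by
  unfold KK
  rw [intervalIntegral.integral_comp_sub_right (fun s => H s)]
  congr 1 <;> ring

/-- upper bound for increments of the smoothed primitive -/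
lemma KK_upper (hH : Prim H m) {w c y : ℝ} (hw : 0 ≤ w) {e : ℝ} (he : |e| ≤ c) :
    |KK H w y - KK H w (y - e)| ≤ |e| * (H (y + w + c) - H (y - w - c)) := by
  rw [KK_sub hH.cont]
  have h1 := intervalIntegral.norm_integral_le_of_norm_le_const (a := y - e) (b := y)
    (f := fun s => H (s + w) - H (s - w)) (C := H (y + w + c) - H (y - w - c)) ?_
  · rw [Real.norm_eq_abs] at h1
    refine h1.trans (le_of_eq ?_)
    rw [mul_comm]
    congr 1
    rw [show y - (y - e) = e by ring]
  · intro s hs
    rw [uIoc, mem_Ioc] at hs
    have hs1 : y - c ≤ s := by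
      have : y - c ≤ min (y - e) y := le_min (by have := (abs_le.1 he).2; linarith)
        (by have := abs_nonneg e; linarith)
      linarith [hs.1]
    have hs2 : s ≤ y + c := by
      have : max (y - e) y ≤ y + c := max_le (by have := (abs_le.1 he).1; linarith)
        (by have := abs_nonneg e; linarith)
      linarith [hs.2]
    rw [Real.norm_eq_abs, abs_of_nonneg (sub_nonneg.2 (hH.mono (by linarith)))]
    have a1 := hH.mono (show s + w ≤ y + w + c by linarith)
    have a2 := hH.mono (show y - w - c ≤ s - w by linarith)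
    linarith

/-- lower bound for increments of the smoothed primitive -/
lemma KK_lower (hH : Prim H m) {w c y : ℝ} (hw : 0 ≤ w) {e : ℝ} (he : |e| ≤ c) :
    |e| * (H (y + w) - H (y - w) - c) ≤ |KK H w y - KK H w (y - e)| := by
  rw [KK_sub hH.cont]
  have hcont : Continuous (fun s => H (s + w) - H (s - w)) := by
    have := hH.cont
    fun_prop
  have hlow : ∀ s, |s - y| ≤ c → H (y + w) - H (y - w) - c ≤ H (s + w) - H (s - w) := by
    intro s hs
    rcases le_total s y with hsy | hsy
    · have h1 := hH.lip (s + w) (y + w) (by linarith)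
      have h2 := hH.mono (show s - w ≤ y - w by linarith)
      rw [abs_of_nonpos (by linarith)] at hs
      linarith
    · have h1 := hH.lip (y - w) (s - w) (by linarith)
      have h2 := hH.mono (show y + w ≤ s + w by linarith)
      rw [abs_of_nonneg (by linarith)] at hs
      linarith
  rcases le_total 0 e with h0 | h0
  · have h2 : (∫ s in (y - e)..y, (H (y + w) - H (y - w) - c)) ≤
        ∫ s in (y - e)..y, (H (s + w) - H (s - w)) := by
      apply intervalIntegral.integral_mono_on (by linarith) (by simp)
        (hcont.intervalIntegrable _ _)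
      intro s hs
      apply hlow
      rw [abs_le] at he ⊢
      constructor <;> linarith [hs.1, hs.2, he.1, he.2]
    rw [intervalIntegral.integral_const, smul_eq_mul] at h2
    rw [abs_of_nonneg h0]
    refine le_trans ?_ (le_abs_self _)
    refine le_trans (le_of_eq ?_) h2
    ring
  · have h2 : (∫ s in y..(y - e), (H (y + w) - H (y - w) - c)) ≤
        ∫ s in y..(y - e), (H (s + w) - H (s - w)) := by
      apply intervalIntegral.integral_mono_on (by linarith) (by simp)
        (hcont.intervalIntegrable _ _)
      intro s hs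
      apply hlow
      rw [abs_le] at he ⊢
      constructor <;> linarith [hs.1, hs.2, he.1, he.2]
    rw [intervalIntegral.integral_const, smul_eq_mul] at h2
    rw [abs_of_nonpos h0, intervalIntegral.integral_symm, abs_neg]
    refine le_trans ?_ (le_abs_self _)
    refine le_trans (le_of_eq ?_) h2
    ring

/-- integrating the flux identity -/
lemma hasSum_KK (hH : Prim H m) (hfl : ∀ x, HasSum (fun n : ℤ => H (x - l n) - H (x - l' n)) 0)
    {w x : ℝ} (hw : 0 ≤ w) (B : ℤ → ℝ) (hB : Summable B)
    (hbd : ∀ n, ∀ s ∈ Icc (x - w) (x + w), |H (s - l n) - H (s - l' n)| ≤ B n) :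
    HasSum (fun n : ℤ => KK H w (x - l n) - KK H w (x - l' n)) 0 := by
  have hc := hH.cont
  have key := intervalIntegral.hasSum_integral_of_dominated_convergence (μ := volume)
    (a := x - w) (b := x + w) (F := fun n s => H (s - l n) - H (s - l' n)) (f := fun _ => 0)
    (bound := fun n _ => B n)
    (fun n => (by fun_prop : Continuous fun s => H (s - l n) - H (s - l' n)).aestronglyMeasurable)
    (fun n => Eventually.of_forall fun t ht => by
      rw [Real.norm_eq_abs]
      apply hbd n t
      rw [uIoc_of_le (by linarith)] at ht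
      exact ⟨ht.1.le, ht.2⟩)
    (Eventually.of_forall fun t _ => hB)
    (by simp)
    (Eventually.of_forall fun t _ => hfl t)
  simp only [intervalIntegral.integral_zero] at key
  have e : (fun n : ℤ => KK H w (x - l n) - KK H w (x - l' n)) =
      fun n : ℤ => ∫ t in (x - w)..(x + w), (H (t - l n) - H (t - l' n)) := by
    funext n
    rw [KK_shift, KK_shift, intervalIntegral.integral_sub]
    · exact (by fun_prop : Continuous fun s => H (s - l n)).intervalIntegrable _ _
    · exact (by fun_prop : Continuous fun s => H (s - l' n)).intervalIntegrable _ _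
  rw [e]
  exact key

lemma sum_dom {g b : ℤ → ℝ} {B : ℝ} (hg : HasSum g 0) (hb : HasSum b B) (k : ℤ)
    (h : ∀ j ≠ k, |g j| ≤ b j) : |g k| ≤ B - b k := by
  have h1 := le_hasSum (hb.add hg) k (fun j hj => by
    have := neg_le_of_abs_le (h j hj); linarith)
  have h2 := le_hasSum (hb.sub hg) k (fun j hj => by
    have := le_of_abs_le (h j hj); linarith)
  rw [abs_le]
  constructor <;> linarith

/-- translation identity -/
lemma TS.transSum (h : TS H r R l) (x t : ℝ) :
    HasSum (fun n : ℤ => H (x - l n) - H (x - t - l n)) t := by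
  rcases le_total 0 t with h0 | h0
  · have := h.tile (x - t) x (by linarith)
    simpa using this
  · have := (h.tile x (x - t) (by linarith)).neg
    simpa using this

/-- the flux between two tilings is constant -/
lemma flux_const (h : TS H r R l) (h' : TS H r R l')
    (hs : ∀ x, Summable (fun n : ℤ => H (x - l n) - H (x - l' n))) (a b : ℝ) :
    ∑' n : ℤ, (H (a - l n) - H (a - l' n)) = ∑' n : ℤ, (H (b - l n) - H (b - l' n)) := by
  wlog hab : a ≤ b generalizing a b
  · exact (this b a (le_of_not_ge hab)).symm
  have h1 := (h.tile a b hab).sub (h'.tile a b hab)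
  have h2 := (hs b).hasSum.sub (hs a).hasSum
  have h3 : (fun n : ℤ => (H (b - l n) - H (a - l n)) - (H (b - l' n) - H (a - l' n))) =
      fun n : ℤ => (H (b - l n) - H (b - l' n)) - (H (a - l n) - H (a - l' n)) := by
    funext n; ring
  rw [h3] at h1
  have := h1.unique h2
  linarith

lemma pt_bound (hH : Prim H m) {c x u v : ℝ} (h : |v - u| ≤ c) :
    |H (x - u) - H (x - v)| ≤ H (x + c - u) - H (x - c - u) := by
  have := abs_le.1 h
  have a1 := hH.mono (show x - c - u ≤ x - v by linarith)
  have a2 := hH.mono (show x - v ≤ x + c - u by linarith)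
  have a3 := hH.mono (show x - c - u ≤ x - u by have := abs_nonneg (v-u); linarith)
  have a4 := hH.mono (show x - u ≤ x + c - u by have := abs_nonneg (v-u); linarith)
  rw [abs_le]
  constructor <;> linarith

/-- a window where the tile has density at least 7/8 -/
structure Dens (H : ℝ → ℝ) (x0 w : ℝ) : Prop where
  wpos : 0 < w
  dens : 7 * w / 4 ≤ H (x0 + w) - H (x0 - w)

lemma contract2 (hH : Prim H m) {x0 w : ℝ} (hd : Dens H x0 w) (h : TS H r R l)
    (hfl : ∀ x, HasSum (fun n : ℤ => H (x - l n) - H (x - l' n)) 0)
    {E : ℝ} (hE : E ≤ w / 16) (hb : ∀ n, |l' n - l n| ≤ E) : ∀ n, |l' n - l n| ≤ E / 4 := by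
  have hw := hd.wpos
  intro k
  have hE0 : 0 ≤ E := (abs_nonneg _).trans (hb k)
  set c := w / 16 with hc
  set x := x0 + l k with hx
  have hbs : HasSum (fun n : ℤ => H (x + w + c - l n) - H (x - w - c - l n)) (2 * (w + c)) := by
    have := h.tile (x - w - c) (x + w + c) (by linarith)
    convert this using 1
    ring
  have hK := hasSum_KK (l := l) (l' := l') hH hfl (w := w) (x := x) hw.le
    (fun n => H (x + w + c - l n) - H (x - w - c - l n)) hbs.summable (by
      intro n s hs
      refine (pt_bound hH ((hb n).trans hE)).trans ?_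
      have a1 := hH.mono (show s + c - l n ≤ x + w + c - l n by linarith [hs.2])
      have a2 := hH.mono (show x - w - c - l n ≤ s - c - l n by linarith [hs.1])
      linarith)
  have hup : ∀ n, |KK H w (x - l n) - KK H w (x - l' n)| ≤
      E * (H (x + w + c - l n) - H (x - w - c - l n)) := by
    intro n
    have h1 := KK_upper hH (w := w) (c := c) (y := x - l n) hw.le (e := l' n - l n)
      ((hb n).trans hE)
    have e1 : x - l n - (l' n - l n) = x - l' n := by ring
    rw [e1] at h1
    refine h1.trans ?_
    have e2 : x - l n + w + c = x + w + c - l n := by ring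
    have e3 : x - l n - w - c = x - w - c - l n := by ring
    rw [e2, e3]
    refine mul_le_mul_of_nonneg_right (hb n) (sub_nonneg.2 (hH.mono (by linarith)))
  have hs := sum_dom hK (hbs.mul_left E) k (fun j _ => hup j)
  have hlow := KK_lower hH (w := w) (c := c) (y := x - l k) hw.le (e := l' k - l k)
      ((hb k).trans hE)
  have e1 : x - l k - (l' k - l k) = x - l' k := by ring
  rw [e1] at hlow
  have e4 : x - l k = x0 := by rw [hx]; ring
  have e5 : x + w + c - l k = x0 + w + c := by rw [hx]; ring
  have e6 : x - w - c - l k = x0 - w - c := by rw [hx]; ring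
  rw [e4] at hlow
  simp only [e5, e6] at hs
  rw [e4] at hs
  have m1 := hH.mono (show x0 + w ≤ x0 + w + c by linarith)
  have m2 := hH.mono (show x0 - w - c ≤ x0 - w by linarith)
  have hdens := hd.dens
  have h3 : |l' k - l k| * (27 * w / 16) ≤ E * (6 * w / 16) := by
    have p1 : |l' k - l k| * (27 * w / 16) ≤ |l' k - l k| * (H (x0 + w) - H (x0 - w) - c) :=
      mul_le_mul_of_nonneg_left (by linarith) (abs_nonneg _)
    have p2 : E * (2 * (w + c)) - E * (H (x0 + w + c) - H (x0 - w - c)) ≤ E * (6 * w / 16) := by
      rw [← mul_sub]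
      exact mul_le_mul_of_nonneg_left (by linarith) hE0
    linarith
  have h4 : |l' k - l k| * 27 ≤ E * 6 := by
    have : |l' k - l k| * 27 * (w / 16) ≤ E * 6 * (w / 16) := by linarith
    exact le_of_mul_le_mul_right this (by linarith)
  linarith

lemma contract2_zero (hH : Prim H m) {x0 w : ℝ} (hd : Dens H x0 w) (h : TS H r R l)
    (hfl : ∀ x, HasSum (fun n : ℤ => H (x - l n) - H (x - l' n)) 0)
    (hb : ∀ n, |l' n - l n| ≤ w / 16) : ∀ n, l' n = l n := by
  have hw := hd.wpos
  have key : ∀ j : ℕ, ∀ n, |l' n - l n| ≤ w / 16 * (1/4) ^ j := by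
    intro j
    induction j with
    | zero => simpa using hb
    | succ j ih =>
      have h1 : w / 16 * (1/4 : ℝ) ^ j ≤ w / 16 := by
        have : (1/4 : ℝ) ^ j ≤ 1 := pow_le_one₀ (by norm_num) (by norm_num)
        nlinarith
      have := contract2 hH hd h hfl h1 ih
      intro n
      refine (this n).trans (le_of_eq ?_)
      rw [pow_succ]
      ring
  intro n
  have ht : Tendsto (fun j : ℕ => w / 16 * (1/4 : ℝ) ^ j) atTop (𝓝 (w / 16 * 0)) :=
    (tendsto_pow_atTop_nhds_zero_of_lt_one (by norm_num) (by norm_num)).const_mul _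
  have := ge_of_tendsto' ht (fun j => key j n)
  rw [mul_zero] at this
  have := abs_nonpos_iff.1 this
  linarith

/-- The property any two tilings whose enumerations stay within `c` on the index set `S`
are translates of one another. -/
def CLS (H : ℝ → ℝ) (r R : ℝ) (S : Set ℤ) (c : ℝ) : Prop :=
  ∀ l l' : ℤ → ℝ, TS H r R l → TS H r R l' → (∀ n ∈ S, |l' n - l n| ≤ c) →
    ∃ t, ∀ n, l' n = l n + t

/-- two-sided uniform rigidity -/
theorem cls_univ (hH : Prim H m) {x0 w : ℝ} (hd : Dens H x0 w) :
    CLS H r R univ (w / 64) := by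
  intro l l' h h' hb
  have hw := hd.wpos
  have hb' : ∀ n, |l' n - l n| ≤ w / 64 := fun n => hb n (mem_univ n)
  have hbd : ∀ x n, |H (x - l n) - H (x - l' n)| ≤ H (x + w/64 - l n) - H (x - w/64 - l n) :=
    fun x n => pt_bound hH (hb' n)
  have hts : ∀ x, HasSum (fun n : ℤ => H (x + w/64 - l n) - H (x - w/64 - l n)) (w / 32) := by
    intro x
    have := h.tile (x - w/64) (x + w/64) (by linarith)
    convert this using 1
    ring
  have hs : ∀ x, Summable (fun n : ℤ => H (x - l n) - H (x - l' n)) := fun x =>
    Summable.of_norm_bounded (hts x).summable (fun n => by rw [Real.norm_eq_abs]; exact hbd x n)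
  set F := ∑' n : ℤ, (H (0 - l n) - H (0 - l' n)) with hF
  have hFx : ∀ x, HasSum (fun n : ℤ => H (x - l n) - H (x - l' n)) F := by
    intro x
    rw [hF, flux_const h h' hs 0 x]
    exact (hs x).hasSum
  have hFb : |F| ≤ w / 32 := by
    have h1 := hasSum_le (fun n => (abs_le.1 (hbd 0 n)).2) (hFx 0) (hts 0)
    have h2 := hasSum_le (fun n => neg_le_of_abs_le (hbd 0 n)) (hts 0).neg (hFx 0)
    rw [abs_le]
    constructor <;> linarith
  have h'' : TS H r R (fun n => l' n - F) := by simpa [sub_eq_add_neg] using h'.trans (-F)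
  have hfl : ∀ x, HasSum (fun n : ℤ => H (x - l n) - H (x - (l' n - F))) 0 := by
    intro x
    have h1 := (hFx x).add (h'.transSum x (-F))
    rw [add_neg_cancel] at h1
    convert h1 using 1
    funext n
    rw [show x - -F - l' n = x - (l' n - F) by ring]
    ring
  have := contract2_zero hH hd h hfl (fun n => by
    have e : l' n - F - l n = (l' n - l n) + (-F) := by ring
    rw [e]
    refine (abs_add_le _ _).trans ?_
    rw [abs_neg]
    have := hb' n
    linarith)
  exact ⟨F, fun n => by have := this n; linarith⟩

end Helper575.NP
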