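import Pool.Agent.Helper575.NP2

open MeasureTheory Set Filter Topology

namespace Helper575.NP

variable {H : ℝ → ℝ} {m r R : ℝ} {l l' : ℤ → ℝ}

lemma CLS.mono {S : Set ℤ} {c c' : ℝ} (h : CLS H r R S c) (hc : c' ≤ c) : CLS H r R S c' :=
  fun l l' hl hl' hb => h l l' hl hl' (fun n hn => (hb n hn).trans hc)

/-- compactness: local rigidity -/
lemma local_rigid (hr : 0 < r) (hH : Prim H m) {S : Set ℤ} {c : ℝ} (hS : S.Nonempty)
    (hcls : CLS H r R S c) {κ : ℝ} (hκ : 0 < κ) (L : ℕ) :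
    ∃ K : ℕ, ∀ l l' : ℤ → ℝ, TS H r R l → TS H r R l' →
      (∀ n ∈ S, |n| ≤ K → |l' n - l n| ≤ c) →
      ∀ j : ℤ, |j| ≤ L → |(l' j - l j) - (l' 0 - l 0)| ≤ κ := by
  by_contra hcon
  push Not at hcon
  choose x y hx hy hclose jj hjj hviol using hcon
  obtain ⟨s0, hs0⟩ := hS
  set K0 : ℕ := s0.natAbs with hK0
  set X : ℕ → ℤ → ℝ := fun K n => x (K + K0) n - x (K + K0) 0 with hX
  set Y : ℕ → ℤ → ℝ := fun K n => y (K + K0) n - x (K + K0) 0 with hY
  have hXT : ∀ K, TS H r R (X K) := fun K => by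
    have := (hx (K + K0)).shift 0 (x (K + K0) 0)
    simpa [hX] using this
  have hYT : ∀ K, TS H r R (Y K) := fun K => by
    have := (hy (K + K0)).shift 0 (x (K + K0) 0)
    simpa [hY] using this
  have hXY : ∀ K n, Y K n - X K n = y (K + K0) n - x (K + K0) n := fun K n => by
    simp only [hX, hY]; ring
  set B : ℤ → ℝ := fun n => R * |(n:ℝ)| + (R * |(n:ℝ) - s0| + c + R * |(s0:ℝ)|) with hB
  have hR : 0 ≤ R := hr.le.trans (hx 0).rle
  have hs0c : ∀ K, |Y K s0 - X K s0| ≤ c := by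
    intro K
    rw [hXY]
    apply hclose _ s0 hs0
    have := Int.abs_eq_natAbs s0
    push_cast
    omega
  have hc0 : 0 ≤ c := (abs_nonneg _).trans (hs0c 0)
  have hX0 : ∀ K, X K 0 = 0 := fun K => by simp [hX]
  have hXB : ∀ K n, X K n ∈ Icc (-(B n)) (B n) := by
    intro K n
    rw [mem_Icc, ← abs_le]
    have h1 := (hXT K).abs_hi hr 0 n
    rw [hX0, sub_zero] at h1
    push_cast at h1
    rw [sub_zero] at h1
    have : 0 ≤ R * |(n:ℝ) - s0| + c + R * |(s0:ℝ)| := by positivity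
    simp only [hB]
    linarith
  have hYB : ∀ K n, Y K n ∈ Icc (-(B n)) (B n) := by
    intro K n
    rw [mem_Icc, ← abs_le]
    have h1 := (hXT K).abs_hi hr 0 s0
    rw [hX0, sub_zero] at h1
    push_cast at h1
    rw [sub_zero] at h1
    have h2 := (hYT K).abs_hi hr s0 n
    have h3 := hs0c K
    have e : Y K n = (Y K n - Y K s0) + (Y K s0 - X K s0) + X K s0 := by ring
    have h4 := abs_add_three (Y K n - Y K s0) (Y K s0 - X K s0) (X K s0)
    rw [← e] at h4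
    have : 0 ≤ R * |(n:ℝ)| := by positivity
    simp only [hB]
    linarith
  have hcpt : IsCompact ((Set.pi univ (fun n : ℤ => Icc (-(B n)) (B n))) ×ˢ
      (Set.pi univ (fun n : ℤ => Icc (-(B n)) (B n)))) :=
    (isCompact_univ_pi (fun n => isCompact_Icc)).prod (isCompact_univ_pi (fun n => isCompact_Icc))
  obtain ⟨a, -, φ, hφ, hlim⟩ := hcpt.tendsto_subseq (x := fun K => (X K, Y K))
    (fun K => ⟨fun n _ => hXB K n, fun n _ => hYB K n⟩)
  have hl1 : ∀ n, Tendsto (fun i => X (φ i) n) atTop (𝓝 (a.1 n)) := by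
    have := ((continuous_fst.tendsto a).comp hlim)
    exact fun n => (tendsto_pi_nhds.1 this) n
  have hl2 : ∀ n, Tendsto (fun i => Y (φ i) n) atTop (𝓝 (a.2 n)) := by
    have := ((continuous_snd.tendsto a).comp hlim)
    exact fun n => (tendsto_pi_nhds.1 this) n
  have hT1 : TS H r R a.1 := TS.closed hr hH (fun i => hXT (φ i)) hl1
  have hT2 : TS H r R a.2 := TS.closed hr hH (fun i => hYT (φ i)) hl2
  have hcl : ∀ n ∈ S, |a.2 n - a.1 n| ≤ c := by
    intro n hn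
    refine le_of_tendsto ((hl2 n).sub (hl1 n)).abs ?_
    filter_upwards [hφ.tendsto_atTop.eventually_ge_atTop n.natAbs] with i hi
    rw [hXY]
    apply hclose _ n hn
    have := Int.abs_eq_natAbs n
    push_cast
    omega
  obtain ⟨t, ht⟩ := hcls a.1 a.2 hT1 hT2 hcl
  have hlimsum : Tendsto (fun i => ∑ j ∈ Finset.Icc (-(L:ℤ)) L,
      |(Y (φ i) j - X (φ i) j) - (Y (φ i) 0 - X (φ i) 0)|) atTop
      (𝓝 (∑ j ∈ Finset.Icc (-(L:ℤ)) L, |(a.2 j - a.1 j) - (a.2 0 - a.1 0)|)) :=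
    tendsto_finsetSum _ (fun j _ => (((hl2 j).sub (hl1 j)).sub ((hl2 0).sub (hl1 0))).abs)
  have hz : (∑ j ∈ Finset.Icc (-(L:ℤ)) L, |(a.2 j - a.1 j) - (a.2 0 - a.1 0)|) = 0 := by
    apply Finset.sum_eq_zero
    intro j _
    rw [ht j, ht 0]
    simp
  rw [hz] at hlimsum
  have hge : κ ≤ 0 := by
    refine ge_of_tendsto' hlimsum (fun i => ?_)
    have h1 := hviol (φ i + K0)
    have hj := hjj (φ i + K0)
    refine h1.le.trans ?_
    rw [← hXY, ← hXY]
    refine Finset.single_le_sum (f := fun j => |(Y (φ i) j - X (φ i) j) -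
      (Y (φ i) 0 - X (φ i) 0)|) (fun j _ => abs_nonneg _) ?_
    rw [Finset.mem_Icc]
    exact abs_le.1 hj
  linarith

/-- The drift control property. -/
def DC (H : ℝ → ℝ) (r R : ℝ) : Prop :=
  ∃ (C : ℝ) (τ : ℕ → ℝ), 0 ≤ C ∧ Tendsto τ atTop (𝓝 0) ∧
    ∀ l l' : ℤ → ℝ, TS H r R l → TS H r R l' → ∀ (n k : ℤ) (L : ℕ) (ω : ℝ), 0 ≤ ω → ω ≤ 1 →
      (∀ j : ℤ, |j| ≤ L → |(l' (n + j) - l (n + j)) - (l' n - l n)| ≤ ω) →
      (∀ j : ℤ, |j| ≤ L → |(l' (k + j) - l (k + j)) - (l' k - l k)| ≤ ω) →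
      |l' n - l n| ≤ 1 → |l' k - l k| ≤ 1 →
      |(l' n - l n) - (l' k - l k)| ≤ C * ω + τ L

lemma DC.choose (h : DC H r R) {η : ℝ} (hη : 0 < η) :
    ∃ (κ : ℝ) (L : ℕ), 0 < κ ∧ κ ≤ 1/2 ∧ 1 ≤ L ∧
    ∀ l l' : ℤ → ℝ, TS H r R l → TS H r R l' → ∀ (n k : ℤ),
      (∀ j : ℤ, |j| ≤ L → |(l' (n + j) - l (n + j)) - (l' n - l n)| ≤ κ) →
      (∀ j : ℤ, |j| ≤ L → |(l' (k + j) - l (k + j)) - (l' k - l k)| ≤ κ) →
      |l' n - l n| ≤ 1 → |l' k - l k| ≤ 1 →
      |(l' n - l n) - (l' k - l k)| ≤ η := by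
  obtain ⟨C, τ, hC, hτ, hd⟩ := h
  obtain ⟨L, hL1, hL2⟩ := ((hτ.eventually (ge_mem_nhds (show (0:ℝ) < η / 2 by linarith))).and
    (eventually_ge_atTop 1)).exists
  refine ⟨min (1/2) (η / (2 * (C + 1))), L, lt_min (by norm_num) (by positivity),
    min_le_left _ _, hL2, ?_⟩
  intro l l' hl hl' n k h1 h2 h3 h4
  refine (hd l l' hl hl' n k L _ (le_min (by norm_num) (by positivity))
    ((min_le_left _ _).trans (by norm_num)) h1 h2 h3 h4).trans ?_
  have : C * min (1/2) (η / (2 * (C + 1))) ≤ η / 2 := by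
    have h5 : C * min (1/2) (η / (2 * (C + 1))) ≤ (C + 1) * (η / (2 * (C + 1))) := by
      apply mul_le_mul (by linarith) (min_le_right _ _) (le_min (by norm_num) (by positivity))
      linarith
    refine h5.trans (le_of_eq ?_)
    field_simp
  linarith

/-- forward propagation of closeness -/
lemma forward (hr : 0 < r) (hH : Prim H m) {c : ℝ} (hc : 0 < c) (hc2 : c ≤ 1/2)
    (hcls : CLS H r R (Iio 0) c) (hdc : DC H r R) :
    ∃ K : ℕ, ∀ l l' : ℤ → ℝ, TS H r R l → TS H r R l' →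
      (∀ n : ℤ, -(K:ℤ) ≤ n → n ≤ 0 → |l' n - l n| ≤ c / 2) →
      ∀ n : ℤ, 0 ≤ n → |l' n - l n| ≤ c := by
  obtain ⟨κ, L, hκ, hκ2, hL, hd⟩ := hdc.choose (η := c / 2) (by linarith)
  obtain ⟨K, hK⟩ := local_rigid hr hH (S := Iio 0) (c := c) ⟨-1, by simp⟩ hcls hκ L
  refine ⟨K, fun l l' hl hl' hwin => ?_⟩
  -- local rigidity at the position y
  have hloc : ∀ y : ℤ, (∀ n : ℤ, y - K ≤ n → n < y → |l' n - l n| ≤ c) →
      ∀ j : ℤ, |j| ≤ L → |(l' (y + j) - l (y + j)) - (l' y - l y)| ≤ κ := by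
    intro y hy j hj
    have := hK (fun n => l (n + y) - 0) (fun n => l' (n + y) - 0) (hl.shift y 0) (hl'.shift y 0)
      (fun n hn hn2 => by
        simp only [sub_zero]
        apply hy
        · have := neg_le_of_abs_le hn2
          omega
        · simp only [mem_Iio] at hn
          omega) j hj
    simpa [add_comm] using this
  have hwin' : ∀ n : ℤ, -(K:ℤ) ≤ n → n ≤ 0 → |l' n - l n| ≤ c := fun n h1 h2 =>
    (hwin n h1 h2).trans (by linarith)
  have key : ∀ N : ℕ, ∀ n : ℤ, -(K:ℤ) ≤ n → n ≤ N → |l' n - l n| ≤ c := by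
    intro N
    induction N with
    | zero => intro n h1 h2; exact hwin' n h1 (by simpa using h2)
    | succ N ih =>
      intro n h1 h2
      rcases le_or_gt n N with h3 | h3
      · exact ih n h1 h3
      · have hn : n = N + 1 := by push_cast at h2; omega
        subst hn
        have a1 := hloc ((N:ℤ) + 1) (fun k hk1 hk2 => ih k (by omega) (by omega))
        have a0 := hloc 0 (fun k hk1 hk2 => hwin' k (by omega) (by omega))
        have b1 : |l' (N + 1) - l (N + 1)| ≤ 1 := by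
          have h4 := a1 (-1) (by
            rw [abs_neg, abs_one]; exact_mod_cast hL)
          have h5 := ih N (by omega) le_rfl
          have e : (N:ℤ) + 1 + -1 = N := by ring
          rw [e] at h4
          have e2 : l' (N + 1) - l (N + 1) = (l' N - l N) -
            ((l' N - l N) - (l' (N + 1) - l (N + 1))) := by ring
          rw [e2]
          refine (abs_sub _ _).trans ?_
          linarith
        have b0 : |l' 0 - l 0| ≤ 1 := (hwin' 0 (by omega) le_rfl).trans (by linarith)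
        have h6 := hd l l' hl hl' (N + 1) 0 a1 a0 b1 b0
        have h7 := hwin 0 (by omega) le_rfl
        have e3 : l' (N + 1) - l (N + 1) = ((l' (N + 1) - l (N + 1)) - (l' 0 - l 0)) +
          (l' 0 - l 0) := by ring
        rw [e3]
        refine (abs_add_le _ _).trans ?_
        linarith
  intro n hn
  obtain ⟨N, rfl⟩ := Int.eq_ofNat_of_zero_le hn
  exact key N N (by omega) le_rfl

/-- **finiteness** of the set of normalised tilings -/
theorem finite_TS (hr : 0 < r) (hH : Prim H m) {c0 : ℝ} (hc : 0 < c0)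
    (hcls : CLS H r R (Iio 0) c0) (hdc : DC H r R) :
    {l : ℤ → ℝ | TS H r R l ∧ l 0 = 0}.Finite := by
  by_contra hinf
  have hinf' : {l : ℤ → ℝ | TS H r R l ∧ l 0 = 0}.Infinite := hinf
  set c := min (c0 / 2) (1 / 2) with hcdef
  have hc1 : 0 < c := lt_min (by linarith) (by norm_num)
  have hc2 : c ≤ 1/2 := min_le_right _ _
  have hc3 : 2 * c ≤ c0 := by have := min_le_left (c0/2) (1/2 : ℝ); linarith
  obtain ⟨K, hK⟩ := forward hr hH hc1 hc2 (hcls.mono (by linarith)) hdc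
  set z := fun i : ℕ => ((hinf'.natEmbedding _ i : {l : ℤ → ℝ | TS H r R l ∧ l 0 = 0}) : ℤ → ℝ)
    with hz
  have hzinj : Function.Injective z := by
    intro i j hij
    exact (hinf'.natEmbedding _).injective (Subtype.ext hij)
  have hzT : ∀ i, TS H r R (z i) := fun i => (hinf'.natEmbedding _ i).2.1
  have hz0 : ∀ i, z i 0 = 0 := fun i => (hinf'.natEmbedding _ i).2.2
  have hR : 0 ≤ R := hr.le.trans (hzT 0).rle
  set Bq : ℕ := ⌊R * K / (c / 2)⌋₊ with hBq
  have hv : ∀ i (N : ℕ) (k : Fin (K + 1)),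
      ⌊(z i (-(N:ℤ)) - z i (-(N:ℤ) - (k : ℕ))) / (c / 2)⌋₊ < Bq + 1 := by
    intro i N k
    rw [Nat.lt_succ_iff]
    apply Nat.floor_le_floor
    apply div_le_div_of_nonneg_right _ (by linarith)
    have h1 := (hzT i).hi_int (n := -(N:ℤ) - (k : ℕ)) (k := -(N:ℤ)) (by omega)
    refine h1.trans ?_
    apply mul_le_mul_of_nonneg_left _ hR
    push_cast
    have : ((k:ℕ):ℝ) ≤ K := by exact_mod_cast Nat.lt_succ_iff.1 k.2
    linarith
  set code : ℕ → ℕ → (Fin (K + 1) → Fin (Bq + 1)) := fun N i k =>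
    ⟨⌊(z i (-(N:ℤ)) - z i (-(N:ℤ) - (k : ℕ))) / (c / 2)⌋₊, hv i N k⟩ with hcode
  set N0 := Fintype.card (Fin (K + 1) → Fin (Bq + 1)) + 1 with hN0
  have hpig : ∀ N : ℕ, ∃ p : Fin N0 × Fin N0, p.1 ≠ p.2 ∧ code N p.1 = code N p.2 := by
    intro N
    obtain ⟨i, j, hij, he⟩ := Fintype.exists_ne_map_eq_of_card_lt
      (fun i : Fin N0 => code N i) (by rw [Fintype.card_fin]; omega)
    exact ⟨(i, j), hij, he⟩
  choose p hp1 hp2 using hpig
  obtain ⟨q, hq⟩ := Finite.exists_infinite_fiber p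
  have hqinf : (p ⁻¹' {q}).Infinite := Set.infinite_coe_iff.1 hq
  obtain ⟨N1, hN1⟩ := hqinf.nonempty
  have hqne : q.1 ≠ q.2 := by
    have := hp1 N1
    rw [mem_preimage, mem_singleton_iff] at hN1
    rwa [hN1] at this
  set a := z q.1 with ha
  set b := z q.2 with hb
  have hclose : ∀ k : ℤ, |b k - a k| ≤ 2 * c := by
    intro k
    obtain ⟨N, hN, hNk⟩ := hqinf.exists_gt k.natAbs
    rw [mem_preimage, mem_singleton_iff] at hN
    have hcd := hp2 N
    rw [hN] at hcd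
    have hwin : ∀ n : ℤ, -(K:ℤ) ≤ n → n ≤ 0 →
        |(b (n + -(N:ℤ)) - b (-(N:ℤ))) - (a (n + -(N:ℤ)) - a (-(N:ℤ)))| ≤ c / 2 := by
      intro n hn1 hn2
      obtain ⟨k', hk'⟩ := Int.eq_ofNat_of_zero_le (show 0 ≤ -n by omega)
      have hk1 : k' < K + 1 := by omega
      have h1 := congrFun hcd ⟨k', hk1⟩
      simp only [hcode, Fin.mk.injEq] at h1
      have e1 : -(N:ℤ) - (k':ℤ) = n + -(N:ℤ) := by omega
      rw [e1] at h1
      have h2 : 0 ≤ (a (-(N:ℤ)) - a (n + -(N:ℤ))) / (c / 2) := by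
        apply div_nonneg _ (by linarith)
        have := ((hzT q.1).mono hr).monotone (show n + -(N:ℤ) ≤ -(N:ℤ) by omega)
        rw [ha]; linarith
      have h3 : 0 ≤ (b (-(N:ℤ)) - b (n + -(N:ℤ))) / (c / 2) := by
        apply div_nonneg _ (by linarith)
        have := ((hzT q.2).mono hr).monotone (show n + -(N:ℤ) ≤ -(N:ℤ) by omega)
        rw [hb]; linarith
      have h4 := Nat.floor_le h2
      have h5 := Nat.lt_floor_add_one ((a (-(N:ℤ)) - a (n + -(N:ℤ))) / (c / 2))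
      have h6 := Nat.floor_le h3
      have h7 := Nat.lt_floor_add_one ((b (-(N:ℤ)) - b (n + -(N:ℤ))) / (c / 2))
      have h8 : ((⌊(a (-(N:ℤ)) - a (n + -(N:ℤ))) / (c / 2)⌋₊ : ℕ) : ℝ) =
          ((⌊(b (-(N:ℤ)) - b (n + -(N:ℤ))) / (c / 2)⌋₊ : ℕ) : ℝ) := by
        exact_mod_cast h1
      have h9 : |(b (-(N:ℤ)) - b (n + -(N:ℤ))) / (c / 2) -
          (a (-(N:ℤ)) - a (n + -(N:ℤ))) / (c / 2)| ≤ 1 := by
        rw [abs_le]; constructor <;> linarith
      rw [← sub_div, abs_div, abs_of_pos (show 0 < c / 2 by linarith),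
        div_le_one (by linarith)] at h9
      have e : (b (n + -(N:ℤ)) - b (-(N:ℤ))) - (a (n + -(N:ℤ)) - a (-(N:ℤ))) =
        -((b (-(N:ℤ)) - b (n + -(N:ℤ))) - (a (-(N:ℤ)) - a (n + -(N:ℤ)))) := by ring
      rw [e, abs_neg]
      exact h9
    have hfw := hK _ _ ((hzT q.1).shift (-(N:ℤ)) (a (-(N:ℤ))))
      ((hzT q.2).shift (-(N:ℤ)) (b (-(N:ℤ)))) hwin
    have hk0 := hfw (N:ℤ) (by omega)
    have hkk := hfw (k + N) (by omega)
    simp only [add_neg_cancel_right, add_neg_cancel] at hk0 hkk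
    rw [← ha, ← hb] at hk0 hkk
    have ea : a 0 = 0 := hz0 _
    have eb : b 0 = 0 := hz0 _
    rw [ea, eb] at hk0
    have e : b k - a k = ((b k - b (-(N:ℤ))) - (a k - a (-(N:ℤ)))) -
      ((0 - b (-(N:ℤ))) - (0 - a (-(N:ℤ)))) := by ring
    rw [e]
    refine (abs_sub _ _).trans ?_
    linarith
  obtain ⟨t, ht⟩ := hcls a b (hzT _) (hzT _) (fun n _ => (hclose n).trans hc3)
  have ht0 : t = 0 := by
    have := ht 0
    rw [show a 0 = 0 from hz0 _, show b 0 = 0 from hz0 _] at this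
    linarith
  have hab : a = b := by
    funext n
    rw [ht n, ht0, add_zero]
  have := hzinj hab
  exact hqne (Fin.val_injective this)

/-- finiteness implies periodicity -/
theorem periodic_of_finite (hfin : {l : ℤ → ℝ | TS H r R l ∧ l 0 = 0}.Finite)
    (h : TS H r R l) : ∃ p : ℕ, 0 < p ∧ ∀ n, l (n + p) = l n + (l p - l 0) := by
  have hmaps : ∀ k : ℕ, (fun n : ℤ => l (n + k) - l k) ∈ {l : ℤ → ℝ | TS H r R l ∧ l 0 = 0} := by
    intro k
    refine ⟨h.shift k _, ?_⟩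
    simp
  have hni : ¬ Function.Injective (fun k : ℕ => (fun n : ℤ => l (n + k) - l k)) := by
    intro hinj
    exact (Set.infinite_range_of_injective hinj) (hfin.subset (by rintro _ ⟨k, rfl⟩; exact hmaps k))
  rw [Function.Injective] at hni
  push Not at hni
  obtain ⟨k, k', he, hne⟩ := hni
  wlog hlt : k < k' generalizing k k'
  · exact this k' k he.symm hne.symm (lt_of_le_of_ne (not_lt.1 hlt) hne.symm)
  refine ⟨k' - k, by omega, fun n => ?_⟩
  have e : ∀ n : ℤ, l (n + k) - l k = l (n + k') - l k' := fun n => congrFun he n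
  have h1 := e (n - k)
  have h2 := e (-k)
  have c1 : ((k' - k : ℕ) : ℤ) = (k':ℤ) - k := by omega
  rw [c1]
  rw [show n - k + (k:ℤ) = n by ring, show n - k + (k':ℤ) = n + (k' - k) by ring] at h1
  rw [show -(k:ℤ) + k = 0 by ring, show -(k:ℤ) + k' = k' - k by ring] at h2
  linarith

end Helper575.NP
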