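import Pool.Agent.Helper575.NP3

open MeasureTheory Set Filter Topology

namespace Helper575.NP

variable {H : ℝ → ℝ} {m r R : ℝ} {l l' : ℤ → ℝ}

/-- no two distinct tilings are asymptotic at `-∞` -/
def NLA (H : ℝ → ℝ) (r R : ℝ) : Prop :=
  ∀ l l' : ℤ → ℝ, TS H r R l → TS H r R l' → Tendsto (fun n => l' n - l n) atBot (𝓝 0) → l = l'

theorem cls_left (hr : 0 < r) (hH : Prim H m) {c : ℝ} (hc1 : c ≤ 1)
    (hcu : CLS H r R univ c) (hdc : DC H r R) (hnla : NLA H r R) : CLS H r R (Iio 0) c := by
  intro l l' hl hl' hb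
  have key : ∀ η : ℝ, 0 < η → ∃ K : ℕ, ∀ n k : ℤ, n ≤ -(K:ℤ) → k ≤ -(K:ℤ) →
      |(l' n - l n) - (l' k - l k)| ≤ η := by
    intro η hη
    obtain ⟨κ, L, hκ, hκ2, hL, hd⟩ := hdc.choose hη
    obtain ⟨K, hK⟩ := local_rigid hr hH (S := univ) (c := c) ⟨0, mem_univ _⟩ hcu hκ L
    have hloc : ∀ y : ℤ, y ≤ -((K:ℤ) + 1) →
      ∀ j : ℤ, |j| ≤ L → |(l' (y + j) - l (y + j)) - (l' y - l y)| ≤ κ := by
      intro y hy j hj
      have := hK (fun n => l (n + y) - 0) (fun n => l' (n + y) - 0) (hl.shift y 0)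
        (hl'.shift y 0)
        (fun n _ hn2 => by
          simp only [sub_zero]
          apply hb
          have := le_of_abs_le hn2
          simp only [mem_Iio]
          omega) j hj
      simpa [add_comm] using this
    refine ⟨K + 1, fun n k hn hk => ?_⟩
    push_cast at hn hk
    exact hd l l' hl hl' n k (hloc n hn) (hloc k hk)
      ((hb n (by simp only [mem_Iio]; omega)).trans hc1)
      ((hb k (by simp only [mem_Iio]; omega)).trans hc1)
  have hcs : CauchySeq (fun N : ℕ => l' (-(N:ℤ)) - l (-(N:ℤ))) := by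
    rw [Metric.cauchySeq_iff]
    intro η hη
    obtain ⟨K, hK⟩ := key (η / 2) (by linarith)
    refine ⟨K, fun a ha b hb => ?_⟩
    rw [Real.dist_eq]
    have := hK (-(a:ℤ)) (-(b:ℤ)) (by omega) (by omega)
    linarith
  obtain ⟨e, he⟩ := cauchySeq_tendsto_of_complete hcs
  have hlim : Tendsto (fun n => l' n - l n) atBot (𝓝 e) := by
    rw [Metric.tendsto_nhds]
    intro η hη
    obtain ⟨K, hK⟩ := key (η / 2) (by linarith)
    filter_upwards [eventually_le_atBot (-(K:ℤ))] with n hn
    rw [Real.dist_eq]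
    have h1 : |(l' n - l n) - e| ≤ η / 2 := by
      refine le_of_tendsto ((tendsto_const_nhds.sub he).abs) ?_
      filter_upwards [eventually_ge_atTop K] with N hN
      exact hK n (-(N:ℤ)) hn (by omega)
    linarith
  have hlim2 : Tendsto (fun n => (l' n + (-e)) - l n) atBot (𝓝 0) := by
    have := hlim.sub_const e
    simp only [sub_self] at this
    refine this.congr (fun n => ?_)
    ring
  have := hnla l (fun n => l' n + (-e)) hl (hl'.trans (-e)) hlim2
  refine ⟨e, fun n => ?_⟩
  have := congrFun this n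
  linarith

/-- **Main abstract theorem**: without asymptotic pairs there are finitely many tilings and all
of them are periodic. -/
theorem main_abstract (hr : 0 < r) (hH : Prim H m) {x0 w : ℝ} (hd : Dens H x0 w)
    (hdc : DC H r R) (hnla : NLA H r R) :
    {l : ℤ → ℝ | TS H r R l ∧ l 0 = 0}.Finite := by
  have hw := hd.wpos
  have h1 : CLS H r R univ (min (w / 64) 1) := (cls_univ hH hd).mono (min_le_left _ _)
  exact finite_TS hr hH (lt_min (by linarith) one_pos)
    (cls_left hr hH (min_le_right _ _) h1 hdc hnla) hdc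

end Helper575.NP
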