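import Pool.Agent.Helper575.NP4

open MeasureTheory Set Filter Topology ProbabilityTheory
open scoped ENNReal

namespace Helper575.NP

/-- finite measures on the line whose Laplace transforms agree near `0` are equal -/
lemma ext_of_laplace {μ ν : Measure ℝ} [IsFiniteMeasure μ] [IsFiniteMeasure ν] {δ : ℝ}
    (hδ : 0 < δ) (hμ : ∀ t ∈ Ioo (-δ) δ, Integrable (fun x => Real.exp (t * x)) μ)
    (hν : ∀ t ∈ Ioo (-δ) δ, Integrable (fun x => Real.exp (t * x)) ν)
    (h : ∀ t ∈ Ioo (-δ) δ, ∫ x, Real.exp (t * x) ∂μ = ∫ x, Real.exp (t * x) ∂ν) : μ = ν := by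
  have hsub : ∀ {ρ : Measure ℝ}, (∀ t ∈ Ioo (-δ) δ, Integrable (fun x => Real.exp (t * x)) ρ) →
      {z : ℂ | z.re ∈ Ioo (-δ) δ} ⊆ {z : ℂ | z.re ∈ interior (integrableExpSet id ρ)} := by
    intro ρ hρ z hz
    have : Ioo (-δ) δ ⊆ interior (integrableExpSet id ρ) :=
      interior_maximal (fun t ht => hρ t ht) isOpen_Ioo
    exact this hz
  have hX : AnalyticOnNhd ℂ (complexMGF id μ) {z : ℂ | z.re ∈ Ioo (-δ) δ} :=
    analyticOnNhd_complexMGF.mono (hsub hμ)
  have hY : AnalyticOnNhd ℂ (complexMGF id ν) {z : ℂ | z.re ∈ Ioo (-δ) δ} :=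
    analyticOnNhd_complexMGF.mono (hsub hν)
  have hconv : IsPreconnected {z : ℂ | z.re ∈ Ioo (-δ) δ} :=
    ((convex_Ioo (-δ) δ).linear_preimage Complex.reLm).isPreconnected
  have heq : Set.EqOn (complexMGF id μ) (complexMGF id ν) {z : ℂ | z.re ∈ Ioo (-δ) δ} := by
    refine AnalyticOnNhd.eqOn_of_preconnected_of_frequently_eq hX hY hconv
      (z₀ := ((0:ℝ) : ℂ)) (by simp [hδ]) ?_
    have h_real : ∃ᶠ (x : ℝ) in 𝓝[≠] 0, complexMGF id μ x = complexMGF id ν x := by
      apply Filter.Eventually.frequently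
      have : ∀ᶠ x : ℝ in 𝓝[≠] 0, x ∈ Ioo (-δ) δ :=
        mem_nhdsWithin_of_mem_nhds (Ioo_mem_nhds (by linarith) hδ)
      filter_upwards [this] with x hx
      rw [complexMGF_ofReal, complexMGF_ofReal]
      have := h x hx
      simp only [mgf, id]
      rw [this]
    rw [frequently_iff_seq_forall] at h_real ⊢
    obtain ⟨xs, hx_tendsto, hx_eq⟩ := h_real
    refine ⟨fun n ↦ xs n, ?_, fun n ↦ ?_⟩
    · rw [tendsto_nhdsWithin_iff] at hx_tendsto ⊢
      constructor
      · exact (Complex.continuous_ofReal.tendsto 0).comp hx_tendsto.1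
      · simpa using hx_tendsto.2
    · simp [hx_eq]
  apply Measure.ext_of_charFun
  funext t
  have := heq (show ((t : ℂ) * Complex.I) ∈ {z : ℂ | z.re ∈ Ioo (-δ) δ} by simp [hδ])
  rw [complexMGF_id_mul_I, complexMGF_id_mul_I] at this
  exact this

lemma integral_exp_Ico {s u v : ℝ} (hs : 0 < s) (huv : u ≤ v) :
    ∫ x in Ico u v, Real.exp (-s * x) = (Real.exp (-s * u) - Real.exp (-s * v)) / s := by
  rw [integral_Ico_eq_integral_Ioc, ← intervalIntegral.integral_of_le huv,
    intervalIntegral.integral_comp_mul_left (fun x => Real.exp x) (show -s ≠ 0 by linarith),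
    integral_exp, smul_eq_mul]
  field_simp
  ring

lemma lintegral_exp_Ico {s u v : ℝ} (hs : 0 < s) :
    ∫⁻ x in Ico u v, ENNReal.ofReal (Real.exp (-s * x)) =
      ENNReal.ofReal ((Real.exp (-s * u) - Real.exp (-s * v)) / s) := by
  rcases le_total u v with huv | huv
  · rw [← integral_exp_Ico hs huv, ofReal_integral_eq_lintegral_ofReal]
    · have : Continuous fun x : ℝ => Real.exp (-s * x) := by fun_prop
      exact (this.integrableOn_Icc).mono_set Ico_subset_Icc_self
    · exact Eventually.of_forall fun x => (Real.exp_pos _).le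
  · rw [Ico_eq_empty (not_lt.2 huv)]
    simp only [Measure.restrict_empty, lintegral_zero_measure]
    symm
    apply ENNReal.ofReal_of_nonpos
    apply div_nonpos_of_nonpos_of_nonneg _ hs.le
    have : Real.exp (-s * u) ≤ Real.exp (-s * v) := Real.exp_le_exp.2 (by nlinarith)
    linarith

/-- the measure `∑ 1_{[l n, l' n)} dx` -/
noncomputable def PM (l l' : ℤ → ℝ) : Measure ℝ :=
  Measure.sum (fun n => volume.restrict (Ico (l n) (l' n)))

lemma lintegral_PM {s : ℝ} (hs : 0 < s) (l l' : ℤ → ℝ) :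
    ∫⁻ x, ENNReal.ofReal (Real.exp (-s * x)) ∂(PM l l') =
      ∑' n, ENNReal.ofReal ((Real.exp (-s * l n) - Real.exp (-s * l' n)) / s) := by
  unfold PM
  rw [lintegral_sum_measure]
  congr 1
  funext n
  exact lintegral_exp_Ico hs

lemma lintegral_PM_lt {s : ℝ} (hs : 0 < s) {l l' : ℤ → ℝ}
    (h : Summable (fun n : ℤ => Real.exp (-s * l n) - Real.exp (-s * l' n))) :
    ∫⁻ x, ENNReal.ofReal (Real.exp (-s * x)) ∂(PM l l') < ∞ := by
  rw [lintegral_PM hs]
  have h2 := (h.div_const s).abs
  refine lt_of_le_of_lt (ENNReal.tsum_le_tsum (fun n => ENNReal.ofReal_le_ofReal (le_abs_self _))) ?_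
  exact h2.tsum_ofReal_lt_top

lemma integrable_PM {s : ℝ} (hs : 0 < s) {l l' : ℤ → ℝ}
    (h : Summable (fun n : ℤ => Real.exp (-s * l n) - Real.exp (-s * l' n))) :
    Integrable (fun x => Real.exp (-s * x)) (PM l l') := by
  refine ⟨by fun_prop, ?_⟩
  rw [hasFiniteIntegral_iff_ofReal (Eventually.of_forall fun x => (Real.exp_pos _).le)]
  exact lintegral_PM_lt hs h

lemma integral_PM {s : ℝ} (hs : 0 < s) {l l' : ℤ → ℝ}
    (h : Summable (fun n : ℤ => Real.exp (-s * l n) - Real.exp (-s * l' n))) :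
    ∫ x, Real.exp (-s * x) ∂(PM l l') =
      (∑' n, max (Real.exp (-s * l n) - Real.exp (-s * l' n)) 0) / s := by
  rw [integral_eq_lintegral_of_nonneg_ae (Eventually.of_forall fun x => (Real.exp_pos _).le)
    (by fun_prop), lintegral_PM hs, ENNReal.tsum_toReal_eq (fun n => ENNReal.ofReal_ne_top),
    ← tsum_div_const]
  congr 1
  funext n
  rw [ENNReal.toReal_ofReal']
  rcases le_total 0 (Real.exp (-s * l n) - Real.exp (-s * l' n)) with h0 | h0
  · rw [max_eq_left h0, max_eq_left (div_nonneg h0 hs.le)]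
  · rw [max_eq_right h0, max_eq_right (div_nonpos_of_nonpos_of_nonneg h0 hs.le), zero_div]

/-- uniqueness from the vanishing of the two-sided Laplace transform of the difference -/
theorem lap_uniq {l l' : ℤ → ℝ} (hl : StrictMono l) (hl' : StrictMono l') {b : ℝ} (hb : 0 < b)
    (h : ∀ s ∈ Ioo 0 b, HasSum (fun n : ℤ => Real.exp (-s * l n) - Real.exp (-s * l' n)) 0) :
    l = l' := by
  -- equality of the weighted measures
  set σ := b / 2 with hσ
  have hσ0 : 0 < σ := by positivity
  set dens : ℝ → ℝ≥0∞ := fun x => ENNReal.ofReal (Real.exp (-σ * x)) with hdens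
  have hdm : Measurable dens := by fun_prop
  have h' : ∀ s ∈ Ioo 0 b, HasSum (fun n : ℤ => Real.exp (-s * l' n) - Real.exp (-s * l n)) 0 := by
    intro s hs
    have := (h s hs).neg
    simpa using this
  have fin : ∀ (l l' : ℤ → ℝ), (∀ s ∈ Ioo 0 b, HasSum (fun n : ℤ =>
      Real.exp (-s * l n) - Real.exp (-s * l' n)) 0) →
      IsFiniteMeasure ((PM l l').withDensity dens) := by
    intro l l' h
    refine isFiniteMeasure_withDensity ?_
    exact (lintegral_PM_lt hσ0 (h σ ⟨hσ0, by linarith⟩).summable).ne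
  have hwd : ∀ (l l' : ℤ → ℝ) (t : ℝ) (x : ℝ), (dens x).toReal • Real.exp (t * x) =
      Real.exp (-(σ - t) * x) := by
    intro l l' t x
    rw [hdens, ENNReal.toReal_ofReal (Real.exp_pos _).le, smul_eq_mul, ← Real.exp_add]
    congr 1
    ring
  have hint : ∀ (l l' : ℤ → ℝ), (∀ s ∈ Ioo 0 b, HasSum (fun n : ℤ =>
      Real.exp (-s * l n) - Real.exp (-s * l' n)) 0) → ∀ t ∈ Ioo (-σ) σ,
      Integrable (fun x => Real.exp (t * x)) ((PM l l').withDensity dens) := by
    intro l l' h t ht
    rw [integrable_withDensity_iff_integrable_smul' hdm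
      (Eventually.of_forall fun x => ENNReal.ofReal_lt_top)]
    simp only [hwd l l']
    exact integrable_PM (by linarith [ht.2]) (h (σ - t) ⟨by linarith [ht.2],
      by linarith [ht.1]⟩).summable
  have hval : ∀ (l l' : ℤ → ℝ) (t : ℝ),
      ∫ x, Real.exp (t * x) ∂((PM l l').withDensity dens) =
      ∫ x, Real.exp (-(σ - t) * x) ∂(PM l l') := by
    intro l l' t
    rw [integral_withDensity_eq_integral_toReal_smul hdm
      (Eventually.of_forall fun x => ENNReal.ofReal_lt_top)]
    simp only [hwd l l']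
  have heq : (PM l l').withDensity dens = (PM l' l).withDensity dens := by
    have := fin l l' h
    have := fin l' l h'
    refine ext_of_laplace hσ0 (hint l l' h) (hint l' l h') ?_
    intro t ht
    have hs : 0 < σ - t := by linarith [ht.2]
    have hsm : σ - t ∈ Ioo 0 b := ⟨hs, by linarith [ht.1]⟩
    rw [hval, hval, integral_PM hs (h _ hsm).summable, integral_PM hs (h' _ hsm).summable]
    congr 1
    have s1 : Summable (fun n : ℤ => max (Real.exp (-(σ - t) * l n) -
        Real.exp (-(σ - t) * l' n)) 0) := by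
      refine Summable.of_nonneg_of_le (fun n => le_max_right _ _) (fun n => ?_)
        (h _ hsm).summable.abs
      exact max_le (le_abs_self _) (abs_nonneg _)
    have s2 : Summable (fun n : ℤ => max (Real.exp (-(σ - t) * l' n) -
        Real.exp (-(σ - t) * l n)) 0) := by
      refine Summable.of_nonneg_of_le (fun n => le_max_right _ _) (fun n => ?_)
        (h' _ hsm).summable.abs
      exact max_le (le_abs_self _) (abs_nonneg _)
    have h3 := s1.hasSum.sub s2.hasSum
    have h4 : (fun n : ℤ => max (Real.exp (-(σ - t) * l n) - Real.exp (-(σ - t) * l' n)) 0 -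
        max (Real.exp (-(σ - t) * l' n) - Real.exp (-(σ - t) * l n)) 0) =
        fun n : ℤ => Real.exp (-(σ - t) * l n) - Real.exp (-(σ - t) * l' n) := by
      funext n
      rcases le_total 0 (Real.exp (-(σ - t) * l n) - Real.exp (-(σ - t) * l' n)) with h0 | h0
      · rw [max_eq_left h0, max_eq_right (by linarith)]
        ring
      · rw [max_eq_right h0, max_eq_left (by linarith)]
        ring
    rw [h4] at h3
    have := h3.unique (h _ hsm)
    linarith
  -- the supports are disjoint
  have hcon : ∀ (l l' : ℤ → ℝ), StrictMono l → StrictMono l' →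
      (PM l l').withDensity dens = (PM l' l).withDensity dens → ∀ n, ¬ (l n < l' n) := by
    intro l l' hl hl' heq n hn
    have hz : (PM l' l) (Ico (l n) (l' n)) = 0 := by
      unfold PM
      rw [Measure.sum_apply _ measurableSet_Ico]
      rw [ENNReal.tsum_eq_zero]
      intro k
      rw [Measure.restrict_apply measurableSet_Ico]
      have : Ico (l n) (l' n) ∩ Ico (l' k) (l k) = ∅ := by
        rw [eq_empty_iff_forall_notMem]
        rintro x ⟨⟨h1, h2⟩, h3, h4⟩
        have a1 := hl.lt_iff_lt.1 (h1.trans_lt h4)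
        have a2 := hl'.lt_iff_lt.1 (h3.trans_lt h2)
        omega
      rw [this, measure_empty]
    have hz2 : ((PM l l').withDensity dens) (Ico (l n) (l' n)) = 0 := by
      rw [heq]
      exact withDensity_absolutelyContinuous _ _ hz
    have hz3 : (PM l l') (Ico (l n) (l' n)) = 0 := by
      refine withDensity_absolutelyContinuous' hdm.aemeasurable
        (Eventually.of_forall fun x => ?_) hz2
      rw [hdens]
      exact (ENNReal.ofReal_pos.2 (Real.exp_pos _)).ne'
    have hz4 : volume (Ico (l n) (l' n)) = 0 := by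
      unfold PM at hz3
      rw [Measure.sum_apply _ measurableSet_Ico, ENNReal.tsum_eq_zero] at hz3
      have := hz3 n
      rwa [Measure.restrict_apply measurableSet_Ico, inter_self] at this
    rw [Real.volume_Ico, ENNReal.ofReal_eq_zero] at hz4
    linarith
  funext n
  have h1 := hcon l l' hl hl' heq n
  have h2 := hcon l' l hl' hl heq.symm n
  exact le_antisymm (not_lt.1 h2) (not_lt.1 h1)

end Helper575.NP
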