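import Pool.Agent.Helper575.NP5

open MeasureTheory Set Filter Topology

namespace Helper575.NP

variable {H : ℝ → ℝ} {m r R : ℝ} {l l' : ℤ → ℝ}

lemma summable_exp_neg_abs {b : ℝ} (hb : 0 < b) :
    Summable (fun n : ℤ => Real.exp (-b * |(n:ℝ)|)) := by
  have h : Summable (fun n : ℕ => Real.exp (-b * n)) := by
    have h1 : Summable (fun n : ℕ => Real.exp (-b) ^ n) :=
      summable_geometric_of_lt_one (Real.exp_pos _).le (by rw [Real.exp_lt_one_iff]; linarith)
    refine h1.congr (fun n => ?_)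
    rw [← Real.exp_nat_mul]
    congr 1
    ring
  apply Summable.of_nat_of_neg
  · refine h.congr (fun n => ?_)
    simp
  · refine h.congr (fun n => ?_)
    simp

lemma TS.exp_right (hr : 0 < r) (h : TS H r R l) {a : ℝ} (ha : 0 < a) (k0 : ℤ) :
    ∃ C : ℝ, 0 ≤ C ∧ ∀ n, k0 < n → Real.exp (-a * l n) ≤ C * Real.exp (-(a * r) * |(n:ℝ)|) := by
  have hR : 0 ≤ R := hr.le.trans h.rle
  refine ⟨Real.exp (-a * l 0 + a * (R + r) * |(k0:ℝ)|), (Real.exp_pos _).le, fun n hn => ?_⟩
  rw [← Real.exp_add]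
  apply Real.exp_le_exp.2
  rcases le_or_gt 0 n with h0 | h0
  · have h1 := h.lo_int h0
    push_cast at h1
    have h2 : (0:ℝ) ≤ n := by exact_mod_cast h0
    rw [abs_of_nonneg h2]
    have h3 : 0 ≤ a * (R + r) * |(k0:ℝ)| := by positivity
    nlinarith
  · have h1 := h.hi_int h0.le
    push_cast at h1
    have h2 : (n:ℝ) < 0 := by exact_mod_cast h0
    have h4 : (k0:ℝ) ≤ n := by exact_mod_cast hn.le
    rw [abs_of_neg h2, abs_of_neg (by linarith)]
    have h5 : a * l 0 - a * l n ≤ a * (R * (0 - n)) := by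
      rw [← mul_sub]
      exact mul_le_mul_of_nonneg_left h1 ha.le
    have h6 : a * (R + r) * (-n) ≤ a * (R + r) * (-k0) :=
      mul_le_mul_of_nonneg_left (by linarith) (by positivity)
    nlinarith

lemma TS.exp_left (hr : 0 < r) (h : TS H r R l) {a : ℝ} (ha : 0 < a) (k0 : ℤ) :
    ∃ C : ℝ, 0 ≤ C ∧ ∀ n, n ≤ k0 → Real.exp (a * l n) ≤ C * Real.exp (-(a * r) * |(n:ℝ)|) := by
  have hR : 0 ≤ R := hr.le.trans h.rle
  refine ⟨Real.exp (a * l 0 + a * (R + r) * |(k0:ℝ)|), (Real.exp_pos _).le, fun n hn => ?_⟩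
  rw [← Real.exp_add]
  apply Real.exp_le_exp.2
  rcases le_or_gt n 0 with h0 | h0
  · have h1 := h.lo_int h0
    push_cast at h1
    have h2 : (n:ℝ) ≤ 0 := by exact_mod_cast h0
    rw [abs_of_nonpos h2]
    have h3 : 0 ≤ a * (R + r) * |(k0:ℝ)| := by positivity
    nlinarith
  · have h1 := h.hi_int h0.le
    push_cast at h1
    have h2 : (0:ℝ) < n := by exact_mod_cast h0
    have h4 : (n:ℝ) ≤ k0 := by exact_mod_cast hn
    rw [abs_of_pos h2, abs_of_pos (by linarith)]
    have h5 : a * l n - a * l 0 ≤ a * (R * (n - 0)) := by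
      rw [← mul_sub]
      exact mul_le_mul_of_nonneg_left h1 ha.le
    have h6 : a * (R + r) * n ≤ a * (R + r) * k0 :=
      mul_le_mul_of_nonneg_left (by linarith) (by positivity)
    nlinarith

/-- the far part -/
noncomputable def PT (l l' : ℤ → ℝ) (a : ℝ) (k0 : ℤ) (n : ℤ) : ℝ :=
  if k0 < n then Real.exp (-a * l n) + Real.exp (-a * l' n) else 0

lemma PT_nonneg (l l' : ℤ → ℝ) (a : ℝ) (k0 n : ℤ) : 0 ≤ PT l l' a k0 n := by
  unfold PT
  split_ifs <;> positivity

lemma summable_PT (hr : 0 < r) (h : TS H r R l) (h' : TS H r R l') {a : ℝ} (ha : 0 < a)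
    (k0 : ℤ) : Summable (PT l l' a k0) := by
  obtain ⟨C, hC, hb⟩ := h.exp_right hr ha k0
  obtain ⟨C', hC', hb'⟩ := h'.exp_right hr ha k0
  refine Summable.of_nonneg_of_le (PT_nonneg _ _ _ _) (fun n => ?_)
    ((summable_exp_neg_abs (mul_pos ha hr)).mul_left (C + C'))
  unfold PT
  split_ifs with hn
  · have := hb n hn
    have := hb' n hn
    linarith
  · positivity

lemma D_bound (hH : Prim H m) {a Ca : ℝ} (hE : ∀ y, H y ≤ Ca * Real.exp (a * y))
    {c : ℝ} {k0 : ℤ} (hb : ∀ n ≤ k0, |l' n - l n| ≤ c) (hc : 0 ≤ c) (x : ℝ) (n : ℤ) :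
    |H (x - l n) - H (x - l' n)| ≤ (H (x + c - l n) - H (x - c - l n)) +
      Ca * Real.exp (a * x) * PT l l' a k0 n := by
  have h0 : 0 ≤ H (x + c - l n) - H (x - c - l n) := sub_nonneg.2 (hH.mono (by linarith))
  rcases le_or_gt n k0 with hn | hn
  · have h1 := pt_bound hH (x := x) (hb n hn)
    have : PT l l' a k0 n = 0 := by
      unfold PT; rw [if_neg (not_lt.2 hn)]
    rw [this]
    linarith
  · have h2 : PT l l' a k0 n = Real.exp (-a * l n) + Real.exp (-a * l' n) := by
      unfold PT; rw [if_pos hn]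
    have e1 := hE (x - l n)
    have e2 := hE (x - l' n)
    have p1 := hH.nonneg (x - l n)
    have p2 := hH.nonneg (x - l' n)
    have q1 : Real.exp (a * (x - l n)) = Real.exp (a * x) * Real.exp (-a * l n) := by
      rw [← Real.exp_add]; congr 1; ring
    have q2 : Real.exp (a * (x - l' n)) = Real.exp (a * x) * Real.exp (-a * l' n) := by
      rw [← Real.exp_add]; congr 1; ring
    rw [q1] at e1
    rw [q2] at e2
    have h3 : |H (x - l n) - H (x - l' n)| ≤ H (x - l n) + H (x - l' n) := by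
      rw [abs_le]; constructor <;> linarith
    rw [h2]
    calc _ ≤ _ := h3
      _ ≤ Ca * (Real.exp (a * x) * Real.exp (-a * l n)) +
          Ca * (Real.exp (a * x) * Real.exp (-a * l' n)) := add_le_add e1 e2
      _ = Ca * Real.exp (a * x) * (Real.exp (-a * l n) + Real.exp (-a * l' n)) := by ring
      _ ≤ _ := by linarith

lemma hasSum_window (h : TS H r R l) {c : ℝ} (hc : 0 ≤ c) (x : ℝ) :
    HasSum (fun n : ℤ => H (x + c - l n) - H (x - c - l n)) (2 * c) := by
  have := h.tile (x - c) (x + c) (by linarith)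
  convert this using 1
  ring

lemma exists_close (hε : Tendsto (fun n => l' n - l n) atBot (𝓝 0)) {c : ℝ} (hc : 0 < c) :
    ∃ k0 : ℤ, ∀ n ≤ k0, |l' n - l n| ≤ c := by
  have := (hε.abs)
  rw [abs_zero] at this
  exact (eventually_atBot.1 (this.eventually (ge_mem_nhds hc)))

/-- the flux between left-asymptotic tilings vanishes -/
lemma flux_zero (hr : 0 < r) (hH : Prim H m) {a Ca : ℝ} (ha : 0 < a)
    (hE : ∀ y, H y ≤ Ca * Real.exp (a * y)) (h : TS H r R l) (h' : TS H r R l')
    (hε : Tendsto (fun n => l' n - l n) atBot (𝓝 0)) (x : ℝ) :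
    HasSum (fun n : ℤ => H (x - l n) - H (x - l' n)) 0 := by
  have hCa : 0 ≤ Ca := by
    have := (hH.nonneg 0).trans (hE 0)
    simpa using this
  have hdom : ∀ c : ℝ, 0 < c → ∃ S : ℝ, 0 ≤ S ∧ ∀ y, Summable (fun n : ℤ => H (y - l n) - H (y - l' n)) ∧
      |∑' n : ℤ, (H (y - l n) - H (y - l' n))| ≤ 2 * c + Ca * Real.exp (a * y) * S := by
    intro c hc
    obtain ⟨k0, hk0⟩ := exists_close hε hc
    have hP := summable_PT hr h h' ha k0
    refine ⟨∑' n, PT l l' a k0 n, tsum_nonneg (PT_nonneg _ _ _ _), fun y => ?_⟩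
    have hb := D_bound (l := l) (l' := l') hH hE hk0 hc.le y
    have hs := (hasSum_window h hc.le y).add (hP.hasSum.mul_left (Ca * Real.exp (a * y)))
    have hsum : Summable (fun n : ℤ => H (y - l n) - H (y - l' n)) :=
      Summable.of_norm_bounded hs.summable (fun n => by rw [Real.norm_eq_abs]; exact hb n)
    refine ⟨hsum, ?_⟩
    have h1 := hasSum_le (fun n => le_of_abs_le (hb n)) hsum.hasSum hs
    have h2 := hasSum_le (fun n => neg_le_of_abs_le (hb n)) hs.neg hsum.hasSum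
    rw [abs_le]
    constructor <;> linarith
  have hsx : ∀ y, Summable (fun n : ℤ => H (y - l n) - H (y - l' n)) := by
    obtain ⟨S, _, hS⟩ := hdom 1 one_pos
    exact fun y => (hS y).1
  have hconst : ∀ y, ∑' n : ℤ, (H (y - l n) - H (y - l' n)) =
      ∑' n : ℤ, (H (x - l n) - H (x - l' n)) := fun y => flux_const h h' hsx y x
  have hzero : |∑' n : ℤ, (H (x - l n) - H (x - l' n))| ≤ 0 := by
    apply le_of_forall_pos_le_add
    intro η hη
    obtain ⟨S, hS0, hS⟩ := hdom (η / 4) (by linarith)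
    have ht : Tendsto (fun y => 2 * (η / 4) + Ca * Real.exp (a * y) * S) atBot
        (𝓝 (2 * (η / 4) + Ca * 0 * S)) := by
      refine tendsto_const_nhds.add (Tendsto.mul_const _ (Tendsto.const_mul _ ?_))
      exact Real.tendsto_exp_atBot.comp (tendsto_id.const_mul_atBot ha)
    have h1 := ge_of_tendsto' ht (fun y => by
      have := (hS y).2
      rwa [hconst y] at this)
    linarith
  have := abs_nonpos_iff.1 hzero
  rw [← this]
  exact (hsx x).hasSum

end Helper575.NP
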