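import Pool.Agent.Helper575.NP6

open MeasureTheory Set Filter Topology

namespace Helper575.NP

variable {H : ℝ → ℝ} {m r R : ℝ} {l l' : ℤ → ℝ}

/-- truncated exponential weight -/
noncomputable def WW (b B y : ℝ) : ℝ := min (Real.exp (-b * y)) B

lemma WW_pos {b B y : ℝ} (hB : 0 < B) : 0 < WW b B y := lt_min (Real.exp_pos _) hB

lemma WW_le {b B y z : ℝ} (hb : 0 ≤ b) (hB : 0 < B) :
    WW b B y ≤ WW b B z * Real.exp (b * max (z - y) 0) := by
  unfold WW
  rcases le_total z y with hz | hz
  · rw [max_eq_right (by linarith), mul_zero, Real.exp_zero, mul_one]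
    apply min_le_min_right
    apply Real.exp_le_exp.2
    nlinarith
  · rw [max_eq_left (by linarith), min_mul_of_nonneg _ _ (Real.exp_pos _).le]
    apply min_le_min
    · rw [← Real.exp_add]
      apply Real.exp_le_exp.2
      nlinarith
    · have : (1:ℝ) ≤ Real.exp (b * (z - y)) := Real.one_le_exp (mul_nonneg hb (by linarith))
      nlinarith

lemma exp_gain {a b d : ℝ} (ha : 0 < a) (hb : 0 ≤ b) (hba : b ≤ a / 4) (hd : 0 ≤ d) :
    (Real.exp (b * d) - 1) * Real.exp (-a * d) ≤ b * (4 / a) * Real.exp (-(a / 2) * d) := by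
  have h1 : Real.exp (b * d) - 1 ≤ b * d * Real.exp (b * d) := by
    have h := Real.add_one_le_exp (-(b * d))
    have h2 : Real.exp (b * d) * Real.exp (-(b * d)) = 1 := by
      rw [← Real.exp_add]; simp
    have h3 := Real.exp_pos (b * d)
    nlinarith
  have h4 : d ≤ 4 / a * Real.exp (a * d / 4) := by
    have h := Real.add_one_le_exp (a * d / 4)
    have : a * d / 4 ≤ Real.exp (a * d / 4) := by linarith
    rw [div_mul_eq_mul_div, le_div_iff₀ ha]
    nlinarith
  have h5 : Real.exp (b * d) ≤ Real.exp (a * d / 4) := Real.exp_le_exp.2 (by nlinarith)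
  calc (Real.exp (b * d) - 1) * Real.exp (-a * d)
      ≤ (b * d * Real.exp (b * d)) * Real.exp (-a * d) :=
        mul_le_mul_of_nonneg_right h1 (Real.exp_pos _).le
    _ ≤ (b * (4 / a * Real.exp (a * d / 4)) * Real.exp (a * d / 4)) * Real.exp (-a * d) := by
        apply mul_le_mul_of_nonneg_right _ (Real.exp_pos _).le
        apply mul_le_mul _ h5 (Real.exp_pos _).le (by positivity)
        exact mul_le_mul_of_nonneg_left h4 hb
    _ = b * (4 / a) * (Real.exp (a * d / 4) * Real.exp (a * d / 4) * Real.exp (-a * d)) := by ring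
    _ = b * (4 / a) * Real.exp (-(a / 2) * d) := by
        rw [← Real.exp_add, ← Real.exp_add]
        congr 2
        ring

lemma KK_le (hH : Prim H m) {w : ℝ} (hw : 0 ≤ w) (y : ℝ) : KK H w y ≤ 2 * w * H (y + w) := by
  unfold KK
  have h1 : (∫ s in (y-w)..(y+w), H s) ≤ ∫ s in (y-w)..(y+w), H (y + w) := by
    apply intervalIntegral.integral_mono_on (by linarith) (hH.cont.intervalIntegrable _ _) (by simp)
    intro s hs
    exact hH.mono hs.2
  refine h1.trans (le_of_eq ?_)
  rw [intervalIntegral.integral_const, smul_eq_mul]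
  ring

lemma KK_nonneg (hH : Prim H m) {w : ℝ} (hw : 0 ≤ w) (y : ℝ) : 0 ≤ KK H w y := by
  unfold KK
  exact intervalIntegral.integral_nonneg (by linarith) (fun s _ => hH.nonneg s)

/-- the contraction estimate with exponential weights -/
lemma contract_exp (hr : 0 < r) (hH : Prim H m) {x0 w : ℝ} (hd : Dens H x0 w)
    {a Ca : ℝ} (ha : 0 < a) (hE : ∀ y, H y ≤ Ca * Real.exp (a * y))
    (h : TS H r R l) (h' : TS H r R l')
    (hfl : ∀ x, HasSum (fun n : ℤ => H (x - l n) - H (x - l' n)) 0)
    {k0 : ℤ} (hk0 : ∀ n ≤ k0, |l' n - l n| ≤ w / 16) :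
    ∃ b C4 : ℝ, 0 < b ∧ b ≤ a / 4 ∧ 0 ≤ C4 ∧ ∀ B : ℝ, 0 < B → ∀ A : ℝ, 0 ≤ A →
      (∀ n ≤ k0, |l' n - l n| * WW b B (l n) ≤ A) →
      ∀ n ≤ k0, |l' n - l n| * WW b B (l n) ≤ A / 2 + C4 := by
  have hw := hd.wpos
  have hCa : 0 ≤ Ca := by
    have := (hH.nonneg 0).trans (hE 0)
    simpa using this
  set c := w / 16 with hc
  have hc0 : 0 ≤ c := by positivity
  set C1 := Ca * Real.exp (a * (x0 + w + c)) with hC1
  have hC1n : 0 ≤ C1 := by positivity
  have hgs := summable_exp_neg_abs (b := a * r / 2) (by positivity)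
  set G := ∑' n : ℤ, Real.exp (-(a * r / 2) * |(n:ℝ)|) with hG
  have hG0 : 0 ≤ G := tsum_nonneg (fun n => (Real.exp_pos _).le)
  set D := C1 * (4 / a) * G with hD
  have hD0 : 0 ≤ D := by positivity
  set b := min (a / 4) (w / 16 / (D + 1)) with hb
  have hb0 : 0 < b := lt_min (by positivity) (by positivity)
  have hba : b ≤ a / 4 := min_le_left _ _
  have hbD : b * D ≤ w / 16 := by
    have h1 : b ≤ w / 16 / (D + 1) := min_le_right _ _
    calc b * D ≤ (w / 16 / (D + 1)) * D := mul_le_mul_of_nonneg_right h1 hD0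
      _ ≤ (w / 16 / (D + 1)) * (D + 1) := by
          apply mul_le_mul_of_nonneg_left (by linarith) (by positivity)
      _ = w / 16 := by field_simp
  have hPs := summable_PT hr h h' ha k0
  set SP := ∑' n, PT l l' a k0 n with hSP
  have hSP0 : 0 ≤ SP := tsum_nonneg (PT_nonneg _ _ _ _)
  set C3 := 2 * w * Ca * Real.exp (a * (x0 + w)) * SP with hC3
  have hC30 : 0 ≤ C3 := by positivity
  set C4 := C3 * Real.exp ((a - b) * l k0) / (27 * w / 16) with hC4
  refine ⟨b, C4, hb0, hba, by positivity, ?_⟩
  intro B hB A hA hyp k hk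
  set x := x0 + l k with hx
  have hWk : 0 < WW b B (l k) := WW_pos hB
  -- the window masses
  set κ : ℤ → ℝ := fun n => H (x + w + c - l n) - H (x - w - c - l n) with hκ
  have hκ0 : ∀ n, 0 ≤ κ n := fun n => sub_nonneg.2 (hH.mono (by linarith))
  have hκs : HasSum κ (2 * (w + c)) := by
    have := h.tile (x - w - c) (x + w + c) (by linarith)
    convert this using 1
    ring
  set u : ℤ → ℝ := fun n => (Real.exp (b * max (l n - l k) 0) - 1) * κ n with hu
  have hu0 : ∀ n, 0 ≤ u n := fun n => by
    apply mul_nonneg _ (hκ0 n)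
    have := Real.one_le_exp (x := b * max (l n - l k) 0) (by positivity)
    linarith
  have hub : ∀ n, u n ≤ C1 * (b * (4 / a)) * Real.exp (-(a * r / 2) * |((n - k : ℤ):ℝ)|) := by
    intro n
    rcases le_or_gt n k with hn | hn
    · have : l n ≤ l k := (h.mono hr).monotone hn
      simp only [hu]
      rw [max_eq_right (by linarith)]
      simp only [mul_zero, Real.exp_zero, sub_self, zero_mul]
      positivity
    · have hnk : l k < l n := h.mono hr hn
      have hlow := h.lo_int hn.le
      have hd0 : 0 ≤ l n - l k := by linarith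
      simp only [hu]
      rw [max_eq_left hd0]
      have h1 : κ n ≤ C1 * Real.exp (-a * (l n - l k)) := by
        have h2 : κ n ≤ H (x + w + c - l n) := by
          have := hH.nonneg (x - w - c - l n)
          simp only [hκ]; linarith
        refine h2.trans ((hE _).trans (le_of_eq ?_))
        rw [hC1, mul_assoc, ← Real.exp_add]
        congr 2
        rw [hx]; ring
      calc (Real.exp (b * (l n - l k)) - 1) * κ n
          ≤ (Real.exp (b * (l n - l k)) - 1) * (C1 * Real.exp (-a * (l n - l k))) := by
            apply mul_le_mul_of_nonneg_left h1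
            have := Real.one_le_exp (x := b * (l n - l k)) (by positivity)
            linarith
        _ = C1 * ((Real.exp (b * (l n - l k)) - 1) * Real.exp (-a * (l n - l k))) := by ring
        _ ≤ C1 * (b * (4 / a) * Real.exp (-(a / 2) * (l n - l k))) :=
            mul_le_mul_of_nonneg_left (exp_gain ha hb0.le hba hd0) hC1n
        _ ≤ C1 * (b * (4 / a) * Real.exp (-(a * r / 2) * |((n - k : ℤ):ℝ)|)) := by
            apply mul_le_mul_of_nonneg_left _ hC1n
            apply mul_le_mul_of_nonneg_left _ (by positivity)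
            apply Real.exp_le_exp.2
            have h3 : (0:ℝ) ≤ ((n - k : ℤ):ℝ) := by exact_mod_cast (by omega : 0 ≤ n - k)
            rw [abs_of_nonneg h3]
            push_cast
            nlinarith
        _ = _ := by ring
  have hshift : HasSum (fun n : ℤ => Real.exp (-(a * r / 2) * |((n - k : ℤ):ℝ)|)) G :=
    (Equiv.subRight k).hasSum_iff (f := fun n : ℤ => Real.exp (-(a * r / 2) * |(n:ℝ)|)) |>.2
      hgs.hasSum
  have hus : Summable u := Summable.of_nonneg_of_le hu0 hub (hshift.summable.mul_left _)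
  have hU : ∑' n, u n ≤ w / 16 := by
    have h1 := hasSum_le hub hus.hasSum (hshift.mul_left (C1 * (b * (4 / a))))
    refine h1.trans (le_trans (le_of_eq ?_) hbD)
    rw [hD]; ring
  set U := ∑' n, u n with hUdef
  -- the dominating family
  set e := 2 * w * Ca * Real.exp (a * (x + w)) with he
  have hbs := ((hκs.add hus.hasSum).mul_left (A / WW b B (l k))).add (hPs.hasSum.mul_left e)
  -- integrated flux
  have hbdw : ∀ n, ∀ s ∈ Icc (x - w) (x + w), |H (s - l n) - H (s - l' n)| ≤
      κ n + Ca * Real.exp (a * (x + w)) * PT l l' a k0 n := by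
    intro n s hs
    refine (D_bound hH hE hk0 hc0 s n).trans ?_
    have a1 := hH.mono (show s + c - l n ≤ x + w + c - l n by linarith [hs.2])
    have a2 := hH.mono (show x - w - c - l n ≤ s - c - l n by linarith [hs.1])
    have a3 : Ca * Real.exp (a * s) * PT l l' a k0 n ≤
        Ca * Real.exp (a * (x + w)) * PT l l' a k0 n := by
      apply mul_le_mul_of_nonneg_right _ (PT_nonneg _ _ _ _ _)
      apply mul_le_mul_of_nonneg_left _ hCa
      exact Real.exp_le_exp.2 (mul_le_mul_of_nonneg_left hs.2 ha.le)
    simp only [hκ]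
    linarith
  have hK := hasSum_KK (l := l) (l' := l') hH hfl (w := w) (x := x) hw.le _
    (hκs.add (hPs.hasSum.mul_left (Ca * Real.exp (a * (x + w))))).summable hbdw
  have hup : ∀ n ≠ k, |KK H w (x - l n) - KK H w (x - l' n)| ≤
      A / WW b B (l k) * (κ n + u n) + e * PT l l' a k0 n := by
    intro n _
    rcases le_or_gt n k0 with hn | hn
    · have h1 := KK_upper hH (w := w) (c := c) (y := x - l n) hw.le (e := l' n - l n) (hk0 n hn)
      have e1 : x - l n - (l' n - l n) = x - l' n := by ring
      rw [e1] at h1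
      have e2 : x - l n + w + c = x + w + c - l n := by ring
      have e3 : x - l n - w - c = x - w - c - l n := by ring
      rw [e2, e3] at h1
      have h2 : |l' n - l n| ≤ A / WW b B (l k) * Real.exp (b * max (l n - l k) 0) := by
        have h3 := hyp n hn
        have hWn : 0 < WW b B (l n) := WW_pos hB
        have h4 := WW_le (b := b) (B := B) (y := l k) (z := l n) hb0.le hB
        rw [div_mul_eq_mul_div, le_div_iff₀ hWk]
        calc |l' n - l n| * WW b B (l k)
            ≤ |l' n - l n| * (WW b B (l n) * Real.exp (b * max (l n - l k) 0)) :=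
              mul_le_mul_of_nonneg_left h4 (abs_nonneg _)
          _ = (|l' n - l n| * WW b B (l n)) * Real.exp (b * max (l n - l k) 0) := by ring
          _ ≤ A * Real.exp (b * max (l n - l k) 0) :=
              mul_le_mul_of_nonneg_right h3 (Real.exp_pos _).le
      have h5 : |l' n - l n| * κ n ≤ A / WW b B (l k) * (κ n + u n) := by
        calc |l' n - l n| * κ n
            ≤ (A / WW b B (l k) * Real.exp (b * max (l n - l k) 0)) * κ n :=
              mul_le_mul_of_nonneg_right h2 (hκ0 n)
          _ = A / WW b B (l k) * (κ n + u n) := by simp only [hu]; ring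
      have h6 : 0 ≤ e * PT l l' a k0 n := mul_nonneg (by positivity) (PT_nonneg _ _ _ _ _)
      have h7 : |KK H w (x - l n) - KK H w (x - l' n)| ≤ |l' n - l n| * κ n := h1
      linarith
    · have h1 := KK_le hH hw.le (x - l n)
      have h2 := KK_le hH hw.le (x - l' n)
      have p1 := KK_nonneg hH hw.le (x - l n)
      have p2 := KK_nonneg hH hw.le (x - l' n)
      have e1 := hE (x - l n + w)
      have e2 := hE (x - l' n + w)
      have q1 : Real.exp (a * (x - l n + w)) = Real.exp (a * (x + w)) * Real.exp (-a * l n) := by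
        rw [← Real.exp_add]; congr 1; ring
      have q2 : Real.exp (a * (x - l' n + w)) = Real.exp (a * (x + w)) * Real.exp (-a * l' n) := by
        rw [← Real.exp_add]; congr 1; ring
      rw [q1] at e1
      rw [q2] at e2
      have h3 : PT l l' a k0 n = Real.exp (-a * l n) + Real.exp (-a * l' n) := by
        unfold PT; rw [if_pos hn]
      have h4 : |KK H w (x - l n) - KK H w (x - l' n)| ≤
          KK H w (x - l n) + KK H w (x - l' n) := by
        rw [abs_le]; constructor <;> linarith
      have h5 : 0 ≤ A / WW b B (l k) * (κ n + u n) :=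
        mul_nonneg (div_nonneg hA hWk.le) (add_nonneg (hκ0 n) (hu0 n))
      have h6 : KK H w (x - l n) + KK H w (x - l' n) ≤ e * PT l l' a k0 n := by
        rw [h3, he]
        have g1 : 2 * w * H (x - l n + w) ≤
            2 * w * (Ca * (Real.exp (a * (x + w)) * Real.exp (-a * l n))) :=
          mul_le_mul_of_nonneg_left e1 (by positivity)
        have g2 : 2 * w * H (x - l' n + w) ≤
            2 * w * (Ca * (Real.exp (a * (x + w)) * Real.exp (-a * l' n))) :=
          mul_le_mul_of_nonneg_left e2 (by positivity)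
        calc _ ≤ 2 * w * (Ca * (Real.exp (a * (x + w)) * Real.exp (-a * l n))) +
            2 * w * (Ca * (Real.exp (a * (x + w)) * Real.exp (-a * l' n))) := by linarith
          _ = _ := by ring
      linarith
  have hs := sum_dom hK hbs k hup
  have hPk : PT l l' a k0 k = 0 := by
    unfold PT; rw [if_neg (not_lt.2 hk)]
  have huk : u k = 0 := by
    simp only [hu]
    rw [sub_self, max_self, mul_zero, Real.exp_zero, sub_self, zero_mul]
  have hκk : 7 * w / 4 ≤ κ k := by
    simp only [hκ]
    have e5 : x + w + c - l k = x0 + w + c := by rw [hx]; ring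
    have e6 : x - w - c - l k = x0 - w - c := by rw [hx]; ring
    rw [e5, e6]
    have m1 := hH.mono (show x0 + w ≤ x0 + w + c by linarith)
    have m2 := hH.mono (show x0 - w - c ≤ x0 - w by linarith)
    have := hd.dens
    linarith
  rw [hPk, huk, mul_zero, add_zero, add_zero] at hs
  have hlow := KK_lower hH (w := w) (c := c) (y := x - l k) hw.le (e := l' k - l k) (hk0 k hk)
  have e1 : x - l k - (l' k - l k) = x - l' k := by ring
  rw [e1] at hlow
  have e4 : x - l k = x0 := by rw [hx]; ring
  rw [e4] at hlow hs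
  have h3 : |l' k - l k| * (27 * w / 16) ≤ A / WW b B (l k) * (7 * w / 16) + e * SP := by
    have p1 : |l' k - l k| * (27 * w / 16) ≤ |l' k - l k| * (H (x0 + w) - H (x0 - w) - c) :=
      mul_le_mul_of_nonneg_left (by have := hd.dens; linarith) (abs_nonneg _)
    have p2 : A / WW b B (l k) * (2 * (w + c) + U) - A / WW b B (l k) * κ k ≤
        A / WW b B (l k) * (7 * w / 16) := by
      rw [← mul_sub]
      exact mul_le_mul_of_nonneg_left (by linarith) (div_nonneg hA hWk.le)
    linarith
  have h4 : |l' k - l k| * WW b B (l k) * (27 * w / 16) ≤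
      A * (7 * w / 16) + e * SP * WW b B (l k) := by
    have := mul_le_mul_of_nonneg_right h3 hWk.le
    have e7 : (A / WW b B (l k) * (7 * w / 16) + e * SP) * WW b B (l k) =
        A * (7 * w / 16) + e * SP * WW b B (l k) := by
      field_simp
    rw [e7] at this
    linarith
  have h5 : e * SP * WW b B (l k) ≤ C3 * Real.exp ((a - b) * l k0) := by
    have h6 : WW b B (l k) ≤ Real.exp (-b * l k) := min_le_left _ _
    have h7 : e * SP = C3 * Real.exp (a * l k) := by
      rw [he, hC3, hx]
      have : Real.exp (a * (x0 + l k + w)) = Real.exp (a * (x0 + w)) * Real.exp (a * l k) := by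
        rw [← Real.exp_add]; congr 1; ring
      rw [this]; ring
    rw [h7]
    calc C3 * Real.exp (a * l k) * WW b B (l k)
        ≤ C3 * Real.exp (a * l k) * Real.exp (-b * l k) :=
          mul_le_mul_of_nonneg_left h6 (by positivity)
      _ = C3 * Real.exp ((a - b) * l k) := by
          rw [mul_assoc, ← Real.exp_add]; congr 2; ring
      _ ≤ C3 * Real.exp ((a - b) * l k0) := by
          apply mul_le_mul_of_nonneg_left _ hC30
          apply Real.exp_le_exp.2
          have := (h.mono hr).monotone hk
          exact mul_le_mul_of_nonneg_left this (by linarith)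
  have h8 : |l' k - l k| * WW b B (l k) ≤ (A * (7 * w / 16) + C3 * Real.exp ((a - b) * l k0)) /
      (27 * w / 16) := by
    rw [le_div_iff₀ (by positivity)]
    linarith
  refine h8.trans ?_
  rw [add_div, hC4]
  have h9 : A * (7 * w / 16) / (27 * w / 16) ≤ A / 2 := by
    rw [div_le_iff₀ (by positivity)]
    nlinarith
  linarith

/-- exponential decay of the differences -/
lemma exp_decay (hr : 0 < r) (hH : Prim H m) {x0 w : ℝ} (hd : Dens H x0 w)
    {a Ca : ℝ} (ha : 0 < a) (hE : ∀ y, H y ≤ Ca * Real.exp (a * y))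
    (h : TS H r R l) (h' : TS H r R l')
    (hfl : ∀ x, HasSum (fun n : ℤ => H (x - l n) - H (x - l' n)) 0)
    {k0 : ℤ} (hk0 : ∀ n ≤ k0, |l' n - l n| ≤ w / 16) :
    ∃ b C : ℝ, 0 < b ∧ b ≤ a / 4 ∧ 0 ≤ C ∧ ∀ n ≤ k0, |l' n - l n| ≤ C * Real.exp (b * l n) := by
  obtain ⟨b, C4, hb, hba, hC4, key⟩ := contract_exp hr hH hd ha hE h h' hfl hk0
  have hw := hd.wpos
  refine ⟨b, 2 * C4, hb, hba, by positivity, fun k hk => ?_⟩
  set B := Real.exp (-b * l k) with hB
  have hB0 : 0 < B := Real.exp_pos _
  have hit : ∀ j : ℕ, ∀ n ≤ k0, |l' n - l n| * WW b B (l n) ≤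
      2 * C4 + (w / 16 * B) * (1/2) ^ j := by
    intro j
    induction j with
    | zero =>
      intro n hn
      have h1 : |l' n - l n| * WW b B (l n) ≤ w / 16 * B :=
        mul_le_mul (hk0 n hn) (min_le_right _ _) (WW_pos hB0).le (by positivity)
      simp only [pow_zero, mul_one]
      linarith
    | succ j ih =>
      intro n hn
      have := key B hB0 _ (by positivity) ih n hn
      refine this.trans (le_of_eq ?_)
      rw [pow_succ]
      ring
  have ht : Tendsto (fun j : ℕ => 2 * C4 + (w / 16 * B) * (1/2 : ℝ) ^ j) atTop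
      (𝓝 (2 * C4 + (w / 16 * B) * 0)) :=
    tendsto_const_nhds.add
      ((tendsto_pow_atTop_nhds_zero_of_lt_one (by norm_num) (by norm_num)).const_mul _)
  have h1 := ge_of_tendsto' ht (fun j => hit j k hk)
  have h2 : WW b B (l k) = B := by unfold WW; rw [← hB, min_self]
  rw [h2, mul_zero, add_zero] at h1
  have h3 : Real.exp (b * l k) * B = 1 := by
    rw [hB, ← Real.exp_add]; simp
  calc |l' k - l k| = |l' k - l k| * (Real.exp (b * l k) * B) := by rw [h3, mul_one]
    _ = |l' k - l k| * B * Real.exp (b * l k) := by ring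
    _ ≤ 2 * C4 * Real.exp (b * l k) := mul_le_mul_of_nonneg_right h1 (Real.exp_pos _).le

end Helper575.NP
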