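import Pool.Agent.Helper575.NP7

open MeasureTheory Set Filter Topology

namespace Helper575.NP

variable {H : ℝ → ℝ} {m r R : ℝ} {l l' : ℤ → ℝ}

lemma integrable_Hexp (hH : Prim H m) {a Ca : ℝ}
    (hE : ∀ y, H y ≤ Ca * Real.exp (a * y)) {s : ℝ} (hs : 0 < s) (hsa : s < a) :
    Integrable (fun x => H x * Real.exp (-s * x)) := by
  have hc : Continuous (fun x => H x * Real.exp (-s * x)) := by
    have := hH.cont
    fun_prop
  rw [← integrableOn_univ, ← Iic_union_Ioi (a := (0:ℝ))]
  refine IntegrableOn.union ?_ ?_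
  · have h1 : IntegrableOn (fun x : ℝ => Ca * Real.exp ((a - s) * x)) (Iic 0) :=
      (integrableOn_exp_mul_Iic (by linarith) 0).const_mul Ca
    refine Integrable.mono' h1 hc.aestronglyMeasurable (Eventually.of_forall fun x => ?_)
    rw [Real.norm_eq_abs, abs_of_nonneg (mul_nonneg (hH.nonneg x) (Real.exp_pos _).le)]
    calc H x * Real.exp (-s * x) ≤ Ca * Real.exp (a * x) * Real.exp (-s * x) :=
          mul_le_mul_of_nonneg_right (hE x) (Real.exp_pos _).le
      _ = Ca * Real.exp ((a - s) * x) := by
          rw [mul_assoc, ← Real.exp_add]; congr 2; ring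
  · have h1 : IntegrableOn (fun x : ℝ => m * Real.exp (-s * x)) (Ioi 0) :=
      (integrableOn_exp_mul_Ioi (by linarith) 0).const_mul m
    refine Integrable.mono' h1 hc.aestronglyMeasurable (Eventually.of_forall fun x => ?_)
    rw [Real.norm_eq_abs, abs_of_nonneg (mul_nonneg (hH.nonneg x) (Real.exp_pos _).le)]
    exact mul_le_mul_of_nonneg_right (hH.le_m x) (Real.exp_pos _).le

lemma Lp_pos (hH : Prim H m) {x0 w : ℝ} (hd : Dens H x0 w) {a Ca : ℝ}
    (hE : ∀ y, H y ≤ Ca * Real.exp (a * y)) {s : ℝ} (hs : 0 < s) (hsa : s < a) :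
    0 < ∫ x, H x * Real.exp (-s * x) := by
  have hnn : 0 ≤ fun x => H x * Real.exp (-s * x) := fun x =>
    mul_nonneg (hH.nonneg x) (Real.exp_pos _).le
  refine lt_of_le_of_ne (integral_nonneg hnn) (fun h0 => ?_)
  have h1 := (integral_eq_zero_iff_of_nonneg hnn (integrable_Hexp hH hE hs hsa)).1 h0.symm
  have hc : Continuous (fun x => H x * Real.exp (-s * x)) := by
    have := hH.cont
    fun_prop
  have h2 := (Continuous.ae_eq_iff_eq volume hc continuous_zero).1 h1
  have h3 := congrFun h2 (x0 + w)
  simp only [Pi.zero_apply, mul_eq_zero, Real.exp_ne_zero, or_false] at h3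
  have := hd.dens
  have := hH.nonneg (x0 - w)
  have := hd.wpos
  linarith

lemma integral_shift (H : ℝ → ℝ) (s t : ℝ) :
    ∫ x, H (x - t) * Real.exp (-s * x) = Real.exp (-s * t) * ∫ x, H x * Real.exp (-s * x) := by
  rw [← integral_const_mul]
  rw [← integral_sub_right_eq_self (fun x => Real.exp (-s * t) * (H x * Real.exp (-s * x))) t]
  congr 1
  funext x
  have : Real.exp (-s * x) = Real.exp (-s * t) * Real.exp (-s * (x - t)) := by
    rw [← Real.exp_add]; congr 1; ring
  rw [this]
  ring

lemma integrable_shift (hH : Prim H m) {a Ca : ℝ}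
    (hE : ∀ y, H y ≤ Ca * Real.exp (a * y)) {s : ℝ} (hs : 0 < s) (hsa : s < a) (t : ℝ) :
    Integrable (fun x => H (x - t) * Real.exp (-s * x)) := by
  have h1 := ((integrable_Hexp hH hE hs hsa).comp_sub_right t).const_mul (Real.exp (-s * t))
  refine h1.congr (Eventually.of_forall fun x => ?_)
  have : Real.exp (-s * x) = Real.exp (-s * t) * Real.exp (-s * (x - t)) := by
    rw [← Real.exp_add]; congr 1; ring
  simp only
  rw [this]
  ring

lemma integral_diff (hH : Prim H m) {a Ca : ℝ}
    (hE : ∀ y, H y ≤ Ca * Real.exp (a * y)) {s : ℝ} (hs : 0 < s) (hsa : s < a) (t t' : ℝ) :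
    ∫ x, (H (x - t) - H (x - t')) * Real.exp (-s * x) =
      (Real.exp (-s * t) - Real.exp (-s * t')) * ∫ x, H x * Real.exp (-s * x) := by
  rw [sub_mul, ← integral_shift, ← integral_shift, ← integral_sub]
  · congr 1
    funext x
    ring
  · exact integrable_shift hH hE hs hsa t
  · exact integrable_shift hH hE hs hsa t'

lemma integral_abs_diff (hH : Prim H m) {a Ca : ℝ}
    (hE : ∀ y, H y ≤ Ca * Real.exp (a * y)) {s : ℝ} (hs : 0 < s) (hsa : s < a) (t t' : ℝ) :
    ∫ x, ‖(H (x - t) - H (x - t')) * Real.exp (-s * x)‖ =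
      |Real.exp (-s * t) - Real.exp (-s * t')| * ∫ x, H x * Real.exp (-s * x) := by
  rcases le_total t t' with htt | htt
  · have h1 : ∀ x, ‖(H (x - t) - H (x - t')) * Real.exp (-s * x)‖ =
        (H (x - t) - H (x - t')) * Real.exp (-s * x) := by
      intro x
      rw [Real.norm_eq_abs, abs_of_nonneg]
      exact mul_nonneg (sub_nonneg.2 (hH.mono (by linarith))) (Real.exp_pos _).le
    simp only [h1]
    rw [integral_diff hH hE hs hsa, abs_of_nonneg]
    have : Real.exp (-s * t') ≤ Real.exp (-s * t) := Real.exp_le_exp.2 (by nlinarith)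
    linarith
  · have h1 : ∀ x, ‖(H (x - t) - H (x - t')) * Real.exp (-s * x)‖ =
        (H (x - t') - H (x - t)) * Real.exp (-s * x) := by
      intro x
      rw [Real.norm_eq_abs, abs_of_nonpos]
      · ring
      · exact mul_nonpos_of_nonpos_of_nonneg (sub_nonpos.2 (hH.mono (by linarith)))
          (Real.exp_pos _).le
    simp only [h1]
    rw [integral_diff hH hE hs hsa, abs_of_nonpos]
    · ring
    have : Real.exp (-s * t) ≤ Real.exp (-s * t') := Real.exp_le_exp.2 (by nlinarith)
    linarith

lemma exp_diff_le {s t t' : ℝ} (hs : 0 ≤ s) :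
    |Real.exp (-s * t) - Real.exp (-s * t')| ≤
      Real.exp (-s * t) * (s * |t' - t|) * Real.exp (s * |t' - t|) := by
  have key : ∀ v : ℝ, |1 - Real.exp (-v)| ≤ |v| * Real.exp |v| := by
    intro v
    have h1 := Real.add_one_le_exp (-v)
    have h2 := Real.add_one_le_exp v
    have h3 := Real.exp_pos (-v)
    have h4 : Real.exp v * Real.exp (-v) = 1 := by rw [← Real.exp_add]; simp
    rcases le_total 0 v with hv | hv
    · rw [abs_of_nonneg hv, abs_of_nonneg]
      · have h5 : (1:ℝ) ≤ Real.exp v := Real.one_le_exp hv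
        nlinarith
      · have : Real.exp (-v) ≤ 1 := Real.exp_le_one_iff.2 (by linarith)
        linarith
    · rw [abs_of_nonpos hv, abs_of_nonpos]
      · nlinarith
      · have : (1:ℝ) ≤ Real.exp (-v) := Real.one_le_exp (by linarith)
        linarith
  have h1 : Real.exp (-s * t) - Real.exp (-s * t') =
      Real.exp (-s * t) * (1 - Real.exp (-(s * (t' - t)))) := by
    rw [mul_sub, mul_one, ← Real.exp_add]
    congr 2
    ring
  have h2 : |s * (t' - t)| = s * |t' - t| := by rw [abs_mul, abs_of_nonneg hs]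
  rw [h1, abs_mul, abs_of_pos (Real.exp_pos _), mul_assoc]
  apply mul_le_mul_of_nonneg_left _ (Real.exp_pos _).le
  have := key (s * (t' - t))
  rwa [h2] at this

/-- **Theorem B (abstract)**: an exponentially small left tail excludes left-asymptotic pairs. -/
theorem nla_of_exp (hr : 0 < r) (hH : Prim H m) {x0 w : ℝ} (hd : Dens H x0 w)
    {a Ca : ℝ} (ha : 0 < a) (hE : ∀ y, H y ≤ Ca * Real.exp (a * y)) : NLA H r R := by
  intro l l' h h' hε
  have hw := hd.wpos
  have hfl : ∀ x, HasSum (fun n : ℤ => H (x - l n) - H (x - l' n)) 0 :=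
    fun x => flux_zero hr hH ha hE h h' hε x
  obtain ⟨k0, hk0⟩ := exists_close hε (show 0 < w / 16 by positivity)
  obtain ⟨b, C, hb, hba, hC, hdec⟩ := exp_decay hr hH hd ha hE h h' hfl hk0
  refine lap_uniq (h.mono hr) (h'.mono hr) hb ?_
  intro s hs
  have hs0 := hs.1
  have hsb := hs.2
  have hsa : s < a := by linarith
  have hL := Lp_pos hH hd hE hs0 hsa
  set Lp := ∫ x, H x * Real.exp (-s * x) with hLp
  -- summability
  have hsum : Summable (fun n : ℤ => |Real.exp (-s * l n) - Real.exp (-s * l' n)|) := by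
    obtain ⟨C1, hC1, hexp⟩ := h.exp_left hr (show 0 < b - s by linarith) k0
    have hP := summable_PT hr h h' hs0 k0
    have hg := summable_exp_neg_abs (b := (b - s) * r) (mul_pos (by linarith) hr)
    set C2 := s * C * Real.exp (s * (w / 16)) with hC2
    have hC20 : 0 ≤ C2 := by positivity
    refine Summable.of_nonneg_of_le (fun n => abs_nonneg _) (fun n => ?_)
      ((hg.mul_left (C2 * C1)).add hP)
    rcases le_or_gt n k0 with hn | hn
    · have h1 := exp_diff_le (s := s) (t := l n) (t' := l' n) hs0.le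
      have h2 : PT l l' s k0 n = 0 := by unfold PT; rw [if_neg (not_lt.2 hn)]
      rw [h2, add_zero]
      refine h1.trans ?_
      have h3 := hdec n hn
      have h4 : Real.exp (s * |l' n - l n|) ≤ Real.exp (s * (w / 16)) :=
        Real.exp_le_exp.2 (mul_le_mul_of_nonneg_left (hk0 n hn) hs0.le)
      calc Real.exp (-s * l n) * (s * |l' n - l n|) * Real.exp (s * |l' n - l n|)
          ≤ Real.exp (-s * l n) * (s * (C * Real.exp (b * l n))) * Real.exp (s * (w / 16)) := by
            apply mul_le_mul _ h4 (Real.exp_pos _).le (by positivity)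
            apply mul_le_mul_of_nonneg_left _ (Real.exp_pos _).le
            exact mul_le_mul_of_nonneg_left h3 hs0.le
        _ = C2 * (Real.exp (-s * l n) * Real.exp (b * l n)) := by rw [hC2]; ring
        _ = C2 * Real.exp ((b - s) * l n) := by
            rw [← Real.exp_add]; congr 2; ring
        _ ≤ C2 * (C1 * Real.exp (-((b - s) * r) * |(n:ℝ)|)) :=
            mul_le_mul_of_nonneg_left (hexp n hn) hC20
        _ = _ := by ring
    · have h2 : PT l l' s k0 n = Real.exp (-s * l n) + Real.exp (-s * l' n) := by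
        unfold PT; rw [if_pos hn]
      rw [h2]
      have h3 : 0 ≤ C2 * C1 * Real.exp (-((b - s) * r) * |(n:ℝ)|) := by positivity
      have p1 := Real.exp_pos (-s * l n)
      have p2 := Real.exp_pos (-s * l' n)
      have h4 : |Real.exp (-s * l n) - Real.exp (-s * l' n)| ≤
          Real.exp (-s * l n) + Real.exp (-s * l' n) := by
        rw [abs_le]; constructor <;> linarith
      linarith
  have hint : ∀ n : ℤ, Integrable (fun x => (H (x - l n) - H (x - l' n)) * Real.exp (-s * x)) := by
    intro n
    have := (integrable_shift hH hE hs0 hsa (l n)).sub (integrable_shift hH hE hs0 hsa (l' n))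
    refine this.congr (Eventually.of_forall fun x => ?_)
    simp only [Pi.sub_apply]
    ring
  have hnorm : Summable (fun n : ℤ => ∫ x, ‖(H (x - l n) - H (x - l' n)) * Real.exp (-s * x)‖) := by
    refine (hsum.mul_right Lp).congr (fun n => ?_)
    rw [integral_abs_diff hH hE hs0 hsa]
  have hS := hasSum_integral_of_summable_integral_norm hint hnorm
  have hz : ∀ x, ∑' n : ℤ, (H (x - l n) - H (x - l' n)) * Real.exp (-s * x) = 0 := by
    intro x
    have := (hfl x).mul_right (Real.exp (-s * x))
    rw [zero_mul] at this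
    exact this.tsum_eq
  simp only [hz, integral_zero] at hS
  have hS2 : HasSum (fun n : ℤ => (Real.exp (-s * l n) - Real.exp (-s * l' n)) * Lp) 0 := by
    have e : (fun n : ℤ => (Real.exp (-s * l n) - Real.exp (-s * l' n)) * Lp) =
        fun n : ℤ => ∫ x, (H (x - l n) - H (x - l' n)) * Real.exp (-s * x) := by
      funext n
      rw [integral_diff hH hE hs0 hsa]
    rw [e]
    exact hS
  have := hS2.div_const Lp
  simpa [mul_div_cancel_right₀ _ hL.ne'] using this

end Helper575.NP
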