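import Mathlib

open MeasureTheory Set Filter Topology SchwartzMap FourierTransform
open scoped ContDiff

namespace Helper575.NP

/-- bump as a Schwartz function -/
noncomputable def bumpS (f : ContDiffBump (0:ℝ)) : 𝓢(ℝ, ℂ) :=
  HasCompactSupport.toSchwartzMap (f := fun x : ℝ => ((f x : ℝ) : ℂ))
    (by
      have := f.hasCompactSupport.comp_left (g := fun y : ℝ => (y : ℂ)) (by simp)
      exact this)
    (Complex.ofRealCLM.contDiff.comp f.contDiff)

lemma bumpS_apply (f : ContDiffBump (0:ℝ)) (x : ℝ) : bumpS f x = ((f x : ℝ) : ℂ) := rfl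

noncomputable def bumpA : ContDiffBump (0:ℝ) := ⟨2, 3, by norm_num, by norm_num⟩
noncomputable def bumpB : ContDiffBump (0:ℝ) := ⟨1/2, 1, by norm_num, by norm_num⟩

lemma bump_mul (x : ℝ) : bumpS bumpA x * bumpS bumpB x = bumpS bumpB x := by
  rw [bumpS_apply, bumpS_apply]
  by_cases hx : x ∈ Metric.closedBall (0:ℝ) 2
  · rw [bumpA.one_of_mem_closedBall hx]
    simp
  · have : bumpB x = 0 := by
      apply bumpB.zero_of_le_dist
      simp only [Metric.mem_closedBall, not_le] at hx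
      have : bumpB.rOut = 1 := rfl
      linarith
    rw [this]
    simp

noncomputable def VS : 𝓢(ℝ, ℂ) := 𝓕⁻ (bumpS bumpA)
noncomputable def psS : 𝓢(ℝ, ℂ) := 𝓕⁻ (bumpS bumpB)

lemma fourier_VS : 𝓕 VS = bumpS bumpA := FourierInvPair.fourier_fourierInv_eq _
lemma fourier_psS : 𝓕 psS = bumpS bumpB := FourierInvPair.fourier_fourierInv_eq _

lemma conv_eq : SchwartzMap.convolution (ContinuousLinearMap.mul ℂ ℂ) VS psS = psS := by
  have h : 𝓕 (SchwartzMap.convolution (ContinuousLinearMap.mul ℂ ℂ) VS psS) = 𝓕 psS := by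
    rw [fourier_convolution, fourier_VS, fourier_psS]
    ext x
    rw [pairing_apply_apply, ContinuousLinearMap.mul_apply']
    exact bump_mul x
  have h2 := congrArg (fun g : 𝓢(ℝ, ℂ) => 𝓕⁻ g) h
  simpa using h2

lemma conv_apply' (x : ℝ) : ∫ t, VS t * psS (x - t) = psS x := by
  have h := congrArg (fun g : 𝓢(ℝ, ℂ) => g x) conv_eq
  rw [convolution_apply] at h
  simpa [MeasureTheory.convolution] using h

lemma integral_eq_fourier (f : 𝓢(ℝ, ℂ)) : ∫ x, f x = (𝓕 f) 0 := by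
  have : (𝓕 f) 0 = 𝓕 (f : ℝ → ℂ) 0 := by rw [fourier_coe]
  rw [this, Real.fourier_real_eq]
  simp

lemma integral_VS : ∫ x, VS x = 1 := by
  rw [integral_eq_fourier, fourier_VS, bumpS_apply, bumpA.one_of_mem_closedBall]
  · simp
  · simp [bumpA]

lemma integral_psS : ∫ x, psS x = 1 := by
  rw [integral_eq_fourier, fourier_psS, bumpS_apply, bumpB.one_of_mem_closedBall]
  · simp
  · simp [bumpB]

lemma decay3 (f : 𝓢(ℝ, ℂ)) (n : ℕ) : ∃ C : ℝ, 0 < C ∧ ∀ x : ℝ,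
    ‖iteratedFDeriv ℝ n f x‖ ≤ C / (1 + |x|) ^ 3 := by
  obtain ⟨C0, h0, hb0⟩ := f.decay 0 n
  obtain ⟨C3, h3, hb3⟩ := f.decay 3 n
  refine ⟨8 * (C0 + C3), by positivity, fun x => ?_⟩
  have e0 := hb0 x
  have e3 := hb3 x
  rw [pow_zero, one_mul] at e0
  rw [le_div_iff₀ (by positivity)]
  rw [Real.norm_eq_abs] at e3
  have hN := norm_nonneg (iteratedFDeriv ℝ n f x)
  set N := ‖iteratedFDeriv ℝ n f x‖
  have hx := abs_nonneg x
  have key : (1 + |x|) ^ 3 ≤ 8 * (1 + |x| ^ 3) := by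
    rcases le_total |x| 1 with h | h
    · have : (1 + |x|) ^ 3 ≤ 2 ^ 3 := pow_le_pow_left₀ (by positivity) (by linarith) 3
      have : 0 ≤ |x| ^ 3 := by positivity
      linarith
    · have : (1 + |x|) ^ 3 ≤ (2 * |x|) ^ 3 := pow_le_pow_left₀ (by positivity) (by linarith) 3
      rw [mul_pow] at this
      linarith
  calc N * (1 + |x|) ^ 3 ≤ N * (8 * (1 + |x| ^ 3)) := mul_le_mul_of_nonneg_left key hN
    _ = 8 * (N + |x| ^ 3 * N) := by ring
    _ ≤ 8 * (C0 + C3) := by linarith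

lemma decay_val (f : 𝓢(ℝ, ℂ)) : ∃ C : ℝ, 0 < C ∧ ∀ x : ℝ, ‖f x‖ ≤ C / (1 + |x|) ^ 3 := by
  obtain ⟨C, hC, h⟩ := decay3 f 0
  refine ⟨C, hC, fun x => ?_⟩
  have := h x
  rwa [norm_iteratedFDeriv_zero] at this

lemma decay_deriv (f : 𝓢(ℝ, ℂ)) : ∃ C : ℝ, 0 < C ∧ ∀ x : ℝ,
    ‖deriv f x‖ ≤ C / (1 + |x|) ^ 3 := by
  obtain ⟨C, hC, h⟩ := decay3 f 1
  refine ⟨C, hC, fun x => ?_⟩
  have := h x
  rw [norm_iteratedFDeriv_one] at this
  rwa [norm_deriv_eq_norm_fderiv]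

lemma decay_diff (f : 𝓢(ℝ, ℂ)) : ∃ C : ℝ, 0 < C ∧ ∀ x y : ℝ, |y| ≤ 1 →
    ‖f x - f (x - y)‖ ≤ C * |y| / (1 + |x|) ^ 3 := by
  obtain ⟨C, hC, h⟩ := decay_deriv f
  refine ⟨8 * C, by positivity, fun x y hy => ?_⟩
  have hb : ∀ t ∈ Icc (x - |y|) (x + |y|), ‖deriv f t‖ ≤ 8 * C / (1 + |x|) ^ 3 := by
    intro t ht
    refine (h t).trans ?_
    have h1 : |x| ≤ |t| + 1 := by
      have : |x - t| ≤ 1 := by
        rw [abs_le]; constructor <;> linarith [ht.1, ht.2]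
      have := abs_sub_abs_le_abs_sub x t
      linarith
    have h2 : (1 + |x|) ^ 3 ≤ 8 * (1 + |t|) ^ 3 := by
      have : (1 + |x|) ^ 3 ≤ (2 * (1 + |t|)) ^ 3 :=
        pow_le_pow_left₀ (by positivity) (by have := abs_nonneg t; linarith) 3
      rw [mul_pow] at this
      linarith
    rw [div_le_div_iff₀ (by positivity) (by positivity)]
    nlinarith
  have := (convex_Icc (x - |y|) (x + |y|)).norm_image_sub_le_of_norm_deriv_le
    (f := f) (fun t _ => f.differentiableAt) hb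
    (x := x - y) (y := x)
    ⟨by have := le_abs_self y; linarith, by have := neg_abs_le y; linarith⟩
    ⟨by have := abs_nonneg y; linarith, by have := abs_nonneg y; linarith⟩
  refine this.trans (le_of_eq ?_)
  rw [show x - (x - y) = y by ring, Real.norm_eq_abs]
  ring

end Helper575.NP
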